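import Pool.Agent.H73.PQA

open scoped Manifold ContDiff Topology
open Set Bundle Bornology

noncomputable section

namespace Pool.Agent.H73

/-- polarization for similarities -/
lemma inner_similarity {E : Type*} [NormedAddCommGroup E] [InnerProductSpace ℝ E]
    (L : E →L[ℝ] E) (κ : ℝ) (hL : ∀ v, ‖L v‖ = κ * ‖v‖) (v w : E) :
    inner ℝ (L v) (L w) = κ ^ 2 * inner ℝ v w := by
  have h1 := real_inner_eq_norm_add_mul_self_sub_norm_mul_self_sub_norm_mul_self_div_two (L v) (L w)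
  have h2 := real_inner_eq_norm_add_mul_self_sub_norm_mul_self_sub_norm_mul_self_div_two v w
  rw [h1, h2, ← map_add, hL, hL, hL]
  ring

lemma contDiffAt_smul_const_aux {E F : Type} [NormedAddCommGroup E] [NormedSpace ℝ E]
    [NormedAddCommGroup F] [NormedSpace ℝ F] (A : F) (f : E → ℝ) (x : E)
    (h4 : ContDiffAt ℝ ∞ f x) : ContDiffAt ℝ ∞ (fun z : E => f z • A) x :=
  h4.smul contDiffAt_const

namespace PQ

variable {E : Type} [NormedAddCommGroup E] [InnerProductSpace ℝ E]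
variable {Y : Type} [TopologicalSpace Y] [PQ E Y]

/-- the derivative of the projection is a similarity mapping the position vector to the position
vector -/
lemma hasMFDerivAt_pr {u : E} (hu : u ≠ 0) : ∃ (L : E →L[ℝ] E) (κ : ℝ), 0 < κ ∧
    (∀ v, ‖L v‖ = κ * ‖v‖) ∧ L u = co (pr E Y u) ∧
    HasMFDerivAt 𝓘(ℝ, E) 𝓘(ℝ, E) (pr E Y) u L := by
  obtain ⟨L, κ, hκ, hL, hl⟩ := chart_pr (chart_mem_atlas E (pr E Y u)) hu
    (mem_chart_source E (pr E Y u))
  refine ⟨L, κ, hκ, hL, ?_, continuousAt_pr hu, ?_⟩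
  · exact (hl.self_of_nhds).2.symm
  have key : writtenInExtChartAt 𝓘(ℝ, E) 𝓘(ℝ, E) u (pr E Y) =ᶠ[𝓝 u] L := by
    filter_upwards [hl] with y hy
    simp only [writtenInExtChartAt, extChartAt, mfld_simps]
    exact hy.2
  have h1 : HasFDerivAt L L u := L.hasFDerivAt
  have h2 := h1.congr_of_eventuallyEq key
  exact h2.hasFDerivWithinAt

lemma contMDiffAt_pr {u : E} (hu : u ≠ 0) : ContMDiffAt 𝓘(ℝ, E) 𝓘(ℝ, E) ∞ (pr E Y) u := by
  rw [contMDiffAt_iff]
  refine ⟨continuousAt_pr hu, ?_⟩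
  obtain ⟨L, κ, hκ, hL, hl⟩ := chart_pr (chart_mem_atlas E (pr E Y u)) hu
    (mem_chart_source E (pr E Y u))
  have key : writtenInExtChartAt 𝓘(ℝ, E) 𝓘(ℝ, E) u (pr E Y) =ᶠ[𝓝 u] L := by
    filter_upwards [hl] with y hy
    simp only [writtenInExtChartAt, extChartAt, mfld_simps]
    exact hy.2
  have h2 : ContDiffAt ℝ ∞ (writtenInExtChartAt 𝓘(ℝ, E) 𝓘(ℝ, E) u (pr E Y)) u := by
    refine ContDiffAt.congr_of_eventuallyEq ?_ key
    exact L.contDiff.contDiffAt
  exact h2.contDiffWithinAt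

lemma baseSet_eq (q0 : Y) : (trivializationAt E (TangentSpace 𝓘(ℝ, E) (M := Y)) q0).baseSet =
    (chartAt E q0).source := by
  simp

/-- the inverse trivialisation of the tangent bundle is the derivative of the projection -/
lemma symm_triv {q0 q : Y} (hq : q ∈ (chartAt E q0).source) : ∃ (L : E →L[ℝ] E) (κ : ℝ), 0 < κ ∧
    (∀ v, ‖L v‖ = κ * ‖v‖) ∧ L (chartAt E q0 q) = co q ∧
    ∀ v : E, (trivializationAt E (TangentSpace 𝓘(ℝ, E) (M := Y)) q0).symm q v = L v := by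
  have hqt := (chartAt E q0).map_source hq
  obtain ⟨h0, h1⟩ := pr_chart (chart_mem_atlas E q0) hq
  obtain ⟨L, κ, hκ, hL, hLu, hd⟩ := hasMFDerivAt_pr (Y := Y) h0
  rw [h1] at hLu
  refine ⟨L, κ, hκ, hL, hLu, ?_⟩
  intro v
  have h2 := TangentBundle.symmL_trivializationAt (I := 𝓘(ℝ, E)) (𝕜 := ℝ) (x₀ := q0) hq
  have h3 : (trivializationAt E (TangentSpace 𝓘(ℝ, E) (M := Y)) q0).symm q v =
      (trivializationAt E (TangentSpace 𝓘(ℝ, E) (M := Y)) q0).symmL ℝ q v := by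
    rw [Trivialization.symmL_apply _ (by simpa using hq)]
  rw [h3, h2]
  have h4 : range (𝓘(ℝ, E) : E → E) = univ := by simp
  rw [h4, mfderivWithin_univ]
  have h5 : ((extChartAt 𝓘(ℝ, E) q0).symm : E → Y) =ᶠ[𝓝 (extChartAt 𝓘(ℝ, E) q0 q)] pr E Y := by
    have : extChartAt 𝓘(ℝ, E) q0 q = chartAt E q0 q := by simp [extChartAt]
    rw [this]
    filter_upwards [(chartAt E q0).open_target.mem_nhds hqt] with z hz
    have := (atlas_prop (chart_mem_atlas E q0) hz).2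
    simpa [extChartAt] using this
  rw [h5.mfderiv_eq]
  have h6 : extChartAt 𝓘(ℝ, E) q0 q = chartAt E q0 q := by simp [extChartAt]
  have h7 : mfderiv 𝓘(ℝ, E) 𝓘(ℝ, E) (pr E Y) (chartAt E q0 q) = L := hd.mfderiv
  rw [h6]
  exact congrArg (fun A : E →L[ℝ] E => A v) h7

variable (E) in
/-- the inner product as a continuous bilinear map -/
def ip : E →L[ℝ] E →L[ℝ] ℝ := innerSL ℝ

lemma ip_apply (v w : E) : ip E v w = inner ℝ v w := rfl

/-- the bilinear form of the metric at a point -/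
def form (q : Y) : E →L[ℝ] E →L[ℝ] ℝ := (‖(co q : E)‖ ^ 2)⁻¹ • ip E

lemma form_apply (q : Y) (v w : E) : form q v w = (‖(co q : E)‖ ^ 2)⁻¹ * inner ℝ v w := by
  rfl

lemma form_self (q : Y) (v : E) : form q v v = (‖(co q : E)‖ ^ 2)⁻¹ * ‖v‖ ^ 2 := by
  rw [form_apply, real_inner_self_eq_norm_sq]

lemma form_symm (q : Y) (v w : E) : form q v w = form q w v := by
  rw [form_apply, form_apply, real_inner_comm]

lemma form_pos (q : Y) (v : E) (hv : v ≠ 0) : 0 < form q v v := by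
  rw [form_self]
  have h1 : 0 < ‖(co q : E)‖ := norm_pos_iff.mpr (co_ne q)
  have h2 : 0 < ‖(v : E)‖ := norm_pos_iff.mpr hv
  positivity

lemma smooth_aux (q0 : Y) : ContMDiffAt 𝓘(ℝ, E) 𝓘(ℝ, E →L[ℝ] E →L[ℝ] ℝ) ∞
    (fun q : Y => (‖(chartAt E q0 q : E)‖ ^ 2)⁻¹ • ip E) q0 := by
  have h2 : ContMDiffAt 𝓘(ℝ, E) 𝓘(ℝ, E) ∞ (chartAt E q0) q0 :=
    contMDiffAt_extChartAt (I := 𝓘(ℝ, E)) (n := ∞) (x := q0)
  have h0 := (pr_chart (chart_mem_atlas E q0) (mem_chart_source E q0)).1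
  have h3 : ContDiffAt ℝ ∞ (fun z : E => (‖z‖ ^ 2)⁻¹ • ip E) (chartAt E q0 q0) := by
    have h4 : ContDiffAt ℝ ∞ (fun z : E => (‖z‖ ^ 2)⁻¹) (chartAt E q0 q0) := by
      apply ContDiffAt.inv
      · exact (contDiff_norm_sq ℝ).contDiffAt
      · have : 0 < ‖(chartAt E q0 q0 : E)‖ := norm_pos_iff.mpr h0
        positivity
    exact contDiffAt_smul_const_aux (ip E) _ _ h4
  exact h3.contMDiffAt.comp q0 h2

lemma form_apply_sim (q : Y) (L : E →L[ℝ] E) (κ : ℝ) (hL : ∀ v, ‖L v‖ = κ * ‖v‖) (v w : E) :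
    form q (L v) (L w) = (‖(co q : E)‖ ^ 2)⁻¹ * (κ ^ 2 * inner ℝ v w) := by
  rw [form_apply, inner_similarity L κ hL]

set_option backward.isDefEq.respectTransparency false in
/-- The Riemannian metric on the quotient. -/
def metric : ContMDiffRiemannianMetric 𝓘(ℝ, E) ∞ E
    (fun q : Y => TangentSpace 𝓘(ℝ, E) q) where
  inner q := (form q : E →L[ℝ] E →L[ℝ] ℝ)
  symm q v w := @form_symm E _ _ Y _ _ q v w
  pos q v hv := @form_pos E _ _ Y _ _ q v hv
  isVonNBounded q := by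
    change IsVonNBounded ℝ {v : E | form q v v < 1}
    have h1 : 0 < ‖(co q : E)‖ := norm_pos_iff.mpr (co_ne q)
    have : {v : E | form q v v < 1} ⊆ Metric.ball (0 : E) ‖(co q : E)‖ := by
      intro v hv
      simp only [mem_ofPred_eq] at hv
      rw [form_self] at hv
      rw [mem_ball_zero_iff]
      rw [inv_mul_lt_iff₀ (by positivity)] at hv
      nlinarith [norm_nonneg v]
    exact (NormedSpace.isVonNBounded_ball ℝ E _).subset this
  contMDiff := by
    intro q0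
    rw [contMDiffAt_section]
    have h1 := smooth_aux (E := E) q0
    refine h1.congr_of_eventuallyEq ?_
    filter_upwards [(chartAt E q0).open_source.mem_nhds (mem_chart_source E q0)] with q hq
    rw [hom_trivializationAt_apply]
    have hq' : q ∈ (trivializationAt E (TangentSpace 𝓘(ℝ, E) (M := Y)) q0).baseSet := by
      simpa using hq
    ext v w
    obtain ⟨L, κ, hκ, hL, hLu, hsymm⟩ := symm_triv hq
    change (ContinuousLinearMap.inCoordinates E (TangentSpace 𝓘(ℝ, E)) (E →L[ℝ] ℝ)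
              (fun x => TangentSpace 𝓘(ℝ, E) x →L[ℝ] ℝ) q0 q q0 q (form (E := E) q) v) w = _
    rw [inCoordinates_apply_eq₂ hq' hq' (Set.mem_univ _)]
    rw [hsymm v, hsymm w]
    simp only [Trivial.fiberBundle_trivializationAt', Trivial.linearMapAt_trivialization,
        LinearMap.id_coe, id_eq]
    have e1 : form q (L v) (L w) = (‖(co q : E)‖ ^ 2)⁻¹ * (κ ^ 2 * inner ℝ v w) :=
      form_apply_sim (E := E) q L κ hL v w
    have e2 : ((‖(chartAt E q0 q : E)‖ ^ 2)⁻¹ • ip E) v w =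
      (‖(chartAt E q0 q : E)‖ ^ 2)⁻¹ * inner ℝ v w := rfl
    rw [e2]
    refine e1.trans ?_
    rw [← hLu, hL]
    have h0 := (pr_chart (chart_mem_atlas E q0) hq).1
    have h3 : 0 < ‖(chartAt E q0 q : E)‖ := norm_pos_iff.mpr h0
    field_simp

end PQ

end Pool.Agent.H73
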