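import Pool.Agent.H73.PQG

open scoped Manifold ContDiff Topology ENNReal Quaternion
open Set Bundle Bornology MeasureTheory Manifold Filter InnerProductGeometry

noncomputable section

namespace Pool.Agent.H73

/-- the quaternions -/
abbrev HQ := Quaternion ℝ

/-- translation length -/
def tt : ℝ := 4

lemma tt_pos : 0 < tt := by norm_num [tt]

lemma pi_lt_tt : Real.pi < tt := by
  have := Real.pi_lt_d2
  unfold tt
  linarith

/-- the quaternion `i` -/
def qi : HQ := ⟨0, 1, 0, 0⟩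
/-- the quaternion `j` -/
def qj : HQ := ⟨0, 0, 1, 0⟩

lemma normSq_qi : ‖qi‖ = 1 := by
  have : ‖qi‖ * ‖qi‖ = 1 := by
    rw [← Quaternion.normSq_eq_norm_mul_self, Quaternion.normSq_def']
    simp [qi]
  nlinarith [norm_nonneg qi]

lemma normSq_qj : ‖qj‖ = 1 := by
  have : ‖qj‖ * ‖qj‖ = 1 := by
    rw [← Quaternion.normSq_eq_norm_mul_self, Quaternion.normSq_def']
    simp [qj]
  nlinarith [norm_nonneg qj]

lemma qi_ne : qi ≠ 0 := by
  rw [← norm_pos_iff, normSq_qi]; norm_num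

lemma qj_ne : qj ≠ 0 := by
  rw [← norm_pos_iff, normSq_qj]; norm_num

/-- the unit `i` -/
def ui : HQˣ := Units.mk0 qi qi_ne

/-- the generator of the deck group of `M` -/
def wq : HQˣ := Units.mk0 (Real.exp tt • qi) (smul_ne_zero (Real.exp_ne_zero _) qi_ne)

lemma norm_wq_zpow (m : ℤ) : ‖((wq ^ m : HQˣ) : HQ)‖ = Real.exp (m * tt) := by
  have h1 : ‖(wq : HQ)‖ = Real.exp tt := by
    simp only [wq, Units.val_mk0]
    rw [norm_smul, normSq_qi, mul_one, Real.norm_eq_abs, abs_of_pos (Real.exp_pos _)]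
  rw [Units.val_zpow_eq_zpow_val, norm_zpow, h1, ← Real.rpow_intCast, ← Real.exp_mul, mul_comm]

/-- the acting group -/
def Grp (A : Subgroup HQˣ) : Type := Multiplicative ℤ × A

instance (A : Subgroup HQˣ) : Group (Grp A) := inferInstanceAs (Group (Multiplicative ℤ × A))

variable (A : Subgroup HQˣ)

instance : MulAction (Grp A) HQˣ where
  smul g x := wq ^ (Multiplicative.toAdd g.1) * x * (g.2 : HQˣ)⁻¹
  one_smul x := by
    change wq ^ (0 : ℤ) * x * (1 : HQˣ)⁻¹ = x
    simp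
  mul_smul g h x := by
    change wq ^ (Multiplicative.toAdd g.1 + Multiplicative.toAdd h.1) * x * ((g.2 : HQˣ) * (h.2 : HQˣ))⁻¹
      = wq ^ (Multiplicative.toAdd g.1) * (wq ^ (Multiplicative.toAdd h.1) * x * (h.2 : HQˣ)⁻¹) *
        (g.2 : HQˣ)⁻¹
    rw [zpow_add, mul_inv_rev]
    group

lemma smul_def' (g : Grp A) (x : HQˣ) :
    g • x = wq ^ (Multiplicative.toAdd g.1) * x * (g.2 : HQˣ)⁻¹ := rfl

variable {A}

lemma norm_of_mem [Finite A] {a : HQˣ} (ha : a ∈ A) : ‖(a : HQ)‖ = 1 := by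
  have h1 : (⟨a, ha⟩ : A) ^ Nat.card A = 1 := pow_card_eq_one'
  have h2 : a ^ Nat.card A = 1 := congrArg Subtype.val h1
  have h3 : ‖(a : HQ)‖ ^ Nat.card A = 1 := by
    rw [← norm_pow, ← Units.val_pow_eq_pow_val, h2]
    simp
  exact (pow_eq_one_iff_of_nonneg (norm_nonneg _) Nat.card_pos.ne').mp h3

lemma norm_inv_of_mem [Finite A] {a : HQˣ} (ha : a ∈ A) : ‖((a⁻¹ : HQˣ) : HQ)‖ = 1 :=
  norm_of_mem (A.inv_mem ha)

lemma norm_smul' [Finite A] (g : Grp A) (x : HQˣ) :
    ‖((g • x : HQˣ) : HQ)‖ = Real.exp ((Multiplicative.toAdd g.1 : ℤ) * tt) * ‖(x : HQ)‖ := by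
  rw [smul_def', Units.val_mul, Units.val_mul, norm_mul, norm_mul, norm_wq_zpow,
    norm_inv_of_mem g.2.2, mul_one]

instance : ContinuousConstSMul (Grp A) HQˣ where
  continuous_const_smul g := by
    change Continuous fun x => wq ^ (Multiplicative.toAdd g.1) * x * (g.2 : HQˣ)⁻¹
    fun_prop

instance [Finite A] : IsCancelSMul (Grp A) HQˣ where
  right_cancel' g h x e := by
    have h1 := congrArg (fun u : HQˣ => ‖(u : HQ)‖) e
    simp only [norm_smul'] at h1
    have hx : ‖(x : HQ)‖ ≠ 0 := by simp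
    have h2 := mul_right_cancel₀ hx h1
    have h3 := Real.exp_injective h2
    have h4 : ((Multiplicative.toAdd g.1 : ℤ) : ℝ) = (Multiplicative.toAdd h.1 : ℤ) :=
      mul_right_cancel₀ tt_pos.ne' h3
    have h5 : Multiplicative.toAdd g.1 = Multiplicative.toAdd h.1 := by exact_mod_cast h4
    rw [smul_def', smul_def', h5] at e
    have h6 : (g.2 : HQˣ)⁻¹ = (h.2 : HQˣ)⁻¹ := mul_left_cancel e
    have h7 : g.2 = h.2 := Subtype.ext (inv_injective h6)
    exact Prod.ext (Multiplicative.toAdd.injective h5) h7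

lemma logn_cont : Continuous (fun x : HQˣ => Real.log ‖(x : HQ)‖) := by
  apply Continuous.log
  · exact continuous_norm.comp Units.continuous_val
  · intro x; simp

instance [Finite A] : ProperlyDiscontinuousSMul (Grp A) HQˣ where
  finite_disjoint_inter_image := by
    intro K L hK hL
    obtain ⟨C, hC⟩ := (hK.image logn_cont).isBounded.exists_norm_le
    obtain ⟨D, hD⟩ := (hL.image logn_cont).isBounded.exists_norm_le
    obtain ⟨N, hN⟩ := exists_nat_ge ((C + D) / tt)
    have hfin : Set.Finite {g : Multiplicative ℤ × A | Multiplicative.toAdd g.1 ∈ Set.Icc (-(N : ℤ)) N} := by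
      have h1 : Set.Finite ({z : Multiplicative ℤ | Multiplicative.toAdd z ∈ Set.Icc (-(N : ℤ)) N}) :=
        (Set.finite_Icc (-(N : ℤ)) N).preimage (Multiplicative.toAdd.injective.injOn)
      refine (h1.prod (Set.finite_univ (α := A))).subset ?_
      intro g hg
      exact ⟨hg, trivial⟩
    refine hfin.subset ?_
    rintro g ⟨y, ⟨x, hx, rfl⟩, hy⟩
    have h1 := hC _ ⟨x, hx, rfl⟩
    have h2 := hD _ ⟨_, hy, rfl⟩
    simp only [Real.norm_eq_abs] at h1 h2
    have h3 := norm_smul' g x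
    have hx0 : 0 < ‖(x : HQ)‖ := by simp
    rw [h3, Real.log_mul (Real.exp_ne_zero _) hx0.ne', Real.log_exp] at h2
    have h4 : |((Multiplicative.toAdd g.1 : ℤ) : ℝ) * tt| ≤ C + D := by
      have := abs_sub_abs_le_abs_sub (((Multiplicative.toAdd g.1 : ℤ) : ℝ) * tt) (-(Real.log ‖(x : HQ)‖))
      rw [sub_neg_eq_add, abs_neg] at this
      linarith
    rw [abs_mul, abs_of_pos tt_pos, ← le_div_iff₀ tt_pos] at h4
    have h5 := h4.trans hN
    rw [abs_le] at h5
    constructor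
    · exact_mod_cast h5.1
    · exact_mod_cast h5.2

end Pool.Agent.H73
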