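import Pool.Agent.H73.PQK

open scoped Manifold ContDiff Topology ENNReal Quaternion
open Set Bundle Bornology MeasureTheory Manifold Filter InnerProductGeometry

noncomputable section

namespace Pool.Agent.H73

lemma mD_ge_log (x y : HQ) : |Real.log ‖x‖ - Real.log ‖y‖| ≤ mD x y := by
  unfold mD
  apply Real.abs_le_sqrt
  have := sq_nonneg (angle x y)
  linarith

lemma inner_mul_right' (x a : HQ) : inner ℝ x (x * a) = ‖x‖ ^ 2 * a.re := by
  rw [Quaternion.inner_def, sq, ← Quaternion.normSq_eq_norm_mul_self, Quaternion.normSq_def']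
  simp only [Quaternion.re_mul, Quaternion.re_star, Quaternion.imI_star,
        Quaternion.imJ_star, Quaternion.imK_star, Quaternion.imI_mul, Quaternion.imJ_mul,
        Quaternion.imK_mul]
  ring

lemma angle_mul_right (x a : HQˣ) (ha : ‖(a : HQ)‖ = 1) :
    angle (x : HQ) ((x : HQ) * (a : HQ)) = Real.arccos (a : HQ).re := by
  unfold angle
  rw [inner_mul_right', norm_mul, ha]
  have : 0 < ‖(x : HQ)‖ := by simp
  congr 1
  field_simp

lemma redist_rmul (x a : HQˣ) (ha : ‖(a : HQ)‖ = 1) :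
    riemannianEDist 𝓘(ℝ, HQ) (mkY ⊥ x) (mkY ⊥ (x * a)) =
      ENNReal.ofReal (Real.arccos (a : HQ).re) := by
  rw [redist_mk]
  apply le_antisymm
  · refine iInf₂_le_of_le (x * a) rfl ?_
    apply ENNReal.ofReal_le_ofReal
    unfold mD
    rw [Units.val_mul, angle_mul_right x a ha, norm_mul, ha, mul_one, sub_self]
    rw [zero_pow two_ne_zero, zero_add, Real.sqrt_sq (Real.arccos_nonneg _)]
  · refine le_iInf₂ fun z hz => ?_
    apply ENNReal.ofReal_le_ofReal
    obtain ⟨m, rfl⟩ := mk_bot.mp hz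
    rcases eq_or_ne m 0 with rfl | hm
    · rw [zpow_zero, one_mul]
      unfold mD
      rw [Units.val_mul, angle_mul_right x a ha]
      exact Real.le_sqrt_of_sq_le (by
        have := sq_nonneg (Real.log ‖(x : HQ)‖ - Real.log ‖(x : HQ) * (a : HQ)‖)
        linarith)
    · refine le_trans ?_ (mD_ge_log _ _)
      have hx : 0 < ‖(x : HQ)‖ := by simp
      have e : Real.log ‖(x : HQ)‖ - Real.log ‖((wq ^ m * (x * a) : HQˣ) : HQ)‖ = - (m * tt) := by
        rw [Units.val_mul, Units.val_mul, norm_mul, norm_mul, ha, mul_one, norm_wq_zpow,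
          Real.log_mul (Real.exp_ne_zero _) hx.ne', Real.log_exp]
        ring
      rw [e, abs_neg, abs_mul, abs_of_pos tt_pos]
      have h1 : (1 : ℝ) ≤ |(m : ℝ)| := by
        have := Int.one_le_abs hm
        exact_mod_cast this
      have h2 := Real.arccos_le_pi (a : HQ).re
      have h3 := pi_lt_tt
      nlinarith [tt_pos]

/-- the finite group acting on `M` -/
def Ai : Subgroup HQˣ := Subgroup.zpowers ui

lemma ui_sq : ui ^ 2 = -1 := by
  apply Units.ext
  rw [Units.val_pow_eq_pow_val, Units.val_neg, Units.val_one, sq]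
  simp only [ui, Units.val_mk0]
  ext <;> simp [qi_re, qi_imI, qi_imJ, qi_imK]

lemma ui_four : ui ^ 4 = 1 := by
  rw [show (4 : ℕ) = 2 * 2 by norm_num, pow_mul, ui_sq]
  simp

instance : Finite Ai := by
  have h : IsOfFinOrder ui := isOfFinOrder_iff_pow_eq_one.mpr ⟨4, by norm_num, ui_four⟩
  have := finite_zpowers.mpr h
  exact this

lemma ui_mem : ui ∈ Ai := Subgroup.mem_zpowers ui

/-- the subgroup of nonzero complex numbers -/
def Cs : Subgroup HQˣ where
  carrier := {c | (c : HQ).imJ = 0 ∧ (c : HQ).imK = 0}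
  one_mem' := by simp
  mul_mem' := by
    rintro a b ⟨ha1, ha2⟩ ⟨hb1, hb2⟩
    constructor
    · rw [Units.val_mul, Quaternion.imJ_mul, ha1, ha2, hb1, hb2]; ring
    · rw [Units.val_mul, Quaternion.imK_mul, ha1, ha2, hb1, hb2]; ring
  inv_mem' := by
    rintro a ⟨ha1, ha2⟩
    constructor
    · rw [Units.val_inv_eq_inv_val, Quaternion.inv_def, Quaternion.imJ_smul, Quaternion.imJ_star, ha1]
      simp
    · rw [Units.val_inv_eq_inv_val, Quaternion.inv_def, Quaternion.imK_smul, Quaternion.imK_star, ha2]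
      simp

lemma wq_mem_Cs : wq ∈ Cs := by
  constructor
  · simp [wq, qi_imJ]
  · simp [wq, qi_imK]

lemma Ai_le_Cs : Ai ≤ Cs := by
  rw [Ai, Subgroup.zpowers_le]
  exact ⟨qi_imJ, qi_imK⟩

lemma re_of_Cs {c z d : HQˣ} (hc : c ∈ Cs) (hd : d ∈ Cs) (hz1 : (z : HQ).re = 0)
    (hz2 : (z : HQ).imI = 0) : ((c * z * d : HQˣ) : HQ).re = 0 := by
  obtain ⟨c1, c2⟩ := hc
  obtain ⟨d1, d2⟩ := hd
  rw [Units.val_mul, Units.val_mul]
  simp only [Quaternion.re_mul, Quaternion.imI_mul, Quaternion.imJ_mul, Quaternion.imK_mul]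
  rw [c1, c2, d1, d2, hz1, hz2]
  ring

/-- the far point -/
def farq : HQˣ := Units.mk0 (Real.exp (tt / 2) • qj) (smul_ne_zero (Real.exp_ne_zero _) qj_ne)

lemma norm_farq : ‖(farq : HQ)‖ = Real.exp (tt / 2) := by
  simp only [farq, Units.val_mk0]
  rw [norm_smul, normSq_qj, mul_one, Real.norm_eq_abs, abs_of_pos (Real.exp_pos _)]

/-- the critical radius -/
def RR : ℝ := √((tt / 2) ^ 2 + (Real.pi / 2) ^ 2)

lemma redist_far : ENNReal.ofReal RR ≤
    riemannianEDist 𝓘(ℝ, HQ) (mkY Ai 1) (mkY Ai farq) := by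
  rw [redist_mk]
  refine le_iInf₂ fun z hz => ?_
  apply ENNReal.ofReal_le_ofReal
  obtain ⟨m, a, ha, rfl⟩ := mk_eq'.mp hz
  unfold mD RR
  apply Real.sqrt_le_sqrt
  have h1 : ((wq ^ m * farq * a : HQˣ) : HQ).re = 0 :=
    re_of_Cs (Cs.zpow_mem wq_mem_Cs m) (Ai_le_Cs ha) (by simp [farq, qj_re]) (by simp [farq, qj_imI])
  have h2 : angle ((1 : HQˣ) : HQ) ((wq ^ m * farq * a : HQˣ) : HQ) = Real.pi / 2 := by
    rw [← inner_eq_zero_iff_angle_eq_pi_div_two, Quaternion.inner_def, Units.val_one, one_mul,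
      Quaternion.re_star, h1]
  have h3 : Real.log ‖((1 : HQˣ) : HQ)‖ - Real.log ‖((wq ^ m * farq * a : HQˣ) : HQ)‖
      = - ((m + 1 / 2) * tt) := by
    rw [Units.val_mul, Units.val_mul, norm_mul, norm_mul, norm_of_mem ha, norm_wq_zpow, norm_farq,
      Units.val_one, norm_one, Real.log_one, mul_one, ← Real.exp_add, Real.log_exp]
    ring
  rw [h2, h3]
  have h4 : (1 / 4 : ℝ) ≤ ((m : ℝ) + 1 / 2) ^ 2 := by
    have h5 : (0 : ℝ) ≤ (m : ℝ) * (m + 1) := by
      have : 0 ≤ m * (m + 1) := by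
        rcases le_or_gt 0 m with h | h
        · positivity
        · have : m + 1 ≤ 0 := by omega
          nlinarith
      exact_mod_cast this
    nlinarith
  have h6 : (tt / 2) ^ 2 ≤ (-(((m : ℝ) + 1 / 2) * tt)) ^ 2 := by
    have := mul_le_mul_of_nonneg_right h4 (sq_nonneg tt)
    nlinarith
  linarith

/-- the second base point -/
def zq : HQ := ⟨0, 1, 1, 0⟩

lemma zq_ne : zq ≠ 0 := by
  intro h
  have := congrArg QuaternionAlgebra.imI h
  have h2 : zq.imI = 1 := rfl
  rw [h2] at this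
  simp at this

/-- the second base point as a unit -/
def uz : HQˣ := Units.mk0 zq zq_ne

lemma inner_zq (y : HQ) : inner ℝ zq y = y.imI + y.imJ := by
  rw [Quaternion.inner_def]
  have h0 : zq.re = 0 := rfl
  have h1 : zq.imI = 1 := rfl
  have h2 : zq.imJ = 1 := rfl
  have h3 : zq.imK = 0 := rfl
  simp only [Quaternion.re_mul, Quaternion.re_star, Quaternion.imI_star,
        Quaternion.imJ_star, Quaternion.imK_star, h0, h1, h2, h3]
  ring

lemma angle_lt_of_inner_pos {x y : HQ} (hx : x ≠ 0) (hy : y ≠ 0) (h : 0 < inner ℝ x y) :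
    angle x y < Real.pi / 2 := by
  unfold angle
  rw [Real.arccos_lt_pi_div_two]
  have := norm_pos_iff.mpr hx
  have := norm_pos_iff.mpr hy
  positivity

/-- the dichotomy -/
lemma dich (y : HQˣ) : (∃ a ∈ Ai, angle zq ((y * a : HQˣ) : HQ) < Real.pi / 2) ∨
    (inner ℝ zq (y : HQ) = 0 ∧ inner ℝ zq ((y : HQ) * qi) = 0) := by
  by_contra hcon
  push Not at hcon
  obtain ⟨h1, h2⟩ := hcon
  have key : ∀ a ∈ Ai, inner ℝ zq ((y * a : HQˣ) : HQ) ≤ 0 := by
    intro a ha
    by_contra h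
    push Not at h
    exact absurd (angle_lt_of_inner_pos zq_ne (Units.ne_zero _) h) (not_lt.mpr (h1 a ha))
  have hm1 : (-1 : HQˣ) ∈ Ai := by rw [← ui_sq]; exact Ai.pow_mem ui_mem 2
  have e1 := key 1 Ai.one_mem
  have e2 := key (-1) hm1
  have e3 := key ui ui_mem
  have e4 := key (ui * (-1)) (Ai.mul_mem ui_mem hm1)
  have hui : (ui : HQ) = qi := rfl
  simp only [Units.val_mul, Units.val_neg, Units.val_one, mul_one, mul_neg, inner_neg_right, hui] at e1 e2 e3 e4
  exact h2 (by linarith) (by linarith)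

lemma redist_near (y : HQˣ) : riemannianEDist 𝓘(ℝ, HQ) (mkY Ai uz) (mkY Ai y) < ENNReal.ofReal RR := by
  have hRR : 0 < RR := by
    unfold RR
    have := tt_pos
    positivity
  rw [redist_mk]
  -- it is enough to find a representative at distance less than RR
  have suff : ∀ (m : ℤ) (a : HQˣ), a ∈ Ai → mD zq ((wq ^ m * y * a : HQˣ) : HQ) < RR →
      ⨅ (z : HQˣ) (_ : mkY Ai z = mkY Ai y), ENNReal.ofReal (mD (uz : HQ) (z : HQ)) < ENNReal.ofReal RR := by
    intro m a ha h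
    refine lt_of_le_of_lt (iInf₂_le_of_le (wq ^ m * y * a) (mk_eq'.mpr ⟨m, a, ha, rfl⟩) le_rfl) ?_
    exact (ENNReal.ofReal_lt_ofReal_iff hRR).mpr h
  have hzpos : 0 < ‖zq‖ := norm_pos_iff.mpr zq_ne
  obtain ⟨m, hm1, hm2⟩ := exists_shift (y : HQ) (Units.ne_zero y) (Real.log ‖zq‖ - tt / 2)
  have hnorm : ∀ (m : ℤ) (a : HQˣ), a ∈ Ai → ‖((wq ^ m * y * a : HQˣ) : HQ)‖ =
      ‖((wq ^ m : HQˣ) : HQ) * (y : HQ)‖ := by
    intro m a ha
    rw [Units.val_mul, norm_mul, norm_of_mem ha, mul_one, Units.val_mul]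
  have hang : ∀ u : HQ, 0 ≤ angle zq u := fun u => angle_nonneg _ _
  rcases dich (wq ^ m * y) with ⟨a, ha, hlt⟩ | ⟨h1, h2⟩
  · apply suff m a ha
    unfold mD RR
    apply Real.sqrt_lt_sqrt (by positivity)
    rw [hnorm m a ha]
    have h3 : (Real.log ‖zq‖ - Real.log ‖((wq ^ m : HQˣ) : HQ) * (y : HQ)‖) ^ 2 ≤ (tt / 2) ^ 2 := by
      apply sq_le_sq'
      · linarith
      · linarith
    have h4 : angle zq ((wq ^ m * y * a : HQˣ) : HQ) ^ 2 < (Real.pi / 2) ^ 2 := by
      have := hang ((wq ^ m * y * a : HQˣ) : HQ)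
      gcongr
    linarith
  · rcases hm1.eq_or_lt with heq | hlt
    · -- boundary case
      rcases dich (wq ^ (m + 1) * y) with ⟨a, ha, hlt⟩ | ⟨h3, h4⟩
      · apply suff (m + 1) a ha
        unfold mD RR
        apply Real.sqrt_lt_sqrt (by positivity)
        rw [hnorm (m + 1) a ha]
        have h5 : Real.log ‖((wq ^ (m + 1) : HQˣ) : HQ) * (y : HQ)‖ = Real.log ‖zq‖ + tt / 2 := by
          have hy : 0 < ‖(y : HQ)‖ := by simp
          rw [norm_mul, norm_wq_zpow, Real.log_mul (Real.exp_ne_zero _) hy.ne', Real.log_exp] at heq ⊢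
          push_cast
          linarith
        rw [h5]
        have h4 : angle zq ((wq ^ (m + 1) * y * a : HQˣ) : HQ) ^ 2 < (Real.pi / 2) ^ 2 := by
          have := hang ((wq ^ (m + 1) * y * a : HQˣ) : HQ)
          gcongr
        have h6 : (Real.log ‖zq‖ - (Real.log ‖zq‖ + tt / 2)) ^ 2 = (tt / 2) ^ 2 := by ring
        linarith
      · exfalso
        obtain ⟨u, hu⟩ : ∃ u : HQ, u = ((wq ^ m * y : HQˣ) : HQ) := ⟨_, rfl⟩
        have hu0 : u ≠ 0 := by rw [hu]; exact Units.ne_zero _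
        rw [← hu] at h1 h2
        have e1 : ((wq ^ (m + 1) * y : HQˣ) : HQ) = Real.exp tt • (qi * u) := by
          rw [hu, zpow_add_one, (Commute.refl wq).zpow_left m |>.eq, mul_assoc, Units.val_mul]
          simp only [wq, Units.val_mk0]
          rw [smul_mul_assoc]
        rw [e1, real_inner_smul_right] at h3
        rw [e1, smul_mul_assoc, real_inner_smul_right] at h4
        have he := Real.exp_ne_zero tt
        have h3' := (mul_eq_zero.mp h3).resolve_left he
        have h4' := (mul_eq_zero.mp h4).resolve_left he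
        rw [inner_zq] at h1 h2 h3' h4'
        simp only [Quaternion.re_mul, Quaternion.imI_mul, Quaternion.imJ_mul,
          Quaternion.imK_mul, qi_re, qi_imI, qi_imJ, qi_imK] at h1 h2 h3' h4'
        apply hu0
        ext
        · simp; linarith
        · simp; linarith
        · simp; linarith
        · simp; linarith
    · apply suff m 1 Ai.one_mem
      unfold mD RR
      apply Real.sqrt_lt_sqrt (by positivity)
      rw [hnorm m 1 Ai.one_mem, mul_one]
      have h3 : (Real.log ‖zq‖ - Real.log ‖((wq ^ m : HQˣ) : HQ) * (y : HQ)‖) ^ 2 < (tt / 2) ^ 2 := by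
        apply sq_lt_sq'
        · linarith
        · linarith
      have h4 : angle zq ((wq ^ m * y : HQˣ) : HQ) = Real.pi / 2 :=
        (inner_eq_zero_iff_angle_eq_pi_div_two _ _).mp h1
      rw [h4]
      linarith

/-- the quotient `N` is not homogeneous -/
lemma not_homog : ¬ ∀ x y : Yq Ai, ∃ f : Yq Ai ≃ Yq Ai,
    (∀ p q, riemannianEDist 𝓘(ℝ, HQ) (f p) (f q) = riemannianEDist 𝓘(ℝ, HQ) p q) ∧ f x = y := by
  intro h
  obtain ⟨f, hf, h1⟩ := h (mkY Ai 1) (mkY Ai uz)
  obtain ⟨y, hy⟩ := mk_surj Ai (f (mkY Ai farq))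
  have h2 := redist_near y
  rw [hy, ← h1, hf] at h2
  exact absurd redist_far (not_le.mpr h2)

end Pool.Agent.H73
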