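import Pool.Agent.H73.MHD_Basic
import Pool.Agent.H33.MHD_Flow

/-! M7: existence of the next stage for a large frequency. -/

open MeasureTheory Set Filter Topology
open scoped ContDiff
open H36.MHD

noncomputable section

namespace H37.MHD

variable {B : Bg}

theorem exists_next {st : Stage B} {ε : ℝ} (sd : StepData st ε) :
    ∃ Lam, ∀ lam, Lam ≤ lam → ∃ st' : Stage B, Next sd lam st' := by
  classical
  obtain ⟨K, hK0, hK1, hKL⟩ := st.lip
  obtain ⟨c, hc0, hc1, hcL⟩ := st.close
  have hT := B.hT
  have hC := sd.C_nonneg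
  have hsp := sd.sp_pos
  -- choose the frequency
  set dK : ℝ := Kmax B - K with hdK
  have hdKpos : 0 < dK := by rw [hdK]; linarith
  set dc : ℝ := cmax B - c with hdc
  have hdcpos : 0 < dc := by rw [hdc]; linarith
  refine ⟨max 1 (max (2 * sd.C / dK) (4 * sd.C / (dc * sd.sp))), fun lam hlam => ?_⟩
  have hl1 : 1 ≤ lam := (le_max_left _ _).trans hlam
  have hl2 : 2 * sd.C / dK ≤ lam := ((le_max_left _ _).trans (le_max_right _ _)).trans hlam
  have hl3 : 4 * sd.C / (dc * sd.sp) ≤ lam :=
    ((le_max_right _ _).trans (le_max_right _ _)).trans hlam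
  have hl0 : 0 < lam := lt_of_lt_of_le zero_lt_one hl1
  have hq1 : sd.C / lam ≤ dK / 2 := by
    rw [div_le_iff₀ hdKpos] at hl2
    rw [div_le_iff₀ hl0]
    nlinarith
  have hq2 : sd.C / lam ^ 2 ≤ dc / 2 * (sd.sp / 2) := by
    rw [div_le_iff₀ (by positivity)] at hl3
    rw [div_le_iff₀ (by positivity)]
    have : lam ≤ lam ^ 2 := by nlinarith
    have h4 : 0 < dc * sd.sp := by positivity
    nlinarith
  have hqn : 0 ≤ sd.C / lam := by positivity
  -- the new fields
  set u' : Fin 2 → Fin 3 → X → ℝ := fun i k z => st.u i k z + sd.v lam i k z with hu'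
  have hu's : ∀ i k, ContDiff ℝ ∞ (u' i k) := fun i k => (st.u_smooth i k).add (sd.v_smooth lam i k)
  have hvec : ∀ i z, vec (u' i) z = vec (st.u i) z + vec (sd.v lam i) z := by
    intro i z; funext k; simp [vec, hu']
  have hvlip : ∀ i t x y, ‖vec (sd.v lam i) (t, x) - vec (sd.v lam i) (t, y)‖
      ≤ sd.C / lam * ‖x - y‖ := fun i t x y =>
    Nx.vec_lip (sd.v_smooth lam i) hqn (fun k z => sd.dv_le lam hl1 i k z) t x y
  have hlip : ∀ i t, |t| ≤ 2 * B.T → ∀ x y,
      ‖vec (u' i) (t, x) - vec (u' i) (t, y)‖ ≤ (K + dK / 2) * ‖x - y‖ := by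
    intro i t ht x y
    rw [hvec, hvec]
    have e1 : vec (st.u i) (t, x) + vec (sd.v lam i) (t, x)
        - (vec (st.u i) (t, y) + vec (sd.v lam i) (t, y))
        = (vec (st.u i) (t, x) - vec (st.u i) (t, y))
          + (vec (sd.v lam i) (t, x) - vec (sd.v lam i) (t, y)) := by abel
    rw [e1]
    have h1 := hKL i t ht x y
    have h2 := hvlip i t x y
    have h3 := norm_nonneg (x - y)
    calc _ ≤ _ := norm_add_le _ _
      _ ≤ K * ‖x - y‖ + sd.C / lam * ‖x - y‖ := add_le_add h1 h2
      _ ≤ (K + dK / 2) * ‖x - y‖ := by nlinarith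
  have hK'max : K + dK / 2 < Kmax B := by rw [hdK]; linarith
  have hK'0 : 0 ≤ K + dK / 2 := by linarith
  have hK'T : (K + dK / 2) * (40 * B.T) ≤ 1 := by
    have : (K + dK / 2) * (40 * B.T) ≤ Kmax B * (40 * B.T) := by
      apply mul_le_mul_of_nonneg_right hK'max.le (by positivity)
    refine this.trans (le_of_eq ?_)
    unfold Kmax
    field_simp
  choose Y hYs hYp hYt using fun i : Fin 2 =>
    flow_exists B.T (K + dK / 2) hT hK'0 hK'T (u' i) (hu's i) (hlip i)
  have hzero : ∀ z, SS B z < sd.sp ^ 2 → ∀ i k, sd.v lam i k z = 0 ∧ sd.q lam i z = 0 ∧ sd.g z = 0 := by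
    intro z hz i k
    obtain ⟨h1, h2, h3⟩ := sd.v_supp lam i z (Or.inl hz)
    exact ⟨h3 k, h2, h1⟩
  have hsps : sd.sp ^ 2 ≤ st.s ^ 2 := by
    have := sd.sp_le
    have h1 : sd.sp ≤ st.s := by linarith
    exact pow_le_pow_left₀ hsp.le h1 2
  refine ⟨{ rho := fun y => st.rho y + ε * ∑ a, Real.cos (lam * (mu a * phi B a y))
            u := u'
            f := fun k z => st.f k z + st.FF ε sd.g lam k z
            p := fun i z => st.p i z + sd.q lam i z
            Y := Y
            rho_smooth := ?_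
            u_smooth := hu's
            f_smooth := ?_
            p_smooth := fun i => (st.p_smooth i).add (sd.q_smooth lam i)
            Y_smooth := hYs
            u_div := ?_
            s := sd.sp
            s_pos := hsp
            base := ?_
            lip := ⟨K + dK / 2, hK'0, hK'max, hlip⟩
            close := ?_
            path := hYp
            trans := hYt }, ⟨fun y => rfl, fun i k z => rfl, fun k z => rfl, fun i z => rfl⟩⟩
  · refine st.rho_smooth.add (contDiff_const.mul (ContDiff.sum fun a _ => ?_))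
    exact Real.contDiff_cos.comp (contDiff_const.mul (contDiff_const.mul (Nx.phi_smooth a)))
  · exact fun k => (st.f_smooth k).add
      (Nx.FF_smooth st ε sd.g_smooth lam k)
  · intro i z
    have h1 := st.u_div i z
    have h2 := sd.v_div lam i z
    have h3 : ∀ k, dx k (u' i k) z = dx k (st.u i k) z + dx k (sd.v lam i k) z := fun k =>
      Nx.dx_add k ((st.u_smooth i k).differentiable (by simp) z)
        ((sd.v_smooth lam i k).differentiable (by simp) z)
    simp only [h3, Finset.sum_add_distrib, h1, h2, add_zero]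
  · intro z hz i k
    obtain ⟨h1, h2, h3⟩ := hzero z hz i k
    obtain ⟨b1, b2, b3⟩ := st.base z (lt_of_lt_of_le hz hsps) i k
    refine ⟨?_, ?_, ?_⟩
    · simp only [hu', b1, h1, add_zero]
    · simp [Stage.FF, b2, h3]
    · simp only [b3, h2, add_zero]
  · refine ⟨c + dc / 2, by linarith, by rw [hdc]; linarith, fun i z hz => ?_⟩
    have h1 := hcL i z hz
    rw [hvec]
    have e1 : vec (st.u i) z + vec (sd.v lam i) z - (sg i * aa z.1) • wv B z.2
        = (vec (st.u i) z - (sg i * aa z.1) • wv B z.2) + vec (sd.v lam i) z := by abel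
    rw [e1]
    have h0 : 0 ≤ th z.1 * ‖wv B z.2‖ := mul_nonneg (Nx.th_nonneg _) (norm_nonneg _)
    have h2 : ‖vec (sd.v lam i) z‖ ≤ dc / 2 * (th z.1 * ‖wv B z.2‖) := by
      by_cases hS : SS B z < sd.sp ^ 2
      · have : vec (sd.v lam i) z = 0 := by
          funext k
          simpa [vec] using (hzero z hS i k).1
        rw [this, norm_zero]
        positivity
      · push Not at hS
        have h3 := Nx.th_w_ge hsp hS
        have h4 : ‖vec (sd.v lam i) z‖ ≤ sd.C / lam ^ 2 := by
          rw [pi_norm_le_iff_of_nonneg (by positivity)]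
          intro k
          exact sd.v_le lam hl1 i k z
        refine h4.trans (hq2.trans ?_)
        exact mul_le_mul_of_nonneg_left h3 (by linarith)
    calc _ ≤ _ := norm_add_le _ _
      _ ≤ c * th z.1 * ‖wv B z.2‖ + dc / 2 * (th z.1 * ‖wv B z.2‖) := add_le_add h1 h2
      _ = (c + dc / 2) * th z.1 * ‖wv B z.2‖ := by ring

end H37.MHD
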