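import Mathlib

set_option autoImplicit false

/-! Weak projection systems and how to make them exact. -/

namespace Pool.Agent.H73.Cg

/-- A projection system with coarse constants. Objects are axes or points. -/
structure WeakProj (A P : Type*) where
  d : A → (A ⊕ P) → (A ⊕ P) → ℕ
  θ : ℕ
  symm : ∀ Y a b, d Y a b = d Y b a
  tri : ∀ Y a b c, a ≠ Sum.inl Y → b ≠ Sum.inl Y → c ≠ Sum.inl Y →
    d Y a c ≤ d Y a b + d Y b c
  self : ∀ Y a, a ≠ Sum.inl Y → d Y a a ≤ θ
  behr : ∀ X Y a, X ≠ Y → a ≠ Sum.inl X → a ≠ Sum.inl Y →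
    θ < d Y (Sum.inl X) a → d X (Sum.inl Y) a ≤ θ
  fin : ∀ a b, {Y | a ≠ Sum.inl Y ∧ b ≠ Sum.inl Y ∧ θ < d Y a b}.Finite

namespace WeakProj

variable {A P : Type*} (S : WeakProj A P)

/-- `a` is an axis which separates `X` from `b` by more than `t`. -/
def bar (X : A) (t : ℕ) (a b : A ⊕ P) : Prop :=
  ∃ y, a = Sum.inl y ∧ y ≠ X ∧ b ≠ Sum.inl X ∧ b ≠ Sum.inl y ∧ t < S.d y (Sum.inl X) b

variable {S}

lemma bar.mono {X : A} {s t : ℕ} {a b : A ⊕ P} (h : S.bar X t a b) (hst : s ≤ t) :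
    S.bar X s a b := by
  obtain ⟨y, h1, h2, h3, h4, h5⟩ := h
  exact ⟨y, h1, h2, h3, h4, lt_of_le_of_lt hst h5⟩

lemma bar.ne {X : A} {t : ℕ} {a b : A ⊕ P} (h : S.bar X t a b) : b ≠ a := by
  obtain ⟨y, h1, h2, h3, h4, h5⟩ := h
  rw [h1]; exact h4

lemma bar.ne_left {X : A} {t : ℕ} {a b : A ⊕ P} (h : S.bar X t a b) : a ≠ Sum.inl X := by
  obtain ⟨y, h1, h2, h3, h4, h5⟩ := h
  rw [h1]; intro h; exact h2 (Sum.inl.inj h)

lemma bar.ne_right {X : A} {t : ℕ} {a b : A ⊕ P} (h : S.bar X t a b) : b ≠ Sum.inl X := by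
  obtain ⟨y, h1, h2, h3, h4, h5⟩ := h
  exact h3

lemma bar.dist_le {X : A} {t : ℕ} {a b : A ⊕ P} (h : S.bar X t a b) (ht : S.θ ≤ t) :
    S.d X a b ≤ S.θ := by
  obtain ⟨y, h1, h2, h3, h4, h5⟩ := h
  rw [h1]
  exact S.behr X y b h2.symm h3 h4 (lt_of_le_of_lt ht h5)

/-- If `y` separates `X` from `z`, then seen from `z`, `X` and `y` are close. -/
lemma behr' {X y z : A} (hyX : y ≠ X) (hzX : z ≠ X) (hyz : y ≠ z)
    (h : S.θ < S.d y (Sum.inl X) (Sum.inl z)) : S.d z (Sum.inl X) (Sum.inl y) ≤ S.θ := by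
  rw [S.symm] at h
  rw [S.symm]
  exact S.behr z y (Sum.inl X) hyz.symm (by simpa using hzX.symm) (by simpa using hyX.symm) h

/-- two-sided incompatibility -/
lemma bar.asymm {X : A} {s t : ℕ} {a b : A ⊕ P} (h : S.bar X t a b) (ht : S.θ ≤ t)
    (hs : S.θ ≤ s) : ¬ S.bar X s b a := by
  rintro ⟨z, g1, g2, g3, g4, g5⟩
  obtain ⟨y, h1, h2, h3, h4, h5⟩ := h
  subst h1; subst g1
  have hyz : y ≠ z := by
    intro h; exact g4 (by rw [h])
  have := behr' (S := S) h2 g2 hyz (lt_of_le_of_lt ht h5)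
  omega

/-- transitivity with a loss -/
lemma bar.trans {X : A} {t s : ℕ} {a b c : A ⊕ P} (h : S.bar X (t + S.θ) a b)
    (g : S.bar X s b c) (hs : 2 * S.θ ≤ s) : S.bar X t a c := by
  have hca : c ≠ a := by
    rintro rfl
    exact (h.asymm (by omega) (by omega : S.θ ≤ s)) g
  obtain ⟨z, g1, g2, g3, g4, g5⟩ := g
  obtain ⟨y, h1, h2, h3, h4, h5⟩ := h
  subst h1; subst g1
  have hyz : y ≠ z := by
    intro h; exact h4 (by rw [h])
  have e1 := behr' (S := S) h2 g2 hyz (by omega)
  have e2 := S.tri z (Sum.inl X) (Sum.inl y) c (by simpa using g2.symm)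
    (by simpa using hyz) g4
  have e3 : S.θ < S.d z (Sum.inl y) c := by omega
  have e4 := S.behr y z c hyz hca g4 e3
  have e5 := S.tri y (Sum.inl X) c (Sum.inl z) (by simpa using h2.symm) hca
    (by simpa using hyz.symm)
  rw [S.symm y c (Sum.inl z)] at e5
  exact ⟨y, rfl, h2, g3, hca, by omega⟩

/-- two barriers of the same object are comparable -/
lemma bar.compare {X : A} {s t : ℕ} {a b c : A ⊕ P} (h : S.bar X (t + S.θ) a c)
    (g : S.bar X s b c) (hs : 2 * S.θ ≤ s) (hab : a ≠ b) (hn : ¬ S.bar X S.θ b a) :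
    S.bar X t a b := by
  obtain ⟨z, g1, g2, g3, g4, g5⟩ := g
  obtain ⟨y, h1, h2, h3, h4, h5⟩ := h
  subst h1; subst g1
  have hyz : y ≠ z := by
    intro h; exact hab (by rw [h])
  have e1 : S.d z (Sum.inl X) (Sum.inl y) ≤ S.θ := by
    by_contra hc
    exact hn ⟨z, rfl, g2, by simpa using h2, by simpa using hyz, by omega⟩
  have e2 := S.tri z (Sum.inl X) (Sum.inl y) c (by simpa using g2.symm)
    (by simpa using hyz) g4
  have e3 : S.θ < S.d z (Sum.inl y) c := by omega
  have e4 := S.behr y z c hyz h4 g4 e3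
  have e5 := S.tri y (Sum.inl X) (Sum.inl z) c (by simpa using h2.symm)
    (by simpa using hyz.symm) h4
  exact ⟨y, rfl, h2, by simpa using g2, by simpa using hyz.symm, by omega⟩

variable (S)

/-- strong comparability of two objects as seen from `X` -/
def comp (X : A) (a b : A ⊕ P) : Prop := S.bar X (4 * S.θ) a b ∨ S.bar X (4 * S.θ) b a

variable {S}

lemma chain_min (X : A) : ∀ (l : ℕ) (Z : ℕ → A ⊕ P), (∀ i < l, S.comp X (Z i) (Z (i + 1))) →
    ∃ m ≤ l, ∀ j ≤ l, Z j = Z m ∨ S.bar X (2 * S.θ) (Z m) (Z j) := by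
  intro l
  induction l using Nat.strong_induction_on with
  | _ l ih =>
  intro Z hZ
  rcases Nat.eq_zero_or_pos l with hl | hl
  · subst hl
    exact ⟨0, le_refl _, fun j hj => Or.inl (by rw [Nat.le_zero.1 hj])⟩
  obtain ⟨k, rfl⟩ : ∃ k, l = k + 1 := ⟨l - 1, by omega⟩
  -- the minimal element of the first part, with the largest index
  obtain ⟨m, hm, hmax⟩ : ∃ m, (m ≤ k ∧ ∀ j ≤ k, Z j = Z m ∨ S.bar X (2 * S.θ) (Z m) (Z j)) ∧
      ∀ m', (m' ≤ k ∧ ∀ j ≤ k, Z j = Z m' ∨ S.bar X (2 * S.θ) (Z m') (Z j)) → m' ≤ m := by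
    classical
    obtain ⟨m0, h1, h2⟩ := ih k (by omega) Z (fun i hi => hZ i (by omega))
    have hne : ((Finset.range (k + 1)).filter
      (fun m => ∀ j ≤ k, Z j = Z m ∨ S.bar X (2 * S.θ) (Z m) (Z j))).Nonempty :=
      ⟨m0, by simp; exact ⟨by omega, h2⟩⟩
    refine ⟨Finset.max' _ hne, ?_, ?_⟩
    · have := Finset.max'_mem _ hne
      rw [Finset.mem_filter, Finset.mem_range] at this
      exact ⟨by omega, this.2⟩
    · intro m' hm'
      apply Finset.le_max'
      rw [Finset.mem_filter, Finset.mem_range]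
      exact ⟨by omega, hm'.2⟩
  obtain ⟨hmk, hmin⟩ := hm
  have hdist : ∀ j, m < j → j ≤ k → Z j ≠ Z m := by
    intro j hj1 hj2 heq
    have := hmax j ⟨hj2, fun i hi => by rw [heq]; exact hmin i hi⟩
    omega
  have hbar : ∀ j, m < j → j ≤ k → S.bar X (2 * S.θ) (Z m) (Z j) := fun j h1 h2 =>
    (hmin j h2).resolve_left (hdist j h1 h2)
  rcases Nat.lt_or_ge m k with hlt | hge
  · -- m < k
    obtain ⟨m', hm', hmin'⟩ := ih (k - m) (by omega) (fun i => Z (m + 1 + i))
      (fun i hi => by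
        have := hZ (m + 1 + i) (by omega)
        simpa [add_assoc] using this)
    obtain ⟨m2, rfl⟩ : ∃ m2, m2 = m + 1 + m' := ⟨_, rfl⟩
    have hmin2 : ∀ j, m + 1 ≤ j → j ≤ k + 1 →
        Z j = Z (m + 1 + m') ∨ S.bar X (2 * S.θ) (Z (m + 1 + m')) (Z j) := by
      intro j h1 h2
      have := hmin' (j - (m + 1)) (by omega)
      simpa [Nat.add_sub_cancel' h1] using this
    set M2 := Z (m + 1 + m') with hM2
    have hb1 : S.bar X (2 * S.θ) (Z m) (Z (m + 1)) := hbar (m + 1) (by omega) (by omega)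
    have hb1' : S.bar X (4 * S.θ) (Z m) (Z (m + 1)) := by
      rcases hZ m (by omega) with h | h
      · exact h
      · exact absurd h (hb1.asymm (by omega) (by omega))
    by_cases hMM : M2 = Z m
    · refine ⟨m, by omega, fun j hj => ?_⟩
      rcases Nat.lt_or_ge j (k + 1) with hjk | hjk
      · exact hmin j (by omega)
      · have : j = k + 1 := by omega
        subst this
        have := hmin2 (k + 1) (by omega) (le_refl _)
        rwa [hMM] at this
    · -- sufficient: Z (k+1)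
      by_cases hbM : S.bar X (3 * S.θ) (Z m) M2
      · refine ⟨m, by omega, fun j hj => ?_⟩
        rcases Nat.lt_or_ge j (k + 1) with hjk | hjk
        · exact hmin j (by omega)
        · have : j = k + 1 := by omega
          subst this
          rcases hmin2 (k + 1) (by omega) (le_refl _) with h | h
          · rw [h]; exact Or.inr (hbM.mono (by omega))
          · right
            exact (hbM.mono (by omega : 2 * S.θ + S.θ ≤ 3 * S.θ)).trans h (le_refl _)
      · -- M2 before M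
        have hc : S.bar X (2 * S.θ) M2 (Z (m + 1)) := by
          rcases hmin2 (m + 1) (le_refl _) (by omega) with h | h
          · exfalso
            rw [← h] at hbM
            exact hbM (hb1'.mono (by omega))
          · exact h
        have hn : S.bar X S.θ M2 (Z m) := by
          by_contra hn
          exact hbM ((hb1'.mono (by omega : 3 * S.θ + S.θ ≤ 4 * S.θ)).compare hc (le_refl _)
            (Ne.symm hMM) hn)
        -- M2 is not among the first
        have hnot : ∀ j ≤ k, Z j ≠ M2 := by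
          intro j hj heq
          rcases hmin j hj with h | h
          · exact hMM (heq.symm.trans h)
          · rw [heq] at h
            exact h.asymm (by omega) (le_refl _) hn
        have hm'eq : m + 1 + m' = k + 1 := by
          by_contra hne
          exact hnot (m + 1 + m') (by omega) hM2.symm
        have hl1 : S.bar X (2 * S.θ) M2 (Z k) :=
          (hmin2 k (by omega) (by omega)).resolve_left (hnot k (le_refl _))
        have hl2 : S.bar X (4 * S.θ) M2 (Z k) := by
          have h0 := hZ k (by omega)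
          rw [← hm'eq, ← hM2] at h0
          rcases h0 with h | h
          · exact absurd h (hl1.asymm (by omega) (by omega))
          · exact h
        have hl3 : S.bar X (2 * S.θ) (Z m) (Z k) := hbar k hlt (le_refl _)
        have hl4 : S.bar X (3 * S.θ) M2 (Z m) :=
          (hl2.mono (by omega : 3 * S.θ + S.θ ≤ 4 * S.θ)).compare hl3 (le_refl _) hMM
            (fun h => h.asymm (le_refl _) (le_refl _) hn)
        refine ⟨k + 1, le_refl _, fun j hj => ?_⟩
        rw [← hm'eq, ← hM2]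
        rcases Nat.lt_or_ge m j with hjm | hjm
        · exact hmin2 j (by omega) (by omega)
        · rcases hmin j (by omega) with h | h
          · right; rw [h]; exact hl4.mono (by omega)
          · right
            exact (hl4.mono (by omega : 2 * S.θ + S.θ ≤ 3 * S.θ)).trans h (le_refl _)
  · -- m = k
    have hmk' : m = k := by omega
    subst hmk'
    rcases hZ m (by omega) with h | h
    · refine ⟨m, by omega, fun j hj => ?_⟩
      rcases Nat.lt_or_ge j (m + 1) with hjk | hjk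
      · exact hmin j (by omega)
      · have : j = m + 1 := by omega
        subst this
        exact Or.inr (h.mono (by omega))
    · refine ⟨m + 1, le_refl _, fun j hj => ?_⟩
      rcases Nat.lt_or_ge j (m + 1) with hjk | hjk
      · rcases hmin j (by omega) with h' | h'
        · right; rw [h']; exact h.mono (by omega)
        · right
          exact (h.mono (by omega : 2 * S.θ + S.θ ≤ 4 * S.θ)).trans h' (le_refl _)
      · left
        have : j = m + 1 := by omega
        rw [this]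

lemma comp.symm {X : A} {a b : A ⊕ P} (h : S.comp X a b) : S.comp X b a := Or.symm h

variable (S)

/-- the class of an object seen from `X` -/
def cl (X : A) (a b : A ⊕ P) : Prop := Relation.ReflTransGen (S.comp X) a b

variable {S}

lemma cl.refl (X : A) (a : A ⊕ P) : S.cl X a a := Relation.ReflTransGen.refl

lemma cl.symm {X : A} {a b : A ⊕ P} (h : S.cl X a b) : S.cl X b a := by
  induction h with
  | refl => exact Relation.ReflTransGen.refl
  | tail _ hbc ih => exact (Relation.ReflTransGen.single (comp.symm hbc)).trans ih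

lemma cl.trans {X : A} {a b c : A ⊕ P} (h : S.cl X a b) (g : S.cl X b c) : S.cl X a c :=
  Relation.ReflTransGen.trans h g

lemma cl_chain {X : A} {a b : A ⊕ P} (h : S.cl X a b) :
    ∃ (l : ℕ) (Z : ℕ → A ⊕ P), Z 0 = a ∧ Z l = b ∧ ∀ i < l, S.comp X (Z i) (Z (i + 1)) := by
  induction h with
  | refl => exact ⟨0, fun _ => a, rfl, rfl, fun i hi => absurd hi (by omega)⟩
  | @tail b c _ hbc ih =>
    obtain ⟨l, Z, h0, hl, hZ⟩ := ih
    refine ⟨l + 1, fun i => if i ≤ l then Z i else c, by simp [h0], by simp, ?_⟩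
    intro i hi
    rcases Nat.lt_or_ge i l with h | h
    · simpa [show i ≤ l by omega, show i + 1 ≤ l by omega] using hZ i h
    · have : i = l := by omega
      subst this
      simpa [hl] using hbc

lemma cl.ne {X : A} {a b : A ⊕ P} (h : S.cl X a b) (ha : a ≠ Sum.inl X) : b ≠ Sum.inl X := by
  induction h with
  | refl => exact ha
  | tail _ hbc ih =>
    rcases hbc with h | h
    · exact h.ne_right
    · exact h.ne_left

lemma cl_dist {X : A} {a b : A ⊕ P} (h : S.cl X a b) (ha : a ≠ Sum.inl X) :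
    S.d X a b ≤ 2 * S.θ := by
  have hb := h.ne ha
  obtain ⟨l, Z, h0, hl, hZ⟩ := cl_chain h
  obtain ⟨m, hm, hmin⟩ := chain_min X l Z hZ
  have h1 := hmin 0 (by omega)
  have h2 := hmin l (le_refl _)
  rw [h0] at h1
  rw [hl] at h2
  rcases h1 with h1 | h1
  · rcases h2 with h2 | h2
    · rw [h1, h2]
      have := S.self X (Z m) (by rw [← h1]; exact ha)
      omega
    · rw [h1]
      have := h2.dist_le (by omega)
      omega
  · have e1 := h1.dist_le (by omega)
    rcases h2 with h2 | h2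
    · rw [h2, S.symm]; omega
    · have e2 := h2.dist_le (by omega)
      have e3 := S.tri X a (Z m) b ha h1.ne_left hb
      rw [S.symm X a (Z m)] at e3
      omega

variable (S)

/-- the exact projection distance -/
noncomputable def D (X : A) (a b : A ⊕ P) : ℕ :=
  sSup {n | ∃ a' b', S.cl X a a' ∧ S.cl X b b' ∧ n = S.d X a' b'}

variable {S}

lemma D_bdd {X : A} {a b : A ⊕ P} (ha : a ≠ Sum.inl X) (hb : b ≠ Sum.inl X) :
    ∀ n ∈ {n | ∃ a' b', S.cl X a a' ∧ S.cl X b b' ∧ n = S.d X a' b'}, n ≤ S.d X a b + 4 * S.θ := by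
  rintro n ⟨a', b', h1, h2, rfl⟩
  have e1 := cl_dist h1 ha
  have e2 := cl_dist h2 hb
  have e3 := S.tri X a' a b' (h1.ne ha) ha (h2.ne hb)
  have e4 := S.tri X a b b' ha hb (h2.ne hb)
  rw [S.symm X a' a] at e3
  omega

lemma le_D {X : A} {a b a' b' : A ⊕ P} (ha : a ≠ Sum.inl X) (hb : b ≠ Sum.inl X)
    (h1 : S.cl X a a') (h2 : S.cl X b b') : S.d X a' b' ≤ S.D X a b :=
  le_csSup ⟨_, D_bdd ha hb⟩ ⟨a', b', h1, h2, rfl⟩

lemma d_le_D {X : A} {a b : A ⊕ P} (ha : a ≠ Sum.inl X) (hb : b ≠ Sum.inl X) :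
    S.d X a b ≤ S.D X a b := le_D ha hb (cl.refl _ _) (cl.refl _ _)

lemma D_mem (X : A) (a b : A ⊕ P) (ha : a ≠ Sum.inl X) (hb : b ≠ Sum.inl X) :
    ∃ a' b', S.cl X a a' ∧ S.cl X b b' ∧ S.D X a b = S.d X a' b' := by
  have := Nat.sSup_mem (s := {n | ∃ a' b', S.cl X a a' ∧ S.cl X b b' ∧ n = S.d X a' b'})
    ⟨_, a, b, cl.refl _ _, cl.refl _ _, rfl⟩ ⟨_, D_bdd ha hb⟩
  exact this

lemma D_le {X : A} {a b : A ⊕ P} (ha : a ≠ Sum.inl X) (hb : b ≠ Sum.inl X) :
    S.D X a b ≤ S.d X a b + 4 * S.θ := by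
  obtain ⟨a', b', h1, h2, h3⟩ := D_mem (S := S) X a b ha hb
  rw [h3]
  exact D_bdd ha hb _ ⟨a', b', h1, h2, rfl⟩

lemma D_symm (X : A) (a b : A ⊕ P) : S.D X a b = S.D X b a := by
  unfold D
  congr 1
  ext n
  constructor
  · rintro ⟨a', b', h1, h2, h3⟩
    exact ⟨b', a', h2, h1, by rw [h3, S.symm]⟩
  · rintro ⟨a', b', h1, h2, h3⟩
    exact ⟨b', a', h2, h1, by rw [h3, S.symm]⟩

lemma D_congr {X : A} {a b a' b' : A ⊕ P} (h : S.cl X a a') (g : S.cl X b b') :
    S.D X a b = S.D X a' b' := by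
  unfold D
  congr 1
  ext n
  constructor
  · rintro ⟨x, y, h1, h2, h3⟩
    exact ⟨x, y, h.symm.trans h1, g.symm.trans h2, h3⟩
  · rintro ⟨x, y, h1, h2, h3⟩
    exact ⟨x, y, h.trans h1, g.trans h2, h3⟩

lemma D_tri (X : A) (a b c : A ⊕ P) (ha : a ≠ Sum.inl X) (hb : b ≠ Sum.inl X)
    (hc : c ≠ Sum.inl X) : S.D X a c ≤ S.D X a b + S.D X b c := by
  obtain ⟨a', c', h1, h2, h3⟩ := D_mem (S := S) X a c ha hc
  rw [h3]
  have e1 := S.tri X a' b c' (h1.ne ha) hb (h2.ne hc)
  have e2 := le_D (S := S) ha hb h1 (cl.refl _ b)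
  have e3 := le_D (S := S) hb hc (cl.refl _ b) h2
  omega

lemma D_self (X : A) (a : A ⊕ P) (ha : a ≠ Sum.inl X) : S.D X a a ≤ 2 * S.θ := by
  obtain ⟨a', c', h1, h2, h3⟩ := D_mem (S := S) X a a ha ha
  rw [h3]
  exact cl_dist (h1.symm.trans h2) (h1.ne ha)

lemma D_exact (X Y : A) (a : A ⊕ P) (hXY : X ≠ Y) (haX : a ≠ Sum.inl X) (haY : a ≠ Sum.inl Y)
    (h : 8 * S.θ < S.D Y (Sum.inl X) a) (b : A ⊕ P) :
    S.D X (Sum.inl Y) b = S.D X a b := by
  apply D_congr _ (cl.refl _ _)
  apply Relation.ReflTransGen.single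
  left
  have h1 := D_le (S := S) (X := Y) (a := Sum.inl X) (b := a) (by simpa using hXY) haY
  exact ⟨Y, rfl, hXY.symm, haX, haY, by omega⟩

end WeakProj

/-- A projection system with exact transitivity. -/
structure StrongProj (A P : Type*) where
  D : A → (A ⊕ P) → (A ⊕ P) → ℕ
  θ : ℕ
  symm : ∀ Y a b, D Y a b = D Y b a
  tri : ∀ Y a b c, a ≠ Sum.inl Y → b ≠ Sum.inl Y → c ≠ Sum.inl Y →
    D Y a c ≤ D Y a b + D Y b c
  self : ∀ Y a, a ≠ Sum.inl Y → D Y a a ≤ θ
  exact : ∀ X Y a, X ≠ Y → a ≠ Sum.inl X → a ≠ Sum.inl Y →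
    θ < D Y (Sum.inl X) a → ∀ b, D X (Sum.inl Y) b = D X a b
  fin : ∀ a b, {Y | a ≠ Sum.inl Y ∧ b ≠ Sum.inl Y ∧ θ < D Y a b}.Finite

namespace WeakProj

variable {A P : Type*}

/-- the exact system attached to a weak one -/
noncomputable def strong (S : WeakProj A P) : StrongProj A P where
  D := S.D
  θ := 8 * S.θ
  symm := D_symm
  tri := D_tri
  self := fun Y a ha => (D_self Y a ha).trans (by omega)
  exact := fun X Y a h1 h2 h3 h4 b => D_exact X Y a h1 h2 h3 h4 b
  fin := fun a b => (S.fin a b).subset (by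
    rintro Y ⟨h1, h2, h3⟩
    have := D_le (S := S) h1 h2
    exact ⟨h1, h2, by omega⟩)

section action

variable {G : Type*} [Group G] [MulAction G A] [MulAction G P] (S : WeakProj A P)
  (hS : ∀ (g : G) Y a b, S.d (g • Y) (g • a) (g • b) = S.d Y a b)

include hS

lemma bar_smul (g : G) {X : A} {t : ℕ} {a b : A ⊕ P} (h : S.bar X t a b) :
    S.bar (g • X) t (g • a) (g • b) := by
  obtain ⟨y, h1, h2, h3, h4, h5⟩ := h
  refine ⟨g • y, by rw [h1]; rfl, by simpa using h2, ?_, ?_, ?_⟩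
  · intro h; apply h3
    have := congrArg (fun x => g⁻¹ • x) h
    simpa [← Sum.smul_inl] using this
  · intro h; apply h4
    have := congrArg (fun x => g⁻¹ • x) h
    simpa [← Sum.smul_inl] using this
  · rw [← Sum.smul_inl, hS]; exact h5

lemma cl_smul (g : G) {X : A} {a b : A ⊕ P} (h : S.cl X a b) :
    S.cl (g • X) (g • a) (g • b) := by
  induction h with
  | refl => exact cl.refl _ _
  | tail _ hbc ih =>
    refine ih.trans (Relation.ReflTransGen.single ?_)
    rcases hbc with h | h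
    · exact Or.inl (bar_smul S hS g h)
    · exact Or.inr (bar_smul S hS g h)

lemma D_smul (g : G) (X : A) (a b : A ⊕ P) : S.D (g • X) (g • a) (g • b) = S.D X a b := by
  have key : ∀ (g : G) (X : A) (a b : A ⊕ P) (n : ℕ),
      (∃ a' b', S.cl X a a' ∧ S.cl X b b' ∧ n = S.d X a' b') →
      ∃ a' b', S.cl (g • X) (g • a) a' ∧ S.cl (g • X) (g • b) b' ∧ n = S.d (g • X) a' b' := by
    rintro g X a b n ⟨a', b', h1, h2, h3⟩
    exact ⟨g • a', g • b', cl_smul S hS g h1, cl_smul S hS g h2, by rw [h3, hS]⟩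
  unfold D
  congr 1
  ext n
  constructor
  · intro h
    have := key g⁻¹ (g • X) (g • a) (g • b) n h
    simpa using this
  · exact key g X a b n

end action

end WeakProj

end Pool.Agent.H73.Cg
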