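import Pool.Agent.H73.CgA

set_option autoImplicit false

/-! Greendlinger property for groups generated by large rotations, from exact projections. -/

namespace Pool.Agent.H73.Cg

open Finset

namespace StrongProj

variable {A P : Type*} (S : StrongProj A P)

open Classical in
/-- the contribution of the axis `V` to the complexity of the pair `a, c` -/
noncomputable def tm (V : A) (a c : A ⊕ P) : ℕ :=
  if a = Sum.inl V ∨ c = Sum.inl V then 0 else S.D V a c - 2 * S.θ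

variable {S}

lemma tm_left {V : A} {c : A ⊕ P} : S.tm V (Sum.inl V) c = 0 := by simp [tm]
lemma tm_right {V : A} {a : A ⊕ P} : S.tm V a (Sum.inl V) = 0 := by simp [tm]
lemma tm_of_ne {V : A} {a c : A ⊕ P} (ha : a ≠ Sum.inl V) (hc : c ≠ Sum.inl V) :
    S.tm V a c = S.D V a c - 2 * S.θ := by simp [tm, ha, hc]

lemma tm_support (a c : A ⊕ P) : {V | S.tm V a c ≠ 0} ⊆
    {Y | a ≠ Sum.inl Y ∧ c ≠ Sum.inl Y ∧ S.θ < S.D Y a c} := by
  intro V hV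
  change S.tm V a c ≠ 0 at hV
  change a ≠ Sum.inl V ∧ c ≠ Sum.inl V ∧ S.θ < S.D V a c
  by_cases h : a = Sum.inl V ∨ c = Sum.inl V
  · simp [tm, h] at hV
  · push Not at h
    rw [tm_of_ne h.1 h.2] at hV
    exact ⟨h.1, h.2, by omega⟩

lemma tm_finite (a c : A ⊕ P) : {V | S.tm V a c ≠ 0}.Finite :=
  (S.fin a c).subset (tm_support a c)

variable (S)

/-- complexity of a pair of objects -/
noncomputable def Phi (a c : A ⊕ P) : ℕ := ∑ᶠ V, S.tm V a c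

variable {S}

lemma Phi_eq_sum (a c : A ⊕ P) (F : Finset A) (hF : ∀ V, S.tm V a c ≠ 0 → V ∈ F) :
    S.Phi a c = ∑ V ∈ F, S.tm V a c :=
  finsum_eq_sum_of_support_subset _ (fun V hV => hF V hV)

/-- exact splitting at an axis with large projection -/
lemma split (Y : A) (a c : A ⊕ P) (ha : a ≠ Sum.inl Y) (hc : c ≠ Sum.inl Y)
    (h : 2 * S.θ < S.D Y a c) (V : A) (hV : V ≠ Y) :
    ((c ≠ Sum.inl V ∧ S.D V a c = S.D V a (Sum.inl Y) ∧ S.D V (Sum.inl Y) c ≤ S.θ) ∨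
    (a ≠ Sum.inl V ∧ S.D V a c = S.D V (Sum.inl Y) c ∧ S.D V a (Sum.inl Y) ≤ S.θ)) := by
  have hVY : (Sum.inl V : A ⊕ P) ≠ Sum.inl Y := by simpa using hV
  have e1 := S.tri Y a (Sum.inl V) c ha hVY hc
  rw [S.symm Y a (Sum.inl V)] at e1
  rcases Nat.lt_or_ge S.θ (S.D Y (Sum.inl V) c) with h1 | h1
  · left
    have hcV : c ≠ Sum.inl V := by
      rintro rfl
      have := S.self Y (Sum.inl V) hVY
      omega
    have e2 := S.exact V Y c hV hcV hc h1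
    refine ⟨hcV, ?_, ?_⟩
    · rw [S.symm V a c, S.symm V a (Sum.inl Y), e2]
    · rw [e2]; exact S.self V c hcV
  · right
    have h2 : S.θ < S.D Y (Sum.inl V) a := by omega
    have haV : a ≠ Sum.inl V := by
      rintro rfl
      have := S.self Y (Sum.inl V) hVY
      omega
    have e2 := S.exact V Y a hV haV ha h2
    refine ⟨haV, ?_, ?_⟩
    · rw [e2]
    · rw [S.symm, e2]; exact S.self V a haV

lemma tm_split (Y : A) (a c : A ⊕ P) (ha : a ≠ Sum.inl Y) (hc : c ≠ Sum.inl Y)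
    (h : 2 * S.θ < S.D Y a c) (V : A) (hV : V ≠ Y) :
    S.tm V a c = S.tm V a (Sum.inl Y) + S.tm V (Sum.inl Y) c := by
  have hYV : (Sum.inl Y : A ⊕ P) ≠ Sum.inl V := by simpa using hV.symm
  rcases split Y a c ha hc h V hV with ⟨h1, h2, h3⟩ | ⟨h1, h2, h3⟩
  · have e : S.tm V (Sum.inl Y) c = 0 := by
      rw [tm_of_ne hYV h1]; omega
    rw [e, add_zero]
    by_cases haV : a = Sum.inl V
    · rw [haV, tm_left, tm_left]
    · rw [tm_of_ne haV h1, tm_of_ne haV hYV, h2]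
  · have e : S.tm V a (Sum.inl Y) = 0 := by
      rw [tm_of_ne h1 hYV]; omega
    rw [e, zero_add]
    by_cases hcV : c = Sum.inl V
    · rw [hcV, tm_right, tm_right]
    · rw [tm_of_ne h1 hcV, tm_of_ne hYV hcV, h2]

lemma Phi_split (Y : A) (a c : A ⊕ P) (ha : a ≠ Sum.inl Y) (hc : c ≠ Sum.inl Y)
    (h : 2 * S.θ < S.D Y a c) :
    S.Phi a c = S.Phi a (Sum.inl Y) + (S.D Y a c - 2 * S.θ) + S.Phi (Sum.inl Y) c := by
  classical
  set F : Finset A := (tm_finite (S := S) a c).toFinset ∪ (tm_finite (S := S) a (Sum.inl Y)).toFinset ∪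
    (tm_finite (S := S) (Sum.inl Y) c).toFinset ∪ {Y} with hF
  have hY : Y ∈ F := by simp [hF]
  rw [Phi_eq_sum a c F (fun V hV => by simp [hF, hV]),
    Phi_eq_sum a (Sum.inl Y) F (fun V hV => by simp [hF, hV]),
    Phi_eq_sum (Sum.inl Y) c F (fun V hV => by simp [hF, hV])]
  rw [← Finset.add_sum_erase F _ hY, ← Finset.add_sum_erase F (fun V => S.tm V a (Sum.inl Y)) hY,
    ← Finset.add_sum_erase F (fun V => S.tm V (Sum.inl Y) c) hY]
  rw [tm_right, tm_left, tm_of_ne ha hc]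
  have : ∑ V ∈ F.erase Y, S.tm V a c =
      ∑ V ∈ F.erase Y, (S.tm V a (Sum.inl Y) + S.tm V (Sum.inl Y) c) := by
    apply Finset.sum_congr rfl
    intro V hV
    exact tm_split Y a c ha hc h V (Finset.ne_of_mem_erase hV)
  rw [this, Finset.sum_add_distrib]
  ring

/-- Quasi triangle inequality for the complexity. -/
lemma sum_le (Y : A) (a c : A ⊕ P) (_ha : a ≠ Sum.inl Y) (_hc : c ≠ Sum.inl Y) (s : Finset A)
    (hs : ∀ V ∈ s, V ≠ Y ∧ a ≠ Sum.inl V ∧ c ≠ Sum.inl V) :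
    ∑ V ∈ s, S.tm V a c ≤
      ∑ V ∈ s, (S.tm V a (Sum.inl Y) + S.tm V (Sum.inl Y) c) + 4 * S.θ := by
  classical
  set bad : Finset A := s.filter (fun V => S.tm V a (Sum.inl Y) + S.tm V (Sum.inl Y) c < S.tm V a c)
    with hbad
  -- properties of bad axes
  have hb : ∀ V ∈ bad, V ≠ Y ∧ a ≠ Sum.inl V ∧ c ≠ Sum.inl V ∧ 2 * S.θ < S.D V a c ∧
      (S.D V a (Sum.inl Y) - 2 * S.θ) + (S.D V (Sum.inl Y) c - 2 * S.θ) <
        S.D V a c - 2 * S.θ := by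
    intro V hV
    rw [hbad, Finset.mem_filter] at hV
    obtain ⟨h1, h2⟩ := hV
    obtain ⟨h3, h4, h5⟩ := hs V h1
    have hYV : (Sum.inl Y : A ⊕ P) ≠ Sum.inl V := by simpa using h3.symm
    rw [tm_of_ne h4 hYV, tm_of_ne hYV h5, tm_of_ne h4 h5] at h2
    exact ⟨h3, h4, h5, by omega, h2⟩
  have hlt : ∀ V1 ∈ bad, ∀ V2 ∈ bad, V1 ≠ V2 → S.θ < S.D V1 (Sum.inl V2) a →
      S.D V1 (Sum.inl Y) c ≤ S.θ ∧ S.D V2 a (Sum.inl Y) ≤ S.θ := by
    intro V1 hV1 V2 hV2 hne hlt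
    obtain ⟨p1, p2, p3, p4, p5⟩ := hb V1 hV1
    obtain ⟨q1, q2, q3, q4, q5⟩ := hb V2 hV2
    have E1 := S.exact V2 V1 a hne.symm q2 p2 hlt
    have hlt' : S.θ < S.D V2 (Sum.inl V1) c := by rw [E1]; omega
    have E2 := S.exact V1 V2 c hne p3 q3 hlt'
    constructor
    · by_contra hcon
      have h1 : S.θ < S.D V1 (Sum.inl V2) (Sum.inl Y) := by
        rw [E2, S.symm]; omega
      have E3 := S.exact V2 V1 (Sum.inl Y) hne.symm (by simpa using q1.symm)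
        (by simpa using p1.symm) h1
      have : S.D V2 (Sum.inl Y) c = S.D V2 a c := by rw [← E3, E1]
      omega
    · by_contra hcon
      have h1 : S.θ < S.D V2 (Sum.inl V1) (Sum.inl Y) := by
        rw [E1]; omega
      have E3 := S.exact V1 V2 (Sum.inl Y) hne (by simpa using p1.symm)
        (by simpa using q1.symm) h1
      have : S.D V1 a (Sum.inl Y) = S.D V1 a c := by
        rw [S.symm, ← E3, E2, S.symm]
      omega
  have hcmp : ∀ V1 ∈ bad, ∀ V2 ∈ bad, V1 ≠ V2 →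
      S.θ < S.D V1 (Sum.inl V2) a ∨ S.θ < S.D V2 (Sum.inl V1) a := by
    intro V1 hV1 V2 hV2 hne
    obtain ⟨p1, p2, p3, p4, p5⟩ := hb V1 hV1
    obtain ⟨q1, q2, q3, q4, q5⟩ := hb V2 hV2
    by_contra hcon
    push Not at hcon
    have e1 := S.tri V1 a (Sum.inl V2) c p2 (by simpa using hne.symm) p3
    rw [S.symm V1 a (Sum.inl V2)] at e1
    have e2 : S.θ < S.D V1 (Sum.inl V2) c := by omega
    have E := S.exact V2 V1 c hne.symm q3 p3 e2
    have : S.D V2 (Sum.inl V1) a = S.D V2 a c := by rw [E, S.symm]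
    omega
  -- at most two bad axes
  have hcard : bad.card ≤ 2 := by
    by_contra hcon
    push Not at hcon
    obtain ⟨V1, h1, V2, h2, V3, h3, h12, h13, h23⟩ := Finset.two_lt_card.1 hcon
    -- general statement for an ordered pair
    have key : ∀ V1 ∈ bad, ∀ V2 ∈ bad, ∀ V3 ∈ bad, V1 ≠ V2 → V1 ≠ V3 → V2 ≠ V3 →
        S.θ < S.D V1 (Sum.inl V2) a → False := by
      intro V1 h1 V2 h2 V3 h3 h12 h13 h23 hlt12
      obtain ⟨p1, p2, p3, p4, p5⟩ := hb V1 h1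
      obtain ⟨q1, q2, q3, q4, q5⟩ := hb V2 h2
      obtain ⟨r1, r2, r3, r4, r5⟩ := hb V3 h3
      have t1 := S.tri V1 a (Sum.inl Y) c p2 (by simpa using p1.symm) p3
      have t2 := S.tri V2 a (Sum.inl Y) c q2 (by simpa using q1.symm) q3
      have t3 := S.tri V3 a (Sum.inl Y) c r2 (by simpa using r1.symm) r3
      obtain ⟨a1, a2⟩ := hlt V1 h1 V2 h2 h12 hlt12
      -- V1 < V3
      have hlt13 : S.θ < S.D V1 (Sum.inl V3) a := by
        rcases hcmp V1 h1 V3 h3 h13 with h | h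
        · exact h
        · obtain ⟨b1, b2⟩ := hlt V3 h3 V1 h1 h13.symm h
          omega
      obtain ⟨c1, c2⟩ := hlt V1 h1 V3 h3 h13 hlt13
      rcases hcmp V2 h2 V3 h3 h23 with h | h
      · obtain ⟨b1, b2⟩ := hlt V2 h2 V3 h3 h23 h
        omega
      · obtain ⟨b1, b2⟩ := hlt V3 h3 V2 h2 h23.symm h
        omega
    rcases hcmp V1 h1 V2 h2 h12 with h | h
    · exact key V1 h1 V2 h2 V3 h3 h12 h13 h23 h
    · exact key V2 h2 V1 h1 V3 h3 h12.symm h23 h13 h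
  -- termwise bound
  have hterm : ∀ V ∈ s, S.tm V a c ≤ (S.tm V a (Sum.inl Y) + S.tm V (Sum.inl Y) c) +
      (if V ∈ bad then 2 * S.θ else 0) := by
    intro V hV
    by_cases hVb : V ∈ bad
    · obtain ⟨h3, h4, h5⟩ := hs V hV
      have hYV : (Sum.inl Y : A ⊕ P) ≠ Sum.inl V := by simpa using h3.symm
      rw [tm_of_ne h4 hYV, tm_of_ne hYV h5, tm_of_ne h4 h5, if_pos hVb]
      have t1 := S.tri V a (Sum.inl Y) c h4 hYV h5
      omega
    · rw [if_neg hVb, add_zero]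
      rw [hbad, Finset.mem_filter, not_and] at hVb
      have := hVb hV
      omega
  calc ∑ V ∈ s, S.tm V a c ≤ ∑ V ∈ s, ((S.tm V a (Sum.inl Y) + S.tm V (Sum.inl Y) c) +
      (if V ∈ bad then 2 * S.θ else 0)) := Finset.sum_le_sum hterm
    _ = ∑ V ∈ s, (S.tm V a (Sum.inl Y) + S.tm V (Sum.inl Y) c) +
      ∑ V ∈ s, (if V ∈ bad then 2 * S.θ else 0) := Finset.sum_add_distrib
    _ ≤ _ := by
      gcongr
      rw [← Finset.sum_filter, Finset.sum_const, smul_eq_mul]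
      have : (s.filter (fun V => V ∈ bad)).card ≤ 2 :=
        (Finset.card_le_card (fun V hV => (Finset.mem_filter.1 hV).2)).trans hcard
      nlinarith

lemma Phi_le (Y : A) (a c : P) :
    S.Phi (Sum.inr a) (Sum.inr c) ≤ S.Phi (Sum.inr a) (Sum.inl Y) +
      (S.D Y (Sum.inr a) (Sum.inr c) - 2 * S.θ) + S.Phi (Sum.inl Y) (Sum.inr c) + 4 * S.θ := by
  classical
  set F : Finset A := (tm_finite (S := S) (Sum.inr a) (Sum.inr c)).toFinset ∪
    (tm_finite (S := S) (Sum.inr a) (Sum.inl Y)).toFinset ∪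
    (tm_finite (S := S) (Sum.inl Y) (Sum.inr c)).toFinset ∪ {Y} with hF
  have hY : Y ∈ F := by simp [hF]
  rw [Phi_eq_sum (Sum.inr a) (Sum.inr c) F (fun V hV => by simp [hF, hV]),
    Phi_eq_sum (Sum.inr a) (Sum.inl Y) F (fun V hV => by simp [hF, hV]),
    Phi_eq_sum (Sum.inl Y) (Sum.inr c) F (fun V hV => by simp [hF, hV])]
  rw [← Finset.add_sum_erase F _ hY,
    ← Finset.add_sum_erase F (fun V => S.tm V (Sum.inr a) (Sum.inl Y)) hY,
    ← Finset.add_sum_erase F (fun V => S.tm V (Sum.inl Y) (Sum.inr c)) hY]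
  rw [tm_right, tm_left, tm_of_ne (by simp) (by simp)]
  have := sum_le (S := S) Y (Sum.inr a) (Sum.inr c) (by simp) (by simp) (F.erase Y)
    (fun V hV => ⟨Finset.ne_of_mem_erase hV, by simp, by simp⟩)
  rw [Finset.sum_add_distrib] at this
  omega

lemma Phi_chain (Y1 Y2 : A) (hne : Y1 ≠ Y2) (a c : P) :
    S.Phi (Sum.inr a) (Sum.inr c) ≤ S.Phi (Sum.inr a) (Sum.inl Y1) +
      S.Phi (Sum.inl Y1) (Sum.inl Y2) + S.Phi (Sum.inl Y2) (Sum.inr c) +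
      (S.D Y1 (Sum.inr a) (Sum.inl Y2) - 2 * S.θ) +
      (S.D Y2 (Sum.inl Y1) (Sum.inr c) - 2 * S.θ) + 12 * S.θ := by
  classical
  set F : Finset A := (tm_finite (S := S) (Sum.inr a) (Sum.inr c)).toFinset ∪
    (tm_finite (S := S) (Sum.inr a) (Sum.inl Y1)).toFinset ∪
    (tm_finite (S := S) (Sum.inl Y1) (Sum.inl Y2)).toFinset ∪
    (tm_finite (S := S) (Sum.inl Y2) (Sum.inr c)).toFinset ∪ {Y1} ∪ {Y2} with hF
  have hY1 : Y1 ∈ F := by simp [hF]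
  have hY2 : Y2 ∈ F.erase Y1 := by simp [hF, hne.symm]
  rw [Phi_eq_sum (Sum.inr a) (Sum.inr c) F (fun V hV => by simp [hF, hV]),
    Phi_eq_sum (Sum.inr a) (Sum.inl Y1) F (fun V hV => by simp [hF, hV]),
    Phi_eq_sum (Sum.inl Y1) (Sum.inl Y2) F (fun V hV => by simp [hF, hV]),
    Phi_eq_sum (Sum.inl Y2) (Sum.inr c) F (fun V hV => by simp [hF, hV])]
  rw [← Finset.add_sum_erase F _ hY1, ← Finset.add_sum_erase (F.erase Y1) _ hY2,
    ← Finset.add_sum_erase F (fun V => S.tm V (Sum.inr a) (Sum.inl Y1)) hY1,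
    ← Finset.add_sum_erase (F.erase Y1) (fun V => S.tm V (Sum.inr a) (Sum.inl Y1)) hY2,
    ← Finset.add_sum_erase F (fun V => S.tm V (Sum.inl Y1) (Sum.inl Y2)) hY1,
    ← Finset.add_sum_erase (F.erase Y1) (fun V => S.tm V (Sum.inl Y1) (Sum.inl Y2)) hY2,
    ← Finset.add_sum_erase F (fun V => S.tm V (Sum.inl Y2) (Sum.inr c)) hY1,
    ← Finset.add_sum_erase (F.erase Y1) (fun V => S.tm V (Sum.inl Y2) (Sum.inr c)) hY2]
  have h12 : (Sum.inl Y1 : A ⊕ P) ≠ Sum.inl Y2 := by simpa using hne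
  rw [tm_right, tm_left, tm_right, tm_left, tm_of_ne (V := Y1) (a := Sum.inr a) (c := Sum.inr c)
      (by simp) (by simp),
    tm_of_ne (V := Y2) (a := Sum.inr a) (c := Sum.inr c) (by simp) (by simp),
    tm_of_ne (V := Y2) (a := Sum.inr a) (c := Sum.inl Y1) (by simp) h12,
    tm_of_ne (V := Y1) (a := Sum.inl Y2) (c := Sum.inr c) h12.symm (by simp)]
  have e1 := sum_le (S := S) Y1 (Sum.inr a) (Sum.inr c) (by simp) (by simp)
    ((F.erase Y1).erase Y2)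
    (fun V hV => ⟨Finset.ne_of_mem_erase (Finset.mem_of_mem_erase hV), by simp, by simp⟩)
  have e2 := sum_le (S := S) Y2 (Sum.inl Y1) (Sum.inr c) h12 (by simp)
    ((F.erase Y1).erase Y2)
    (fun V hV => ⟨Finset.ne_of_mem_erase hV, by
      simpa using (Finset.ne_of_mem_erase (Finset.mem_of_mem_erase hV)).symm, by simp⟩)
  rw [Finset.sum_add_distrib] at e1 e2
  have t1 := S.tri Y1 (Sum.inr a) (Sum.inl Y2) (Sum.inr c) (by simp) h12.symm (by simp)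
  have t2 := S.tri Y2 (Sum.inr a) (Sum.inl Y1) (Sum.inr c) (by simp) h12 (by simp)
  omega

end StrongProj

/-- A strong projection system on a group acting on a set of axes, with rotations. -/
structure RotSys (G A : Type*) [Group G] [MulAction G A] where
  S : StrongProj A G
  inv : ∀ (g : G) (Y : A) (a b : A ⊕ G), S.D (g • Y) (g • a) (g • b) = S.D Y a b
  R : A → Subgroup G
  fix : ∀ Y, ∀ r ∈ R Y, r • Y = Y
  conj : ∀ (g : G) Y, ∀ r ∈ R Y, g * r * g⁻¹ ∈ R (g • Y)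
  T : ℕ
  rot : ∀ Y, ∀ r ∈ R Y, r ≠ 1 → ∀ x : G, T ≤ S.D Y (Sum.inr x) (Sum.inr (r * x))

namespace RotSys

variable {G A : Type*} [Group G] [MulAction G A] (Q : RotSys G A)

lemma Phi_inv (g : G) (a b : A ⊕ G) : Q.S.Phi (g • a) (g • b) = Q.S.Phi a b := by
  unfold StrongProj.Phi
  symm
  apply finsum_eq_of_bijective (fun V => g • V) (MulAction.bijective g)
  intro V
  have h1 : ∀ x : A ⊕ G, (g • x = Sum.inl (g • V)) ↔ x = Sum.inl V := by
    intro x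
    constructor
    · intro h
      have := congrArg (fun y => g⁻¹ • y) h
      simpa [← Sum.smul_inl] using this
    · rintro rfl; rfl
  unfold StrongProj.tm
  simp only [Q.inv]
  congr 1
  rw [h1, h1]

lemma D_mul (g : G) (Y : A) (a b : G) :
    Q.S.D (g • Y) (Sum.inr (g * a)) (Sum.inr (g * b)) = Q.S.D Y (Sum.inr a) (Sum.inr b) :=
  Q.inv g Y (Sum.inr a) (Sum.inr b)

/-- for a rotation around `Y` -/
lemma D_rot {Y : A} {r : G} (hr : r ∈ Q.R Y) (a b : G) :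
    Q.S.D Y (Sum.inr (r * a)) (Sum.inr (r * b)) = Q.S.D Y (Sum.inr a) (Sum.inr b) := by
  have := Q.D_mul r Y a b
  rwa [Q.fix Y r hr] at this

lemma D_rot' {Y : A} {r : G} (hr : r ∈ Q.R Y) (u : G) :
    Q.S.D Y (Sum.inr 1) (Sum.inr (r⁻¹ * u)) = Q.S.D Y (Sum.inr r) (Sum.inr u) := by
  have := Q.D_rot hr 1 (r⁻¹ * u)
  simpa using this.symm

/-- height of a group element -/
noncomputable def H (u : G) : ℕ := Q.S.Phi (Sum.inr 1) (Sum.inr u)

lemma H_one : Q.H 1 = 0 := by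
  unfold H StrongProj.Phi
  apply finsum_eq_zero_of_forall_eq_zero
  intro V
  rw [StrongProj.tm_of_ne (by simp) (by simp)]
  have := Q.S.self V (Sum.inr 1) (by simp)
  omega

lemma H_inv_mul (r u : G) : Q.H (r⁻¹ * u) = Q.S.Phi (Sum.inr r) (Sum.inr u) := by
  have := Q.Phi_inv r (Sum.inr 1) (Sum.inr (r⁻¹ * u))
  unfold H
  rw [← this]
  simp [Sum.smul_inr]

lemma Phi_fix_left {Y : A} {r : G} (hr : r ∈ Q.R Y) (a : G) :
    Q.S.Phi (Sum.inr (r * a)) (Sum.inl Y) = Q.S.Phi (Sum.inr a) (Sum.inl Y) := by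
  have := Q.Phi_inv r (Sum.inr a) (Sum.inl Y)
  simpa [Sum.smul_inr, Sum.smul_inl, Q.fix Y r hr] using this

lemma Phi_fix_right {Y : A} {r : G} (hr : r ∈ Q.R Y) (a : G) :
    Q.S.Phi (Sum.inl Y) (Sum.inr (r * a)) = Q.S.Phi (Sum.inl Y) (Sum.inr a) := by
  have := Q.Phi_inv r (Sum.inl Y) (Sum.inr a)
  simpa [Sum.smul_inr, Sum.smul_inl, Q.fix Y r hr] using this

lemma Phi_fix_one {Y : A} {r : G} (hr : r ∈ Q.R Y) :
    Q.S.Phi (Sum.inr r) (Sum.inl Y) = Q.S.Phi (Sum.inr 1) (Sum.inl Y) := by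
  have := Q.Phi_fix_left hr 1
  simpa using this

lemma T_le {Y : A} {r : G} (hr : r ∈ Q.R Y) (hr1 : r ≠ 1) (u : G) :
    Q.T ≤ Q.S.D Y (Sum.inr 1) (Sum.inr u) + Q.S.D Y (Sum.inr 1) (Sum.inr (r⁻¹ * u)) := by
  have h1 := Q.rot Y r hr hr1 1
  have h2 := Q.S.tri Y (Sum.inr 1) (Sum.inr u) (Sum.inr r) (by simp) (by simp) (by simp)
  rw [Q.D_rot' hr u]
  rw [Q.S.symm Y (Sum.inr u) (Sum.inr r)] at h2
  simp only [mul_one] at h1
  omega

/-- height when `Y` is crossed -/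
lemma H_eq {Y : A} {u : G} (h : 2 * Q.S.θ < Q.S.D Y (Sum.inr 1) (Sum.inr u)) :
    Q.H u = Q.S.Phi (Sum.inr 1) (Sum.inl Y) +
      (Q.S.D Y (Sum.inr 1) (Sum.inr u) - 2 * Q.S.θ) + Q.S.Phi (Sum.inl Y) (Sum.inr u) :=
  StrongProj.Phi_split Y _ _ (by simp) (by simp) h

lemma H_eq' {Y : A} {r u : G} (hr : r ∈ Q.R Y)
    (h : 2 * Q.S.θ < Q.S.D Y (Sum.inr 1) (Sum.inr (r⁻¹ * u))) :
    Q.H (r⁻¹ * u) = Q.S.Phi (Sum.inr 1) (Sum.inl Y) +
      (Q.S.D Y (Sum.inr 1) (Sum.inr (r⁻¹ * u)) - 2 * Q.S.θ) +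
      Q.S.Phi (Sum.inl Y) (Sum.inr u) := by
  rw [Q.H_eq h, Q.Phi_fix_right ((Q.R Y).inv_mem hr)]

/-- if a rotation does not increase the height, the axis is crossed for half the rotation -/
lemma half {Y : A} {r u : G} (hr : r ∈ Q.R Y) (hr1 : r ≠ 1) (hH : Q.H (r⁻¹ * u) ≤ Q.H u) :
    Q.T ≤ 2 * Q.S.D Y (Sum.inr 1) (Sum.inr u) + 6 * Q.S.θ := by
  have h1 := Q.T_le hr hr1 u
  rcases Nat.lt_or_ge (2 * Q.S.θ) (Q.S.D Y (Sum.inr 1) (Sum.inr (r⁻¹ * u))) with h | h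
  · have h2 := Q.H_eq' hr h
    have h3 : Q.H u ≤ Q.S.Phi (Sum.inr 1) (Sum.inl Y) +
      (Q.S.D Y (Sum.inr 1) (Sum.inr u) - 2 * Q.S.θ) + Q.S.Phi (Sum.inl Y) (Sum.inr u) +
        4 * Q.S.θ := StrongProj.Phi_le Y 1 u
    omega
  · omega

/-- adjacency: a nontrivial rotation about some axis -/
def adj (x y : G) : Prop := ∃ Y, ∃ r ∈ Q.R Y, r ≠ 1 ∧ y = r⁻¹ * x

lemma adj.symm {x y : G} (h : Q.adj x y) : Q.adj y x := by
  obtain ⟨Y, r, hr, hr1, rfl⟩ := h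
  exact ⟨Y, r⁻¹, (Q.R Y).inv_mem hr, by simpa using hr1, by simp⟩

/-- resolution of a peak, ordered case -/
lemma peak_aux (hT : 16 * Q.S.θ < Q.T) {Y1 Y2 : A} (hne : Y1 ≠ Y2) {r1 r2 u : G}
    (hr1 : r1 ∈ Q.R Y1) (hr1' : r1 ≠ 1) (hr2 : r2 ∈ Q.R Y2) (hr2' : r2 ≠ 1)
    (hH1 : Q.H (r1⁻¹ * u) ≤ Q.H u) (hH2 : Q.H (r2⁻¹ * u) ≤ Q.H u)
    (hs : Q.H (r1⁻¹ * u) < Q.H u ∨ Q.H (r2⁻¹ * u) < Q.H u)
    (ho : Q.S.θ < Q.S.D Y1 (Sum.inl Y2) (Sum.inr 1)) :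
    Q.H (r1⁻¹ * (r2⁻¹ * u)) < Q.H u := by
  have hL1 := Q.half hr1 hr1' hH1
  have hL2 := Q.half hr2 hr2' hH2
  have hT1 := Q.T_le hr1 hr1' u
  have hT2 := Q.T_le hr2 hr2' u
  have h12 : (Sum.inl Y1 : A ⊕ G) ≠ Sum.inl Y2 := by simpa using hne
  have E1 := Q.S.exact Y2 Y1 (Sum.inr 1) hne.symm (by simp) (by simp) ho
  have hL2c : 2 * Q.S.θ < Q.S.D Y2 (Sum.inr 1) (Sum.inr u) := by omega
  have hL1c : 2 * Q.S.θ < Q.S.D Y1 (Sum.inr 1) (Sum.inr u) := by omega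
  have E2 := Q.S.exact Y1 Y2 (Sum.inr u) hne (by simp) (by simp)
    (by rw [E1]; omega)
  -- height of u
  have hu1 := Q.H_eq hL1c
  have hu2 := StrongProj.Phi_split (S := Q.S) Y2 (Sum.inl Y1) (Sum.inr u) h12 (by simp)
    (by rw [E1]; exact hL2c)
  rw [E1] at hu2
  -- the new element
  have hu3 : Q.H (r1⁻¹ * (r2⁻¹ * u)) = Q.S.Phi (Sum.inr r1) (Sum.inr (r2⁻¹ * u)) :=
    Q.H_inv_mul _ _
  have eL1 : Q.S.D Y1 (Sum.inr r1) (Sum.inl Y2) =
      Q.S.D Y1 (Sum.inr 1) (Sum.inr (r1⁻¹ * u)) := by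
    rw [Q.S.symm, E2, Q.D_rot' hr1, Q.S.symm]
  have eL2 : Q.S.D Y2 (Sum.inl Y1) (Sum.inr (r2⁻¹ * u)) =
      Q.S.D Y2 (Sum.inr 1) (Sum.inr (r2⁻¹ * u)) := E1 _
  have hchain := StrongProj.Phi_chain (S := Q.S) Y1 Y2 hne r1 (r2⁻¹ * u)
  rw [eL1, eL2, Q.Phi_fix_one hr1, Q.Phi_fix_right ((Q.R Y2).inv_mem hr2), ← hu3] at hchain
  -- comparison of the projections
  have c1 : Q.S.D Y1 (Sum.inr 1) (Sum.inr (r1⁻¹ * u)) - 2 * Q.S.θ ≤
      Q.S.D Y1 (Sum.inr 1) (Sum.inr u) - 2 * Q.S.θ := by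
    rcases Nat.lt_or_ge (2 * Q.S.θ) (Q.S.D Y1 (Sum.inr 1) (Sum.inr (r1⁻¹ * u))) with h | h
    · have := Q.H_eq' hr1 h
      omega
    · omega
  have c2 : Q.S.D Y2 (Sum.inr 1) (Sum.inr (r2⁻¹ * u)) - 2 * Q.S.θ ≤
      Q.S.D Y2 (Sum.inr 1) (Sum.inr u) - 2 * Q.S.θ := by
    rcases Nat.lt_or_ge (2 * Q.S.θ) (Q.S.D Y2 (Sum.inr 1) (Sum.inr (r2⁻¹ * u))) with h | h
    · have h' := Q.H_eq' hr2 h
      have h'' := Q.H_eq hL2c
      omega
    · omega
  rcases Nat.lt_or_ge (2 * Q.S.θ) (Q.S.D Y1 (Sum.inr 1) (Sum.inr (r1⁻¹ * u))) with h1 | h1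
  · rcases Nat.lt_or_ge (2 * Q.S.θ) (Q.S.D Y2 (Sum.inr 1) (Sum.inr (r2⁻¹ * u))) with h2 | h2
    · -- exact case
      have E3 := Q.S.exact Y1 Y2 (Sum.inr (r2⁻¹ * u)) hne (by simp) (by simp)
        (by rw [eL2]; omega)
      have e5 : Q.S.D Y1 (Sum.inr r1) (Sum.inr (r2⁻¹ * u)) =
          Q.S.D Y1 (Sum.inr 1) (Sum.inr (r1⁻¹ * u)) := by
        rw [Q.S.symm, ← E3, Q.S.symm, eL1]
      have s1 := StrongProj.Phi_split (S := Q.S) Y1 (Sum.inr r1) (Sum.inr (r2⁻¹ * u))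
        (by simp) (by simp) (by rw [e5]; exact h1)
      have s2 := StrongProj.Phi_split (S := Q.S) Y2 (Sum.inl Y1) (Sum.inr (r2⁻¹ * u))
        h12 (by simp) (by rw [eL2]; exact h2)
      rw [e5, Q.Phi_fix_one hr1] at s1
      rw [eL2, Q.Phi_fix_right ((Q.R Y2).inv_mem hr2)] at s2
      have a1 := Q.H_eq' hr1 h1
      have a2 := Q.H_eq' hr2 h2
      have a3 := Q.H_eq hL2c
      omega
    · omega
  · omega

lemma peak (hT : 16 * Q.S.θ < Q.T) {x y z : G} (hyx : Q.adj y x) (hyz : Q.adj y z)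
    (hx : Q.H x < Q.H y) (hz : Q.H z ≤ Q.H y) :
    x = z ∨ Q.adj x z ∨ ∃ v, Q.adj x v ∧ Q.adj v z ∧ Q.H v < Q.H y := by
  obtain ⟨Y1, r1, hr1, hr1', rfl⟩ := hyx
  obtain ⟨Y2, r2, hr2, hr2', rfl⟩ := hyz
  by_cases hne : Y1 = Y2
  · subst hne
    by_cases h : r1 = r2
    · left; rw [h]
    · right; left
      refine ⟨Y1, r1⁻¹ * r2, (Q.R Y1).mul_mem ((Q.R Y1).inv_mem hr1) hr2, ?_, ?_⟩
      · intro h'
        apply h
        rw [inv_mul_eq_one] at h'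
        exact h'
      · group
  · right; right
    have hL1 := Q.half hr1 hr1' hx.le
    have hL2 := Q.half hr2 hr2' hz
    have h12 : (Sum.inl Y1 : A ⊕ G) ≠ Sum.inl Y2 := by simpa using hne
    by_cases ho : Q.S.θ < Q.S.D Y1 (Sum.inl Y2) (Sum.inr 1)
    · refine ⟨r1⁻¹ * (r2⁻¹ * y), ?_, ?_, ?_⟩
      · refine ⟨r1⁻¹ • Y2, r1⁻¹ * r2 * r1⁻¹⁻¹, Q.conj _ _ _ hr2, ?_, ?_⟩
        · intro h
          apply hr2'
          have := congrArg (fun t => r1 * t * r1⁻¹) h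
          simpa [mul_assoc] using this
        · group
      · apply adj.symm
        exact ⟨Y1, r1, hr1, hr1', rfl⟩
      · exact Q.peak_aux hT hne hr1 hr1' hr2 hr2' hx.le hz (Or.inl hx) ho
    · have ho2 : Q.S.θ < Q.S.D Y2 (Sum.inl Y1) (Sum.inr 1) := by
        have t1 := Q.S.tri Y1 (Sum.inr 1) (Sum.inl Y2) (Sum.inr y) (by simp) h12.symm (by simp)
        rw [Q.S.symm Y1 (Sum.inr 1) (Sum.inl Y2)] at t1
        have E := Q.S.exact Y2 Y1 (Sum.inr y) (Ne.symm hne) (by simp) (by simp) (by omega)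
        rw [E, Q.S.symm]
        omega
      refine ⟨r2⁻¹ * (r1⁻¹ * y), ?_, ?_, ?_⟩
      · exact ⟨Y2, r2, hr2, hr2', rfl⟩
      · apply adj.symm
        refine ⟨r2⁻¹ • Y1, r2⁻¹ * r1 * r2⁻¹⁻¹, Q.conj _ _ _ hr1, ?_, ?_⟩
        · intro h
          apply hr1'
          have := congrArg (fun t => r2 * t * r2⁻¹) h
          simpa [mul_assoc] using this
        · group
      · exact Q.peak_aux hT (Ne.symm hne) hr2 hr2' hr1 hr1' hz hx.le (Or.inr hx) ho2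

/-- paths to the identity with their cost -/
inductive Pth : G → ℕ → Prop
  | nil : Pth 1 0
  | cons {x y : G} {w : ℕ} (h : Q.adj x y) (p : Pth y w) : Pth x (w + Q.H x + 1)

/-- monotone paths to the identity with their cost -/
inductive MPth : G → ℕ → Prop
  | nil : MPth 1 0
  | cons {x y : G} {w : ℕ} (h : Q.adj x y) (hH : Q.H y ≤ Q.H x) (p : MPth y w) :
      MPth x (w + Q.H x + 1)

lemma MPth.toPth {x : G} {w : ℕ} (h : Q.MPth x w) : Q.Pth x w := by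
  induction h with
  | nil => exact Pth.nil
  | cons h _ _ ih => exact Pth.cons h ih

lemma mono_path (hT : 16 * Q.S.θ < Q.T) : ∀ (w : ℕ) (x : G), Q.Pth x w →
    ∃ w' ≤ w, Q.MPth x w' := by
  intro w
  induction w using Nat.strong_induction_on with
  | _ w ih =>
  intro x hx
  cases hx with
  | nil => exact ⟨0, le_refl _, MPth.nil⟩
  | @cons _ y w1 h p =>
    obtain ⟨w1', hw1, hm⟩ := ih w1 (by omega) y p
    rcases Nat.lt_or_ge (Q.H x) (Q.H y) with hlt | hge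
    · cases hm with
      | nil => rw [Q.H_one] at hlt; omega
      | @cons _ z w2 h2 hH2 p2 =>
        rcases Q.peak hT (adj.symm Q h) h2 hlt hH2 with h3 | h3 | ⟨v, h3, h4, h5⟩
        · subst h3
          exact ⟨w2, by omega, p2⟩
        · obtain ⟨w', h6, h7⟩ := ih (w2 + Q.H x + 1) (by omega) x (Pth.cons h3 (MPth.toPth Q p2))
          exact ⟨w', by omega, h7⟩
        · obtain ⟨w', h6, h7⟩ := ih (w2 + Q.H v + 1 + Q.H x + 1) (by omega) x
            (Pth.cons h3 (Pth.cons h4 (MPth.toPth Q p2)))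
          exact ⟨w', by omega, h7⟩
    · exact ⟨w1' + Q.H x + 1, by omega, MPth.cons h hge hm⟩

/-- the group generated by all rotations -/
def N : Subgroup G := ⨆ Y, Q.R Y

lemma adj_mul_right {x z : G} (h : Q.adj x z) (y : G) : Q.adj (x * y) (z * y) := by
  obtain ⟨Y, r, hr, hr1, rfl⟩ := h
  exact ⟨Y, r, hr, hr1, by rw [mul_assoc]⟩

lemma Pth_mul {x : G} {w : ℕ} (hx : Q.Pth x w) {y : G} {w' : ℕ} (hy : Q.Pth y w') :
    ∃ w'', Q.Pth (x * y) w'' := by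
  induction hx with
  | nil => exact ⟨w', by rwa [one_mul]⟩
  | cons h _ ih =>
    obtain ⟨w'', h''⟩ := ih
    exact ⟨_, Pth.cons (Q.adj_mul_right h y) h''⟩

lemma exists_path {n : G} (hn : n ∈ Q.N) : ∃ w, Q.Pth n w := by
  unfold N at hn
  refine Subgroup.iSup_induction Q.R (C := fun n => ∃ w, Q.Pth n w) hn ?_ ?_ ?_
  · intro Y x hx
    by_cases h : x = 1
    · subst h; exact ⟨0, Pth.nil⟩
    · exact ⟨_, Pth.cons ⟨Y, x, hx, h, rfl⟩ (by rw [inv_mul_cancel]; exact Pth.nil)⟩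
  · exact ⟨0, Pth.nil⟩
  · rintro x y ⟨w, hx⟩ ⟨w', hy⟩
    exact Q.Pth_mul hx hy

/-- after a sliding rotation, all other projections are unchanged -/
lemma slide_lt {Y : A} {r u : G} (hr : r ∈ Q.R Y) {t : ℕ} (ht : Q.S.θ < t)
    (h1 : 2 * Q.S.θ < Q.S.D Y (Sum.inr 1) (Sum.inr u))
    (h2 : 2 * Q.S.θ < Q.S.D Y (Sum.inr 1) (Sum.inr (r⁻¹ * u)))
    (hu : ∀ V, Q.S.D V (Sum.inr 1) (Sum.inr u) < t) (V : A) (hV : V ≠ Y) :
    Q.S.D V (Sum.inr 1) (Sum.inr (r⁻¹ * u)) < t := by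
  by_contra hcon
  push Not at hcon
  rcases StrongProj.split (S := Q.S) Y (Sum.inr 1) (Sum.inr (r⁻¹ * u)) (by simp) (by simp) h2 V hV
    with ⟨_, e1, e2⟩ | ⟨_, e1, e2⟩
  · rcases StrongProj.split (S := Q.S) Y (Sum.inr 1) (Sum.inr u) (by simp) (by simp) h1 V hV
      with ⟨_, f1, f2⟩ | ⟨_, f1, f2⟩
    · have := hu V
      omega
    · omega
  · have hV' : r • V ≠ Y := by
      intro h
      apply hV
      have := Q.fix Y r⁻¹ ((Q.R Y).inv_mem hr)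
      rw [← this, ← h, inv_smul_smul]
    have e3 : Q.S.D (r • V) (Sum.inl Y) (Sum.inr u) =
        Q.S.D V (Sum.inl Y) (Sum.inr (r⁻¹ * u)) := by
      have := Q.inv r V (Sum.inl Y) (Sum.inr (r⁻¹ * u))
      simpa [Sum.smul_inl, Sum.smul_inr, Q.fix Y r hr] using this
    rcases StrongProj.split (S := Q.S) Y (Sum.inr 1) (Sum.inr u) (by simp) (by simp) h1 (r • V) hV'
      with ⟨_, f1, f2⟩ | ⟨_, f1, f2⟩
    · omega
    · have := hu (r • V)
      omega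

lemma mono_bound {t : ℕ} (ht : Q.S.θ < t) (htT : t + 2 * Q.S.θ ≤ Q.T) (hT : 16 * Q.S.θ < Q.T)
    {x : G} {w : ℕ} (h : Q.MPth x w) (hx : ∀ V, Q.S.D V (Sum.inr 1) (Sum.inr x) < t) :
    ∀ V, Q.S.D V (Sum.inr 1) (Sum.inr x) + t ≤ Q.T := by
  induction h with
  | nil =>
    intro V
    have := Q.S.self V (Sum.inr 1) (by simp)
    omega
  | @cons x y w h hH p ih =>
    exfalso
    obtain ⟨Y, r, hr, hr1, rfl⟩ := h
    have hL := Q.half hr hr1 hH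
    have hT' := Q.T_le hr hr1 x
    have hxY := hx Y
    have h1 : 2 * Q.S.θ < Q.S.D Y (Sum.inr 1) (Sum.inr x) := by omega
    have h2 : 2 * Q.S.θ < Q.S.D Y (Sum.inr 1) (Sum.inr (r⁻¹ * x)) := by omega
    have e1 := Q.H_eq h1
    have e2 := Q.H_eq' hr h2
    have h3 : ∀ V, Q.S.D V (Sum.inr 1) (Sum.inr (r⁻¹ * x)) < t := by
      intro V
      by_cases hV : V = Y
      · subst hV; omega
      · exact Q.slide_lt hr ht h1 h2 hx V hV
    have := ih h3 Y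
    omega

/-- Greendlinger property. -/
theorem greendlinger {t : ℕ} (ht : Q.S.θ < t) (htT : t + 2 * Q.S.θ ≤ Q.T)
    (hT : 16 * Q.S.θ < Q.T) {n : G} (hn : n ∈ Q.N) (hn1 : n ≠ 1) :
    ∃ V, t ≤ Q.S.D V (Sum.inr 1) (Sum.inr n) := by
  by_contra hcon
  push Not at hcon
  obtain ⟨w, hw⟩ := Q.exists_path hn
  obtain ⟨w', _, hm⟩ := Q.mono_path hT w n hw
  cases hm with
  | nil => exact hn1 rfl
  | @cons _ y w1 h hH p =>
    have hb := Q.mono_bound ht htT hT (MPth.cons h hH p) hcon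
    obtain ⟨Y, r, hr, hr1, rfl⟩ := h
    have hL := Q.half hr hr1 hH
    have hT' := Q.T_le hr hr1 n
    have hxY := hcon Y
    have h1 : 2 * Q.S.θ < Q.S.D Y (Sum.inr 1) (Sum.inr n) := by omega
    have h2 : 2 * Q.S.θ < Q.S.D Y (Sum.inr 1) (Sum.inr (r⁻¹ * n)) := by omega
    have e1 := Q.H_eq h1
    have e2 := Q.H_eq' hr h2
    have h3 : ∀ V, Q.S.D V (Sum.inr 1) (Sum.inr (r⁻¹ * n)) < t := by
      intro V
      by_cases hV : V = Y
      · subst hV; omega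
      · exact Q.slide_lt hr ht h1 h2 hcon V hV
    have := Q.mono_bound ht htT hT p h3 Y
    omega

end RotSys

end Pool.Agent.H73.Cg
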