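import Mathlib

set_option autoImplicit false

/-! Hyperbolic length functions on groups; loxodromic elements and their elementary closure. -/

namespace Pool.Agent.H73.Cg

/-- a proper hyperbolic length function on a group -/
structure HypLen (G : Type*) [Group G] where
  l : G → ℝ
  δ : ℝ
  δ0 : 0 ≤ δ
  one : l 1 = 0
  inv : ∀ x, l x⁻¹ = l x
  mul : ∀ x y, l (x * y) ≤ l x + l y
  hyp : ∀ x y z w, l (x⁻¹ * y) + l (z⁻¹ * w) ≤
    max (l (x⁻¹ * z) + l (y⁻¹ * w)) (l (x⁻¹ * w) + l (y⁻¹ * z)) + 2 * δ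
  fin : ∀ R : ℝ, {x | l x ≤ R}.Finite

namespace HypLen

variable {G : Type*} [Group G] (L : HypLen G)

/-- distance -/
def d (x y : G) : ℝ := L.l (x⁻¹ * y)

lemma d_self (x : G) : L.d x x = 0 := by simp [d, L.one]

lemma d_comm (x y : G) : L.d x y = L.d y x := by
  unfold d
  rw [← L.inv]
  simp

lemma d_mul (g x y : G) : L.d (g * x) (g * y) = L.d x y := by
  unfold d
  congr 1
  group

lemma d_tri (x y z : G) : L.d x z ≤ L.d x y + L.d y z := by
  unfold d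
  have := L.mul (x⁻¹ * y) (y⁻¹ * z)
  simpa [mul_assoc] using this

lemma l_nonneg (x : G) : 0 ≤ L.l x := by
  have h1 := L.mul x x⁻¹
  rw [mul_inv_cancel, L.one, L.inv] at h1
  linarith

lemma d_nonneg (x y : G) : 0 ≤ L.d x y := L.l_nonneg _

lemma d_one (x : G) : L.d 1 x = L.l x := by simp [d]

lemma d_one' (x : G) : L.d x 1 = L.l x := by rw [d_comm, d_one]

lemma four (x y z w : G) : L.d x y + L.d z w ≤
    max (L.d x z + L.d y w) (L.d x w + L.d y z) + 2 * L.δ := L.hyp x y z w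

/-- Gromov product -/
noncomputable def gp (z x y : G) : ℝ := (L.d z x + L.d z y - L.d x y) / 2

lemma gp_comm (z x y : G) : L.gp z x y = L.gp z y x := by
  unfold gp; rw [L.d_comm x y]; ring

lemma gp_mul (g z x y : G) : L.gp (g * z) (g * x) (g * y) = L.gp z x y := by
  unfold gp; rw [L.d_mul, L.d_mul, L.d_mul]

lemma gp_nonneg (z x y : G) : 0 ≤ L.gp z x y := by
  unfold gp
  have := L.d_tri x z y
  rw [L.d_comm x z] at this
  linarith

lemma gp_le_left (z x y : G) : L.gp z x y ≤ L.d z x := by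
  unfold gp
  have := L.d_tri z x y
  linarith

lemma gp_le_right (z x y : G) : L.gp z x y ≤ L.d z y := by
  rw [gp_comm]; exact L.gp_le_left _ _ _

lemma gp_min (z x y w : G) : min (L.gp z x y) (L.gp z y w) - L.δ ≤ L.gp z x w := by
  have h := L.four x w z y
  -- d x w + d z y ≤ max (d x z + d w y) (d x y + d w z) + 2δ
  unfold gp
  rcases le_total (L.d x z + L.d w y) (L.d x y + L.d w z) with h1 | h1
  · rw [max_eq_right h1] at h
    have e1 := L.d_comm x z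
    have e2 := L.d_comm w y
    have e3 := L.d_comm w z
    have : min ((L.d z x + L.d z y - L.d x y) / 2) ((L.d z y + L.d z w - L.d y w) / 2) ≤
      (L.d z x + L.d z y - L.d x y) / 2 := min_le_left _ _
    linarith
  · rw [max_eq_left h1] at h
    have e1 := L.d_comm x z
    have e2 := L.d_comm w y
    have e3 := L.d_comm w z
    have : min ((L.d z x + L.d z y - L.d x y) / 2) ((L.d z y + L.d z w - L.d y w) / 2) ≤
      (L.d z y + L.d z w - L.d y w) / 2 := min_le_right _ _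
    linarith

/-- Loxodromic element with its translation length -/
structure Lox where
  g : G
  τ : ℝ
  κ : ℝ
  τ0 : 0 < τ
  κ0 : 0 ≤ κ
  lo : ∀ n : ℤ, |(n : ℝ)| * τ - κ ≤ L.l (g ^ n)
  hi : ∀ n : ℤ, L.l (g ^ n) ≤ |(n : ℝ)| * τ + κ

namespace Lox

variable {L} (X : L.Lox)

lemma d_pow (i j : ℤ) : L.d (X.g ^ i) (X.g ^ j) = L.l (X.g ^ (j - i)) := by
  unfold d
  congr 1
  rw [← zpow_neg, ← zpow_add]
  congr 1
  ring

lemma d_pow_lo (i j : ℤ) : |(j : ℝ) - i| * X.τ - X.κ ≤ L.d (X.g ^ i) (X.g ^ j) := by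
  rw [d_pow]
  have := X.lo (j - i)
  push_cast at this
  exact this

lemma d_pow_hi (i j : ℤ) : L.d (X.g ^ i) (X.g ^ j) ≤ |(j : ℝ) - i| * X.τ + X.κ := by
  rw [d_pow]
  have := X.hi (j - i)
  push_cast at this
  exact this

lemma gp_pow {i k j : ℤ} (h1 : i ≤ k) (h2 : k ≤ j) :
    L.gp (X.g ^ k) (X.g ^ i) (X.g ^ j) ≤ 3 * X.κ / 2 := by
  unfold gp
  have e1 := X.d_pow_hi k i
  have e2 := X.d_pow_hi k j
  have e3 := X.d_pow_lo i j
  have h1' : (i : ℝ) ≤ k := by exact_mod_cast h1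
  have h2' : (k : ℝ) ≤ j := by exact_mod_cast h2
  rw [abs_of_nonpos (by linarith)] at e1
  rw [abs_of_nonneg (by linarith)] at e2
  rw [abs_of_nonneg (by linarith)] at e3
  nlinarith

/-- quasiconvexity constant of the cyclic group -/
noncomputable def q : ℝ := X.τ + 3 * X.κ + 2 * L.δ

lemma q0 : 0 ≤ X.q := by
  unfold q
  have := X.τ0; have := X.κ0; have := L.δ0
  linarith

lemma qc_pow (i j : ℤ) (x : G) : ∃ k : ℤ,
    L.d x (X.g ^ k) ≤ L.gp x (X.g ^ i) (X.g ^ j) + X.q := by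
  wlog hij : i ≤ j generalizing i j
  · obtain ⟨k, hk⟩ := this j i (by omega)
    exact ⟨k, by rwa [L.gp_comm] at hk⟩
  set a := X.g ^ i with ha
  set b := X.g ^ j with hb
  set t : ℝ := L.gp a x b with ht
  have ht0 : 0 ≤ t := L.gp_nonneg _ _ _
  have htD : t ≤ L.d a b := L.gp_le_right _ _ _
  have hτ := X.τ0
  have hκ := X.κ0
  have hij' : (i : ℝ) ≤ j := by exact_mod_cast hij
  have hD1 := X.d_pow_hi i j
  have hD2 := X.d_pow_lo i j
  rw [abs_of_nonneg (by linarith), ← ha, ← hb] at hD1 hD2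
  -- choose k
  set n : ℤ := min ⌊t / X.τ⌋ (j - i) with hn
  have hn0 : 0 ≤ n := le_min (Int.floor_nonneg.2 (by positivity)) (by omega)
  have hn1 : n ≤ j - i := min_le_right _ _
  have hn2 : (n : ℝ) * X.τ ≤ t := by
    have : (n : ℝ) ≤ t / X.τ := by
      have h1 : (n : ℝ) ≤ (⌊t / X.τ⌋ : ℝ) := by exact_mod_cast min_le_left _ _
      exact h1.trans (Int.floor_le _)
    calc (n : ℝ) * X.τ ≤ t / X.τ * X.τ := by gcongr
      _ = t := by field_simp
  have hn3 : t - X.τ - X.κ ≤ (n : ℝ) * X.τ := by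
    rcases le_total ⌊t / X.τ⌋ (j - i) with h | h
    · rw [hn, min_eq_left h]
      have h1 : t / X.τ - 1 < (⌊t / X.τ⌋ : ℝ) := Int.sub_one_lt_floor _
      have h2 : (t / X.τ - 1) * X.τ ≤ (⌊t / X.τ⌋ : ℝ) * X.τ := by gcongr
      have h3 : (t / X.τ - 1) * X.τ = t - X.τ := by field_simp
      linarith
    · rw [hn, min_eq_right h]
      push_cast
      linarith
  refine ⟨i + n, ?_⟩
  set m := X.g ^ (i + n) with hm
  have hn0' : (0 : ℝ) ≤ n := by exact_mod_cast hn0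
  have hn1' : (n : ℝ) ≤ j - i := by exact_mod_cast hn1
  have e1 := X.d_pow_hi (i + n) i
  have e2 := X.d_pow_hi (i + n) j
  push_cast at e1 e2
  rw [abs_of_nonpos (by linarith), ← hm, ← ha] at e1
  rw [abs_of_nonneg (by linarith), ← hm, ← hb] at e2
  have h4 := L.four x m a b
  have e3 : L.d x a = L.gp x a b + t := by
    rw [ht]; unfold gp; rw [L.d_comm a x, L.d_comm x b]; ring
  have e4 : L.d x b = L.gp x a b + L.d a b - t := by
    rw [ht]; unfold gp; rw [L.d_comm a x, L.d_comm x b]; ring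
  unfold q
  rcases le_total (L.d x a + L.d m b) (L.d x b + L.d m a) with h | h
  · rw [max_eq_right h] at h4
    nlinarith
  · rw [max_eq_left h] at h4
    nlinarith

/-- the elementary closure of a loxodromic element -/
def E : Subgroup G where
  carrier := {x | ∃ s t : ℤ, s ≠ 0 ∧ t ≠ 0 ∧ x * X.g ^ s * x⁻¹ = X.g ^ t}
  one_mem' := ⟨1, 1, one_ne_zero, one_ne_zero, by simp⟩
  mul_mem' := by
    rintro x y ⟨s, t, hs, ht, h⟩ ⟨s', t', hs', ht', h'⟩
    refine ⟨s * s', t * t', mul_ne_zero hs hs', mul_ne_zero ht ht', ?_⟩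
    calc x * y * X.g ^ (s * s') * (x * y)⁻¹ = x * (y * X.g ^ (s' * s) * y⁻¹) * x⁻¹ := by
          rw [mul_comm s s']; group
      _ = x * (y * X.g ^ s' * y⁻¹) ^ s * x⁻¹ := by rw [conj_zpow, zpow_mul]
      _ = x * (X.g ^ t') ^ s * x⁻¹ := by rw [h']
      _ = x * (X.g ^ s) ^ t' * x⁻¹ := by rw [← zpow_mul, ← zpow_mul, mul_comm]
      _ = (x * X.g ^ s * x⁻¹) ^ t' := by rw [conj_zpow]
      _ = X.g ^ (t * t') := by rw [h, ← zpow_mul]
  inv_mem' := by
    rintro x ⟨s, t, hs, ht, h⟩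
    refine ⟨t, s, ht, hs, ?_⟩
    rw [← h]; group

lemma mem_E {x : G} : x ∈ X.E ↔ ∃ s t : ℤ, s ≠ 0 ∧ t ≠ 0 ∧ x * X.g ^ s * x⁻¹ = X.g ^ t :=
  Iff.rfl

lemma g_mem : X.g ∈ X.E := ⟨1, 1, one_ne_zero, one_ne_zero, by simp⟩

lemma pow_mem (n : ℤ) : X.g ^ n ∈ X.E := X.E.zpow_mem X.g_mem n

lemma conj_pow {x : G} {s t : ℤ} (h : x * X.g ^ s * x⁻¹ = X.g ^ t) (n : ℤ) :
    x * X.g ^ (s * n) = X.g ^ (t * n) * x := by
  rw [zpow_mul, zpow_mul, ← h, conj_zpow]; group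

/-- elements of `E` are close to the cyclic group -/
noncomputable def e : ℝ := 3 * X.κ / 2 + 2 * L.δ + X.q

lemma e0 : 0 ≤ X.e := by
  unfold e
  have := X.q0; have := X.κ0; have := L.δ0
  linarith

lemma close {x : G} (hx : x ∈ X.E) : ∃ k : ℤ, L.d x (X.g ^ k) ≤ X.e := by
  obtain ⟨s, t, hs, ht, h⟩ := hx
  obtain ⟨N, hN⟩ := exists_nat_gt ((3 * X.κ / 2 + 2 * L.δ + L.l x + X.κ) / X.τ)
  have hτ := X.τ0
  have hN' : 3 * X.κ / 2 + 2 * L.δ + L.l x + X.κ < N * X.τ := by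
    rwa [div_lt_iff₀ hτ] at hN
  have hsN : ∀ n : ℤ, |n| = N → (N : ℝ) * X.τ - X.κ ≤ L.d x (x * X.g ^ (s * n)) := by
    intro n hn
    have e1 : L.d x (x * X.g ^ (s * n)) = L.l (X.g ^ (s * n)) := by
      unfold d; congr 1; group
    rw [e1]
    have e2 := X.lo (s * n)
    have e3 : (N : ℝ) ≤ |((s * n : ℤ) : ℝ)| := by
      push_cast
      rw [abs_mul]
      have h1 : (1 : ℝ) ≤ |(s : ℝ)| := by
        have : (1 : ℤ) ≤ |s| := Int.one_le_abs hs
        exact_mod_cast this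
      have h2 : |(n : ℝ)| = N := by exact_mod_cast hn
      rw [h2]
      nlinarith [Nat.cast_nonneg (α := ℝ) N]
    nlinarith
  have hpq : ∀ n : ℤ, L.d (X.g ^ (t * n)) (x * X.g ^ (s * n)) = L.l x := by
    intro n
    rw [X.conj_pow h n]
    unfold d; congr 1; group
  have hgp : ∀ n : ℤ, |n| = N → 3 * X.κ / 2 + 2 * L.δ <
      L.gp x (x * X.g ^ (s * n)) (X.g ^ (t * n)) := by
    intro n hn
    have h1 := hsN n hn
    have h2 := hpq n
    have h3 := L.d_tri x (X.g ^ (t * n)) (x * X.g ^ (s * n))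
    unfold gp
    rw [L.d_comm (x * X.g ^ (s * n)) (X.g ^ (t * n)), h2]
    linarith
  have hpp : L.gp x (x * X.g ^ (s * N)) (x * X.g ^ (s * (-(N : ℤ)))) ≤ 3 * X.κ / 2 := by
    have := L.gp_mul x 1 (X.g ^ (s * N)) (X.g ^ (s * (-(N : ℤ))))
    rw [mul_one] at this
    rw [this]
    have e0 : (1 : G) = X.g ^ (0 : ℤ) := by simp
    rw [e0]
    rcases le_or_gt s 0 with h1 | h1
    · apply X.gp_pow
      · nlinarith [Int.natCast_nonneg N]
      · nlinarith [Int.natCast_nonneg N]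
    · rw [L.gp_comm]
      apply X.gp_pow
      · nlinarith [Int.natCast_nonneg N]
      · nlinarith [Int.natCast_nonneg N]
  have k1 := hgp N (by simp)
  have k2 := hgp (-(N : ℤ)) (by simp)
  set p1 := x * X.g ^ (s * (N : ℤ))
  set p2 := x * X.g ^ (s * (-(N : ℤ)))
  set q1 := X.g ^ (t * (N : ℤ)) with hq1
  set q2 := X.g ^ (t * (-(N : ℤ))) with hq2
  have m1 := L.gp_min x p1 q1 p2
  have m2 := L.gp_min x q1 q2 p2
  have hδ := L.δ0
  have hκ := X.κ0
  have hqq : L.gp x q1 q2 ≤ 3 * X.κ / 2 + 2 * L.δ := by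
    by_contra hcon
    push Not at hcon
    rw [L.gp_comm x q2 p2] at m2
    have m3 : 3 * X.κ / 2 + 2 * L.δ - L.δ < L.gp x q1 p2 := by
      have : 3 * X.κ / 2 + 2 * L.δ < min (L.gp x q1 q2) (L.gp x p2 q2) := lt_min hcon k2
      linarith
    have : 3 * X.κ / 2 + L.δ < min (L.gp x p1 q1) (L.gp x q1 p2) := lt_min (by linarith)
      (by linarith)
    linarith
  obtain ⟨k, hk⟩ := X.qc_pow (t * (N : ℤ)) (t * (-(N : ℤ))) x
  refine ⟨k, hk.trans ?_⟩
  unfold e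
  rw [← hq1, ← hq2]
  linarith

/-- quasiconvexity constant of `E` -/
noncomputable def Q : ℝ := 2 * X.e + X.q

lemma Q0 : 0 ≤ X.Q := by
  unfold Q
  have := X.q0; have := X.e0
  linarith

lemma qc {p r : G} (hp : p ∈ X.E) (hr : r ∈ X.E) (x : G) :
    ∃ k : ℤ, L.d x (X.g ^ k) ≤ L.gp x p r + X.Q := by
  obtain ⟨i, hi⟩ := X.close hp
  obtain ⟨j, hj⟩ := X.close hr
  obtain ⟨k, hk⟩ := X.qc_pow i j x
  refine ⟨k, hk.trans ?_⟩
  unfold gp Q
  have e1 := L.d_tri x p (X.g ^ i)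
  have e2 := L.d_tri x r (X.g ^ j)
  have e3 := L.d_tri p (X.g ^ i) r
  have e4 := L.d_tri (X.g ^ i) (X.g ^ j) r
  rw [L.d_comm (X.g ^ j) r] at e4
  linarith

lemma inf_order {n : ℤ} (h : X.g ^ n = 1) : n = 0 := by
  by_contra hn
  obtain ⟨N, hN⟩ := exists_nat_gt (X.κ / X.τ)
  have hτ := X.τ0
  rw [div_lt_iff₀ hτ] at hN
  have e1 := X.lo (n * N)
  rw [zpow_mul, h, one_zpow, L.one] at e1
  have h1 : (1 : ℝ) ≤ |(n : ℝ)| := by
    have : (1 : ℤ) ≤ |n| := Int.one_le_abs hn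
    exact_mod_cast this
  push_cast at e1
  rw [abs_mul, Nat.abs_cast] at e1
  have : (N : ℝ) * X.τ ≤ |(n : ℝ)| * N * X.τ := by
    have : (N : ℝ) ≤ |(n : ℝ)| * N := by nlinarith [Nat.cast_nonneg (α := ℝ) N]
    gcongr
  linarith

/-- every element of `E` has a nonzero power in the cyclic group -/
lemma exists_pow {f : G} (hf : f ∈ X.E) : ∃ s : ℤ, s ≠ 0 ∧ ∃ t : ℤ, f ^ s = X.g ^ t := by
  choose k hk using fun n : ℕ => X.close (X.E.pow_mem hf n)
  have hfin := L.fin X.e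
  have hmap : ∀ n : ℕ, (X.g ^ (k n))⁻¹ * f ^ n ∈ {x | L.l x ≤ X.e} := by
    intro n
    have := hk n
    rw [L.d_comm] at this
    exact this
  obtain ⟨a, -, b, -, hab, heq⟩ := Set.infinite_univ.exists_ne_map_eq_of_mapsTo
    (f := fun n : ℕ => (X.g ^ (k n))⁻¹ * f ^ n) (fun n _ => hmap n) hfin
  refine ⟨(b : ℤ) - a, by omega, k b - k a, ?_⟩
  have h1 : f ^ b = X.g ^ (k b) * ((X.g ^ (k a))⁻¹ * f ^ a) := by
    have : (X.g ^ k a)⁻¹ * f ^ a = (X.g ^ k b)⁻¹ * f ^ b := heq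
    rw [this]; group
  rw [zpow_sub, zpow_natCast, zpow_natCast, h1, zpow_sub]
  group

lemma abs_eq {x : G} {s t : ℤ} (h : x * X.g ^ s * x⁻¹ = X.g ^ t) : |s| = |t| := by
  have key : ∀ (x : G) (s t : ℤ), x * X.g ^ s * x⁻¹ = X.g ^ t → |t| ≤ |s| := by
    intro x s t h
    by_contra hcon
    push Not at hcon
    have hτ := X.τ0
    obtain ⟨N, hN⟩ := exists_nat_gt ((2 * L.l x + 2 * X.κ) / X.τ)
    rw [div_lt_iff₀ hτ] at hN
    have e1 := X.lo (t * N)
    have e2 := X.hi (s * N)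
    have e3 : X.g ^ (t * (N : ℤ)) = x * X.g ^ (s * (N : ℤ)) * x⁻¹ := by
      rw [X.conj_pow h]; group
    have e4 := L.mul (x * X.g ^ (s * (N : ℤ))) x⁻¹
    have e5 := L.mul x (X.g ^ (s * (N : ℤ)))
    rw [L.inv] at e4
    rw [← e3] at e4
    push_cast at e1 e2
    rw [abs_mul, Nat.abs_cast] at e1 e2
    have h1 : |(s : ℝ)| + 1 ≤ |(t : ℝ)| := by exact_mod_cast hcon
    have h2 : (|(s : ℝ)| + 1) * N * X.τ ≤ |(t : ℝ)| * N * X.τ := by gcongr
    nlinarith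
  apply le_antisymm
  · apply key x⁻¹ t s
    rw [← h]; group
  · exact key x s t h

lemma exists_period : ∃ p : ℕ, 0 < p ∧ ∀ x ∈ X.E, x * X.g ^ (p : ℤ) * x⁻¹ = X.g ^ (p : ℤ) ∨
    x * X.g ^ (p : ℤ) * x⁻¹ = X.g ^ (-(p : ℤ)) := by
  classical
  have hfin : {x | L.l x ≤ X.e}.Finite := L.fin X.e
  set B : Finset G := hfin.toFinset.filter (fun x => x ∈ X.E) with hB
  have hper : ∀ b ∈ B, ∃ s : ℕ, 0 < s ∧ (b * X.g ^ (s : ℤ) * b⁻¹ = X.g ^ (s : ℤ) ∨
      b * X.g ^ (s : ℤ) * b⁻¹ = X.g ^ (-(s : ℤ))) := by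
    intro b hb
    obtain ⟨s, t, hs, ht, h⟩ := (Finset.mem_filter.1 hb).2
    have habs := X.abs_eq h
    refine ⟨s.natAbs, Int.natAbs_pos.2 hs, ?_⟩
    rcases abs_eq_abs.1 habs with h1 | h1
    · subst h1
      rcases Int.natAbs_eq s with h2 | h2
      · left
        rw [← h2]; exact h
      · left
        have : (s.natAbs : ℤ) = -s := by omega
        rw [this]
        calc b * X.g ^ (-s) * b⁻¹ = (b * X.g ^ s * b⁻¹)⁻¹ := by group
          _ = X.g ^ (-s) := by rw [h, zpow_neg]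
    · have h1' : t = -s := by omega
      subst h1'
      rcases Int.natAbs_eq s with h2 | h2
      · right
        rw [← h2]; exact h
      · right
        have : (s.natAbs : ℤ) = -s := by omega
        rw [this, neg_neg]
        calc b * X.g ^ (-s) * b⁻¹ = (b * X.g ^ s * b⁻¹)⁻¹ := by group
          _ = X.g ^ s := by rw [h, zpow_neg, inv_inv]
  choose! s hs using hper
  refine ⟨∏ b ∈ B, s b, Finset.prod_pos (fun b hb => (hs b hb).1), ?_⟩
  intro x hx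
  obtain ⟨k, hk⟩ := X.close hx
  rw [L.d_comm] at hk
  have hb : (X.g ^ k)⁻¹ * x ∈ B := by
    rw [hB, Finset.mem_filter, Set.Finite.mem_toFinset]
    exact ⟨hk, X.E.mul_mem (X.E.inv_mem (X.pow_mem k)) hx⟩
  set b := (X.g ^ k)⁻¹ * x with hbdef
  have hxb : x = X.g ^ k * b := by rw [hbdef]; group
  obtain ⟨m, hm⟩ := Finset.dvd_prod_of_mem s hb
  have e1 : ((∏ b ∈ B, s b : ℕ) : ℤ) = (s b : ℤ) * m := by exact_mod_cast hm
  rw [e1]
  rcases (hs b hb).2 with h | h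
  · left
    have := X.conj_pow h m
    rw [hxb]
    calc X.g ^ k * b * X.g ^ ((s b : ℤ) * m) * (X.g ^ k * b)⁻¹
        = X.g ^ k * (b * X.g ^ ((s b : ℤ) * m)) * b⁻¹ * (X.g ^ k)⁻¹ := by group
      _ = X.g ^ k * (X.g ^ ((s b : ℤ) * m) * b) * b⁻¹ * (X.g ^ k)⁻¹ := by rw [this]
      _ = _ := by group
  · right
    have := X.conj_pow h m
    rw [hxb]
    calc X.g ^ k * b * X.g ^ ((s b : ℤ) * m) * (X.g ^ k * b)⁻¹
        = X.g ^ k * (b * X.g ^ ((s b : ℤ) * m)) * b⁻¹ * (X.g ^ k)⁻¹ := by group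
      _ = X.g ^ k * (X.g ^ (-(s b : ℤ) * m) * b) * b⁻¹ * (X.g ^ k)⁻¹ := by rw [this]
      _ = _ := by group

end Lox

end HypLen

end Pool.Agent.H73.Cg
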