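import Pool.Agent.H73.CgA
import Pool.Agent.H73.CgC

set_option autoImplicit false

/-! Projections to the cosets of the elementary closure form a weak projection system. -/

namespace Pool.Agent.H73.Cg

namespace HypLen

variable {G : Type*} [Group G] {L : HypLen G}

namespace Lox

variable (X : L.Lox)

/-- the class of an element -/
def co (x : G) : G ⧸ X.E := (x : G ⧸ X.E)

lemma co_eq {x y : G} : X.co x = X.co y ↔ x⁻¹ * y ∈ X.E := QuotientGroup.eq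

lemma co_surj (Y : G ⧸ X.E) : ∃ x, X.co x = Y := QuotientGroup.mk_surjective Y

lemma smul_co (g x : G) : g • X.co x = X.co (g * x) := rfl

lemma co_mul {x e : G} (he : e ∈ X.E) : X.co (x * e) = X.co x := by
  symm; rw [co_eq]; simpa using he

/-- nearest point projection to a coset -/
def proj (Y : G ⧸ X.E) (x : G) : Set G :=
  {y | X.co y = Y ∧ ∀ z, X.co z = Y → L.d x y ≤ L.d x z}

variable {X}

lemma proj_nonempty (Y : G ⧸ X.E) (x : G) : (X.proj Y x).Nonempty := by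
  obtain ⟨y0, hy0⟩ := X.co_surj Y
  have hfin : {y | X.co y = Y ∧ L.d x y ≤ L.d x y0}.Finite := by
    apply ((L.fin (L.d x y0)).image (fun z => x * z)).subset
    rintro y ⟨_, hy⟩
    exact ⟨x⁻¹ * y, hy, by simp⟩
  obtain ⟨y, hy, hmin⟩ := Set.exists_min_image _ (fun y => L.d x y) hfin ⟨y0, hy0, le_refl _⟩
  refine ⟨y, hy.1, fun z hz => ?_⟩
  by_cases h : L.d x z ≤ L.d x y0
  · exact hmin z ⟨hz, h⟩
  · push Not at h
    exact hy.2.trans h.le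

lemma proj_mk {Y : G ⧸ X.E} {x p : G} (hp : p ∈ X.proj Y x) : X.co p = Y := hp.1

lemma proj_smul (g : G) {Y : G ⧸ X.E} {x p : G} (hp : p ∈ X.proj Y x) :
    g * p ∈ X.proj (g • Y) (g * x) := by
  refine ⟨by rw [← hp.1, smul_co], fun z hz => ?_⟩
  rw [L.d_mul]
  have h1 : X.co (g⁻¹ * z) = Y := by
    rw [← smul_co, hz, inv_smul_smul]
  have := hp.2 _ h1
  have h2 : L.d (g * x) z = L.d x (g⁻¹ * z) := by
    rw [← L.d_mul g x (g⁻¹ * z)]; simp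
  rw [h2]; exact this

lemma qc_coset {Y : G ⧸ X.E} {p r : G} (hp : X.co p = Y) (hr : X.co r = Y) (x : G) :
    ∃ z, X.co z = Y ∧ L.d x z ≤ L.gp x p r + X.Q := by
  have h1 : p⁻¹ * r ∈ X.E := X.co_eq.1 (hp.trans hr.symm)
  obtain ⟨k, hk⟩ := X.qc X.E.one_mem h1 (p⁻¹ * x)
  refine ⟨p * X.g ^ k, by rw [X.co_mul (X.pow_mem k), hp], ?_⟩
  have e1 : L.d x (p * X.g ^ k) = L.d (p⁻¹ * x) (X.g ^ k) := by
    rw [← L.d_mul p (p⁻¹ * x)]; simp
  have e2 : L.gp x p r = L.gp (p⁻¹ * x) 1 (p⁻¹ * r) := by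
    rw [← L.gp_mul p (p⁻¹ * x)]; simp
  rw [e1, e2]; exact hk

lemma F1 {Y : G ⧸ X.E} {x p r : G} (hp : p ∈ X.proj Y x) (hr : X.co r = Y) :
    L.d x p + L.d p r - 2 * X.Q ≤ L.d x r := by
  obtain ⟨z, hz, h⟩ := qc_coset hp.1 hr x
  have := hp.2 z hz
  unfold gp at h
  linarith

lemma F2 {Y : G ⧸ X.E} {x y p r : G} (hp : p ∈ X.proj Y x) (hr : r ∈ X.proj Y y)
    (h : 2 * X.Q + L.δ < L.d p r) :
    L.d x p + L.d p r + L.d r y - 4 * X.Q - 2 * L.δ ≤ L.d x y := by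
  have e1 := F1 hp hr.1
  have e2 := F1 hr hp.1
  have e3 := L.four x r y p
  rw [L.d_comm r p] at e2 e3
  rw [L.d_comm y r] at e2
  rcases le_total (L.d x y + L.d p r) (L.d x p + L.d r y) with h1 | h1
  · rw [max_eq_right h1] at e3
    linarith
  · rw [max_eq_left h1] at e3
    linarith

lemma F3 {Y : G ⧸ X.E} {x p r : G} (hp : p ∈ X.proj Y x) (hr : r ∈ X.proj Y x) :
    L.d p r ≤ 2 * X.Q := by
  have e1 := F1 hp hr.1
  have e2 := hr.2 p hp.1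
  linarith

variable (X)

/-- radius of the ball used in the pigeonhole argument -/
noncomputable def kc : ℝ := 3 * X.κ / 2 + X.e + 3 * X.Q + L.δ

/-- bound for the projection of a coset to another one -/
noncomputable def B0 : ℝ :=
  2 * X.Q + L.δ + ((L.fin X.kc).toFinset.card : ℝ) * X.τ + X.κ + X.e

variable {X}

lemma Q_le_B0 : 2 * X.Q + L.δ ≤ X.B0 := by
  unfold B0
  have := X.κ0; have := X.e0; have := X.τ0
  have : 0 ≤ ((L.fin X.kc).toFinset.card : ℝ) * X.τ := by positivity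
  linarith

lemma P0 {Y Z : G ⧸ X.E} (hYZ : Y ≠ Z) {x x' p p' : G} (hx : X.co x = Z) (hx' : X.co x' = Z)
    (hp : p ∈ X.proj Y x) (hp' : p' ∈ X.proj Y x') : L.d p p' ≤ X.B0 := by
  rcases le_or_gt (L.d p p') (2 * X.Q + L.δ) with h | h
  · exact h.trans Q_le_B0
  have hF := F2 hp hp' h
  have hf : p⁻¹ * p' ∈ X.E := X.co_eq.1 (hp.1.trans hp'.1.symm)
  obtain ⟨j, hj⟩ := X.close hf
  -- the estimate for points in between
  have hmid : ∀ i : ℤ, (min 0 j ≤ i ∧ i ≤ max 0 j) → ∃ z, X.co z = Z ∧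
      L.d (p * X.g ^ i) z ≤ X.kc := by
    intro i hi
    set m := p * X.g ^ i with hm
    have e1 : L.gp m p p' = L.gp (X.g ^ i) 1 (p⁻¹ * p') := by
      rw [← L.gp_mul p (X.g ^ i)]; simp [hm]
    have e2 : L.gp (X.g ^ i) 1 (p⁻¹ * p') ≤ L.gp (X.g ^ i) (X.g ^ (0 : ℤ)) (X.g ^ j) + X.e := by
      unfold gp
      have t1 := L.d_tri (X.g ^ i) (X.g ^ j) (p⁻¹ * p')
      have t2 := L.d_tri 1 (p⁻¹ * p') (X.g ^ j)
      rw [L.d_comm (X.g ^ j) (p⁻¹ * p')] at t1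
      simp only [zpow_zero]
      linarith
    have e3 : L.gp (X.g ^ i) (X.g ^ (0 : ℤ)) (X.g ^ j) ≤ 3 * X.κ / 2 := by
      rcases le_total 0 j with h0 | h0
      · rw [min_eq_left h0, max_eq_right h0] at hi
        exact X.gp_pow hi.1 hi.2
      · rw [min_eq_right h0, max_eq_left h0] at hi
        rw [L.gp_comm]
        exact X.gp_pow hi.1 hi.2
    have e4 : L.gp m x x' ≤ L.gp m p p' + 2 * X.Q + L.δ := by
      unfold gp
      have t1 := L.d_tri m p x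
      have t2 := L.d_tri m p' x'
      rw [L.d_comm p x] at t1
      linarith
    obtain ⟨z, hz, hz'⟩ := qc_coset hx hx' m
    refine ⟨z, hz, hz'.trans ?_⟩
    unfold kc
    linarith
  choose! z hz using hmid
  have hcard : (Finset.Icc (min 0 j) (max 0 j)).card = j.natAbs + 1 := by
    rw [Int.card_Icc]
    rcases le_total 0 j with h0 | h0
    · rw [min_eq_left h0, max_eq_right h0]; omega
    · rw [min_eq_right h0, max_eq_left h0]; omega
  have hjle : j.natAbs ≤ (L.fin X.kc).toFinset.card := by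
    by_contra hcon
    push Not at hcon
    have hlt : (L.fin X.kc).toFinset.card < (Finset.Icc (min 0 j) (max 0 j)).card := by
      rw [hcard]; omega
    obtain ⟨a, ha, b, hb, hab, heq⟩ := Finset.exists_ne_map_eq_of_card_lt_of_maps_to hlt
      (f := fun i => (p * X.g ^ i)⁻¹ * z i) (by
        intro i hi
        have hi' := Finset.mem_Icc.1 (Finset.mem_coe.1 hi)
        have := (hz i hi').2
        simp only [Set.Finite.coe_toFinset]
        exact this)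
    have ha' := hz a (Finset.mem_Icc.1 ha)
    have hb' := hz b (Finset.mem_Icc.1 hb)
    set u := (p * X.g ^ a)⁻¹ * z a with hu
    have hub : u = (p * X.g ^ b)⁻¹ * z b := heq
    have hza : z a = p * X.g ^ a * u := by rw [hu]; group
    have hzb : z b = p * X.g ^ b * u := by rw [hub]; group
    have hE : u⁻¹ * X.g ^ (b - a) * u ∈ X.E := by
      have h1 := X.co_eq.1 (ha'.1.trans hb'.1.symm)
      rw [hza, hzb] at h1
      have h2 : (p * X.g ^ a * u)⁻¹ * (p * X.g ^ b * u) = u⁻¹ * X.g ^ (b - a) * u := by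
        group
      rwa [h2] at h1
    obtain ⟨s, hs, t, hst⟩ := X.exists_pow hE
    have h3 : u⁻¹ * X.g ^ ((b - a) * s) * (u⁻¹)⁻¹ = X.g ^ t := by
      rw [← hst, zpow_mul]
      have := conj_zpow (i := s) (a := u⁻¹) (b := X.g ^ (b - a))
      rw [inv_inv] at this ⊢
      rw [this]
    have hba : (b - a) * s ≠ 0 := mul_ne_zero (sub_ne_zero.2 (Ne.symm hab)) hs
    have ht : t ≠ 0 := by
      rintro rfl
      rw [zpow_zero] at h3
      apply hba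
      apply X.inf_order
      have := congrArg (fun y => u * y * u⁻¹) h3
      simp only [inv_inv] at this
      calc X.g ^ ((b - a) * s) = u * (u⁻¹ * X.g ^ ((b - a) * s) * u) * u⁻¹ := by group
        _ = u * 1 * u⁻¹ := this
        _ = 1 := by group
    have huE : u⁻¹ ∈ X.E := ⟨_, _, hba, ht, h3⟩
    have huE' : u ∈ X.E := by simpa using X.E.inv_mem huE
    apply hYZ
    rw [← ha'.1, hza, X.co_mul huE', X.co_mul (X.pow_mem a), hp.1]
  have e1 : L.d p p' = L.d 1 (p⁻¹ * p') := by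
    rw [← L.d_mul p 1]; simp
  have e2 := L.d_tri 1 (X.g ^ j) (p⁻¹ * p')
  have e3 := X.hi j
  rw [L.d_one, L.d_one, L.d_comm (X.g ^ j)] at e2
  rw [L.d_one] at e1
  have e4 : |(j : ℝ)| ≤ ((L.fin X.kc).toFinset.card : ℝ) := by
    have : ((j.natAbs : ℕ) : ℝ) ≤ ((L.fin X.kc).toFinset.card : ℝ) := by exact_mod_cast hjle
    rwa [Nat.cast_natAbs, Int.cast_abs] at this
  have e5 : |(j : ℝ)| * X.τ ≤ ((L.fin X.kc).toFinset.card : ℝ) * X.τ := by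
    have := X.τ0
    gcongr
  unfold B0
  have := X.Q0; have := L.δ0
  linarith

variable (X)

/-- the points of an object -/
def pts : (G ⧸ X.E) ⊕ G → Set G
  | Sum.inl Z => {z | X.co z = Z}
  | Sum.inr x => {x}

variable {X}

lemma pts_nonempty (a : (G ⧸ X.E) ⊕ G) : (X.pts a).Nonempty := by
  rcases a with Z | x
  · exact X.co_surj Z
  · exact ⟨x, rfl⟩

lemma diam_proj {Y : G ⧸ X.E} {a : (G ⧸ X.E) ⊕ G} (ha : a ≠ Sum.inl Y) {x x' p p' : G}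
    (hx : x ∈ X.pts a) (hx' : x' ∈ X.pts a) (hp : p ∈ X.proj Y x) (hp' : p' ∈ X.proj Y x') :
    L.d p p' ≤ X.B0 := by
  rcases a with Z | z
  · exact P0 (fun h => ha (by rw [h])) hx hx' hp hp'
  · have h1 : x = z := hx
    have h2 : x' = z := hx'
    subst h1; subst h2
    have := F3 hp hp'
    have := Q_le_B0 (X := X)
    have := L.δ0
    linarith

variable (X)

/-- integer valued projection distance -/
noncomputable def dN (Y : G ⧸ X.E) (a b : (G ⧸ X.E) ⊕ G) : ℕ :=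
  sSup {n | ∃ x ∈ X.pts a, ∃ y ∈ X.pts b, ∃ p ∈ X.proj Y x, ∃ q ∈ X.proj Y y, n = ⌈L.d p q⌉₊}

variable {X}

lemma dN_bdd {Y : G ⧸ X.E} {a b : (G ⧸ X.E) ⊕ G} (ha : a ≠ Sum.inl Y) (hb : b ≠ Sum.inl Y)
    {x y p q : G} (hx : x ∈ X.pts a) (hy : y ∈ X.pts b) (hp : p ∈ X.proj Y x)
    (hq : q ∈ X.proj Y y) :
    ∀ n ∈ {n | ∃ x ∈ X.pts a, ∃ y ∈ X.pts b, ∃ p ∈ X.proj Y x, ∃ q ∈ X.proj Y y,
      n = ⌈L.d p q⌉₊}, n ≤ ⌈L.d p q + 2 * X.B0⌉₊ := by
  rintro n ⟨x', hx', y', hy', p', hp', q', hq', rfl⟩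
  apply Nat.ceil_le_ceil
  have e1 := diam_proj ha hx' hx hp' hp
  have e2 := diam_proj hb hy hy' hq hq'
  have e3 := L.d_tri p' p q'
  have e4 := L.d_tri p q q'
  linarith

lemma le_dN {Y : G ⧸ X.E} {a b : (G ⧸ X.E) ⊕ G} (ha : a ≠ Sum.inl Y) (hb : b ≠ Sum.inl Y)
    {x y p q : G} (hx : x ∈ X.pts a) (hy : y ∈ X.pts b) (hp : p ∈ X.proj Y x)
    (hq : q ∈ X.proj Y y) : ⌈L.d p q⌉₊ ≤ X.dN Y a b :=
  le_csSup ⟨_, dN_bdd ha hb hx hy hp hq⟩ ⟨x, hx, y, hy, p, hp, q, hq, rfl⟩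

lemma dN_mem (Y : G ⧸ X.E) {a b : (G ⧸ X.E) ⊕ G} (ha : a ≠ Sum.inl Y) (hb : b ≠ Sum.inl Y) :
    ∃ x ∈ X.pts a, ∃ y ∈ X.pts b, ∃ p ∈ X.proj Y x, ∃ q ∈ X.proj Y y,
      X.dN Y a b = ⌈L.d p q⌉₊ := by
  obtain ⟨x, hx⟩ := pts_nonempty a
  obtain ⟨y, hy⟩ := pts_nonempty b
  obtain ⟨p, hp⟩ := proj_nonempty Y x
  obtain ⟨q, hq⟩ := proj_nonempty Y y
  have := Nat.sSup_mem (s := {n | ∃ x ∈ X.pts a, ∃ y ∈ X.pts b, ∃ p ∈ X.proj Y x,
    ∃ q ∈ X.proj Y y, n = ⌈L.d p q⌉₊}) ⟨_, x, hx, y, hy, p, hp, q, hq, rfl⟩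
    ⟨_, dN_bdd ha hb hx hy hp hq⟩
  exact this

lemma dN_le {Y : G ⧸ X.E} {a b : (G ⧸ X.E) ⊕ G} (ha : a ≠ Sum.inl Y) (hb : b ≠ Sum.inl Y)
    {x y p q : G} (hx : x ∈ X.pts a) (hy : y ∈ X.pts b) (hp : p ∈ X.proj Y x)
    (hq : q ∈ X.proj Y y) : X.dN Y a b ≤ ⌈L.d p q + 2 * X.B0⌉₊ := by
  obtain ⟨x', hx', y', hy', p', hp', q', hq', h⟩ := dN_mem Y ha hb
  rw [h]
  exact dN_bdd ha hb hx hy hp hq _ ⟨x', hx', y', hy', p', hp', q', hq', rfl⟩

lemma dN_symm (Y : G ⧸ X.E) (a b : (G ⧸ X.E) ⊕ G) : X.dN Y a b = X.dN Y b a := by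
  unfold dN
  congr 1
  ext n
  constructor
  · rintro ⟨x, hx, y, hy, p, hp, q, hq, h⟩
    exact ⟨y, hy, x, hx, q, hq, p, hp, by rw [h, L.d_comm]⟩
  · rintro ⟨x, hx, y, hy, p, hp, q, hq, h⟩
    exact ⟨y, hy, x, hx, q, hq, p, hp, by rw [h, L.d_comm]⟩

lemma dN_tri (Y : G ⧸ X.E) (a b c : (G ⧸ X.E) ⊕ G) (ha : a ≠ Sum.inl Y) (hb : b ≠ Sum.inl Y)
    (hc : c ≠ Sum.inl Y) : X.dN Y a c ≤ X.dN Y a b + X.dN Y b c := by
  obtain ⟨x, hx, z, hz, p, hp, r, hr, h⟩ := dN_mem Y ha hc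
  obtain ⟨y, hy⟩ := pts_nonempty b
  obtain ⟨q, hq⟩ := proj_nonempty Y y
  have e1 := le_dN ha hb hx hy hp hq
  have e2 := le_dN hb hc hy hz hq hr
  rw [h]
  calc ⌈L.d p r⌉₊ ≤ ⌈L.d p q + L.d q r⌉₊ := Nat.ceil_le_ceil (L.d_tri _ _ _)
    _ ≤ ⌈L.d p q⌉₊ + ⌈L.d q r⌉₊ := Nat.ceil_add_le _ _
    _ ≤ _ := by omega

variable (X)

/-- coarse constant of the projection system -/
noncomputable def θ : ℕ := ⌈2 * X.B0 + 4 * X.Q + 2 * L.δ⌉₊

variable {X}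

lemma le_θ : 2 * X.B0 + 4 * X.Q + 2 * L.δ ≤ X.θ := Nat.le_ceil _

lemma B0_nonneg : 0 ≤ X.B0 := by
  have := Q_le_B0 (X := X)
  have := X.Q0; have := L.δ0
  linarith

lemma dN_self (Y : G ⧸ X.E) (a : (G ⧸ X.E) ⊕ G) (ha : a ≠ Sum.inl Y) : X.dN Y a a ≤ X.θ := by
  obtain ⟨x, hx, z, hz, p, hp, r, hr, h⟩ := dN_mem Y ha ha
  rw [h, Nat.ceil_le]
  have e1 := diam_proj ha hx hz hp hr
  have e2 := le_θ (X := X)
  have := X.Q0; have := L.δ0; have := B0_nonneg (X := X)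
  linarith

/-- if the integer projection distance is large, so is the real one -/
lemma lt_of_dN {Y : G ⧸ X.E} {a b : (G ⧸ X.E) ⊕ G} (ha : a ≠ Sum.inl Y) (hb : b ≠ Sum.inl Y)
    {x y p q : G} (hx : x ∈ X.pts a) (hy : y ∈ X.pts b) (hp : p ∈ X.proj Y x)
    (hq : q ∈ X.proj Y y) {n : ℕ} (h : n < X.dN Y a b) : (n : ℝ) < L.d p q + 2 * X.B0 :=
  Nat.lt_ceil.1 (lt_of_lt_of_le h (dN_le ha hb hx hy hp hq))

lemma dN_behr (Z Y : G ⧸ X.E) (a : (G ⧸ X.E) ⊕ G) (hZY : Z ≠ Y) (haZ : a ≠ Sum.inl Z)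
    (haY : a ≠ Sum.inl Y) (h : X.θ < X.dN Y (Sum.inl Z) a) : X.dN Z (Sum.inl Y) a ≤ X.θ := by
  by_contra hcon
  push Not at hcon
  obtain ⟨z0, hz0⟩ := pts_nonempty a
  obtain ⟨q, hq⟩ := proj_nonempty Z z0
  obtain ⟨p, hp⟩ := proj_nonempty Y z0
  obtain ⟨p', hp'⟩ := proj_nonempty Y q
  obtain ⟨q', hq'⟩ := proj_nonempty Z p
  have h1 := lt_of_dN (X := X) (Y := Y) (a := Sum.inl Z) (b := a) (by simpa using hZY) haY
    (x := q) (y := z0) hq.1 hz0 hp' hp h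
  have h2 := lt_of_dN (X := X) (Y := Z) (a := Sum.inl Y) (b := a) (by simpa using hZY.symm) haZ
    (x := p) (y := z0) hp.1 hz0 hq' hq hcon
  have e := le_θ (X := X)
  have hQ := X.Q0
  have hδ := L.δ0
  have e1 := F2 hp' hp (by linarith)
  have e2 := F2 hq' hq (by linarith)
  have n1 := L.d_nonneg q p'
  have n2 := L.d_nonneg p q'
  rw [L.d_comm p z0] at e1
  rw [L.d_comm q z0] at e2 e1
  rw [L.d_comm p z0] at e2
  linarith

lemma dN_fin (a b : (G ⧸ X.E) ⊕ G) :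
    {Y | a ≠ Sum.inl Y ∧ b ≠ Sum.inl Y ∧ X.θ < X.dN Y a b}.Finite := by
  obtain ⟨x, hx⟩ := pts_nonempty a
  obtain ⟨y, hy⟩ := pts_nonempty b
  have hfin : {p | L.d x p ≤ L.d x y + 4 * X.Q + 2 * L.δ}.Finite := by
    apply ((L.fin (L.d x y + 4 * X.Q + 2 * L.δ)).image (fun z => x * z)).subset
    intro y hy
    exact ⟨x⁻¹ * y, hy, by simp⟩
  apply (hfin.image X.co).subset
  rintro Y ⟨ha, hb, h⟩
  obtain ⟨p, hp⟩ := proj_nonempty Y x
  obtain ⟨q, hq⟩ := proj_nonempty Y y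
  have h1 := lt_of_dN ha hb hx hy hp hq h
  have e := le_θ (X := X)
  have hQ := X.Q0
  have hδ := L.δ0
  have e1 := F2 hp hq (by linarith)
  have n1 := L.d_nonneg q y
  have n2 := L.d_nonneg p q
  refine ⟨p, ?_, hp.1⟩
  change L.d x p ≤ L.d x y + 4 * X.Q + 2 * L.δ
  linarith

lemma pts_smul (g : G) (a : (G ⧸ X.E) ⊕ G) {x : G} (hx : x ∈ X.pts a) :
    g * x ∈ X.pts (g • a) := by
  rcases a with Z | z
  · have h : X.co x = Z := hx
    change X.co (g * x) = g • Z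
    rw [← h]; rfl
  · have h : x = z := hx
    subst h
    rfl

lemma dN_smul (g : G) (Y : G ⧸ X.E) (a b : (G ⧸ X.E) ⊕ G) :
    X.dN (g • Y) (g • a) (g • b) = X.dN Y a b := by
  have key : ∀ (g : G) (Y : G ⧸ X.E) (a b : (G ⧸ X.E) ⊕ G) (n : ℕ),
      (∃ x ∈ X.pts a, ∃ y ∈ X.pts b, ∃ p ∈ X.proj Y x, ∃ q ∈ X.proj Y y, n = ⌈L.d p q⌉₊) →
      (∃ x ∈ X.pts (g • a), ∃ y ∈ X.pts (g • b), ∃ p ∈ X.proj (g • Y) x,
        ∃ q ∈ X.proj (g • Y) y, n = ⌈L.d p q⌉₊) := by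
    rintro g Y a b n ⟨x, hx, y, hy, p, hp, q, hq, h⟩
    exact ⟨g * x, pts_smul g a hx, g * y, pts_smul g b hy, g * p, proj_smul g hp, g * q,
      proj_smul g hq, by rw [h, L.d_mul]⟩
  unfold dN
  congr 1
  ext n
  constructor
  · intro h
    have := key g⁻¹ (g • Y) (g • a) (g • b) n h
    simpa using this
  · exact key g Y a b n

variable (X)

/-- the weak projection system -/
noncomputable def weak : WeakProj (G ⧸ X.E) G where
  d := X.dN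
  θ := X.θ
  symm := dN_symm
  tri := dN_tri
  self := dN_self
  behr := dN_behr
  fin := dN_fin

end Lox

end HypLen

end Pool.Agent.H73.Cg
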