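import Pool.Agent.H73.CgB
import Pool.Agent.H73.CgD

set_option autoImplicit false

/-! The rotation system of a loxodromic element and the geometry of reductions. -/

namespace Pool.Agent.H73.Cg

namespace HypLen

variable {G : Type*} [Group G] {L : HypLen G}

namespace Lox

variable (X : L.Lox)

/-- `K` is a common period -/
def Per (K : ℕ) : Prop := 0 < K ∧ ∀ x ∈ X.E, x * X.g ^ (K : ℤ) * x⁻¹ = X.g ^ (K : ℤ) ∨
    x * X.g ^ (K : ℤ) * x⁻¹ = X.g ^ (-(K : ℤ))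

lemma exists_per : ∃ p : ℕ, 0 < p ∧ ∀ k, 0 < k → X.Per (p * k) := by
  obtain ⟨p, hp, h⟩ := X.exists_period
  refine ⟨p, hp, fun k hk => ⟨Nat.mul_pos hp hk, fun x hx => ?_⟩⟩
  push_cast
  rcases h x hx with h | h
  · left
    rw [X.conj_pow h]; group
  · right
    rw [X.conj_pow h]; group

variable {X}

lemma Per.conj {K : ℕ} (h : X.Per K) {x : G} (hx : x ∈ X.E) (n : ℤ) :
    ∃ m : ℤ, x * X.g ^ ((K : ℤ) * n) * x⁻¹ = X.g ^ ((K : ℤ) * m) := by
  rcases h.2 x hx with h | h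
  · exact ⟨n, by rw [X.conj_pow h]; group⟩
  · refine ⟨-n, ?_⟩
    rw [X.conj_pow h, show (-(K : ℤ)) * n = K * -n by ring]
    group

variable (X)

/-- rotations around a coset -/
noncomputable def rotR (K : ℕ) (Y : G ⧸ X.E) : Subgroup G :=
  (Subgroup.zpowers (X.g ^ (K : ℤ))).map (MulAut.conj (Quotient.out Y)).toMonoidHom

variable {X}

lemma mem_rotR {K : ℕ} (h : X.Per K) {Y : G ⧸ X.E} {γ : G} (hγ : X.co γ = Y) {r : G} :
    r ∈ X.rotR K Y ↔ ∃ n : ℤ, r = γ * X.g ^ ((K : ℤ) * n) * γ⁻¹ := by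
  set u : G := Quotient.out Y with hu
  have huY : X.co u = Y := by rw [hu]; exact Quotient.out_eq Y
  have hE : u⁻¹ * γ ∈ X.E := X.co_eq.1 (huY.trans hγ.symm)
  have hE' : γ⁻¹ * u ∈ X.E := X.co_eq.1 (hγ.trans huY.symm)
  unfold rotR
  rw [Subgroup.mem_map]
  constructor
  · rintro ⟨z, hz, rfl⟩
    obtain ⟨n, rfl⟩ := Subgroup.mem_zpowers_iff.1 hz
    obtain ⟨m, hm⟩ := h.conj hE' n
    refine ⟨m, ?_⟩
    rw [← hm, zpow_mul]
    simp only [MulEquiv.coe_toMonoidHom, MulAut.conj_apply]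
    rw [← hu]
    group
  · rintro ⟨n, rfl⟩
    obtain ⟨m, hm⟩ := h.conj hE n
    refine ⟨X.g ^ ((K : ℤ) * m), ?_, ?_⟩
    · rw [zpow_mul]; exact Subgroup.zpow_mem _ (Subgroup.mem_zpowers _) m
    · simp only [MulEquiv.coe_toMonoidHom, MulAut.conj_apply]
      rw [← hm, ← hu]
      group

/-- The projection distance bounds the distance of projections. -/
lemma d_le_D {Y : G ⧸ X.E} {a b : (G ⧸ X.E) ⊕ G} (ha : a ≠ Sum.inl Y) (hb : b ≠ Sum.inl Y)
    {x y p q : G} (hx : x ∈ X.pts a) (hy : y ∈ X.pts b) (hp : p ∈ X.proj Y x)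
    (hq : q ∈ X.proj Y y) : L.d p q ≤ X.weak.D Y a b := by
  have h1 := le_dN ha hb hx hy hp hq
  have h2 := WeakProj.d_le_D (S := X.weak) (X := Y) ha hb
  have h3 : ⌈L.d p q⌉₊ ≤ X.weak.D Y a b := h1.trans h2
  exact (Nat.le_ceil _).trans (by exact_mod_cast h3)

variable (X)

/-- additive error between the two projection distances -/
noncomputable def CD : ℝ := 2 * X.B0 + 1 + 4 * X.θ

variable {X}

lemma D_le_d {Y : G ⧸ X.E} {a b : (G ⧸ X.E) ⊕ G} (ha : a ≠ Sum.inl Y) (hb : b ≠ Sum.inl Y)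
    {x y p q : G} (hx : x ∈ X.pts a) (hy : y ∈ X.pts b) (hp : p ∈ X.proj Y x)
    (hq : q ∈ X.proj Y y) : (X.weak.D Y a b : ℝ) ≤ L.d p q + X.CD := by
  have h1 : X.weak.d Y a b ≤ ⌈L.d p q + 2 * X.B0⌉₊ := dN_le ha hb hx hy hp hq
  have h2 := WeakProj.D_le (S := X.weak) (X := Y) ha hb
  have h3 : (⌈L.d p q + 2 * X.B0⌉₊ : ℝ) < L.d p q + 2 * X.B0 + 1 :=
    Nat.ceil_lt_add_one (by have := L.d_nonneg p q; have := B0_nonneg (X := X); linarith)
  have h4 : (X.weak.D Y a b : ℝ) ≤ (⌈L.d p q + 2 * X.B0⌉₊ : ℝ) + 4 * (X.θ : ℝ) := by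
    have : X.weak.D Y a b ≤ ⌈L.d p q + 2 * X.B0⌉₊ + 4 * X.θ := by
      have e : X.weak.θ = X.θ := rfl
      rw [e] at h2
      omega
    exact_mod_cast this
  unfold CD
  linarith

variable (X)

/-- The rotation system. -/
noncomputable def rotSys (K : ℕ) (h : X.Per K) : RotSys G (G ⧸ X.E) where
  S := X.weak.strong
  inv := fun g Y a b => WeakProj.D_smul X.weak (fun g Y a b => dN_smul g Y a b) g Y a b
  R := X.rotR K
  fix := by
    intro Y r hr
    obtain ⟨γ, hγ⟩ := X.co_surj Y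
    obtain ⟨n, rfl⟩ := (mem_rotR h hγ).1 hr
    rw [← hγ, X.smul_co]
    rw [show γ * X.g ^ ((K : ℤ) * n) * γ⁻¹ * γ = γ * X.g ^ ((K : ℤ) * n) by group]
    exact X.co_mul (X.pow_mem _)
  conj := by
    intro g Y r hr
    obtain ⟨γ, hγ⟩ := X.co_surj Y
    obtain ⟨n, rfl⟩ := (mem_rotR h hγ).1 hr
    have hγ' : X.co (g * γ) = g • Y := by rw [← hγ, X.smul_co]
    rw [mem_rotR h hγ']
    exact ⟨n, by group⟩
  T := ⌊(K : ℝ) * X.τ - X.κ⌋₊
  rot := by
    intro Y r hr hr1 x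
    obtain ⟨p, hp⟩ := proj_nonempty Y x
    obtain ⟨n, hn⟩ := (mem_rotR h hp.1).1 hr
    have hfix : r • Y = Y := by
      rw [← hp.1, X.smul_co, hn]
      rw [show p * X.g ^ ((K : ℤ) * n) * p⁻¹ * p = p * X.g ^ ((K : ℤ) * n) by group]
      exact X.co_mul (X.pow_mem _)
    have hrp : r * p ∈ X.proj Y (r * x) := by
      have := proj_smul r hp
      rwa [hfix] at this
    have h1 := d_le_D (X := X) (Y := Y) (a := Sum.inr x) (b := Sum.inr (r * x)) (by simp)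
      (by simp) (x := x) (y := r * x) rfl rfl hp hrp
    have h2 : L.d p (r * p) = L.l (X.g ^ ((K : ℤ) * n)) := by
      rw [hn]; unfold d; congr 1; group
    have hn0 : n ≠ 0 := by
      rintro rfl
      apply hr1
      rw [hn]; simp
    have h3 := X.lo ((K : ℤ) * n)
    have h4 : (K : ℝ) * X.τ ≤ |(((K : ℤ) * n : ℤ) : ℝ)| * X.τ := by
      have hτ := X.τ0
      have : (K : ℝ) ≤ |(((K : ℤ) * n : ℤ) : ℝ)| := by
        push_cast
        rw [abs_mul, Nat.abs_cast]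
        have : (1 : ℝ) ≤ |(n : ℝ)| := by
          have : (1 : ℤ) ≤ |n| := Int.one_le_abs hn0
          exact_mod_cast this
        nlinarith [Nat.cast_nonneg (α := ℝ) K]
      gcongr
    have h5 : (K : ℝ) * X.τ - X.κ ≤ (X.weak.strong.D Y (Sum.inr x) (Sum.inr (r * x)) : ℝ) := by
      change (K : ℝ) * X.τ - X.κ ≤ (X.weak.D Y (Sum.inr x) (Sum.inr (r * x)) : ℝ)
      linarith
    exact Nat.floor_le_of_le h5

/-- chosen nearest point of a coset to the identity -/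
noncomputable def pr (V : G ⧸ X.E) : G := (proj_nonempty (X := X) V 1).choose

lemma pr_mem (V : G ⧸ X.E) : X.pr V ∈ X.proj V 1 := (proj_nonempty (X := X) V 1).choose_spec

/-- distance of a coset to the identity -/
noncomputable def rho (V : G ⧸ X.E) : ℝ := L.l (X.pr V)

variable {X}

lemma rho_nonneg (V : G ⧸ X.E) : 0 ≤ X.rho V := L.l_nonneg _

lemma rho_le {V : G ⧸ X.E} {x : G} (hx : X.co x = V) : X.rho V ≤ L.l x := by
  have := (X.pr_mem V).2 x hx
  rwa [L.d_one, L.d_one] at this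

variable (X)

/-- additive error in `F2` -/
noncomputable def C3 : ℝ := 4 * X.Q + 2 * L.δ

/-- a large constant -/
noncomputable def M : ℝ := 1 + X.κ + X.e + X.Q + L.δ + X.B0 + X.θ + X.τ

variable {X}

lemma M_facts : 0 ≤ X.κ ∧ 0 ≤ X.e ∧ 0 ≤ X.Q ∧ 0 ≤ L.δ ∧ 0 ≤ X.B0 ∧ 0 ≤ (X.θ : ℝ) ∧ 0 < X.τ :=
  ⟨X.κ0, X.e0, X.Q0, L.δ0, B0_nonneg, Nat.cast_nonneg _, X.τ0⟩

lemma F2' {Y : G ⧸ X.E} {x y p r : G} (hp : p ∈ X.proj Y x) (hr : r ∈ X.proj Y y)
    (h : 2 * X.Q + L.δ < L.d p r) :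
    L.d x p + L.d p r + L.d r y - X.C3 ≤ L.d x y := by
  have := F2 hp hr h
  unfold C3
  linarith

/-- the order of axes is compatible with their distances -/
lemma rho_mono {V W : G ⧸ X.E} (hVW : V ≠ W)
    (h : X.CD + 2 * X.Q + L.δ < (X.weak.D V (Sum.inr 1) (Sum.inl W) : ℝ)) :
    X.rho V + X.weak.D V (Sum.inr 1) (Sum.inl W) - X.CD - X.C3 ≤ X.rho W := by
  obtain ⟨v, hv⟩ := proj_nonempty V (X.pr W)
  have h1 := D_le_d (X := X) (Y := V) (a := Sum.inr 1) (b := Sum.inl W) (by simp)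
    (by simpa using hVW.symm) (x := 1) (y := X.pr W) rfl (X.pr_mem W).1 (X.pr_mem V) hv
  have h2 := F2' (X.pr_mem V) hv (by linarith)
  rw [L.d_one, L.d_one] at h2
  have := L.d_nonneg v (X.pr W)
  unfold rho
  linarith

/-- Comparison of projections of two points with a large Gromov product. -/
lemma G1 {V : G ⧸ X.E} {p n v' v'' : G} (hv' : v' ∈ X.proj V n) (hv'' : v'' ∈ X.proj V p) :
    min (L.gp 1 p n - X.rho V - X.C3 / 2) (L.d (X.pr V) v' - 2 * X.Q - L.δ) ≤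
      L.d (X.pr V) v'' := by
  rcases le_or_gt (L.d v' v'') (2 * X.Q + L.δ) with h | h
  · refine (min_le_right _ _).trans ?_
    have := L.d_tri (X.pr V) v'' v'
    rw [L.d_comm v'' v'] at this
    linarith
  · refine (min_le_left _ _).trans ?_
    have h1 := F2' hv' hv'' h
    have h2 := L.d_tri 1 (X.pr V) p
    have h3 := L.d_tri (X.pr V) v'' p
    have h4 := L.d_tri 1 (X.pr V) n
    have h5 := L.d_tri (X.pr V) v' n
    have h6 := L.d_tri (X.pr V) v'' v'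
    rw [L.d_comm v'' v'] at h6
    unfold gp rho
    rw [L.d_one, L.d_one] at h2 h4
    rw [L.d_one, L.d_one, L.d_comm p n]
    rw [L.d_comm n v'] at h1
    linarith

end Lox

end HypLen

end Pool.Agent.H73.Cg
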