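import Pool.Agent.H73.CgE

set_option autoImplicit false

/-! Geometry of reductions. -/

namespace Pool.Agent.H73.Cg

namespace HypLen

variable {G : Type*} [Group G] {L : HypLen G}

namespace Lox

variable (X : L.Lox)

/-- exact projection distance -/
noncomputable abbrev DD (V : G ⧸ X.E) (a b : (G ⧸ X.E) ⊕ G) : ℕ := X.weak.D V a b

/-- margin for the threshold -/
noncomputable def bb : ℕ := ⌈X.CD + 2 * X.Q + L.δ⌉₊ + 1

/-- threshold for crossing axes -/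
noncomputable def kb : ℕ := 16 * X.θ + ⌈X.CD + 2 * X.Q + L.δ⌉₊ + 2

/-- standing hypotheses on the period and the threshold -/
structure Big (K t : ℕ) : Prop where
  per : X.Per K
  t1 : (t : ℝ) ≤ 3 / 4 * ((K : ℝ) * X.τ)
  t2 : 3 / 4 * ((K : ℝ) * X.τ) - 1 ≤ t
  big : 1000 * X.M ≤ (K : ℝ) * X.τ

variable {X}

lemma CD_nonneg : 0 ≤ X.CD := by
  have := M_facts (X := X)
  unfold CD; linarith

lemma aux_nonneg : 0 ≤ X.CD + 2 * X.Q + L.δ := by
  have := M_facts (X := X)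
  have := CD_nonneg (X := X)
  linarith

lemma bb_lo : X.CD + 2 * X.Q + L.δ + 1 ≤ X.bb := by
  unfold bb
  push_cast
  have := Nat.le_ceil (X.CD + 2 * X.Q + L.δ)
  linarith

lemma bb_hi : (X.bb : ℝ) ≤ 4 * X.M := by
  unfold bb
  push_cast
  have h1 := Nat.ceil_lt_add_one (aux_nonneg (X := X))
  have h2 := M_facts (X := X)
  unfold CD at *
  unfold M
  linarith

lemma kb_lo : 16 * (X.θ : ℝ) + X.CD + 2 * X.Q + L.δ + 2 ≤ X.kb := by
  unfold kb
  push_cast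
  have := Nat.le_ceil (X.CD + 2 * X.Q + L.δ)
  linarith

lemma kb_lo' : 16 * X.θ < X.kb := by unfold kb; omega

lemma kb_hi : (X.kb : ℝ) ≤ 20 * X.M := by
  unfold kb
  push_cast
  have h1 := Nat.ceil_lt_add_one (aux_nonneg (X := X))
  have h2 := M_facts (X := X)
  unfold CD at *
  unfold M
  linarith

lemma C3_hi : X.C3 ≤ 4 * X.M := by
  have h2 := M_facts (X := X)
  unfold C3 M
  linarith

lemma C3_nonneg : 0 ≤ X.C3 := by
  have h2 := M_facts (X := X)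
  unfold C3
  linarith

lemma CD_hi : X.CD ≤ 4 * X.M := by
  have h2 := M_facts (X := X)
  unfold CD M
  linarith

lemma M_one : 1 ≤ X.M := by
  have h2 := M_facts (X := X)
  unfold M
  linarith

/-- The reduction at a crossed axis. -/
lemma red {K t : ℕ} (B : X.Big K t) {n q : G} {Y : G ⧸ X.E}
    (ht : t ≤ X.DD Y (Sum.inr 1) (Sum.inr n)) (hq : q ∈ X.proj Y n) :
    ∃ m : ℤ, m ≠ 0 ∧
      L.d (X.pr Y) ((X.pr Y * X.g ^ ((K : ℤ) * m) * (X.pr Y)⁻¹)⁻¹ * q) ≤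
        (K : ℝ) * X.τ / 2 + 2 * X.M ∧
      |(m : ℝ)| * ((K : ℝ) * X.τ) / 2 - 12 * X.M ≤ L.d (X.pr Y) q -
        L.d (X.pr Y) ((X.pr Y * X.g ^ ((K : ℤ) * m) * (X.pr Y)⁻¹)⁻¹ * q) ∧
      (X.DD Y (Sum.inr 1) (Sum.inr n) < t + X.bb → |m| = 1 ∧ (K : ℝ) * X.τ / 4 - 10 * X.M ≤
        L.d (X.pr Y) ((X.pr Y * X.g ^ ((K : ℤ) * m) * (X.pr Y)⁻¹)⁻¹ * q)) := by
  set p := X.pr Y with hp
  have hpm : p ∈ X.proj Y 1 := X.pr_mem Y
  set f := p⁻¹ * q with hf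
  have hfE : f ∈ X.E := X.co_eq.1 (hpm.1.trans hq.1.symm)
  obtain ⟨j, hj⟩ := X.close hfE
  have hMf := M_facts (X := X)
  obtain ⟨hκ, he, hQ, hδ, hB0, hθ, hτ⟩ := hMf
  have hM : X.M = 1 + X.κ + X.e + X.Q + L.δ + X.B0 + X.θ + X.τ := rfl
  have hbig := B.big
  have ht1 := B.t1
  have ht2 := B.t2
  have hK : 0 < (K : ℝ) := by exact_mod_cast B.per.1
  -- lengths
  have hL : L.d p q = L.l f := rfl
  have hLhi : L.l f ≤ |(j : ℝ)| * X.τ + X.κ + X.e := by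
    have h1 := L.d_tri 1 (X.g ^ j) f
    have h2 := X.hi j
    rw [L.d_one, L.d_one, L.d_comm (X.g ^ j)] at h1
    linarith
  have hLlo : |(j : ℝ)| * X.τ - X.κ - X.e ≤ L.l f := by
    have h1 := L.d_tri 1 f (X.g ^ j)
    have h2 := X.lo j
    rw [L.d_one, L.d_one] at h1
    linarith
  -- t is a lower bound
  have hDd : (X.DD Y (Sum.inr 1) (Sum.inr n) : ℝ) ≤ L.d p q + X.CD :=
    D_le_d (by simp) (by simp) (x := 1) (y := n) rfl rfl hpm hq
  have hdD : L.d p q ≤ X.DD Y (Sum.inr 1) (Sum.inr n) :=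
    d_le_D (by simp) (by simp) (x := 1) (y := n) rfl rfl hpm hq
  have htD : (t : ℝ) ≤ X.DD Y (Sum.inr 1) (Sum.inr n) := by exact_mod_cast ht
  have hCD : X.CD = 2 * X.B0 + 1 + 4 * X.θ := rfl
  have hjlo : 3 / 4 * ((K : ℝ) * X.τ) - 1 - X.CD - X.κ - X.e ≤ |(j : ℝ)| * X.τ := by
    rw [hL] at hDd; linarith
  -- choice of m
  set m : ℤ := round ((j : ℝ) / K) with hm
  have hround : |(j : ℝ) - K * m| ≤ K / 2 := by
    have h1 := abs_sub_round ((j : ℝ) / K)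
    rw [← hm] at h1
    have h2 : (j : ℝ) - K * m = ((j : ℝ) / K - m) * K := by field_simp
    rw [h2, abs_mul, abs_of_pos hK]
    nlinarith
  have hroundτ : |(j : ℝ) - K * m| * X.τ ≤ (K : ℝ) * X.τ / 2 := by
    have := mul_le_mul_of_nonneg_right hround hτ.le
    linarith
  have hm0 : m ≠ 0 := by
    intro h0
    rw [h0] at hroundτ
    simp only [Int.cast_zero, mul_zero, sub_zero] at hroundτ
    linarith
  -- the rotated point
  have hrot : L.d p ((p * X.g ^ ((K : ℤ) * m) * p⁻¹)⁻¹ * q) =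
      L.d (X.g ^ ((K : ℤ) * m)) f := by
    unfold d
    congr 1
    rw [hf]
    group
  have hL'hi : L.d (X.g ^ ((K : ℤ) * m)) f ≤ |(j : ℝ) - K * m| * X.τ + X.κ + X.e := by
    have h1 := L.d_tri (X.g ^ ((K : ℤ) * m)) (X.g ^ j) f
    have h2 := X.d_pow_hi ((K : ℤ) * m) j
    push_cast at h2
    rw [L.d_comm (X.g ^ j) f] at h1
    linarith
  have hL'lo : |(j : ℝ) - K * m| * X.τ - X.κ - X.e ≤ L.d (X.g ^ ((K : ℤ) * m)) f := by
    have h1 := L.d_tri (X.g ^ ((K : ℤ) * m)) f (X.g ^ j)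
    have h2 := X.d_pow_lo ((K : ℤ) * m) j
    push_cast at h2
    linarith
  have hmabs : (1 : ℤ) ≤ |m| := Int.one_le_abs hm0
  -- the main comparison
  have hmain : |(m : ℝ)| * ((K : ℝ) * X.τ) / 2 - 2 - 2 * X.CD - 2 * X.κ - 2 * X.e ≤
      (|(j : ℝ)| - |(j : ℝ) - K * m|) * X.τ := by
    rcases lt_or_ge |m| 2 with h2 | h2
    · -- |m| = 1
      have hm1 : |m| = 1 := by omega
      have hm1' : |(m : ℝ)| = 1 := by exact_mod_cast hm1
      have hcase : |(j : ℝ) - K * m| = |(|(j : ℝ)| - K)| := by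
        rcases (_root_.abs_eq (by norm_num : (0 : ℤ) ≤ 1)).1 hm1 with h | h
        · have hjp : 0 ≤ (j : ℝ) := by
            rw [h] at hround
            push_cast at hround
            have := (abs_le.1 hround).1
            linarith
          rw [h, abs_of_nonneg hjp]; push_cast; ring_nf
        · have hjn : (j : ℝ) ≤ 0 := by
            rw [h] at hround
            push_cast at hround
            have := (abs_le.1 hround).2
            linarith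
          rw [h, abs_of_nonpos hjn, ← abs_neg]
          congr 1; push_cast; ring
      rw [hcase, hm1']
      rcases le_total |(j : ℝ)| (K : ℝ) with h3 | h3
      · rw [abs_of_nonpos (by linarith : |(j : ℝ)| - K ≤ 0)]
        nlinarith
      · rw [abs_of_nonneg (by linarith : 0 ≤ |(j : ℝ)| - K)]
        nlinarith
    · have h3 : (2 : ℝ) ≤ |(m : ℝ)| := by exact_mod_cast h2
      have h4 : |(K : ℝ) * m| = K * |(m : ℝ)| := by rw [abs_mul, abs_of_pos hK]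
      have h5 : |(K : ℝ) * m| - |(j : ℝ) - K * m| ≤ |(j : ℝ)| := by
        have := abs_sub_abs_le_abs_sub ((K : ℝ) * m) j
        rw [abs_sub_comm ((K : ℝ) * m) j] at this
        linarith
      rw [h4] at h5
      have h6 : (K : ℝ) * |(m : ℝ)| / 2 ≤ |(j : ℝ)| - |(j : ℝ) - K * m| := by nlinarith
      have h7 : (K : ℝ) * |(m : ℝ)| / 2 * X.τ ≤ (|(j : ℝ)| - |(j : ℝ) - K * m|) * X.τ := by
        gcongr
      have h8 : (K : ℝ) * |(m : ℝ)| / 2 * X.τ = |(m : ℝ)| * ((K : ℝ) * X.τ) / 2 := by ring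
      linarith
  refine ⟨m, hm0, ?_, ?_, ?_⟩
  · rw [hrot]; linarith
  · rw [hrot, hL]
    have : (|(j : ℝ)| - |(j : ℝ) - K * m|) * X.τ = |(j : ℝ)| * X.τ - |(j : ℝ) - K * m| * X.τ := by
      ring
    linarith
  · intro hlt
    have hlt' : (X.DD Y (Sum.inr 1) (Sum.inr n) : ℝ) ≤ t + X.bb := by exact_mod_cast hlt.le
    have hbb := bb_hi (X := X)
    have hjhi : |(j : ℝ)| * X.τ ≤ 3 / 4 * ((K : ℝ) * X.τ) + X.bb + X.κ + X.e := by
      rw [hL] at hdD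
      linarith
    have h5 : |(K : ℝ) * m| - |(j : ℝ)| ≤ |(j : ℝ) - K * m| := by
      have := abs_sub_abs_le_abs_sub ((K : ℝ) * m) j
      rw [abs_sub_comm ((K : ℝ) * m) j] at this
      linarith
    have h4 : |(K : ℝ) * m| = K * |(m : ℝ)| := by rw [abs_mul, abs_of_pos hK]
    rw [h4] at h5
    have h6 : ((K : ℝ) * |(m : ℝ)| - |(j : ℝ)|) * X.τ ≤ |(j : ℝ) - K * m| * X.τ := by gcongr
    have h6' : ((K : ℝ) * |(m : ℝ)| - |(j : ℝ)|) * X.τ =
      |(m : ℝ)| * ((K : ℝ) * X.τ) - |(j : ℝ)| * X.τ := by ring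
    rw [h6'] at h6
    have hm1 : |m| = 1 := by
      by_contra hne
      have h7 : (2 : ℤ) ≤ |m| := by omega
      have h8 : (2 : ℝ) ≤ |(m : ℝ)| := by exact_mod_cast h7
      have h9 : 2 * ((K : ℝ) * X.τ) ≤ |(m : ℝ)| * ((K : ℝ) * X.τ) := by gcongr
      linarith
    refine ⟨hm1, ?_⟩
    have hm1' : |(m : ℝ)| = 1 := by exact_mod_cast hm1
    rw [hm1'] at h6
    rw [hrot]
    linarith

/-- comparison of lengths after a reduction -/
lemma delta {K : ℕ} (h : X.Per K) {n q : G} {Y : G ⧸ X.E} (hq : q ∈ X.proj Y n) {r : G}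
    (hr : r ∈ X.rotR K Y) (hL : 2 * X.Q + L.δ < L.d (X.pr Y) q) :
    r⁻¹ * q ∈ X.proj Y (r⁻¹ * n) ∧
    L.l (r⁻¹ * n) + 2 * (X.rho Y - L.gp 1 (X.pr Y) (r⁻¹ * n)) +
      (L.d (X.pr Y) q - L.d (X.pr Y) (r⁻¹ * q)) - X.C3 ≤ L.l n ∧
    L.l (r⁻¹ * n) + (L.d (X.pr Y) q - L.d (X.pr Y) (r⁻¹ * q)) - X.C3 ≤ L.l n ∧
    (2 * X.Q + L.δ < L.d (X.pr Y) (r⁻¹ * q) → L.l n ≤ L.l (r⁻¹ * n) +
      (L.d (X.pr Y) q - L.d (X.pr Y) (r⁻¹ * q)) + X.C3) := by
  set Q := X.rotSys K h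
  have hfix : r⁻¹ • Y = Y := Q.fix Y r⁻¹ ((Q.R Y).inv_mem hr)
  have hq' : r⁻¹ * q ∈ X.proj Y (r⁻¹ * n) := by
    have := proj_smul r⁻¹ hq
    rwa [hfix] at this
  have e1 := F2' (X.pr_mem Y) hq hL
  have e2 := L.d_mul r⁻¹ q n
  have e3 := L.d_tri (X.pr Y) (r⁻¹ * q) (r⁻¹ * n)
  have e4 := L.d_tri 1 (X.pr Y) (r⁻¹ * n)
  rw [L.d_one, L.d_one] at e1
  rw [L.d_one, L.d_one] at e4
  refine ⟨hq', ?_, ?_, ?_⟩
  · unfold gp rho
    rw [L.d_one, L.d_one]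
    linarith
  · linarith
  · intro hL'
    have e5 := F2' (X.pr_mem Y) hq' hL'
    have e6 := L.d_tri (X.pr Y) q n
    have e7 := L.d_tri 1 (X.pr Y) n
    rw [L.d_one, L.d_one] at e5 e7
    linarith

/-- `Y` is the first axis crossed for at least `t` -/
def IsFirst (t : ℕ) (n : G) (Y : G ⧸ X.E) : Prop :=
  t ≤ X.DD Y (Sum.inr 1) (Sum.inr n) ∧
    ∀ V, t ≤ X.DD V (Sum.inr 1) (Sum.inr n) → X.rho Y ≤ X.rho V

lemma DD_finite (n : G) : {V | 8 * X.θ < X.DD V (Sum.inr 1) (Sum.inr n)}.Finite := by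
  apply (X.weak.strong.fin (Sum.inr 1) (Sum.inr n)).subset
  intro V hV
  exact ⟨by simp, by simp, hV⟩

lemma exists_first {t : ℕ} (ht : 8 * X.θ < t) {n : G} (h : ∃ V, t ≤ X.DD V (Sum.inr 1) (Sum.inr n)) :
    ∃ Y, X.IsFirst t n Y := by
  have hfin : {V | t ≤ X.DD V (Sum.inr 1) (Sum.inr n)}.Finite :=
    (DD_finite n).subset (fun V hV => lt_of_lt_of_le ht hV)
  obtain ⟨Y, hY, hmin⟩ := Set.exists_min_image _ X.rho hfin h
  exact ⟨Y, hY, fun V hV => hmin V hV⟩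

end Lox

end HypLen

end Pool.Agent.H73.Cg
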