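import Pool.Agent.H73.CgF

set_option autoImplicit false

/-! The reduction step and the weights. -/

namespace Pool.Agent.H73.Cg

namespace HypLen

variable {G : Type*} [Group G] {L : HypLen G}

namespace Lox

variable {X : L.Lox}

lemma DD_exact {V W : G ⧸ X.E} {a : (G ⧸ X.E) ⊕ G} (hVW : V ≠ W) (haV : a ≠ Sum.inl V)
    (haW : a ≠ Sum.inl W) (h : 8 * X.θ < X.DD W (Sum.inl V) a) (b : (G ⧸ X.E) ⊕ G) :
    X.DD V (Sum.inl W) b = X.DD V a b :=
  X.weak.strong.exact V W a hVW haV haW h b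

lemma DD_symm (V : G ⧸ X.E) (a b : (G ⧸ X.E) ⊕ G) : X.DD V a b = X.DD V b a :=
  X.weak.strong.symm V a b

lemma DD_tri (V : G ⧸ X.E) (a b c : (G ⧸ X.E) ⊕ G) (ha : a ≠ Sum.inl V) (hb : b ≠ Sum.inl V)
    (hc : c ≠ Sum.inl V) : X.DD V a c ≤ X.DD V a b + X.DD V b c :=
  X.weak.strong.tri V a b c ha hb hc

lemma DD_self (V : G ⧸ X.E) (a : (G ⧸ X.E) ⊕ G) (ha : a ≠ Sum.inl V) : X.DD V a a ≤ 8 * X.θ :=
  X.weak.strong.self V a ha

lemma DD_smul (g : G) (V : G ⧸ X.E) (a b : (G ⧸ X.E) ⊕ G) :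
    X.DD (g • V) (g • a) (g • b) = X.DD V a b :=
  WeakProj.D_smul X.weak (fun g Y a b => dN_smul g Y a b) g V a b

/-- numerical consequences of the standing hypotheses -/
lemma Big.num {K t : ℕ} (B : X.Big K t) : 8 * X.θ < t ∧ X.kb < t ∧
    X.CD + X.C3 + 1 < (t : ℝ) ∧ X.CD + 2 * X.Q + L.δ < (t : ℝ) ∧ (700 * X.M ≤ (t : ℝ)) := by
  have h1 := B.t2
  have h2 := B.big
  have h3 := M_one (X := X)
  have h4 := kb_hi (X := X)
  have h5 := C3_hi (X := X)
  have h6 := CD_hi (X := X)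
  have h7 := M_facts (X := X)
  have hM : X.M = 1 + X.κ + X.e + X.Q + L.δ + X.B0 + X.θ + X.τ := rfl
  obtain ⟨hκ, he, hQ, hδ, hB0, hθ, hτ⟩ := h7
  refine ⟨?_, ?_, by linarith, by linarith, by linarith⟩
  · have : (8 * X.θ : ℝ) < t := by linarith
    exact_mod_cast this
  · have : (X.kb : ℝ) < t := by linarith
    exact_mod_cast this

/-- if `Y` is the first crossed axis, no other axis separates it from the identity -/
lemma claimA {K t : ℕ} (B : X.Big K t) {n : G} {Y : G ⧸ X.E} (hY : X.IsFirst t n Y)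
    {V : G ⧸ X.E} (hV : V ≠ Y) : X.DD V (Sum.inr 1) (Sum.inl Y) < t := by
  by_contra hcon
  push Not at hcon
  obtain ⟨n1, n2, n3, n4, -⟩ := B.num
  have e1 : 8 * X.θ < X.DD V (Sum.inl Y) (Sum.inr 1) := by
    rw [DD_symm]; omega
  have e2 := DD_exact (a := Sum.inr 1) hV.symm (by simp) (by simp) e1 (Sum.inr n)
  have e3 : 8 * X.θ < X.DD Y (Sum.inl V) (Sum.inr n) := by
    have := hY.1
    rw [e2]; omega
  have e4 := DD_exact (a := Sum.inr n) hV (by simp) (by simp) e3 (Sum.inr 1)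
  have e5 : t ≤ X.DD V (Sum.inr 1) (Sum.inr n) := by
    rw [DD_symm, ← e4, DD_symm]; exact hcon
  have e6 := hY.2 V e5
  have hcon' : (t : ℝ) ≤ (X.weak.D V (Sum.inr 1) (Sum.inl Y) : ℝ) := by exact_mod_cast hcon
  have e7 := rho_mono hV (by linarith)
  linarith

/-- `W` is crossed after `V` -/
def After (n : G) (V W : G ⧸ X.E) : Prop :=
  W ≠ V ∧ X.kb < X.DD W (Sum.inr 1) (Sum.inr n) ∧ 8 * X.θ < X.DD V (Sum.inl W) (Sum.inr 1)

lemma kb_lo8 : 8 * X.θ < X.kb := by
  have := kb_lo' (X := X)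
  omega

lemma After.ex {n : G} {V W : G ⧸ X.E} (h : After n V W) (b : (G ⧸ X.E) ⊕ G) :
    X.DD W (Sum.inl V) b = X.DD W (Sum.inr 1) b :=
  DD_exact h.1 (by simp) (by simp) h.2.2 b

lemma After.ex' {n : G} {V W : G ⧸ X.E} (h : After n V W) (b : (G ⧸ X.E) ⊕ G) :
    X.DD V (Sum.inl W) b = X.DD V (Sum.inr n) b := by
  apply DD_exact h.1.symm (by simp) (by simp)
  rw [h.ex]
  have := h.2.1
  have := kb_lo8 (X := X)
  omega

/-- the distance at which the next crossed axis begins -/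
noncomputable def nx (n : G) (V : G ⧸ X.E) : ℝ :=
  sInf (insert (L.l n) (X.rho '' {W | After n V W}))

lemma nx_fin (n : G) (V : G ⧸ X.E) : (insert (L.l n) (X.rho '' {W | After n V W})).Finite := by
  apply Set.Finite.insert
  apply Set.Finite.image
  apply (DD_finite n).subset
  intro W hW
  have h1 := hW.2.1
  have h2 := kb_lo8 (X := X)
  change 8 * X.θ < X.DD W (Sum.inr 1) (Sum.inr n)
  omega

lemma nx_cases (n : G) (V : G ⧸ X.E) : nx n V = L.l n ∨ ∃ W, After n V W ∧ nx n V = X.rho W := by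
  have h := Set.Nonempty.csInf_mem (Set.insert_nonempty (L.l n) (X.rho '' {W | After n V W}))
    (nx_fin n V)
  rcases h with h | ⟨W, hW, h⟩
  · exact Or.inl h
  · exact Or.inr ⟨W, hW, h.symm⟩

lemma nx_le (n : G) (V : G ⧸ X.E) : nx n V ≤ L.l n :=
  csInf_le (nx_fin n V).bddBelow (Set.mem_insert _ _)

lemma nx_le_rho {n : G} {V W : G ⧸ X.E} (h : After n V W) : nx n V ≤ X.rho W :=
  csInf_le (nx_fin n V).bddBelow (Set.mem_insert_of_mem _ ⟨W, h, rfl⟩)

/-- the axis `V` is far from `nx` -/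
lemma nx_ge {n : G} {V : G ⧸ X.E} (h : X.CD + 2 * X.Q + L.δ < (X.DD V (Sum.inr 1) (Sum.inr n) : ℝ)) :
    X.rho V + X.DD V (Sum.inr 1) (Sum.inr n) - X.CD - X.C3 ≤ nx n V := by
  rcases nx_cases n V with h1 | ⟨W, hW, h1⟩
  · rw [h1]
    obtain ⟨v, hv⟩ := proj_nonempty V n
    have e1 := D_le_d (X := X) (Y := V) (a := Sum.inr 1) (b := Sum.inr n) (by simp)
      (by simp) (x := 1) (y := n) rfl rfl (X.pr_mem V) hv
    have e2 := F2' (X.pr_mem V) hv (by linarith)
    rw [L.d_one, L.d_one] at e2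
    have := L.d_nonneg v n
    unfold rho
    linarith
  · rw [h1]
    have e1 : X.DD V (Sum.inr 1) (Sum.inl W) = X.DD V (Sum.inr 1) (Sum.inr n) := by
      rw [DD_symm, hW.ex', DD_symm]
    have e2 := rho_mono hW.1.symm (by
      have : (X.weak.D V (Sum.inr 1) (Sum.inl W)) = X.DD V (Sum.inr 1) (Sum.inr n) := e1
      rw [this]; exact h)
    have : (X.weak.D V (Sum.inr 1) (Sum.inl W)) = X.DD V (Sum.inr 1) (Sum.inr n) := e1
    rw [this] at e2
    exact e2

variable (X)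

open Classical in
/-- the first crossed axis -/
noncomputable def fst (t : ℕ) (n : G) : G ⧸ X.E :=
  Classical.epsilon (fun Y => X.IsFirst t n Y)

variable {X}

lemma fst_spec {K t : ℕ} (B : X.Big K t) {n : G} (h : ∃ V, t ≤ X.DD V (Sum.inr 1) (Sum.inr n)) :
    X.IsFirst t n (X.fst t n) :=
  Classical.epsilon_spec (exists_first B.num.1 h)

variable (X)

open Classical in
/-- the weight exponent -/
noncomputable def A (t : ℕ) (n : G) : ℝ :=
  if ∃ V, t ≤ X.DD V (Sum.inr 1) (Sum.inr n) then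
    if t + X.bb ≤ X.DD (X.fst t n) (Sum.inr 1) (Sum.inr n) then X.rho (X.fst t n) + t
    else nx n (X.fst t n)
  else 0

variable {X}

lemma rho_fst_le_A {K t : ℕ} (B : X.Big K t) {n : G}
    (h : ∃ V, t ≤ X.DD V (Sum.inr 1) (Sum.inr n)) : X.rho (X.fst t n) ≤ X.A t n := by
  have hf := fst_spec B h
  obtain ⟨n1, n2, n3, n4, -⟩ := B.num
  have ht : (t : ℝ) ≤ X.DD (X.fst t n) (Sum.inr 1) (Sum.inr n) := by exact_mod_cast hf.1
  unfold A
  rw [if_pos h]
  split_ifs with h1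
  · have : (0 : ℝ) ≤ t := Nat.cast_nonneg _
    linarith
  · have := nx_ge (n := n) (V := X.fst t n) (by linarith)
    linarith

lemma A_nonneg {K t : ℕ} (B : X.Big K t) (n : G) : 0 ≤ X.A t n := by
  by_cases h : ∃ V, t ≤ X.DD V (Sum.inr 1) (Sum.inr n)
  · exact (rho_nonneg _).trans (rho_fst_le_A B h)
  · unfold A
    rw [if_neg h]

/-- the constraint on the attachment point -/
lemma constraint {K t : ℕ} (B : X.Big K t) {Y : G ⧸ X.E} {n : G}
    (h : ∃ V, t ≤ X.DD V (Sum.inr 1) (Sum.inr n))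
    (hY : ∀ V, V ≠ Y → X.DD V (Sum.inr 1) (Sum.inl Y) < t)
    (hYn : X.DD Y (Sum.inr 1) (Sum.inr n) < t) :
    L.gp 1 (X.pr Y) n ≤ X.A t n + 10 * X.M := by
  obtain ⟨n1, n2, n3, n4, -⟩ := B.num
  have hC3 := C3_hi (X := X)
  have hC30 := C3_nonneg (X := X)
  have hMf := M_facts (X := X)
  have hM : X.M = 1 + X.κ + X.e + X.Q + L.δ + X.B0 + X.θ + X.τ := rfl
  obtain ⟨hκ, he, hQ, hδ, hB0, hθ, hτ⟩ := hMf
  have hf := fst_spec B h
  set Y' := X.fst t n with hY'
  have hne : Y' ≠ Y := by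
    intro h1
    have := hf.1
    rw [h1] at this
    omega
  have hA := hY Y' hne
  have hle1 : L.gp 1 (X.pr Y) n ≤ L.l n := by
    have := L.gp_le_right 1 (X.pr Y) n
    rwa [L.d_one] at this
  have hle2 : L.gp 1 (X.pr Y) n ≤ X.rho Y := by
    have := L.gp_le_left 1 (X.pr Y) n
    rwa [L.d_one] at this
  -- general comparison
  have hcomp : ∀ V : G ⧸ X.E, V ≠ Y → ∀ s : ℝ, (X.DD V (Sum.inr 1) (Sum.inl Y) : ℝ) ≤ s →
      s + X.CD + 2 * X.Q + L.δ < X.DD V (Sum.inr 1) (Sum.inr n) →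
      L.gp 1 (X.pr Y) n ≤ X.rho V + s + X.C3 / 2 := by
    intro V hV s hs1 hs2
    obtain ⟨v', hv'⟩ := proj_nonempty V n
    obtain ⟨v'', hv''⟩ := proj_nonempty V (X.pr Y)
    have e1 := G1 hv' hv''
    have e2 : L.d (X.pr V) v'' ≤ X.weak.D V (Sum.inr 1) (Sum.inl Y) :=
      d_le_D (X := X) (Y := V) (a := Sum.inr 1) (b := Sum.inl Y) (by simp)
        (by simpa using hV.symm) (x := 1) (y := X.pr Y) rfl (X.pr_mem Y).1 (X.pr_mem V) hv''
    have e3 := D_le_d (X := X) (Y := V) (a := Sum.inr 1) (b := Sum.inr n) (by simp) (by simp)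
      (x := 1) (y := n) rfl rfl (X.pr_mem V) hv'
    have e4 : L.d (X.pr V) v'' ≤ s := e2.trans hs1
    rcases min_choice (L.gp 1 (X.pr Y) n - X.rho V - X.C3 / 2)
      (L.d (X.pr V) v' - 2 * X.Q - L.δ) with h1 | h1
    · rw [h1] at e1; linarith
    · rw [h1] at e1; linarith
  unfold A
  rw [if_pos h]
  split_ifs with h1
  · -- far from the borderline
    have h1' : (t : ℝ) + X.bb ≤ X.DD Y' (Sum.inr 1) (Sum.inr n) := by exact_mod_cast h1
    have hbb := bb_lo (X := X)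
    have := hcomp Y' hne t (by exact_mod_cast hA.le) (by linarith)
    linarith
  · rcases nx_cases n Y' with h2 | ⟨W, hW, h2⟩
    · rw [h2]; linarith
    · rw [h2]
      by_cases hWY : W = Y
      · rw [hWY]; linarith
      · have h3 : X.DD W (Sum.inr 1) (Sum.inl Y) ≤ 8 * X.θ := by
          by_contra hcon
          push Not at hcon
          have e1 : 8 * X.θ < X.DD W (Sum.inl Y') (Sum.inl Y) := by
            rw [hW.ex]; exact hcon
          have e2 := DD_exact (a := Sum.inl Y) hW.1.symm (by simpa using hne.symm)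
            (by simpa using Ne.symm hWY) e1 (Sum.inr 1)
          rw [hW.ex'] at e2
          have e3 : X.DD Y' (Sum.inr 1) (Sum.inl Y) = X.DD Y' (Sum.inr 1) (Sum.inr n) := by
            rw [DD_symm, ← e2, DD_symm]
          have := hf.1
          omega
        have h4 := hW.2.1
        have h4' : (X.kb : ℝ) < X.DD W (Sum.inr 1) (Sum.inr n) := by exact_mod_cast h4
        have hkb := kb_lo (X := X)
        have := hcomp W hWY (8 * X.θ) (by exact_mod_cast h3) (by linarith)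
        linarith

/-- all axes crossed substantially which are possible last steps come before the first axis -/
lemma first_after {K t : ℕ} (B : X.Big K t) {Y Z : G ⧸ X.E} {n : G} (hne : Z ≠ Y)
    (hY : X.DD Z (Sum.inr 1) (Sum.inl Y) < t) (hZ : t ≤ X.DD Z (Sum.inr 1) (Sum.inr n))
    (hYn : X.kb ≤ X.DD Y (Sum.inr 1) (Sum.inr n)) : After n Y Z := by
  obtain ⟨n1, n2, n3, n4, -⟩ := B.num
  refine ⟨hne, by omega, ?_⟩
  by_contra hcon
  push Not at hcon
  have e1 := DD_tri Y (Sum.inr 1) (Sum.inl Z) (Sum.inr n) (by simp) (by simpa using hne) (by simp)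
  rw [DD_symm Y (Sum.inr 1) (Sum.inl Z)] at e1
  have := kb_lo' (X := X)
  have e2 : 8 * X.θ < X.DD Y (Sum.inl Z) (Sum.inr n) := by omega
  have e3 := DD_exact (a := Sum.inr n) hne (by simp) (by simp) e2 (Sum.inr 1)
  rw [DD_symm, DD_symm Z (Sum.inr n)] at e3
  omega

/-- two crossed axes are comparable -/
lemma after_or {Y Z : G ⧸ X.E} {n : G} (hne : Z ≠ Y)
    (hZ : X.kb < X.DD Z (Sum.inr 1) (Sum.inr n))
    (hY : X.kb < X.DD Y (Sum.inr 1) (Sum.inr n)) : After n Y Z ∨ After n Z Y := by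
  by_cases h : 8 * X.θ < X.DD Y (Sum.inl Z) (Sum.inr 1)
  · left; exact ⟨hne, hZ, h⟩
  · right
    refine ⟨hne.symm, hY, ?_⟩
    push Not at h
    have e1 := DD_tri Y (Sum.inr 1) (Sum.inl Z) (Sum.inr n) (by simp) (by simpa using hne)
      (by simp)
    rw [DD_symm Y (Sum.inr 1) (Sum.inl Z)] at e1
    have := kb_lo' (X := X)
    have e2 : 8 * X.θ < X.DD Y (Sum.inl Z) (Sum.inr n) := by omega
    have e3 := DD_exact (a := Sum.inr n) hne (by simp) (by simp) e2 (Sum.inr 1)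
    rw [e3, DD_symm]
    omega

/-- the values of `nx` are separated -/
lemma nx_sep {Y Z : G ⧸ X.E} {n : G} (hne : Z ≠ Y)
    (hZ : 30 * X.M < X.DD Z (Sum.inr 1) (Sum.inr n))
    (hY : 30 * X.M < X.DD Y (Sum.inr 1) (Sum.inr n)) : 1 ≤ |nx n Y - nx n Z| := by
  have hkb := kb_hi (X := X)
  have hM1 := M_one (X := X)
  have hC3 := C3_hi (X := X)
  have hCD := CD_hi (X := X)
  have hM : X.M = 1 + X.κ + X.e + X.Q + L.δ + X.B0 + X.θ + X.τ := rfl
  have hMf := M_facts (X := X)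
  obtain ⟨hκ, he, hQ, hδ, hB0, hθ, hτ⟩ := hMf
  have hZ' : X.kb < X.DD Z (Sum.inr 1) (Sum.inr n) := by
    have : (X.kb : ℝ) < X.DD Z (Sum.inr 1) (Sum.inr n) := by linarith
    exact_mod_cast this
  have hY' : X.kb < X.DD Y (Sum.inr 1) (Sum.inr n) := by
    have : (X.kb : ℝ) < X.DD Y (Sum.inr 1) (Sum.inr n) := by linarith
    exact_mod_cast this
  rcases after_or hne hZ' hY' with h | h
  · have e1 := nx_le_rho h
    have e2 := nx_ge (n := n) (V := Z) (by linarith)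
    rw [abs_sub_comm]
    refine le_trans ?_ (le_abs_self _)
    linarith
  · have e1 := nx_le_rho h
    have e2 := nx_ge (n := n) (V := Y) (by linarith)
    refine le_trans ?_ (le_abs_self _)
    linarith

end Lox

end HypLen

end Pool.Agent.H73.Cg
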