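import Pool.Agent.H73.CgG

set_option autoImplicit false

/-! The reduction step. -/

namespace Pool.Agent.H73.Cg

namespace HypLen

variable {G : Type*} [Group G] {L : HypLen G}

namespace Lox

variable {X : L.Lox}

lemma smul_inl (g : G) (V : G ⧸ X.E) :
    g • (Sum.inl V : (G ⧸ X.E) ⊕ G) = Sum.inl (g • V) := rfl

lemma smul_inr (g x : G) :
    g • (Sum.inr x : (G ⧸ X.E) ⊕ G) = Sum.inr (g * x) := rfl

/-- comparison of the next axis before and after a reduction at `Y` -/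
lemma nx_step {K t : ℕ} (B : X.Big K t) {Y : G ⧸ X.E} {n q r : G} (hr : r ∈ X.rotR K Y)
    (hq : q ∈ X.proj Y n) (ht : t ≤ X.DD Y (Sum.inr 1) (Sum.inr n))
    (hL' : 30 * X.M < L.d (X.pr Y) (r⁻¹ * q)) :
    nx n Y ≤ nx (r⁻¹ * n) Y + (L.d (X.pr Y) q - L.d (X.pr Y) (r⁻¹ * q)) + 20 * X.M := by
  obtain ⟨n1, n2, n3, n4, -⟩ := B.num
  have hC3 := C3_hi (X := X)
  have hM1 := M_one (X := X)
  have hCD := CD_hi (X := X)
  have hMf := M_facts (X := X)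
  have hM : X.M = 1 + X.κ + X.e + X.Q + L.δ + X.B0 + X.θ + X.τ := rfl
  obtain ⟨hκ, he, hQ, hδ, hB0, hθ, hτ⟩ := hMf
  set Qs := X.rotSys K B.per
  have hfix : r • Y = Y := Qs.fix Y r hr
  have hfix' : r⁻¹ • Y = Y := Qs.fix Y r⁻¹ ((Qs.R Y).inv_mem hr)
  have hL : 2 * X.Q + L.δ < L.d (X.pr Y) q := by
    have := D_le_d (X := X) (Y := Y) (a := Sum.inr 1) (b := Sum.inr n) (by simp) (by simp)
      (x := 1) (y := n) rfl rfl (X.pr_mem Y) hq
    have ht' : (t : ℝ) ≤ (X.weak.D Y (Sum.inr 1) (Sum.inr n) : ℝ) := by exact_mod_cast ht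
    linarith
  obtain ⟨hq', -, -, hlen⟩ := delta B.per hq hr hL
  rcases nx_cases (r⁻¹ * n) Y with h | ⟨W', hW', h⟩
  · rw [h]
    have := nx_le n Y
    have := hlen (by linarith)
    linarith
  · rw [h]
    -- the translated axis
    have hrW : r⁻¹ • (r • W') = W' := inv_smul_smul r W'
    have a1 : X.DD Y (Sum.inl W') (Sum.inr r⁻¹) = X.DD Y (Sum.inr 1) (Sum.inr n) := by
      rw [hW'.ex', ← DD_smul r Y, hfix, smul_inr, smul_inr, mul_inv_cancel, mul_inv_cancel_left,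
        DD_symm]
    have a2 : 8 * X.θ < X.DD Y (Sum.inl W') (Sum.inr r⁻¹) := by omega
    have a3 := DD_exact (a := Sum.inr r⁻¹) hW'.1 (by simp) (by simp) a2
    have hAft : After n Y (r • W') := by
      refine ⟨?_, ?_, ?_⟩
      · intro h1
        apply hW'.1
        rw [← hrW, h1, hfix']
      · rw [← DD_smul r⁻¹, hrW, smul_inr, smul_inr, mul_one, ← a3, hW'.ex]
        exact hW'.2.1
      · rw [← DD_smul r⁻¹, hfix', smul_inl, hrW, smul_inr, mul_one]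
        exact a2
    have b1 := nx_le_rho hAft
    have b2 : X.rho (r • W') ≤ L.l (r * X.pr W') := by
      apply rho_le
      rw [← X.smul_co, (X.pr_mem W').1]
    -- upper bound
    have b3 := L.d_tri 1 (X.pr Y) (r * X.pr W')
    have b4 := L.d_tri (X.pr Y) q (r * X.pr W')
    have b5 : L.d q (r * X.pr W') = L.d (r⁻¹ * q) (X.pr W') := by
      rw [← L.d_mul r⁻¹ q (r * X.pr W'), inv_mul_cancel_left]
    rw [L.d_one, L.d_one] at b3
    -- lower bound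
    obtain ⟨y, hy⟩ := proj_nonempty Y (X.pr W')
    have c1 : L.d y (r⁻¹ * q) ≤ 8 * X.θ := by
      have e1 : L.d y (r⁻¹ * q) ≤ X.weak.D Y (Sum.inl W') (Sum.inr (r⁻¹ * n)) :=
        d_le_D (X := X) (Y := Y) (a := Sum.inl W') (b := Sum.inr (r⁻¹ * n))
          (by simpa using hW'.1) (by simp) (x := X.pr W') (y := r⁻¹ * n) (X.pr_mem W').1 rfl hy hq'
      have e2 : X.DD Y (Sum.inl W') (Sum.inr (r⁻¹ * n)) ≤ 8 * X.θ := by
        rw [hW'.ex']
        exact DD_self Y _ (by simp)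
      have e3 : (X.weak.D Y (Sum.inl W') (Sum.inr (r⁻¹ * n)) : ℝ) ≤ 8 * X.θ := by
        exact_mod_cast e2
      linarith
    have c2 := L.d_tri (X.pr Y) y (r⁻¹ * q)
    have c3 := F2' (X.pr_mem Y) hy (by linarith)
    rw [L.d_one, L.d_one] at c3
    have c4 := L.d_tri (r⁻¹ * q) y (X.pr W')
    rw [L.d_comm (r⁻¹ * q) y] at c4
    have e0 : X.rho W' = L.l (X.pr W') := rfl
    rw [e0]
    linarith

/-- The reduction data. -/
structure Red (X : L.Lox) (K t : ℕ) (n n' : G) (Y : G ⧸ X.E) (m : ℤ) : Prop where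
  m0 : m ≠ 0
  eq : n = X.pr Y * X.g ^ ((K : ℤ) * m) * (X.pr Y)⁻¹ * n'
  first : ∀ V, V ≠ Y → X.DD V (Sum.inr 1) (Sum.inl Y) < t
  lt : X.DD Y (Sum.inr 1) (Sum.inr n') < t
  len : L.l n' + 2 * (X.rho Y - L.gp 1 (X.pr Y) n') + |(m : ℝ)| * ((K : ℝ) * X.τ) / 2 -
    16 * X.M ≤ L.l n
  alt : X.A t n = X.rho Y + t ∨ (|m| = 1 ∧ (K : ℝ) * X.τ / 4 - 10 * X.M ≤
    X.DD Y (Sum.inr 1) (Sum.inr n') ∧ ∃ D : ℝ, (K : ℝ) * X.τ / 2 - 12 * X.M ≤ D ∧
      L.l n' + D - 4 * X.M ≤ L.l n ∧ X.A t n ≤ nx n' Y + D + 20 * X.M)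

lemma exists_red {K t : ℕ} (B : X.Big K t) {n : G}
    (h : ∃ V, t ≤ X.DD V (Sum.inr 1) (Sum.inr n)) :
    ∃ (n' : G) (Y : G ⧸ X.E) (m : ℤ), Red X K t n n' Y m := by
  obtain ⟨n1, n2, n3, n4, -⟩ := B.num
  have hC3 := C3_hi (X := X)
  have hM1 := M_one (X := X)
  have hCD := CD_hi (X := X)
  have hMf := M_facts (X := X)
  have hM : X.M = 1 + X.κ + X.e + X.Q + L.δ + X.B0 + X.θ + X.τ := rfl
  obtain ⟨hκ, he, hQ, hδ, hB0, hθ, hτ⟩ := hMf
  have hf := fst_spec B h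
  set Y := X.fst t n with hYdef
  obtain ⟨q, hq⟩ := proj_nonempty Y n
  obtain ⟨m, hm0, hr1, hr2, hr3⟩ := red B hf.1 hq
  set r := X.pr Y * X.g ^ ((K : ℤ) * m) * (X.pr Y)⁻¹ with hrdef
  have hr : r ∈ X.rotR K Y := (mem_rotR B.per (X.pr_mem Y).1).2 ⟨m, hrdef⟩
  have hL : 2 * X.Q + L.δ < L.d (X.pr Y) q := by
    have := D_le_d (X := X) (Y := Y) (a := Sum.inr 1) (b := Sum.inr n) (by simp) (by simp)
      (x := 1) (y := n) rfl rfl (X.pr_mem Y) hq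
    have ht' : (t : ℝ) ≤ (X.weak.D Y (Sum.inr 1) (Sum.inr n) : ℝ) := by exact_mod_cast hf.1
    linarith
  obtain ⟨hq', hd1, hd2, hd3⟩ := delta B.per hq hr hL
  refine ⟨r⁻¹ * n, Y, m, hm0, by rw [hrdef]; group, fun V hV => claimA B hf hV, ?_, ?_, ?_⟩
  · have e1 : (X.weak.D Y (Sum.inr 1) (Sum.inr (r⁻¹ * n)) : ℝ) ≤ L.d (X.pr Y) (r⁻¹ * q) + X.CD :=
      D_le_d (X := X) (Y := Y) (a := Sum.inr 1) (b := Sum.inr (r⁻¹ * n)) (by simp) (by simp)
        (x := 1) (y := r⁻¹ * n) rfl rfl (X.pr_mem Y) hq'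
    have e2 := B.t2
    have e3 := B.big
    have e4 : (X.weak.D Y (Sum.inr 1) (Sum.inr (r⁻¹ * n)) : ℝ) < t := by linarith
    exact_mod_cast e4
  · linarith
  · by_cases hb : t + X.bb ≤ X.DD Y (Sum.inr 1) (Sum.inr n)
    · left
      unfold A
      rw [if_pos h, ← hYdef, if_pos hb]
    · right
      push Not at hb
      obtain ⟨hm1, hL'⟩ := hr3 hb
      have hbig := B.big
      have hdD : L.d (X.pr Y) (r⁻¹ * q) ≤ X.weak.D Y (Sum.inr 1) (Sum.inr (r⁻¹ * n)) :=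
        d_le_D (by simp) (by simp) (x := 1) (y := r⁻¹ * n) rfl rfl (X.pr_mem Y) hq'
      refine ⟨hm1, hL'.trans hdD, L.d (X.pr Y) q - L.d (X.pr Y) (r⁻¹ * q), ?_, ?_, ?_⟩
      · have hm1' : |(m : ℝ)| = 1 := by exact_mod_cast hm1
        rw [hm1'] at hr2
        linarith
      · linarith
      · have hA : X.A t n = nx n Y := by
          unfold A
          rw [if_pos h, ← hYdef, if_neg (by omega)]
        rw [hA]
        exact nx_step B hr hq hf.1 (by linarith)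

end Lox

end HypLen

end Pool.Agent.H73.Cg
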