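import Mathlib

set_option autoImplicit false

/-! Elementary sums. -/

namespace Pool.Agent.H73.Cg

open Finset Real

/-- sum of a geometric series over an injective family -/
lemma geom_inj {ι : Type*} (S : Finset ι) (f : ι → ℕ) (hf : Set.InjOn f S) {x : ℝ} (h0 : 0 ≤ x)
    (h1 : x < 1) : ∑ i ∈ S, x ^ f i ≤ (1 - x)⁻¹ := by
  classical
  rw [← Finset.sum_image (f := fun k => x ^ k) (g := f) hf]
  rw [← tsum_geometric_of_lt_one h0 h1]
  exact (summable_geometric_of_lt_one h0 h1).sum_le_tsum _ (fun k _ => pow_nonneg h0 k)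

/-- sum over nonzero integers -/
lemma geom_int (S : Finset ℤ) (hS : ∀ m ∈ S, m ≠ 0) {x : ℝ} (h0 : 0 ≤ x) (h1 : x ≤ 1 / 2) :
    ∑ m ∈ S, x ^ m.natAbs ≤ 4 * x := by
  classical
  have key : ∀ T : Finset ℤ, (∀ m ∈ T, m ≠ 0) → Set.InjOn (fun m : ℤ => m.natAbs - 1) T →
      ∑ m ∈ T, x ^ m.natAbs ≤ 2 * x := by
    intro T hT hinj
    have e1 : ∑ m ∈ T, x ^ m.natAbs = x * ∑ m ∈ T, x ^ (m.natAbs - 1) := by
      rw [Finset.mul_sum]
      apply Finset.sum_congr rfl
      intro m hm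
      have := hT m hm
      rw [← pow_succ']
      congr 1
      omega
    rw [e1]
    have e2 := geom_inj T _ hinj h0 (by linarith)
    have e3 : (1 - x)⁻¹ ≤ 2 := by
      rw [inv_le_comm₀ (by linarith) (by norm_num)]
      linarith
    nlinarith
  rw [← Finset.sum_filter_add_sum_filter_not S (fun m => 0 < m)]
  have k1 := key (S.filter (fun m => 0 < m)) (fun m hm => hS m (Finset.mem_filter.1 hm).1) (by
    intro a ha b hb hab
    have ha' := (Finset.mem_filter.1 (Finset.mem_coe.1 ha)).2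
    have hb' := (Finset.mem_filter.1 (Finset.mem_coe.1 hb)).2
    simp only at hab
    omega)
  have k2 := key (S.filter (fun m => ¬ 0 < m)) (fun m hm => hS m (Finset.mem_filter.1 hm).1) (by
    intro a ha b hb hab
    have ha' := Finset.mem_filter.1 (Finset.mem_coe.1 ha)
    have hb' := Finset.mem_filter.1 (Finset.mem_coe.1 hb)
    have := hS a ha'.1
    have := hS b hb'.1
    simp only at hab
    omega)
  linarith

/-- sum over a separated family -/
lemma sum_sep {ι : Type*} (S : Finset ι) (v : ι → ℝ) {b η : ℝ} (hη : 0 < η)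
    (hsep : ∀ i ∈ S, ∀ j ∈ S, i ≠ j → 1 ≤ |v i - v j|) (hb : ∀ i ∈ S, v i ≤ b) :
    ∑ i ∈ S, exp (η * v i) ≤ exp (η * b) * (1 - exp (-η))⁻¹ := by
  have hx0 : 0 ≤ exp (-η) := (exp_pos _).le
  have hx1 : exp (-η) < 1 := by rw [exp_lt_one_iff]; linarith
  have hinj : Set.InjOn (fun i => ⌊b - v i⌋₊) S := by
    intro i hi j hj hij
    by_contra hne
    have h1 := hsep i hi j hj hne
    have b1 := hb i hi
    have b2 := hb j hj
    simp only at hij
    have e1 := Nat.floor_le (by linarith : 0 ≤ b - v i)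
    have e2 := Nat.lt_floor_add_one (b - v i)
    have e3 := Nat.floor_le (by linarith : 0 ≤ b - v j)
    have e4 := Nat.lt_floor_add_one (b - v j)
    rw [hij] at e1 e2
    have : |v i - v j| < 1 := by
      rw [abs_lt]
      constructor <;> linarith
    linarith
  have h1 : ∀ i ∈ S, exp (η * v i) ≤ exp (η * b) * exp (-η) ^ ⌊b - v i⌋₊ := by
    intro i hi
    rw [← exp_nat_mul, ← exp_add]
    apply exp_le_exp.2
    have e1 := Nat.floor_le (by have := hb i hi; linarith : 0 ≤ b - v i)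
    nlinarith
  calc ∑ i ∈ S, exp (η * v i) ≤ ∑ i ∈ S, exp (η * b) * exp (-η) ^ ⌊b - v i⌋₊ :=
        Finset.sum_le_sum h1
    _ = exp (η * b) * ∑ i ∈ S, exp (-η) ^ ⌊b - v i⌋₊ := by rw [Finset.mul_sum]
    _ ≤ exp (η * b) * (1 - exp (-η))⁻¹ := by
        gcongr
        exact geom_inj S _ hinj hx0 hx1

/-- The main point count: `u` is the norm and `c` the Gromov product. -/
lemma sum_P {ι : Type*} {Cp η : ℝ} (hCp : 0 ≤ Cp) (hη : 0 < η) (u c : ι → ℝ)
    (hc0 : ∀ x, 0 ≤ c x) (hcu : ∀ x, c x ≤ u x)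
    (hP : ∀ (R r : ℝ) (S : Finset ι), 0 ≤ r → (∀ x ∈ S, u x ≤ R ∧ r ≤ c x) →
      (S.card : ℝ) ≤ Cp * exp (2 * (R - r)))
    {b : ℝ} (hb : 0 ≤ b) (S : Finset ι) (hS : ∀ x ∈ S, c x ≤ b) :
    ∑ x ∈ S, exp (-2 * (1 + η) * (u x - c x) + η * u x) ≤
      Cp * exp (4 + 3 * η) * ((1 - exp (-η))⁻¹ * (1 - exp (-η))⁻¹) * exp (η * b) := by
  classical
  have hx0 : 0 ≤ exp (-η) := (exp_pos _).le
  have hx1 : exp (-η) < 1 := by rw [exp_lt_one_iff]; linarith
  set J := ⌊b⌋₊ with hJ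
  set f : ι → ℕ × ℕ := fun x => (⌊c x⌋₊, ⌊u x⌋₊ - ⌊c x⌋₊) with hf
  set Amax := (S.image (fun x => ⌊u x⌋₊ - ⌊c x⌋₊)).sup id + 1 with hAmax
  have hmaps : ∀ x ∈ S, f x ∈ Finset.range (J + 1) ×ˢ Finset.range Amax := by
    intro x hx
    rw [Finset.mem_product, Finset.mem_range, Finset.mem_range]
    refine ⟨Nat.lt_succ_of_le (Nat.floor_le_floor (hS x hx)), ?_⟩
    rw [hAmax]
    apply Nat.lt_succ_of_le
    exact Finset.le_sup (f := id) (Finset.mem_image_of_mem _ hx)
  rw [← Finset.sum_fiberwise_of_maps_to hmaps]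
  have hfib : ∀ ja ∈ Finset.range (J + 1) ×ˢ Finset.range Amax,
      ∑ x ∈ S with f x = ja, exp (-2 * (1 + η) * (u x - c x) + η * u x) ≤
      Cp * exp (4 + 3 * η) * (exp (-η) ^ ja.2 * (exp (η * b) * exp (-η) ^ (J - ja.1))) := by
    rintro ⟨j, a⟩ hja
    have hjJ : j ≤ J := by
      have := (Finset.mem_product.1 hja).1
      have := Finset.mem_range.1 this
      simp only at this
      omega
    have hx : ∀ x ∈ S.filter (fun x => f x = (j, a)),
        (j : ℝ) ≤ c x ∧ c x ≤ j + 1 ∧ (j : ℝ) + a ≤ u x ∧ u x ≤ j + a + 1 := by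
      intro x hx
      obtain ⟨hxS, hxf⟩ := Finset.mem_filter.1 hx
      rw [hf] at hxf
      simp only [Prod.mk.injEq] at hxf
      obtain ⟨h1, h2⟩ := hxf
      have e1 := Nat.floor_le (hc0 x)
      have e2 := Nat.lt_floor_add_one (c x)
      have hu0 := (hc0 x).trans (hcu x)
      have e3 := Nat.floor_le hu0
      have e4 := Nat.lt_floor_add_one (u x)
      have e5 : ⌊c x⌋₊ ≤ ⌊u x⌋₊ := Nat.floor_le_floor (hcu x)
      have e6 : (⌊u x⌋₊ : ℝ) = j + a := by
        have : ⌊u x⌋₊ = j + a := by omega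
        rw [this]; push_cast; ring
      rw [e6] at e3 e4
      rw [h1] at e1 e2
      exact ⟨e1, e2.le, e3, e4.le⟩
    have hcard := hP (j + a + 1) j (S.filter (fun x => f x = (j, a))) (Nat.cast_nonneg j)
      (fun x hx' => ⟨(hx x hx').2.2.2, (hx x hx').1⟩)
    have hterm : ∀ x ∈ S.filter (fun x => f x = (j, a)),
        exp (-2 * (1 + η) * (u x - c x) + η * u x) ≤
        exp (-2 * (1 + η) * (a - 1) + η * (j + a + 1)) := by
      intro x hx'
      obtain ⟨h1, h2, h3, h4⟩ := hx x hx'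
      apply exp_le_exp.2
      have : (a : ℝ) - 1 ≤ u x - c x := by linarith
      nlinarith
    have hsum := Finset.sum_le_card_nsmul _ _ _ hterm
    rw [nsmul_eq_mul] at hsum
    refine hsum.trans ?_
    calc ((S.filter (fun x => f x = (j, a))).card : ℝ) *
          exp (-2 * (1 + η) * (a - 1) + η * (j + a + 1))
        ≤ (Cp * exp (2 * (j + a + 1 - j))) * exp (-2 * (1 + η) * (a - 1) + η * (j + a + 1)) := by
          gcongr
      _ = Cp * exp (4 + 3 * η + (a * (-η) + η * j)) := by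
          rw [mul_assoc, ← exp_add]
          congr 2
          ring
      _ ≤ Cp * exp (4 + 3 * η + (a * (-η) + (η * b + ((J - j : ℕ) : ℝ) * (-η)))) := by
          gcongr
          have e1 : ((J - j : ℕ) : ℝ) = J - j := by
            rw [Nat.cast_sub hjJ]
          have e2 : (J : ℝ) ≤ b := Nat.floor_le hb
          rw [e1]
          nlinarith
      _ = _ := by
          rw [exp_add, exp_add ((a : ℝ) * (-η)), exp_add (η * b), exp_nat_mul, exp_nat_mul]
          ring
  refine (Finset.sum_le_sum hfib).trans ?_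
  rw [Finset.sum_product]
  have h1 : ∀ j ∈ Finset.range (J + 1), ∑ a ∈ Finset.range Amax,
      Cp * exp (4 + 3 * η) * (exp (-η) ^ a * (exp (η * b) * exp (-η) ^ (J - j))) ≤
      Cp * exp (4 + 3 * η) * ((1 - exp (-η))⁻¹ * (exp (η * b) * exp (-η) ^ (J - j))) := by
    intro j _
    rw [← Finset.mul_sum, ← Finset.sum_mul]
    gcongr
    exact geom_inj _ (fun a => a) (fun a _ b _ h => h) hx0 hx1
  refine (Finset.sum_le_sum h1).trans ?_
  rw [← Finset.mul_sum, ← Finset.mul_sum, ← Finset.mul_sum]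
  have h2 : ∑ j ∈ Finset.range (J + 1), exp (-η) ^ (J - j) ≤ (1 - exp (-η))⁻¹ := by
    apply geom_inj _ (fun j => J - j) _ hx0 hx1
    intro i hi j hj hij
    have h1 := Finset.mem_range.1 (Finset.mem_coe.1 hi)
    have h2 := Finset.mem_range.1 (Finset.mem_coe.1 hj)
    simp only at hij
    omega
  have hinv : 0 ≤ (1 - exp (-η))⁻¹ := inv_nonneg.2 (by linarith)
  calc Cp * exp (4 + 3 * η) * ((1 - exp (-η))⁻¹ * (exp (η * b) *
        ∑ j ∈ Finset.range (J + 1), exp (-η) ^ (J - j)))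
      ≤ Cp * exp (4 + 3 * η) * ((1 - exp (-η))⁻¹ * (exp (η * b) * (1 - exp (-η))⁻¹)) := by
        gcongr
    _ = _ := by ring

end Pool.Agent.H73.Cg
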