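import Pool.Agent.H73.CgH
import Pool.Agent.H73.CgI

set_option autoImplicit false

/-! Upper bound of the growth of the group generated by large rotations. -/

namespace Pool.Agent.H73.Cg

open Finset Real

namespace HypLen

variable {G : Type*} [Group G] {L : HypLen G}

variable (L) in
/-- purely exponential upper bound for the number of points in half spaces -/
def Pk (Cp : ℝ) : Prop := ∀ (y : G) (R r : ℝ) (S : Finset G), 0 ≤ r →
  (∀ x ∈ S, L.l x ≤ R ∧ r ≤ L.gp 1 x y) → (S.card : ℝ) ≤ Cp * exp (2 * (R - r))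

namespace Lox

variable {X : L.Lox}

/-- weights -/
noncomputable def wt (X : L.Lox) (η : ℝ) (t : ℕ) (n : G) : ℝ :=
  exp (-(1 + η) * L.l n + η * X.A t n)

lemma fib1 {K t : ℕ} {η Cp : ℝ} (hη : 0 < η)
    (hCp : 0 ≤ Cp) (hP : L.Pk Cp) {n' : G} (hA : 0 ≤ X.A t n' + 10 * X.M) (T : Finset G)
    (ax : G → G ⧸ X.E) (mm : G → ℤ) (hred : ∀ n ∈ T, Red X K t n n' (ax n) (mm n))
    (halt : ∀ n ∈ T, X.A t n = X.rho (ax n) + t)
    (hcon : ∀ n ∈ T, L.gp 1 (X.pr (ax n)) n' ≤ X.A t n' + 10 * X.M)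
    (hx : exp (-((1 + η) * ((K : ℝ) * X.τ) / 2)) ≤ 1 / 2) :
    ∑ n ∈ T, X.wt η t n ≤ exp (-(1 + η) * L.l n') *
      (Cp * exp (4 + 3 * η) * ((1 - exp (-η))⁻¹ * (1 - exp (-η))⁻¹) *
        exp (η * (X.A t n' + 10 * X.M))) * (4 * exp (-((1 + η) * ((K : ℝ) * X.τ) / 2))) *
        exp (16 * (1 + η) * X.M + η * t) := by
  classical
  set x := exp (-((1 + η) * ((K : ℝ) * X.τ) / 2)) with hxdef
  set F : G → ℝ := fun p => exp (-2 * (1 + η) * (L.l p - L.gp 1 p n') + η * L.l p) with hF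
  set c0 := exp (-(1 + η) * L.l n') with hc0
  set c1 := exp (16 * (1 + η) * X.M + η * t) with hc1
  have hterm : ∀ n ∈ T, X.wt η t n ≤ c0 * F (X.pr (ax n)) * x ^ (mm n).natAbs * c1 := by
    intro n hn
    have hr := (hred n hn).len
    have ha := halt n hn
    unfold wt
    rw [hc0, hc1, hF, hxdef, ← exp_nat_mul, ← exp_add, ← exp_add, ← exp_add, ha]
    apply exp_le_exp.2
    have e0 : X.rho (ax n) = L.l (X.pr (ax n)) := rfl
    rw [e0] at hr ⊢
    have e1 : (((mm n).natAbs : ℕ) : ℝ) = |((mm n : ℤ) : ℝ)| := by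
      rw [Nat.cast_natAbs, Int.cast_abs]
    rw [e1]
    have e2 : (1 + η) * (L.l n' + 2 * (L.l (X.pr (ax n)) - L.gp 1 (X.pr (ax n)) n') +
      |(mm n : ℝ)| * ((K : ℝ) * X.τ) / 2 - 16 * X.M) ≤ (1 + η) * L.l n := by
      gcongr
    linarith
  refine (Finset.sum_le_sum hterm).trans ?_
  set φ : G → G × ℤ := fun n => (X.pr (ax n), mm n) with hφ
  have hinj : Set.InjOn φ T := by
    intro a ha b hb hab
    rw [hφ] at hab
    simp only [Prod.mk.injEq] at hab
    have h1 := (hred a ha).eq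
    have h2 := (hred b hb).eq
    rw [h1, h2, hab.1, hab.2]
  have hFx : ∀ z : G × ℤ, 0 ≤ c0 * F z.1 * x ^ z.2.natAbs * c1 := by
    intro z
    have : 0 ≤ x := (exp_pos _).le
    have : 0 ≤ F z.1 := (exp_pos _).le
    have : 0 ≤ c0 := (exp_pos _).le
    have : 0 ≤ c1 := (exp_pos _).le
    positivity
  have h1 : ∑ n ∈ T, c0 * F (X.pr (ax n)) * x ^ (mm n).natAbs * c1 =
      ∑ z ∈ T.image φ, c0 * F z.1 * x ^ z.2.natAbs * c1 := by
    rw [Finset.sum_image hinj]
  rw [h1]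
  have h2 : T.image φ ⊆ (T.image (fun n => X.pr (ax n))) ×ˢ (T.image mm) := by
    intro z hz
    obtain ⟨n, hn, rfl⟩ := Finset.mem_image.1 hz
    exact Finset.mem_product.2 ⟨Finset.mem_image_of_mem _ hn, Finset.mem_image_of_mem _ hn⟩
  refine (Finset.sum_le_sum_of_subset_of_nonneg h2 (fun z _ _ => hFx z)).trans ?_
  have h3 : ∑ z ∈ (T.image (fun n => X.pr (ax n))) ×ˢ (T.image mm),
      c0 * F z.1 * x ^ z.2.natAbs * c1 =
      c0 * (∑ p ∈ T.image (fun n => X.pr (ax n)), F p) *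
        (∑ m ∈ T.image mm, x ^ m.natAbs) * c1 := by
    rw [Finset.sum_product]
    have h31 : ∀ p ∈ T.image (fun n => X.pr (ax n)),
        ∑ m ∈ T.image mm, c0 * F (p, m).1 * x ^ (p, m).2.natAbs * c1 =
        (c0 * c1 * (∑ m ∈ T.image mm, x ^ m.natAbs)) * F p := by
      intro p _
      rw [Finset.mul_sum, Finset.sum_mul]
      apply Finset.sum_congr rfl
      intro m _
      ring
    rw [Finset.sum_congr rfl h31, ← Finset.mul_sum]
    ring
  rw [h3]
  have h4 : ∑ p ∈ T.image (fun n => X.pr (ax n)), F p ≤ Cp * exp (4 + 3 * η) *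
      ((1 - exp (-η))⁻¹ * (1 - exp (-η))⁻¹) * exp (η * (X.A t n' + 10 * X.M)) := by
    apply sum_P hCp hη (fun p => L.l p) (fun p => L.gp 1 p n')
    · exact fun p => L.gp_nonneg _ _ _
    · intro p
      have := L.gp_le_left 1 p n'
      rwa [L.d_one] at this
    · intro R r S hr hS
      exact hP n' R r S hr hS
    · exact hA
    · intro p hp
      obtain ⟨n, hn, rfl⟩ := Finset.mem_image.1 hp
      exact hcon n hn
  have h5 : ∑ m ∈ T.image mm, x ^ m.natAbs ≤ 4 * x := by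
    apply geom_int _ _ (exp_pos _).le hx
    intro m hm
    obtain ⟨n, hn, rfl⟩ := Finset.mem_image.1 hm
    exact (hred n hn).m0
  have h6 : 0 ≤ ∑ m ∈ T.image mm, x ^ m.natAbs :=
    Finset.sum_nonneg (fun m _ => pow_nonneg (exp_pos _).le _)
  have h7 : 0 ≤ c0 := (exp_pos _).le
  have h8 : 0 ≤ c1 := (exp_pos _).le
  have h9 : 0 ≤ ∑ p ∈ T.image (fun n => X.pr (ax n)), F p :=
    Finset.sum_nonneg (fun m _ => (exp_pos _).le)
  have h10 : 0 ≤ c0 * (Cp * exp (4 + 3 * η) * ((1 - exp (-η))⁻¹ * (1 - exp (-η))⁻¹) *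
      exp (η * (X.A t n' + 10 * X.M))) := mul_nonneg h7 (h9.trans h4)
  gcongr

lemma fib2 {K t : ℕ} (B : X.Big K t) {η : ℝ} (hη : 0 < η) (hη' : η ≤ 1 / 4)
    {n' : G} (hn' : ∃ V, t ≤ X.DD V (Sum.inr 1) (Sum.inr n')) (T : Finset G)
    (ax : G → G ⧸ X.E) (mm : G → ℤ) (hred : ∀ n ∈ T, Red X K t n n' (ax n) (mm n))
    (halt : ∀ n ∈ T, |mm n| = 1 ∧ (K : ℝ) * X.τ / 4 - 10 * X.M ≤
      X.DD (ax n) (Sum.inr 1) (Sum.inr n') ∧ ∃ D : ℝ, (K : ℝ) * X.τ / 2 - 12 * X.M ≤ D ∧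
      L.l n' + D - 4 * X.M ≤ L.l n ∧ X.A t n ≤ nx n' (ax n) + D + 20 * X.M) :
    ∑ n ∈ T, X.wt η t n ≤ exp (-(1 + η) * L.l n') * exp (25 * X.M - (K : ℝ) * X.τ / 2) *
      (exp (η * X.A t n') * (1 - exp (-η))⁻¹) * 2 := by
  classical
  have hM1 := M_one (X := X)
  have hbig := B.big
  set c0 := exp (-(1 + η) * L.l n') with hc0
  set c1 := exp (25 * X.M - (K : ℝ) * X.τ / 2) with hc1
  have hterm : ∀ n ∈ T, X.wt η t n ≤ c0 * c1 * exp (η * nx n' (ax n)) := by
    intro n hn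
    obtain ⟨-, -, D, hD1, hD2, hD3⟩ := halt n hn
    unfold wt
    rw [hc0, hc1, ← exp_add, ← exp_add]
    apply exp_le_exp.2
    have e1 : (1 + η) * (L.l n' + D - 4 * X.M) ≤ (1 + η) * L.l n := by gcongr
    have e2 : η * X.A t n ≤ η * (nx n' (ax n) + D + 20 * X.M) := by gcongr
    have e3 : η * X.M ≤ 1 / 4 * X.M := by gcongr
    nlinarith
  refine (Finset.sum_le_sum hterm).trans ?_
  set φ : G → (G ⧸ X.E) × ℤ := fun n => (ax n, mm n) with hφ
  have hinj : Set.InjOn φ T := by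
    intro a ha b hb hab
    rw [hφ] at hab
    simp only [Prod.mk.injEq] at hab
    have h1 := (hred a ha).eq
    have h2 := (hred b hb).eq
    rw [h1, h2, hab.1, hab.2]
  have h1 : ∑ n ∈ T, c0 * c1 * exp (η * nx n' (ax n)) =
      ∑ z ∈ T.image φ, c0 * c1 * exp (η * nx n' z.1) := by
    rw [Finset.sum_image hinj]
  rw [h1]
  have h2 : T.image φ ⊆ (T.image ax) ×ˢ ({1, -1} : Finset ℤ) := by
    intro z hz
    obtain ⟨n, hn, rfl⟩ := Finset.mem_image.1 hz
    refine Finset.mem_product.2 ⟨Finset.mem_image_of_mem _ hn, ?_⟩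
    have := (halt n hn).1
    rcases (_root_.abs_eq (by norm_num : (0 : ℤ) ≤ 1)).1 this with h | h
    · simp [hφ, h]
    · simp [hφ, h]
  have hc : 0 ≤ c0 * c1 := mul_nonneg (exp_pos _).le (exp_pos _).le
  refine (Finset.sum_le_sum_of_subset_of_nonneg h2
    (fun z _ _ => mul_nonneg hc (exp_pos _).le)).trans ?_
  have h3 : ∑ z ∈ (T.image ax) ×ˢ ({1, -1} : Finset ℤ), c0 * c1 * exp (η * nx n' z.1) =
      c0 * c1 * (∑ Y ∈ T.image ax, exp (η * nx n' Y)) * 2 := by
    rw [Finset.sum_product, Finset.mul_sum, Finset.sum_mul]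
    apply Finset.sum_congr rfl
    intro p _
    change ∑ y ∈ ({1, -1} : Finset ℤ), c0 * c1 * exp (η * nx n' p) = _
    rw [Finset.sum_const]
    simp
    ring
  rw [h3]
  have hf := fst_spec B hn'
  have h4 : ∑ Y ∈ T.image ax, exp (η * nx n' Y) ≤ exp (η * X.A t n') * (1 - exp (-η))⁻¹ := by
    apply sum_sep _ _ hη
    · intro Y hY Z hZ hne
      obtain ⟨n, hn, rfl⟩ := Finset.mem_image.1 hY
      obtain ⟨n2, hn2, rfl⟩ := Finset.mem_image.1 hZ
      obtain ⟨-, k1, -⟩ := halt n hn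
      obtain ⟨-, k2, -⟩ := halt n2 hn2
      exact nx_sep hne.symm (by linarith) (by linarith)
    · intro Y hY
      obtain ⟨n, hn, rfl⟩ := Finset.mem_image.1 hY
      obtain ⟨-, k1, -⟩ := halt n hn
      have hr := hred n hn
      have hne : X.fst t n' ≠ ax n := by
        intro h
        have h1 := hf.1
        rw [h] at h1
        have := hr.lt
        omega
      have hkb := kb_hi (X := X)
      have hkk : (X.kb : ℝ) ≤ X.DD (ax n) (Sum.inr 1) (Sum.inr n') := by linarith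
      have haf := first_after B hne (hr.first _ hne) hf.1 (by exact_mod_cast hkk)
      exact (nx_le_rho haf).trans (rho_fst_le_A B hn')
  have h5 : 0 ≤ (1 - exp (-η))⁻¹ := by
    apply inv_nonneg.2
    have : exp (-η) < 1 := by rw [exp_lt_one_iff]; linarith
    linarith
  gcongr

/-- the sum of the weights is bounded -/
lemma sum_wt {K t : ℕ} (B : X.Big K t) {η Cp : ℝ} (hη : 0 < η) (hη' : η ≤ 1 / 4)
    (hCp : 0 ≤ Cp) (hP : L.Pk Cp)
    (hG : ∀ n ∈ (X.rotSys K B.per).N, n ≠ 1 → ∃ V, t ≤ X.DD V (Sum.inr 1) (Sum.inr n))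
    (s1 : Cp * exp (4 + 3 * η) * ((1 - exp (-η))⁻¹ * (1 - exp (-η))⁻¹) * exp (10 * η * X.M) *
      (4 * exp (-((1 + η) * ((K : ℝ) * X.τ) / 2))) * exp (16 * (1 + η) * X.M + η * t) ≤ 1 / 4)
    (s2 : exp (25 * X.M - (K : ℝ) * X.τ / 2) * (1 - exp (-η))⁻¹ * 2 ≤ 1 / 4)
    (s3 : exp (-((1 + η) * ((K : ℝ) * X.τ) / 2)) ≤ 1 / 2) (R : ℝ) (NR : Finset G)
    (hNR : ∀ n, n ∈ NR ↔ n ∈ (X.rotSys K B.per).N ∧ L.l n ≤ R) :
    ∑ n ∈ NR, X.wt η t n ≤ 2 := by
  classical
  set N := (X.rotSys K B.per).N with hN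
  have hM1 := M_one (X := X)
  have hbig := B.big
  have hex : ∀ n, n ∈ N ∧ n ≠ 1 → ∃ (n' : G) (Y : G ⧸ X.E) (m : ℤ), Red X K t n n' Y m :=
    fun n hn => exists_red B (hG n hn.1 hn.2)
  choose! par ax mm hred using hex
  have hno : ∀ V, ¬ t ≤ X.DD V (Sum.inr 1) (Sum.inr (1 : G)) := by
    intro V h
    have := DD_self V (Sum.inr (1 : G)) (by simp)
    have := B.num.1
    omega
  have hparN : ∀ n, n ∈ N ∧ n ≠ 1 → par n ∈ N := by
    intro n hn
    have h1 := (hred n hn).eq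
    have h2 : X.pr (ax n) * X.g ^ ((K : ℤ) * mm n) * (X.pr (ax n))⁻¹ ∈ N := by
      have h3 : X.pr (ax n) * X.g ^ ((K : ℤ) * mm n) * (X.pr (ax n))⁻¹ ∈ X.rotR K (ax n) :=
        (mem_rotR B.per (X.pr_mem (ax n)).1).2 ⟨mm n, rfl⟩
      exact (le_iSup (X.rotSys K B.per).R (ax n)) h3
    have h3 : par n = (X.pr (ax n) * X.g ^ ((K : ℤ) * mm n) * (X.pr (ax n))⁻¹)⁻¹ * n := by
      exact eq_inv_mul_iff_mul_eq.2 h1.symm
    rw [h3]
    exact N.mul_mem (N.inv_mem h2) hn.1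
  have hparl : ∀ n, n ∈ N ∧ n ≠ 1 → L.l (par n) ≤ L.l n := by
    intro n hn
    have h1 := (hred n hn).len
    have h2 : L.gp 1 (X.pr (ax n)) (par n) ≤ X.rho (ax n) := by
      have := L.gp_le_left 1 (X.pr (ax n)) (par n)
      rwa [L.d_one] at this
    have h3 : (1 : ℝ) ≤ |(mm n : ℝ)| := by
      have : (1 : ℤ) ≤ |mm n| := Int.one_le_abs (hred n hn).m0
      exact_mod_cast this
    have h4 : 1 * ((K : ℝ) * X.τ) ≤ |(mm n : ℝ)| * ((K : ℝ) * X.τ) := by
      gcongr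
      linarith
    linarith
  -- fibre estimate
  have hfib : ∀ n' ∈ NR, ∑ n ∈ (NR.filter (fun n => n ≠ 1)) with par n = n', X.wt η t n ≤
      1 / 2 * X.wt η t n' := by
    intro n' hn'
    have hn'N := (hNR n').1 hn'
    set T := (NR.filter (fun n => n ≠ 1)).filter (fun n => par n = n') with hT
    have hTm : ∀ n ∈ T, n ∈ N ∧ n ≠ 1 ∧ par n = n' := by
      intro n hn
      obtain ⟨h1, h2⟩ := Finset.mem_filter.1 hn
      obtain ⟨h3, h4⟩ := Finset.mem_filter.1 h1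
      exact ⟨((hNR n).1 h3).1, h4, h2⟩
    have hTr : ∀ n ∈ T, Red X K t n n' (ax n) (mm n) := by
      intro n hn
      obtain ⟨h1, h2, h3⟩ := hTm n hn
      have := hred n ⟨h1, h2⟩
      rwa [h3] at this
    rw [← Finset.sum_filter_add_sum_filter_not T (fun n => X.A t n = X.rho (ax n) + t)]
    have hA0 := A_nonneg B n'
    have hwt : X.wt η t n' = exp (-(1 + η) * L.l n') * exp (η * X.A t n') := by
      unfold wt; rw [exp_add]
    have hw0 : 0 ≤ X.wt η t n' := (exp_pos _).le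
    have k1 : ∑ n ∈ T with X.A t n = X.rho (ax n) + t, X.wt η t n ≤ 1 / 4 * X.wt η t n' := by
      have := fib1 (X := X) (K := K) (t := t) hη hCp hP (n' := n') (by linarith)
        (T.filter (fun n => X.A t n = X.rho (ax n) + t)) ax mm
        (fun n hn => hTr n (Finset.mem_filter.1 hn).1) (fun n hn => (Finset.mem_filter.1 hn).2)
        (by
          intro n hn
          have hn := (Finset.mem_filter.1 hn).1
          have hr := hTr n hn
          by_cases h1 : n' = 1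
          · rw [h1] at hA0 ⊢
            have : L.gp 1 (X.pr (ax n)) 1 ≤ 0 := by
              have := L.gp_le_right 1 (X.pr (ax n)) 1
              rwa [L.d_self] at this
            linarith
          · exact constraint B (hG n' hn'N.1 h1) hr.first hr.lt) s3
      refine this.trans ?_
      rw [hwt]
      have e1 : exp (η * (X.A t n' + 10 * X.M)) = exp (η * X.A t n') * exp (10 * η * X.M) := by
        rw [← exp_add]; congr 1; ring
      rw [e1]
      have e2 : 0 ≤ exp (-(1 + η) * L.l n') * exp (η * X.A t n') := by positivity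
      calc _ = (Cp * exp (4 + 3 * η) * ((1 - exp (-η))⁻¹ * (1 - exp (-η))⁻¹) *
            exp (10 * η * X.M) * (4 * exp (-((1 + η) * ((K : ℝ) * X.τ) / 2))) *
            exp (16 * (1 + η) * X.M + η * t)) *
            (exp (-(1 + η) * L.l n') * exp (η * X.A t n')) := by ring
        _ ≤ 1 / 4 * (exp (-(1 + η) * L.l n') * exp (η * X.A t n')) :=
            mul_le_mul_of_nonneg_right s1 e2
    have k2 : ∑ n ∈ T with ¬ X.A t n = X.rho (ax n) + t, X.wt η t n ≤
        1 / 4 * X.wt η t n' := by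
      have halt : ∀ n ∈ T.filter (fun n => ¬ X.A t n = X.rho (ax n) + t), |mm n| = 1 ∧
          (K : ℝ) * X.τ / 4 - 10 * X.M ≤
          X.DD (ax n) (Sum.inr 1) (Sum.inr n') ∧ ∃ D : ℝ, (K : ℝ) * X.τ / 2 - 12 * X.M ≤ D ∧
          L.l n' + D - 4 * X.M ≤ L.l n ∧ X.A t n ≤ nx n' (ax n) + D + 20 * X.M := by
        intro n hn
        obtain ⟨hn1, hn2⟩ := Finset.mem_filter.1 hn
        rcases (hTr n hn1).alt with h | h
        · exact absurd h hn2
        · exact h
      by_cases h1 : n' = 1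
      · have hempty : T.filter (fun n => ¬ X.A t n = X.rho (ax n) + t) = ∅ := by
          apply Finset.eq_empty_of_forall_notMem
          intro n hn
          obtain ⟨-, h2, -⟩ := halt n hn
          have h3 := DD_self (ax n) (Sum.inr (1 : G)) (by simp)
          have h3' : (X.DD (ax n) (Sum.inr 1) (Sum.inr (1 : G)) : ℝ) ≤ 8 * X.θ := by
            exact_mod_cast h3
          rw [h1] at h2
          have hM : X.M = 1 + X.κ + X.e + X.Q + L.δ + X.B0 + X.θ + X.τ := rfl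
          obtain ⟨hκ, he, hQ, hδ, hB0, hθ, hτ⟩ := M_facts (X := X)
          linarith
        rw [hempty, Finset.sum_empty]
        linarith
      · have := fib2 B hη hη' (hG n' hn'N.1 h1)
          (T.filter (fun n => ¬ X.A t n = X.rho (ax n) + t)) ax mm
          (fun n hn => hTr n (Finset.mem_filter.1 hn).1) halt
        refine this.trans ?_
        rw [hwt]
        have e2 : 0 ≤ exp (-(1 + η) * L.l n') * exp (η * X.A t n') := by positivity
        calc _ = (exp (25 * X.M - (K : ℝ) * X.τ / 2) * (1 - exp (-η))⁻¹ * 2) *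
              (exp (-(1 + η) * L.l n') * exp (η * X.A t n')) := by ring
          _ ≤ 1 / 4 * (exp (-(1 + η) * L.l n') * exp (η * X.A t n')) :=
              mul_le_mul_of_nonneg_right s2 e2
    linarith
  -- total
  have hmaps : ∀ n ∈ NR.filter (fun n => n ≠ 1), par n ∈ NR := by
    intro n hn
    obtain ⟨h1, h2⟩ := Finset.mem_filter.1 hn
    have h3 := (hNR n).1 h1
    exact (hNR _).2 ⟨hparN n ⟨h3.1, h2⟩, (hparl n ⟨h3.1, h2⟩).trans h3.2⟩
  have hsum2 : ∑ n ∈ NR.filter (fun n => n ≠ 1), X.wt η t n ≤ 1 / 2 * ∑ n ∈ NR, X.wt η t n := by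
    rw [← Finset.sum_fiberwise_of_maps_to hmaps, Finset.mul_sum]
    exact Finset.sum_le_sum hfib
  have hsum1 : ∑ n ∈ NR with ¬ n ≠ 1, X.wt η t n ≤ 1 := by
    have hsub : NR.filter (fun n => ¬ n ≠ 1) ⊆ {1} := by
      intro n hn
      have := (Finset.mem_filter.1 hn).2
      push Not at this
      simp [this]
    have hw1 : X.wt η t 1 = 1 := by
      have hA1 : X.A t 1 = 0 := by
        unfold A
        rw [if_neg]
        rintro ⟨V, hV⟩
        exact hno V hV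
      unfold wt
      rw [hA1, L.one]; simp
    calc _ ≤ ∑ n ∈ ({1} : Finset G), X.wt η t n :=
          Finset.sum_le_sum_of_subset_of_nonneg hsub (fun n _ _ => (exp_pos _).le)
      _ = 1 := by rw [Finset.sum_singleton, hw1]
  have htot := Finset.sum_filter_add_sum_filter_not NR (fun n => n ≠ 1) (fun n => X.wt η t n)
  linarith

lemma small_exp {C a : ℝ} (_ : 0 ≤ C) (ha : 0 < a) : ∃ K0 : ℝ, ∀ K : ℝ, K0 ≤ K →
    C * exp (-(a * K)) ≤ 1 / 4 := by
  refine ⟨(4 * C + 1) / a, fun K hK => ?_⟩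
  rw [div_le_iff₀ ha] at hK
  have h1 : 4 * C + 1 ≤ exp (a * K) := by
    have := add_one_le_exp (a * K)
    linarith
  rw [exp_neg, ← div_eq_mul_inv, div_le_iff₀ (exp_pos _)]
  linarith

/-- Upper bound of the growth. -/
theorem upper (X : L.Lox) {η Cp : ℝ} (hη : 0 < η) (hη' : η ≤ 1 / 4)
    (hCp : 0 ≤ Cp) (hP : L.Pk Cp) : ∃ K0 : ℝ, ∀ K : ℕ, K0 ≤ K → ∀ h : X.Per K,
      ∀ (R : ℝ) (S : Finset G), (∀ n ∈ S, n ∈ (X.rotSys K h).N ∧ L.l n ≤ R) →
      (S.card : ℝ) ≤ 2 * exp ((1 + η) * R) := by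
  classical
  have hτ := X.τ0
  have hinv : 0 ≤ (1 - exp (-η))⁻¹ := by
    apply inv_nonneg.2
    have : exp (-η) < 1 := by rw [exp_lt_one_iff]; linarith
    linarith
  obtain ⟨K1, hK1⟩ := small_exp (C := Cp * exp (4 + 3 * η) *
    ((1 - exp (-η))⁻¹ * (1 - exp (-η))⁻¹) * exp (10 * η * X.M) * 4 *
    exp (16 * (1 + η) * X.M)) (a := 5 / 16 * X.τ) (by positivity) (by positivity)
  obtain ⟨K2, hK2⟩ := small_exp (C := exp (25 * X.M) * (1 - exp (-η))⁻¹ * 2)
    (a := 1 / 2 * X.τ) (by positivity) (by positivity)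
  obtain ⟨K3, hK3⟩ := small_exp (C := 1) (a := 1 / 2 * X.τ) (by positivity) (by positivity)
  refine ⟨max (1000 * X.M / X.τ) (max K1 (max K2 K3)), fun K hK h R S hS => ?_⟩
  have k0 : 1000 * X.M / X.τ ≤ K := (le_max_left _ _).trans hK
  have k1 : K1 ≤ K := (le_max_left _ _).trans ((le_max_right _ _).trans hK)
  have k2 : K2 ≤ K := (le_max_left _ _).trans ((le_max_right _ _).trans
    ((le_max_right _ _).trans hK))
  have k3 : K3 ≤ K := (le_max_right _ _).trans ((le_max_right _ _).trans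
    ((le_max_right _ _).trans hK))
  rw [div_le_iff₀ hτ] at k0
  have hM1 := M_one (X := X)
  set t : ℕ := ⌊3 / 4 * ((K : ℝ) * X.τ)⌋₊ with ht
  have ht1 : (t : ℝ) ≤ 3 / 4 * ((K : ℝ) * X.τ) := Nat.floor_le (by positivity)
  have ht2 : 3 / 4 * ((K : ℝ) * X.τ) - 1 ≤ t := (Nat.sub_one_lt_floor _).le
  have B : X.Big K t := ⟨h, ht1, ht2, k0⟩
  have hM : X.M = 1 + X.κ + X.e + X.Q + L.δ + X.B0 + X.θ + X.τ := rfl
  obtain ⟨hκ, he, hQ, hδ, hB0, hθ, -⟩ := M_facts (X := X)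
  have hG : ∀ n ∈ (X.rotSys K B.per).N, n ≠ 1 →
      ∃ V, t ≤ X.DD V (Sum.inr 1) (Sum.inr n) := by
    intro n hn hn1
    have hT : (K : ℝ) * X.τ - X.κ - 1 ≤ ((X.rotSys K B.per).T : ℝ) :=
      (Nat.sub_one_lt_floor _).le
    apply (X.rotSys K B.per).greendlinger _ _ _ hn hn1
    · change 8 * X.θ < t
      exact B.num.1
    · change t + 2 * (8 * X.θ) ≤ (X.rotSys K B.per).T
      have : (t : ℝ) + 2 * (8 * X.θ) ≤ ((X.rotSys K B.per).T : ℝ) := by linarith
      exact_mod_cast this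
    · change 16 * (8 * X.θ) < (X.rotSys K B.per).T
      have : (16 : ℝ) * (8 * X.θ) < ((X.rotSys K B.per).T : ℝ) := by linarith
      exact_mod_cast this
  have hKτ : 0 ≤ (K : ℝ) * X.τ := by positivity
  have hfin : {n | n ∈ (X.rotSys K B.per).N ∧ L.l n ≤ R}.Finite :=
    (L.fin R).subset (fun n hn => hn.2)
  have hsum := sum_wt B hη hη' hCp hP hG
    (by
      have e1 := hK1 K k1
      refine le_trans ?_ e1
      have e2 : exp (-((1 + η) * ((K : ℝ) * X.τ) / 2)) * exp (16 * (1 + η) * X.M + η * t) ≤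
          exp (16 * (1 + η) * X.M) * exp (-(5 / 16 * X.τ * K)) := by
        rw [← exp_add, ← exp_add]
        apply exp_le_exp.2
        have e3 : η * t ≤ 1 / 4 * (3 / 4 * ((K : ℝ) * X.τ)) := by gcongr
        nlinarith
      have e3 : 0 ≤ Cp * exp (4 + 3 * η) * ((1 - exp (-η))⁻¹ * (1 - exp (-η))⁻¹) *
        exp (10 * η * X.M) * 4 := by positivity
      calc _ = (Cp * exp (4 + 3 * η) * ((1 - exp (-η))⁻¹ * (1 - exp (-η))⁻¹) *
            exp (10 * η * X.M) * 4) * (exp (-((1 + η) * ((K : ℝ) * X.τ) / 2)) *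
            exp (16 * (1 + η) * X.M + η * t)) := by ring
        _ ≤ (Cp * exp (4 + 3 * η) * ((1 - exp (-η))⁻¹ * (1 - exp (-η))⁻¹) *
            exp (10 * η * X.M) * 4) * (exp (16 * (1 + η) * X.M) *
            exp (-(5 / 16 * X.τ * K))) := mul_le_mul_of_nonneg_left e2 e3
        _ = _ := by ring)
    (by
      have e1 := hK2 K k2
      refine le_trans (le_of_eq ?_) e1
      have : exp (25 * X.M - (K : ℝ) * X.τ / 2) =
          exp (25 * X.M) * exp (-(1 / 2 * X.τ * K)) := by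
        rw [← exp_add]; congr 1; ring
      rw [this]; ring)
    (by
      have e1 := hK3 K k3
      rw [one_mul] at e1
      have : exp (-((1 + η) * ((K : ℝ) * X.τ) / 2)) ≤ exp (-(1 / 2 * X.τ * K)) := by
        apply exp_le_exp.2
        nlinarith
      linarith)
    R hfin.toFinset (by intro n; simp)
  have hsub : S ⊆ hfin.toFinset := by
    intro n hn
    simpa using hS n hn
  have hterm : ∀ n ∈ S, exp (-(1 + η) * R) ≤ X.wt η t n := by
    intro n hn
    unfold wt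
    apply exp_le_exp.2
    have := A_nonneg B n
    have h2 := (hS n hn).2
    have : (1 + η) * L.l n ≤ (1 + η) * R := by gcongr
    have : 0 ≤ η * X.A t n := by positivity
    linarith
  have h1 := Finset.card_nsmul_le_sum S _ _ hterm
  rw [nsmul_eq_mul] at h1
  have h2 : ∑ n ∈ S, X.wt η t n ≤ ∑ n ∈ hfin.toFinset, X.wt η t n :=
    Finset.sum_le_sum_of_subset_of_nonneg hsub (fun n _ _ => (exp_pos _).le)
  have h3 : (S.card : ℝ) * exp (-(1 + η) * R) ≤ 2 := by linarith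
  have h4 : exp ((1 + η) * R) * exp (-(1 + η) * R) = 1 := by
    rw [← exp_add, show (1 + η) * R + -(1 + η) * R = 0 by ring, exp_zero]
  calc (S.card : ℝ) = (S.card : ℝ) * exp (-(1 + η) * R) * exp ((1 + η) * R) := by
        rw [mul_assoc, mul_comm (exp (-(1 + η) * R)), h4, mul_one]
    _ ≤ 2 * exp ((1 + η) * R) := by gcongr

end Lox

end HypLen

end Pool.Agent.H73.Cg
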