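import Pool.Agent.H73.CgJ

set_option autoImplicit false

/-! Lower bound of the growth of the group generated by large rotations; normality. -/

namespace Pool.Agent.H73.Cg

open Finset Real

lemma RotSys.N_normal {G A : Type*} [Group G] [MulAction G A] (Q : RotSys G A) (g : G) {n : G}
    (hn : n ∈ Q.N) : g * n * g⁻¹ ∈ Q.N := by
  unfold RotSys.N at hn
  refine Subgroup.iSup_induction Q.R (C := fun n => g * n * g⁻¹ ∈ Q.N) hn ?_ ?_ ?_
  · intro Y x hx
    exact (le_iSup Q.R (g • Y)) (Q.conj g Y x hx)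
  · simp [Q.N.one_mem]
  · intro x y hx hy
    have : g * (x * y) * g⁻¹ = (g * x * g⁻¹) * (g * y * g⁻¹) := by group
    rw [this]
    exact Q.N.mul_mem hx hy

namespace HypLen

variable {G : Type*} [Group G] {L : HypLen G}

namespace Lox

variable (X : L.Lox)

/-- the elementary closure has linear growth -/
lemma E_growth : ∃ C : ℝ, 0 < C ∧ ∀ r : ℝ, 0 ≤ r → ∀ S : Finset G,
    (∀ x ∈ S, x ∈ X.E ∧ L.l x ≤ 2 * r) → (S.card : ℝ) ≤ C * (r + 1) := by
  classical
  set Bl := (L.fin X.e).toFinset with hBl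
  have hτ := X.τ0
  have hκ := X.κ0
  have he := X.e0
  set a : ℝ := 2 * (2 + X.e + X.κ) / X.τ + 1 with ha
  have ha0 : 0 < a := by positivity
  refine ⟨a * (Bl.card + 1), by positivity, fun r hr S hS => ?_⟩
  have hex : ∀ x, x ∈ X.E → ∃ k : ℤ, L.d x (X.g ^ k) ≤ X.e := fun x hx => X.close hx
  choose! k hk using hex
  set k0 : ℕ := ⌊(2 * r + X.e + X.κ) / X.τ⌋₊ with hk0
  have hk0' : (k0 : ℝ) ≤ (2 * r + X.e + X.κ) / X.τ := Nat.floor_le (by positivity)
  have hmaps : ∀ x ∈ S, (k x, (X.g ^ (k x))⁻¹ * x) ∈ Finset.Icc (-(k0 : ℤ)) k0 ×ˢ Bl := by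
    intro x hx
    obtain ⟨h1, h2⟩ := hS x hx
    have h3 := hk x h1
    rw [Finset.mem_product, Finset.mem_Icc]
    constructor
    · have h4 := X.lo (k x)
      have h5 := L.d_tri 1 x (X.g ^ (k x))
      rw [L.d_one, L.d_one] at h5
      have h6 : |(k x : ℝ)| * X.τ ≤ 2 * r + X.e + X.κ := by linarith
      have h7 : |(k x : ℝ)| ≤ (2 * r + X.e + X.κ) / X.τ := by
        rw [le_div_iff₀ hτ]; exact h6
      have h8 : (k x).natAbs ≤ k0 := by
        rw [hk0]
        apply Nat.le_floor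
        rw [Nat.cast_natAbs, Int.cast_abs]
        exact h7
      constructor <;> simp only <;> omega
    · rw [hBl, Set.Finite.mem_toFinset]
      rw [L.d_comm] at h3
      exact h3
  have hinj : Set.InjOn (fun x => (k x, (X.g ^ (k x))⁻¹ * x)) S := by
    intro x _ y _ hxy
    simp only [Prod.mk.injEq] at hxy
    obtain ⟨h1, h2⟩ := hxy
    rw [h1] at h2
    exact mul_left_cancel h2
  have hcard := Finset.card_le_card_of_injOn _ hmaps hinj
  rw [Finset.card_product, Int.card_Icc] at hcard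
  have h1 : ((k0 : ℤ) + 1 - (-(k0 : ℤ))).toNat = 2 * k0 + 1 := by omega
  rw [h1] at hcard
  have h2 : (S.card : ℝ) ≤ (2 * k0 + 1) * Bl.card := by exact_mod_cast hcard
  have h3 : (2 * k0 + 1 : ℝ) ≤ a * (r + 1) := by
    have e1 : (2 * r + X.e + X.κ) / X.τ ≤ (2 + X.e + X.κ) / X.τ * (r + 1) := by
      rw [div_mul_eq_mul_div]
      apply div_le_div_of_nonneg_right _ hτ.le
      nlinarith
    rw [ha]
    have e2 : 2 * (2 + X.e + X.κ) / X.τ = 2 * ((2 + X.e + X.κ) / X.τ) := by ring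
    rw [e2]
    nlinarith
  have h4 : (0 : ℝ) ≤ Bl.card := Nat.cast_nonneg _
  have h5 : 0 ≤ a * (r + 1) := by positivity
  nlinarith

/-- Lower bound: many conjugates of a power of the loxodromic element. -/
theorem lower {K : ℕ} (h : X.Per K) : ∃ C : ℝ, 0 < C ∧ ∀ r : ℝ, 0 ≤ r → ∀ S : Finset G,
    (∀ x ∈ S, L.l x ≤ r) → ∃ T : Finset G, (∀ n ∈ T, n ∈ (X.rotSys K h).N ∧
      L.l n ≤ 2 * r + L.l (X.g ^ (K : ℤ))) ∧ (S.card : ℝ) ≤ C * (r + 1) * T.card := by
  classical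
  obtain ⟨C, hC, hE⟩ := X.E_growth
  refine ⟨C, hC, fun r hr S hS => ⟨S.image (fun x => x * X.g ^ (K : ℤ) * x⁻¹), ?_, ?_⟩⟩
  · intro n hn
    obtain ⟨x, hx, rfl⟩ := Finset.mem_image.1 hn
    constructor
    · have : x * X.g ^ (K : ℤ) * x⁻¹ ∈ X.rotR K (X.co x) :=
        (mem_rotR h rfl).2 ⟨1, by rw [mul_one]⟩
      exact (le_iSup (X.rotSys K h).R (X.co x)) this
    · have e1 := L.mul (x * X.g ^ (K : ℤ)) x⁻¹
      have e2 := L.mul x (X.g ^ (K : ℤ))
      have e3 := L.inv x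
      have e4 := hS x hx
      linarith
  · set f : G → G := fun x => x * X.g ^ (K : ℤ) * x⁻¹ with hf
    have hfib : ∀ b ∈ S.image f, ((S.filter (fun x => f x = b)).card : ℕ) ≤
        ⌊C * (r + 1)⌋₊ := by
      intro b hb
      obtain ⟨x0, hx0, rfl⟩ := Finset.mem_image.1 hb
      apply Nat.le_floor
      have hinj : Set.InjOn (fun x => x0⁻¹ * x) (S.filter (fun x => f x = f x0)) := by
        intro x _ y _ hxy
        exact mul_left_cancel hxy
      rw [← Finset.card_image_of_injOn hinj]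
      apply hE r hr
      intro y hy
      obtain ⟨x, hx, rfl⟩ := Finset.mem_image.1 hy
      obtain ⟨hxS, hxf⟩ := Finset.mem_filter.1 hx
      constructor
      · have hK : (K : ℤ) ≠ 0 := by have := h.1; omega
        refine ⟨K, K, hK, hK, ?_⟩
        have h1 : x * X.g ^ (K : ℤ) * x⁻¹ = x0 * X.g ^ (K : ℤ) * x0⁻¹ := hxf
        calc x0⁻¹ * x * X.g ^ (K : ℤ) * (x0⁻¹ * x)⁻¹
            = x0⁻¹ * (x * X.g ^ (K : ℤ) * x⁻¹) * x0 := by group
          _ = x0⁻¹ * (x0 * X.g ^ (K : ℤ) * x0⁻¹) * x0 := by rw [h1]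
          _ = X.g ^ (K : ℤ) := by group
      · have e1 := L.mul x0⁻¹ x
        have e2 := L.inv x0
        have e3 := hS x hxS
        have e4 := hS x0 hx0
        linarith
    have h1 := Finset.card_le_mul_card_image S _ hfib
    have h2 : (S.card : ℝ) ≤ (⌊C * (r + 1)⌋₊ : ℝ) * ((S.image f).card : ℝ) := by
      exact_mod_cast h1
    refine h2.trans ?_
    gcongr
    exact Nat.floor_le (by positivity)

end Lox

end HypLen

end Pool.Agent.H73.Cg
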