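import Pool.Agent.H73.CgK

set_option autoImplicit false

/-! Existence of loxodromic elements. -/

namespace Pool.Agent.H73.Cg

open Finset Real

namespace HypLen

variable {G : Type*} [Group G] (L : HypLen G)

lemma gp_add (x y z : G) : L.gp z x y + L.gp y x z = L.d z y := by
  unfold gp
  rw [L.d_comm y z, L.d_comm z x, L.d_comm y x]
  ring

/-- chain lemma, one end -/
lemma chain_end {c ℓ : ℝ} (hℓ : 2 * c + 2 * L.δ < ℓ) (a : ℕ → G)
    (h1 : ∀ i, L.gp (a (i + 1)) (a i) (a (i + 2)) ≤ c) (h2 : ∀ i, ℓ ≤ L.d (a i) (a (i + 1)))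
    (n : ℕ) : L.gp (a (n + 1)) (a 0) (a (n + 2)) ≤ c + L.δ := by
  have hδ := L.δ0
  induction n with
  | zero => linarith [h1 0]
  | succ n ih =>
    have e1 := L.gp_add (a 0) (a (n + 1)) (a (n + 2))
    have e2 := L.gp_comm (a (n + 1)) (a 0) (a (n + 2))
    have e3 := h2 (n + 1)
    have e4 := h1 (n + 1)
    have e5 := L.gp_min (a (n + 2)) (a (n + 1)) (a 0) (a (n + 3))
    have e6 := L.gp_comm (a (n + 2)) (a (n + 1)) (a 0)
    rw [L.d_comm] at e1
    rcases min_choice (L.gp (a (n + 2)) (a (n + 1)) (a 0))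
      (L.gp (a (n + 2)) (a 0) (a (n + 3))) with h | h
    · rw [h] at e5
      have e4' : L.gp (a (n + 2)) (a (n + 1)) (a (n + 3)) ≤ c := e4
      have e3' : ℓ ≤ L.d (a (n + 1)) (a (n + 2)) := e3
      linarith
    · rw [h] at e5
      have e4' : L.gp (a (n + 2)) (a (n + 1)) (a (n + 3)) ≤ c := e4
      show L.gp (a (n + 2)) (a 0) (a (n + 3)) ≤ c + L.δ
      linarith

/-- chain lemma, the other end, for finite chains -/
lemma chain_start {c ℓ : ℝ} (hℓ : 2 * c + 2 * L.δ < ℓ) : ∀ (n : ℕ) (a : ℕ → G)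
    (_ : ∀ i, L.gp (a (i + 1)) (a i) (a (i + 2)) ≤ c) (_ : ∀ i, ℓ ≤ L.d (a i) (a (i + 1))),
    L.gp (a 1) (a 0) (a (n + 2)) ≤ c + L.δ := by
  have hδ := L.δ0
  intro n
  induction n with
  | zero =>
    intro a h1 h2
    linarith [h1 0]
  | succ n ih =>
    intro a h1 h2
    have ih' := ih (fun i => a (i + 1)) (fun i => h1 (i + 1)) (fun i => h2 (i + 1))
    have ih'' : L.gp (a 2) (a 1) (a (n + 3)) ≤ c + L.δ := ih'
    have e1 := L.gp_add (a (n + 3)) (a 1) (a 2)
    have e2 := L.gp_comm (a 2) (a 1) (a (n + 3))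
    have e3 := h2 1
    have e3' : ℓ ≤ L.d (a 1) (a 2) := e3
    have e4 := h1 0
    have e4' : L.gp (a 1) (a 0) (a 2) ≤ c := e4
    have e5 := L.gp_min (a 1) (a 0) (a (n + 3)) (a 2)
    rw [L.d_comm] at e1
    rcases min_choice (L.gp (a 1) (a 0) (a (n + 3))) (L.gp (a 1) (a (n + 3)) (a 2)) with h | h
    · rw [h] at e5
      show L.gp (a 1) (a 0) (a (n + 3)) ≤ c + L.δ
      linarith
    · rw [h] at e5
      linarith

/-- chain lemma -/
lemma chain {c ℓ : ℝ} (hℓ : 2 * c + 3 * L.δ < ℓ) (a : ℕ → G)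
    (h1 : ∀ i, L.gp (a (i + 1)) (a i) (a (i + 2)) ≤ c) (h2 : ∀ i, ℓ ≤ L.d (a i) (a (i + 1)))
    (k m : ℕ) : L.gp (a (k + 1)) (a 0) (a (k + 1 + (m + 1))) ≤ c + 2 * L.δ := by
  have hδ := L.δ0
  have e0 := L.chain_end (by linarith) a h1 h2 k
  rcases m with _ | m
  · show L.gp (a (k + 1)) (a 0) (a (k + 2)) ≤ c + 2 * L.δ
    linarith
  · have e1 := L.chain_start (by linarith) m (fun i => a (k + 1 + i))
      (fun i => h1 (k + 1 + i)) (fun i => h2 (k + 1 + i))
    have e1' : L.gp (a (k + 2)) (a (k + 1)) (a (k + 1 + (m + 2))) ≤ c + L.δ := e1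
    have e2 := L.gp_add (a (k + 1 + (m + 2))) (a (k + 1)) (a (k + 2))
    have e3 := L.gp_comm (a (k + 2)) (a (k + 1)) (a (k + 1 + (m + 2)))
    have e4 := h2 (k + 1)
    have e4' : ℓ ≤ L.d (a (k + 1)) (a (k + 2)) := e4
    have e5 := L.gp_min (a (k + 1)) (a 0) (a (k + 1 + (m + 2))) (a (k + 2))
    rw [L.d_comm] at e2
    rcases min_choice (L.gp (a (k + 1)) (a 0) (a (k + 1 + (m + 2))))
      (L.gp (a (k + 1)) (a (k + 1 + (m + 2))) (a (k + 2))) with h | h
    · rw [h] at e5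
      show L.gp (a (k + 1)) (a 0) (a (k + 1 + (m + 2))) ≤ c + 2 * L.δ
      linarith
    · rw [h] at e5
      linarith

/-- an element with small Gromov product with its inverse is loxodromic -/
lemma lox_of {g : G} (h : 2 * L.gp 1 g⁻¹ g + 4 * L.δ < L.l g) : Nonempty L.Lox := by
  have hδ := L.δ0
  set c := L.gp 1 g⁻¹ g with hc
  set κ0 := c + 2 * L.δ with hκ0
  have hc0 : 0 ≤ c := L.gp_nonneg _ _ _
  have hκ0' : 0 ≤ κ0 := by positivity
  have hchain := L.chain (c := c) (ℓ := L.l g) (by linarith) (fun i => g ^ i)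
    (fun i => by
      have := L.gp_mul (g ^ (i + 1)) 1 g⁻¹ g
      rw [mul_one] at this
      have e1 : g ^ (i + 1) * g⁻¹ = g ^ i := by rw [pow_succ]; group
      have e2 : g ^ (i + 1) * g = g ^ (i + 2) := by rw [← pow_succ]
      rw [e1, e2] at this
      exact this.le)
    (fun i => by
      unfold d
      apply le_of_eq
      congr 1
      rw [pow_succ]; group)
  set u : ℕ → ℝ := fun n => L.l (g ^ n) with hu
  have hsub : ∀ k m, u (k + m) ≤ u k + u m := by
    intro k m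
    simp only [hu]
    rw [pow_add]
    exact L.mul _ _
  have hsup : ∀ k m, 1 ≤ k → 1 ≤ m → u k + u m - 2 * κ0 ≤ u (k + m) := by
    intro k m hk hm
    obtain ⟨k, rfl⟩ := Nat.exists_eq_add_of_le' hk
    obtain ⟨m, rfl⟩ := Nat.exists_eq_add_of_le' hm
    have h1 := hchain k m
    unfold gp at h1
    have e1 : L.d (g ^ (k + 1)) (g ^ 0) = u (k + 1) := by
      rw [pow_zero, L.d_comm, L.d_one]
    have e2 : L.d (g ^ (k + 1)) (g ^ (k + 1 + (m + 1))) = u (m + 1) := by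
      simp only [hu]
      unfold d
      congr 1
      rw [pow_add g (k + 1)]; group
    have e3 : L.d (g ^ 0) (g ^ (k + 1 + (m + 1))) = u (k + 1 + (m + 1)) := by
      rw [pow_zero, L.d_one]
    rw [e1, e2, e3] at h1
    linarith
  have hu0 : ∀ n, 0 ≤ u n := fun n => L.l_nonneg _
  have hmul : ∀ n m, u (n * m) ≤ n * u m := by
    intro n m
    induction n with
    | zero => simp [hu, L.one]
    | succ n ih =>
      have := hsub (n * m) m
      rw [Nat.succ_mul]
      push_cast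
      linarith
  have hmul' : ∀ n m, 1 ≤ m → ((n + 1 : ℕ) : ℝ) * (u m - 2 * κ0) ≤ u ((n + 1) * m) - 2 * κ0 := by
    intro n m hm
    induction n with
    | zero => simp
    | succ n ih =>
      have := hsup ((n + 1) * m) m (Nat.mul_pos (Nat.succ_pos _) hm) hm
      rw [Nat.succ_mul (n + 1)]
      push_cast at ih ⊢
      linarith
  have hcmp : ∀ n m, 1 ≤ n → 1 ≤ m → (u n - 2 * κ0) / n ≤ u m / m := by
    intro n m hn hm
    have hn' : (0 : ℝ) < n := by exact_mod_cast hn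
    have hm' : (0 : ℝ) < m := by exact_mod_cast hm
    rw [div_le_div_iff₀ hn' hm']
    obtain ⟨m1, rfl⟩ := Nat.exists_eq_add_of_le' hm
    have e1 := hmul' m1 n hn
    have e2 := hmul n (m1 + 1)
    rw [mul_comm n (m1 + 1)] at e2
    linarith
  set S : Set ℝ := {x | ∃ m : ℕ, 1 ≤ m ∧ x = u m / m} with hS
  set τ := sInf S with hτ
  have hSne : S.Nonempty := ⟨u 1 / (1 : ℕ), 1, le_rfl, rfl⟩
  have hSbdd : BddBelow S := ⟨0, by
    rintro x ⟨m, hm, rfl⟩
    exact div_nonneg (hu0 m) (Nat.cast_nonneg m)⟩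
  have hlo : ∀ n : ℕ, 1 ≤ n → (n : ℝ) * τ ≤ u n := by
    intro n hn
    have hn' : (0 : ℝ) < n := by exact_mod_cast hn
    have h1 : τ ≤ u n / n := csInf_le hSbdd ⟨n, hn, rfl⟩
    rw [le_div_iff₀ hn'] at h1
    linarith
  have hhi : ∀ n : ℕ, 1 ≤ n → u n ≤ (n : ℝ) * τ + 2 * κ0 := by
    intro n hn
    have hn' : (0 : ℝ) < n := by exact_mod_cast hn
    have h1 : (u n - 2 * κ0) / n ≤ τ := by
      apply le_csInf hSne
      rintro x ⟨m, hm, rfl⟩
      exact hcmp n m hn hm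
    rw [div_le_iff₀ hn'] at h1
    linarith
  have hτ0 : 0 < τ := by
    have h1 : u 1 - 2 * κ0 ≤ τ := by
      have := hhi 1 le_rfl
      push_cast at this
      linarith
    have h2 : u 1 = L.l g := by simp only [hu]; rw [pow_one]
    rw [h2] at h1
    linarith
  have habs : ∀ n : ℤ, L.l (g ^ n) = u n.natAbs := by
    intro n
    simp only [hu]
    rcases Int.natAbs_eq n with h | h
    · conv_lhs => rw [h]
      rw [zpow_natCast]
    · conv_lhs => rw [h]
      rw [zpow_neg, zpow_natCast, L.inv]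
  have habs2 : ∀ n : ℤ, |(n : ℝ)| = (n.natAbs : ℝ) := by
    intro n
    rw [Nat.cast_natAbs, Int.cast_abs]
  refine ⟨⟨g, τ, 2 * κ0, hτ0, by positivity, fun n => ?_, fun n => ?_⟩⟩
  · rw [habs, habs2]
    rcases Nat.eq_zero_or_pos n.natAbs with h0 | h0
    · rw [h0]
      have := hu0 0
      push_cast
      linarith
    · have := hlo _ h0
      linarith
  · rw [habs, habs2]
    rcases Nat.eq_zero_or_pos n.natAbs with h0 | h0
    · rw [h0]
      have : u 0 = 0 := by simp [hu, L.one]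
      rw [this]
      push_cast
      linarith
    · exact hhi _ h0

/-- product of two non-loxodromic elements -/
lemma lox_of_pair {g1 g2 : G} {c0 : ℝ} (hc : L.gp 1 g1 g2 ≤ c0)
    (h1 : 4 * c0 + 20 * L.δ < L.l g1) (h2 : 4 * c0 + 20 * L.δ < L.l g2) : Nonempty L.Lox := by
  have hδ := L.δ0
  have hc0 : 0 ≤ c0 := (L.gp_nonneg _ _ _).trans hc
  by_cases k1 : 2 * L.gp 1 g1⁻¹ g1 + 4 * L.δ < L.l g1
  · exact L.lox_of k1
  by_cases k2 : 2 * L.gp 1 g2⁻¹ g2 + 4 * L.δ < L.l g2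
  · exact L.lox_of k2
  push Not at k1 k2
  -- the mixed Gromov products
  have m1 : L.gp 1 g1⁻¹ g2 ≤ c0 + L.δ := by
    have e := L.gp_min 1 g1 g1⁻¹ g2
    rw [L.gp_comm 1 g1 g1⁻¹] at e
    rcases min_choice (L.gp 1 g1⁻¹ g1) (L.gp 1 g1⁻¹ g2) with h | h
    · rw [h] at e; linarith
    · rw [h] at e; linarith
  have m2 : L.gp 1 g2⁻¹ g1 ≤ c0 + L.δ := by
    have e := L.gp_min 1 g2 g2⁻¹ g1
    rw [L.gp_comm 1 g2 g2⁻¹, L.gp_comm 1 g2 g1] at e
    rcases min_choice (L.gp 1 g2⁻¹ g2) (L.gp 1 g2⁻¹ g1) with h | h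
    · rw [h] at e; linarith
    · rw [h] at e; linarith
  -- alternating chain
  set w := g1 * g2 with hw
  set a : ℕ → G := fun i => w ^ (i / 2) * (if i % 2 = 0 then 1 else g1) with ha
  have a0 : ∀ j, a (2 * j) = w ^ j := by
    intro j
    simp only [ha]
    have e1 : 2 * j / 2 = j := by omega
    have e2 : 2 * j % 2 = 0 := by omega
    rw [e1, e2]; simp
  have a1 : ∀ j, a (2 * j + 1) = w ^ j * g1 := by
    intro j
    simp only [ha]
    have e1 : (2 * j + 1) / 2 = j := by omega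
    have e2 : (2 * j + 1) % 2 = 1 := by omega
    rw [e1, e2]; simp
  have hmin : ∀ i, min (L.l g1) (L.l g2) ≤ L.d (a i) (a (i + 1)) := by
    intro i
    rcases Nat.even_or_odd' i with ⟨j, hj | hj⟩
    · rw [hj, a0, a1]
      refine (min_le_left _ _).trans (le_of_eq ?_)
      unfold d; congr 1; group
    · rw [hj, a1, show 2 * j + 1 + 1 = 2 * (j + 1) by ring, a0]
      refine (min_le_right _ _).trans (le_of_eq ?_)
      unfold d; congr 1
      rw [pow_succ, hw]; group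
  have hgp : ∀ i, L.gp (a (i + 1)) (a i) (a (i + 2)) ≤ c0 + L.δ := by
    intro i
    rcases Nat.even_or_odd' i with ⟨j, hj | hj⟩
    · rw [hj, a0, a1, show 2 * j + 2 = 2 * (j + 1) by ring, a0]
      have := L.gp_mul (w ^ j * g1) 1 g1⁻¹ g2
      rw [mul_one] at this
      have e1 : w ^ j * g1 * g1⁻¹ = w ^ j := by group
      have e2 : w ^ j * g1 * g2 = w ^ (j + 1) := by rw [pow_succ, hw]; group
      rw [e1, e2] at this
      rw [this]; exact m1
    · rw [hj, a1, show 2 * j + 1 + 1 = 2 * (j + 1) by ring, a0,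
        show 2 * j + 1 + 2 = 2 * (j + 1) + 1 by ring, a1]
      have := L.gp_mul (w ^ (j + 1)) 1 g2⁻¹ g1
      rw [mul_one] at this
      have e1 : w ^ (j + 1) * g2⁻¹ = w ^ j * g1 := by rw [pow_succ, hw]; group
      rw [e1] at this
      rw [this]; exact m2
  have hch := L.chain (c := c0 + L.δ) (ℓ := min (L.l g1) (L.l g2))
    (by apply lt_min <;> linarith) a hgp hmin 1 1
  have b0 : a 0 = 1 := by simpa using a0 0
  have b2 : a (1 + 1) = w := by simpa using a0 1
  have b4 : a (1 + 1 + (1 + 1)) = w * w := by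
    have := a0 2
    rw [pow_two] at this
    exact this
  rw [b0, b2, b4] at hch
  have hch' : L.gp 1 w⁻¹ w ≤ c0 + L.δ + 2 * L.δ := by
    have := L.gp_mul w 1 w⁻¹ w
    rw [mul_one, mul_inv_cancel] at this
    rw [← this]; exact hch
  apply L.lox_of (g := w)
  have e1 : L.l w = L.l g1 + L.l g2 - 2 * L.gp 1 g1⁻¹ g2 := by
    unfold gp
    rw [L.d_one, L.d_one, L.inv]
    have : L.d g1⁻¹ g2 = L.l w := by unfold d; rw [hw, inv_inv]
    rw [this]; ring
  rw [e1]
  linarith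

/-- lower growth -/
def Lg (cl : ℝ) : Prop := ∃ R0 : ℝ, ∀ R : ℝ, R0 ≤ R → ∃ S : Finset G, (∀ x ∈ S, L.l x ≤ R) ∧
  cl * exp (2 * R) ≤ S.card

theorem exists_lox {Cp cl : ℝ} (hcl : 0 < cl) (hCp : 0 ≤ Cp) (hP : L.Pk Cp) (hL : L.Lg cl) :
    Nonempty L.Lox := by
  classical
  have hδ := L.δ0
  obtain ⟨R0, hR0⟩ := hL
  -- choose c0
  obtain ⟨c1, hc1⟩ := Lox.small_exp (C := Cp / cl) (a := 2) (by positivity) (by norm_num)
  set c0 := max c1 0 with hc0
  have hc0' : 0 ≤ c0 := le_max_right _ _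
  have hsm : Cp * exp (-(2 * c0)) ≤ cl / 4 := by
    have h1 := hc1 c0 (le_max_left _ _)
    rw [div_mul_eq_mul_div, div_le_iff₀ hcl] at h1
    linarith
  have key : ∀ (R : ℝ) (y : G), R0 ≤ R → ∃ g : G, R - c0 < L.l g ∧ L.gp 1 y g ≤ c0 := by
    intro R y hR
    obtain ⟨S, hS1, hS2⟩ := hR0 R hR
    by_contra hcon
    push Not at hcon
    have hsub : S ⊆ S.filter (fun x => L.l x ≤ R - c0) ∪ S.filter (fun x => c0 ≤ L.gp 1 x y) := by
      intro x hx
      rw [Finset.mem_union, Finset.mem_filter, Finset.mem_filter]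
      by_cases h : L.l x ≤ R - c0
      · exact Or.inl ⟨hx, h⟩
      · push Not at h
        have := hcon x h
        rw [L.gp_comm] at this
        exact Or.inr ⟨hx, this.le⟩
    have h1 := hP 1 (R - c0) 0 (S.filter (fun x => L.l x ≤ R - c0)) le_rfl
      (fun x hx => ⟨(Finset.mem_filter.1 hx).2, L.gp_nonneg _ _ _⟩)
    have h2 := hP y R c0 (S.filter (fun x => c0 ≤ L.gp 1 x y)) hc0'
      (fun x hx => ⟨hS1 x (Finset.mem_filter.1 hx).1, (Finset.mem_filter.1 hx).2⟩)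
    have h3 : (S.card : ℝ) ≤ ((S.filter (fun x => L.l x ≤ R - c0)).card : ℝ) +
        ((S.filter (fun x => c0 ≤ L.gp 1 x y)).card : ℝ) := by
      exact_mod_cast (Finset.card_le_card hsub).trans (Finset.card_union_le _ _)
    have e1 : exp (2 * (R - c0 - 0)) = exp (-(2 * c0)) * exp (2 * R) := by
      rw [← exp_add]; congr 1; ring
    have e2 : exp (2 * (R - c0)) = exp (-(2 * c0)) * exp (2 * R) := by
      rw [← exp_add]; congr 1; ring
    rw [e1] at h1
    rw [e2] at h2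
    have e3 : 0 < exp (2 * R) := exp_pos _
    nlinarith
  obtain ⟨g1, h1, -⟩ := key (max R0 (5 * c0 + 20 * L.δ + 1)) 1 (le_max_left _ _)
  obtain ⟨g2, h2, h3⟩ := key (max R0 (5 * c0 + 20 * L.δ + 1)) g1 (le_max_left _ _)
  have h4 := le_max_right R0 (5 * c0 + 20 * L.δ + 1)
  exact L.lox_of_pair h3 (by linarith) (by linarith)

end HypLen

end Pool.Agent.H73.Cg
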