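import Mathlib

set_option autoImplicit false

/-! The hyperboloid model of hyperbolic space in horizontal coordinates. -/

namespace Pool.Agent.H73.Cg.Hyp

open Real

variable {V : Type*} [NormedAddCommGroup V] [InnerProductSpace ℝ V]

/-- time coordinate -/
noncomputable def T (v : V) : ℝ := √(1 + ‖v‖ ^ 2)

lemma T_sq (v : V) : T v ^ 2 = 1 + ‖v‖ ^ 2 := by
  unfold T
  exact sq_sqrt (by positivity)

lemma T_one_le (v : V) : 1 ≤ T v := by
  unfold T
  rw [one_le_sqrt]
  nlinarith [norm_nonneg v]

lemma T_pos (v : V) : 0 < T v := lt_of_lt_of_le one_pos (T_one_le v)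

lemma T_zero : T (0 : V) = 1 := by simp [T]

lemma inner_self_T (v : V) : inner ℝ v v = T v ^ 2 - 1 := by
  rw [real_inner_self_eq_norm_sq, T_sq]; ring

lemma T_neg (v : V) : T (-v) = T v := by simp [T]

/-- Minkowski form -/
noncomputable def B (v w : V) : ℝ := T v * T w - inner ℝ v w

lemma B_comm (v w : V) : B v w = B w v := by
  unfold B; rw [real_inner_comm, mul_comm]

lemma B_zero (v : V) : B 0 v = T v := by simp [B, T_zero]

lemma B_zero' (v : V) : B v 0 = T v := by simp [B, T_zero]

lemma B_self (v : V) : B v v = 1 := by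
  unfold B; rw [inner_self_T]; ring

/-- the boost sending `0` to `p` -/
noncomputable def b (p v : V) : V := v + (inner ℝ v p / (1 + T p) + T v) • p

lemma b_zero (p : V) : b p 0 = p := by simp [b, T_zero]

lemma inner_b (p v : V) : inner ℝ (b p v) p = inner ℝ v p * T p + T v * (T p ^ 2 - 1) := by
  unfold b
  rw [inner_add_left, inner_smul_left, inner_self_T]
  have h : 1 + T p ≠ 0 := by have := T_pos p; positivity
  simp only [conj_trivial]
  field_simp
  ring

lemma T_mul_ge (v w : V) : 1 ≤ T v * T w - inner ℝ v w := by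
  have h1 := real_inner_le_norm v w
  have hv := T_sq v
  have hw := T_sq w
  have hv1 := T_one_le v
  have hw1 := T_one_le w
  have hnv := norm_nonneg v
  have hnw := norm_nonneg w
  have h2 : (1 + ‖v‖ * ‖w‖) ^ 2 ≤ (T v * T w) ^ 2 := by
    rw [mul_pow, hv, hw]
    nlinarith [sq_nonneg (‖v‖ - ‖w‖)]
  have h3 : 1 + ‖v‖ * ‖w‖ ≤ T v * T w := by
    apply le_of_sq_le_sq h2 |> fun h => h
    positivity
  linarith

lemma one_le_B (v w : V) : 1 ≤ B v w := T_mul_ge v w

lemma T_b (p v : V) : T (b p v) = T v * T p + inner ℝ v p := by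
  have h0 : 0 ≤ T v * T p + inner ℝ v p := by
    have := T_mul_ge (-v) p
    rw [T_neg, inner_neg_left] at this
    linarith
  have h1 : T (b p v) ^ 2 = (T v * T p + inner ℝ v p) ^ 2 := by
    have h2 := inner_self_T (b p v)
    have h : 1 + T p ≠ 0 := by have := T_pos p; positivity
    have h3 : inner ℝ (b p v) (b p v) =
        inner ℝ v v + 2 * (inner ℝ v p / (1 + T p) + T v) * inner ℝ v p +
        (inner ℝ v p / (1 + T p) + T v) ^ 2 * inner ℝ p p := by
      unfold b
      rw [inner_add_left, inner_add_right, inner_add_right, inner_smul_left, inner_smul_left,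
        inner_smul_right, inner_smul_right, real_inner_comm v p]
      simp only [conj_trivial]
      ring
    rw [h3, inner_self_T, inner_self_T] at h2
    have h4 : T (b p v) ^ 2 = 1 + (T v ^ 2 - 1 +
        2 * (inner ℝ v p / (1 + T p) + T v) * inner ℝ v p +
        (inner ℝ v p / (1 + T p) + T v) ^ 2 * (T p ^ 2 - 1)) := by linarith
    rw [h4]
    field_simp
    ring
  have h2 := T_pos (b p v)
  exact (pow_left_inj₀ h2.le h0 two_ne_zero).1 h1

lemma B_b (p v w : V) : B (b p v) (b p w) = B v w := by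
  unfold B
  rw [T_b, T_b]
  have h : 1 + T p ≠ 0 := by have := T_pos p; positivity
  have h3 : inner ℝ (b p v) (b p w) =
      inner ℝ v w + (inner ℝ w p / (1 + T p) + T w) * inner ℝ v p +
      (inner ℝ v p / (1 + T p) + T v) * inner ℝ w p +
      (inner ℝ v p / (1 + T p) + T v) * (inner ℝ w p / (1 + T p) + T w) * inner ℝ p p := by
    unfold b
    rw [inner_add_left, inner_add_right, inner_add_right, inner_smul_left, inner_smul_left,
      inner_smul_right, inner_smul_right, real_inner_comm w p]
    simp only [conj_trivial]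
    ring
  rw [h3, inner_self_T]
  field_simp
  ring

lemma b_neg (p v : V) : b (-p) (b p v) = v := by
  have h : 1 + T p ≠ 0 := by have := T_pos p; positivity
  have e1 : b (-p) (b p v) = b p v - (-(inner ℝ (b p v) p) / (1 + T p) + T (b p v)) • p := by
    conv_lhs => unfold b
    rw [T_neg, inner_neg_right, smul_neg]
    rw [← sub_eq_add_neg]
    rfl
  rw [e1, inner_b, T_b]
  have e2 : b p v = v + (inner ℝ v p / (1 + T p) + T v) • p := rfl
  rw [e2, add_sub_assoc, ← sub_smul]
  have e3 : inner ℝ v p / (1 + T p) + T v -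
      (-(inner ℝ v p * T p + T v * (T p ^ 2 - 1)) / (1 + T p) + (T v * T p + inner ℝ v p)) = 0 := by
    field_simp
    ring
  rw [e3, zero_smul, add_zero]

lemma b_neg' (p v : V) : b p (b (-p) v) = v := by
  have := b_neg (-p) v
  rwa [neg_neg] at this

/-- hyperbolic distance -/
noncomputable def dist' (v w : V) : ℝ := arcosh (B v w)

lemma dist'_nonneg (v w : V) : 0 ≤ dist' v w := arcosh_nonneg (one_le_B v w)

lemma cosh_dist' (v w : V) : cosh (dist' v w) = B v w := cosh_arcosh (one_le_B v w)

lemma dist'_comm (v w : V) : dist' v w = dist' w v := by unfold dist'; rw [B_comm]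

lemma dist'_self (v : V) : dist' v v = 0 := by unfold dist'; rw [B_self]; simp

lemma dist'_b (p v w : V) : dist' (b p v) (b p w) = dist' v w := by unfold dist'; rw [B_b]

lemma sinh_dist'_zero (v : V) : sinh (dist' v 0) = ‖v‖ := by
  unfold dist'
  rw [sinh_arcosh (one_le_B v 0), B_zero', T_sq]
  simp

lemma dist'_le_iff {v w : V} {R : ℝ} (hR : 0 ≤ R) : dist' v w ≤ R ↔ B v w ≤ cosh R := by
  rw [← cosh_dist' v w, cosh_le_cosh, abs_of_nonneg (dist'_nonneg v w), abs_of_nonneg hR]

lemma tri0 (x z : V) : dist' x z ≤ dist' x 0 + dist' 0 z := by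
  rw [dist'_le_iff (add_nonneg (dist'_nonneg _ _) (dist'_nonneg _ _)), cosh_add, cosh_dist',
    cosh_dist', sinh_dist'_zero, dist'_comm 0 z, sinh_dist'_zero, B_zero, B_zero']
  unfold B
  have := abs_real_inner_le_norm x z
  have := neg_abs_le (inner ℝ x z)
  linarith

lemma tri (x y z : V) : dist' x z ≤ dist' x y + dist' y z := by
  have h := tri0 (b (-y) x) (b (-y) z)
  have e : b (-y) y = 0 := by
    have := b_neg y 0
    rwa [b_zero] at this
  rw [dist'_b] at h
  have e1 : dist' (b (-y) x) 0 = dist' x y := by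
    rw [← e, dist'_b]
  have e2 : dist' 0 (b (-y) z) = dist' y z := by
    conv_lhs => rw [← e]
    rw [dist'_b]
  rwa [e1, e2] at h

/-- ball model -/
noncomputable def ball (v : V) : V := (1 + T v)⁻¹ • v

lemma B_ball (v w : V) : B v w - 1 = dist (ball v) (ball w) ^ 2 * (1 + T v) * (1 + T w) / 2 := by
  have hv : 1 + T v ≠ 0 := by have := T_pos v; positivity
  have hw : 1 + T w ≠ 0 := by have := T_pos w; positivity
  have e : dist (ball v) (ball w) ^ 2 = (1 + T v)⁻¹ ^ 2 * (T v ^ 2 - 1) +
      (1 + T w)⁻¹ ^ 2 * (T w ^ 2 - 1) - 2 * (1 + T v)⁻¹ * (1 + T w)⁻¹ * inner ℝ v w := by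
    rw [dist_eq_norm, ← real_inner_self_eq_norm_sq]
    unfold ball
    rw [inner_sub_left, inner_sub_right, inner_sub_right]
    simp only [inner_smul_left, inner_smul_right, conj_trivial]
    rw [inner_self_T, inner_self_T, real_inner_comm v w]
    ring
  rw [e]
  unfold B
  field_simp
  ring

/-- half sinh -/
lemma sinh_half (v w : V) : sinh (dist' v w / 2) =
    dist (ball v) (ball w) * (√(1 + T v) * √(1 + T w)) / 2 := by
  have h0 : 0 ≤ sinh (dist' v w / 2) := sinh_nonneg_iff.2 (by have := dist'_nonneg v w; linarith)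
  have h1 : 0 ≤ dist (ball v) (ball w) * (√(1 + T v) * √(1 + T w)) / 2 := by positivity
  apply (pow_left_inj₀ h0 h1 two_ne_zero).1
  have e1 : cosh (dist' v w) = 2 * sinh (dist' v w / 2) ^ 2 + 1 := by
    have e2 := cosh_two_mul (dist' v w / 2)
    have e3 := cosh_sq (dist' v w / 2)
    have e4 : 2 * (dist' v w / 2) = dist' v w := by ring
    rw [e4] at e2
    linarith
  rw [cosh_dist'] at e1
  have e5 := B_ball v w
  have e6 : √(1 + T v) ^ 2 = 1 + T v := sq_sqrt (by have := T_pos v; positivity)
  have e7 : √(1 + T w) ^ 2 = 1 + T w := sq_sqrt (by have := T_pos w; positivity)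
  have e8 : (dist (ball v) (ball w) * (√(1 + T v) * √(1 + T w)) / 2) ^ 2 =
      dist (ball v) (ball w) ^ 2 * (√(1 + T v) ^ 2) * (√(1 + T w) ^ 2) / 4 := by ring
  rw [e8, e6, e7]
  linarith

/-- Ptolemy inequality for the half sinh -/
lemma ptolemy (x y z w : V) : sinh (dist' x y / 2) * sinh (dist' z w / 2) ≤
    sinh (dist' x z / 2) * sinh (dist' y w / 2) + sinh (dist' x w / 2) * sinh (dist' y z / 2) := by
  simp only [sinh_half]
  have h := EuclideanGeometry.mul_dist_le_mul_dist_add_mul_dist (ball x) (ball z) (ball y) (ball w)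
  -- dist x y * dist z w ≤ dist x z * dist y w + dist z y * dist x w
  have h0 : 0 ≤ √(1 + T x) * √(1 + T y) * √(1 + T z) * √(1 + T w) / 4 := by positivity
  have h1 := mul_le_mul_of_nonneg_left h h0
  rw [dist_comm (ball z) (ball y)] at h1
  linarith

/-- four point condition -/
lemma four (x y z w : V) : dist' x y + dist' z w ≤
    max (dist' x z + dist' y w) (dist' x w + dist' y z) + 2 * (5 / 2) := by
  by_cases h1 : dist' x y ≤ 5 / 2
  · have e1 := tri z x w
    have e2 := dist'_comm z x
    have e3 := tri x y w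
    have e4 := le_max_left (dist' x z + dist' y w) (dist' x w + dist' y z)
    linarith
  by_cases h2 : dist' z w ≤ 5 / 2
  · have e1 := tri x z y
    have e2 := dist'_comm z y
    have e3 := tri y w z
    have e5 := dist'_comm w z
    have e4 := le_max_left (dist' x z + dist' y w) (dist' x w + dist' y z)
    linarith
  push Not at h1 h2
  set m := max (dist' x z + dist' y w) (dist' x w + dist' y z) with hm
  have lower : ∀ d : ℝ, 5 / 2 < d → exp (d / 2) / 4 ≤ sinh (d / 2) := by
    intro d hd
    rw [sinh_eq]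
    have e1 : exp (-(d / 2)) ≤ exp (d / 2) / 2 := by
      rw [le_div_iff₀ (by norm_num : (0 : ℝ) < 2)]
      have e2 : exp (d / 2) = exp (-(d / 2)) * exp d := by
        rw [← exp_add]; congr 1; ring
      rw [e2]
      have e3 := add_one_le_exp d
      have e4 := exp_pos (-(d / 2))
      nlinarith
    linarith
  have upper : ∀ d d' : ℝ, 0 ≤ d → 0 ≤ d' → d + d' ≤ m →
      sinh (d / 2) * sinh (d' / 2) ≤ exp (m / 2) / 4 := by
    intro d d' hd hd' hdm
    have e1 : sinh (d / 2) ≤ exp (d / 2) / 2 := by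
      rw [sinh_eq]; have := exp_pos (-(d / 2)); linarith
    have e2 : sinh (d' / 2) ≤ exp (d' / 2) / 2 := by
      rw [sinh_eq]; have := exp_pos (-(d' / 2)); linarith
    have e3 : 0 ≤ sinh (d' / 2) := sinh_nonneg_iff.2 (by linarith)
    have e4 : exp (d / 2) * exp (d' / 2) ≤ exp (m / 2) := by
      rw [← exp_add]; exact exp_le_exp.2 (by linarith)
    calc sinh (d / 2) * sinh (d' / 2) ≤ (exp (d / 2) / 2) * (exp (d' / 2) / 2) := by gcongr
      _ ≤ exp (m / 2) / 4 := by linarith
  have hp := ptolemy x y z w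
  have k1 := lower _ h1
  have k2 := lower _ h2
  have k3 := upper (dist' x z) (dist' y w) (dist'_nonneg _ _) (dist'_nonneg _ _) (le_max_left _ _)
  have k4 := upper (dist' x w) (dist' y z) (dist'_nonneg _ _) (dist'_nonneg _ _) (le_max_right _ _)
  have k5 : exp (dist' x y / 2) / 4 * (exp (dist' z w / 2) / 4) ≤
      sinh (dist' x y / 2) * sinh (dist' z w / 2) := by gcongr
  have k6 : exp ((dist' x y + dist' z w) / 2) ≤ 8 * exp (m / 2) := by
    have : exp ((dist' x y + dist' z w) / 2) = exp (dist' x y / 2) * exp (dist' z w / 2) := by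
      rw [← exp_add]; congr 1; ring
    rw [this]; linarith
  have k7 : (8 : ℝ) ≤ exp (5 / 2) := by
    have h := Real.exp_one_gt_d9
    have e1 : exp (5 / 2 : ℝ) = exp 1 * exp 1 * exp (1 / 2) := by
      rw [← exp_add, ← exp_add]; norm_num
    have e2 : (1 : ℝ) / 2 + 1 ≤ exp (1 / 2) := add_one_le_exp _
    rw [e1]
    nlinarith
  have k8 : exp ((dist' x y + dist' z w) / 2) ≤ exp (5 / 2 + m / 2) := by
    rw [exp_add]
    have := exp_pos (m / 2)
    nlinarith
  have := exp_le_exp.1 k8
  linarith

end Pool.Agent.H73.Cg.Hyp
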