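import Pool.Agent.H73.CgN

set_option autoImplicit false

/-! The invariant measure of hyperbolic 3-space. -/

namespace Pool.Agent.H73.Cg.Hyp

open Real MeasureTheory

/-- the model space -/
abbrev E3 := EuclideanSpace ℝ (Fin 3)

/-- invariant measure -/
noncomputable def vol : Measure E3 := volume.withDensity (fun v => ENNReal.ofReal (1 / T v))

lemma continuous_T : Continuous (T : E3 → ℝ) := by
  unfold T
  fun_prop

lemma continuous_b (p : E3) : Continuous (b p) := by
  unfold b
  have := continuous_T
  fun_prop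

lemma continuous_B (p : E3) : Continuous (B p) := by
  unfold B
  have := continuous_T
  fun_prop

lemma b_inj (p : E3) : Function.Injective (b p) :=
  Function.LeftInverse.injective (b_neg p)

/-- the derivative of the boost -/
noncomputable def cd (p v : E3) : E3 →L[ℝ] ℝ :=
  (1 + T p)⁻¹ • innerSL ℝ p + (T v)⁻¹ • innerSL ℝ v

lemma hasFDerivAt_T (v : E3) : HasFDerivAt T ((T v)⁻¹ • innerSL ℝ v) v := by
  have h1 : HasFDerivAt (fun w : E3 => 1 + ‖w‖ ^ 2) (2 • (innerSL ℝ v)) v := by
    have := (hasStrictFDerivAt_norm_sq v).hasFDerivAt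
    exact this.const_add 1
  have h2 := h1.sqrt (by positivity)
  have e : ((T v)⁻¹ • innerSL ℝ v : E3 →L[ℝ] ℝ) =
      (1 / (2 * √(1 + ‖v‖ ^ 2))) • (2 • (innerSL ℝ v)) := by
    rw [← Nat.cast_smul_eq_nsmul ℝ 2, smul_smul]
    congr 1
    unfold T
    push_cast
    field_simp
  rw [e]
  exact h2

lemma hasFDerivAt_b (p v : E3) : HasFDerivAt (b p)
    (ContinuousLinearMap.id ℝ E3 + (cd p v).smulRight p) v := by
  have h1 : HasFDerivAt (fun w : E3 => inner ℝ w p / (1 + T p) + T w) (cd p v) v := by
    unfold cd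
    apply HasFDerivAt.add
    · have e1 : (fun w : E3 => inner ℝ w p / (1 + T p)) =
          fun w => ((1 + T p)⁻¹ • innerSL ℝ p) w := by
        ext w
        simp only [smul_apply, innerSL_apply_apply, smul_eq_mul]
        rw [real_inner_comm]
        ring
      rw [e1]
      exact ContinuousLinearMap.hasFDerivAt _
    · exact hasFDerivAt_T v
  exact (hasFDerivAt_id v).add (h1.smul_const p)

lemma det_b (p v : E3) :
    (ContinuousLinearMap.id ℝ E3 + (cd p v).smulRight p).det = T (b p v) / T v := by
  have e1 : ((ContinuousLinearMap.id ℝ E3 + (cd p v).smulRight p : E3 →L[ℝ] E3) :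
      E3 →ₗ[ℝ] E3) = LinearMap.transvection ((cd p v : E3 →L[ℝ] ℝ) : E3 →ₗ[ℝ] ℝ) p := by
    ext w
    simp [LinearMap.transvection.apply]
  have e2 : (ContinuousLinearMap.id ℝ E3 + (cd p v).smulRight p).det =
      1 + (cd p v) p := by
    unfold ContinuousLinearMap.det
    rw [e1, LinearMap.transvection.det]
    rfl
  rw [e2, T_b]
  unfold cd
  simp only [add_apply, smul_apply, innerSL_apply_apply, smul_eq_mul]
  rw [inner_self_T]
  have h1 : 1 + T p ≠ 0 := by have := T_pos p; positivity
  have h2 : T v ≠ 0 := (T_pos v).ne'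
  field_simp
  ring

lemma vol_b (p : E3) {S : Set E3} (hS : MeasurableSet S) : vol (b p '' S) = vol S := by
  have hm : MeasurableSet (b p '' S) := by
    have : b p '' S = b (-p) ⁻¹' S := by
      ext w
      constructor
      · rintro ⟨v, hv, rfl⟩
        change b (-p) (b p v) ∈ S
        rwa [b_neg]
      · intro hw
        exact ⟨b (-p) w, hw, b_neg' p w⟩
    rw [this]
    exact (continuous_b (-p)).measurable hS
  unfold vol
  rw [withDensity_apply _ hm, withDensity_apply _ hS,
    lintegral_image_eq_lintegral_abs_det_fderiv_mul volume hS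
      (fun x _ => (hasFDerivAt_b p x).hasFDerivWithinAt) (b_inj p).injOn]
  apply lintegral_congr
  intro v
  rw [det_b, ← ENNReal.ofReal_mul (abs_nonneg _)]
  congr 1
  have h1 := T_pos v
  have h2 := T_pos (b p v)
  rw [abs_of_pos (by positivity)]
  field_simp

/-- form-preserving permutations -/
def Pres (g : Equiv.Perm E3) : Prop := ∀ x y, B (g x) (g y) = B x y

lemma exists_lin {g : Equiv.Perm E3} (hg : Pres g) :
    ∃ h : E3 ≃ₗᵢ[ℝ] E3, ∀ x, g x = b (g 0) (h x) := by
  set p := g 0 with hp
  set f : E3 ≃ E3 := g.trans ⟨b (-p), b p, fun x => by have := b_neg (-p) x; rwa [neg_neg] at this,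
    fun x => b_neg p x⟩ with hf
  have hfx : ∀ x, f x = b (-p) (g x) := fun x => rfl
  have hBf : ∀ x y, B (f x) (f y) = B x y := by
    intro x y
    rw [hfx, hfx, B_b, hg]
  have hf0 : f 0 = 0 := by
    rw [hfx, ← hp]
    have := b_neg p 0
    rwa [b_zero] at this
  have hT : ∀ x, T (f x) = T x := by
    intro x
    rw [← B_zero, ← B_zero x, ← hBf 0 x, hf0]
  have hin : ∀ x y, (inner ℝ (f x) (f y) : ℝ) = inner ℝ x y := by
    intro x y
    have := hBf x y
    unfold B at this
    rw [hT, hT] at this
    linarith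
  have hiso : Isometry f := by
    apply Isometry.of_dist_eq
    intro x y
    rw [dist_eq_norm, dist_eq_norm]
    have h1 : ‖f x - f y‖ ^ 2 = ‖x - y‖ ^ 2 := by
      rw [← real_inner_self_eq_norm_sq, ← real_inner_self_eq_norm_sq]
      rw [inner_sub_left, inner_sub_right, inner_sub_right, inner_sub_left, inner_sub_right,
        inner_sub_right, hin, hin, hin, hin]
    exact (pow_left_inj₀ (norm_nonneg _) (norm_nonneg _) two_ne_zero).1 h1
  set F : E3 ≃ᵢ E3 := ⟨f, hiso⟩
  refine ⟨F.toRealLinearIsometryEquivOfMapZero hf0, fun x => ?_⟩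
  have : (F.toRealLinearIsometryEquivOfMapZero hf0) x = f x := rfl
  rw [this, hfx, b_neg']

lemma Pres.continuous {g : Equiv.Perm E3} (hg : Pres g) : Continuous g := by
  obtain ⟨h, hh⟩ := exists_lin hg
  have : (g : E3 → E3) = fun x => b (g 0) (h x) := funext hh
  rw [this]
  exact (continuous_b _).comp h.continuous

lemma T_lin (h : E3 ≃ₗᵢ[ℝ] E3) (x : E3) : T (h x) = T x := by
  unfold T
  rw [h.norm_map]

lemma vol_lin (h : E3 ≃ₗᵢ[ℝ] E3) {S : Set E3} (hS : MeasurableSet S) :
    vol (h '' S) = vol S := by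
  have hm : MeasurableSet (h '' S) := by
    exact (h.toHomeomorph.measurableEmbedding.measurableSet_image).2 hS
  unfold vol
  rw [withDensity_apply _ hm, withDensity_apply _ hS]
  have h1 := h.measurePreserving.setLIntegral_comp_emb h.toHomeomorph.measurableEmbedding
    (fun v => ENNReal.ofReal (1 / T v)) S
  rw [← h1]
  simp only [T_lin]

lemma vol_image {g : Equiv.Perm E3} (hg : Pres g) {S : Set E3} (hS : MeasurableSet S) :
    vol (g '' S) = vol S := by
  obtain ⟨h, hh⟩ := exists_lin hg
  have e1 : g '' S = b (g 0) '' (h '' S) := by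
    rw [Set.image_image]
    apply Set.image_congr
    intro x _
    exact hh x
  have hm : MeasurableSet (h '' S) :=
    (h.toHomeomorph.measurableEmbedding.measurableSet_image).2 hS
  rw [e1, vol_b _ hm, vol_lin h hS]

/-- hyperbolic balls, radius given by its cosh -/
def Bl (x : E3) (c : ℝ) : Set E3 := {v | B x v ≤ c}

lemma measurable_Bl (x : E3) (c : ℝ) : MeasurableSet (Bl x c) :=
  (isClosed_le (continuous_B x) continuous_const).measurableSet

lemma image_Bl {g : Equiv.Perm E3} (hg : Pres g) (x : E3) (c : ℝ) :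
    g '' Bl x c = Bl (g x) c := by
  ext w
  constructor
  · rintro ⟨v, hv, rfl⟩
    change B (g x) (g v) ≤ c
    rw [hg]; exact hv
  · intro hw
    refine ⟨g.symm w, ?_, by simp⟩
    change B x (g.symm w) ≤ c
    rw [← hg, Equiv.apply_symm_apply]
    exact hw

lemma b_image_Bl (p x : E3) (c : ℝ) : b p '' Bl x c = Bl (b p x) c := by
  ext w
  constructor
  · rintro ⟨v, hv, rfl⟩
    change B (b p x) (b p v) ≤ c
    rw [B_b]; exact hv
  · intro hw
    refine ⟨b (-p) w, ?_, b_neg' p w⟩
    change B x (b (-p) w) ≤ c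
    rw [← B_b p, b_neg']
    exact hw

lemma vol_Bl (x : E3) (c : ℝ) : vol (Bl x c) = vol (Bl 0 c) := by
  have := vol_b x (measurable_Bl 0 c)
  rw [b_image_Bl, b_zero] at this
  exact this

/-- volume of the unit ball -/
noncomputable def ω : ENNReal := volume (Metric.ball (0 : E3) 1)

lemma ω_pos : ω ≠ 0 := (Metric.measure_ball_pos volume _ one_pos).ne'

lemma ω_fin : ω ≠ ⊤ := measure_ball_lt_top.ne

lemma vol_closedBall {r : ℝ} (hr : 0 ≤ r) :
    volume (Metric.closedBall (0 : E3) r) = ENNReal.ofReal (r ^ 3) * ω := by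
  rw [Measure.addHaar_closedBall _ _ hr]
  simp [ω]

/-- dyadic estimate -/
lemma dyadic (n : ℕ) : vol (Metric.closedBall (0 : E3) (2 ^ n)) ≤ 4 * ω * 4 ^ n := by
  induction n with
  | zero =>
    have h1 : vol (Metric.closedBall (0 : E3) (2 ^ 0)) ≤ ω := by
      unfold vol
      rw [withDensity_apply _ Metric.isClosed_closedBall.measurableSet]
      calc _ ≤ ∫⁻ _ in Metric.closedBall (0 : E3) (2 ^ 0), 1 := by
            apply lintegral_mono
            intro v
            change ENNReal.ofReal (1 / T v) ≤ 1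
            rw [ENNReal.ofReal_le_one, div_le_one (T_pos v)]
            exact T_one_le v
        _ = ω := by
            rw [setLIntegral_one, vol_closedBall (by norm_num)]
            simp
    refine h1.trans ?_
    simp only [pow_zero, mul_one]
    calc ω = 1 * ω := (one_mul _).symm
      _ ≤ 4 * ω := by gcongr; norm_num
  | succ n ih =>
    have hsub : Metric.closedBall (0 : E3) (2 ^ (n + 1)) ⊆ Metric.closedBall (0 : E3) (2 ^ n) ∪
        (Metric.closedBall (0 : E3) (2 ^ (n + 1)) \ Metric.closedBall (0 : E3) (2 ^ n)) := by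
      intro v hv
      by_cases h : v ∈ Metric.closedBall (0 : E3) (2 ^ n)
      · exact Or.inl h
      · exact Or.inr ⟨hv, h⟩
    have h2 : vol (Metric.closedBall (0 : E3) (2 ^ (n + 1)) \ Metric.closedBall (0 : E3) (2 ^ n))
        ≤ 8 * ω * 4 ^ n := by
      unfold vol
      rw [withDensity_apply _ (Metric.isClosed_closedBall.measurableSet.diff
        Metric.isClosed_closedBall.measurableSet)]
      calc _ ≤ ∫⁻ _ in (Metric.closedBall (0 : E3) (2 ^ (n + 1)) \
            Metric.closedBall (0 : E3) (2 ^ n)), ENNReal.ofReal (1 / 2 ^ n) := by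
            apply setLIntegral_mono' (Metric.isClosed_closedBall.measurableSet.diff
              Metric.isClosed_closedBall.measurableSet)
            intro v hv
            apply ENNReal.ofReal_le_ofReal
            have h3 : (2 : ℝ) ^ n < ‖v‖ := by
              have := hv.2
              rw [mem_closedBall_zero_iff] at this
              exact not_le.1 this
            have h4 : ‖v‖ ≤ T v := by
              unfold T
              apply le_sqrt_of_sq_le
              linarith
            have h5 : (0 : ℝ) < 2 ^ n := by positivity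
            exact one_div_le_one_div_of_le h5 (h3.le.trans h4)
        _ ≤ ENNReal.ofReal (1 / 2 ^ n) * volume (Metric.closedBall (0 : E3) (2 ^ (n + 1))) := by
            rw [setLIntegral_const]
            gcongr
            exact Set.sdiff_subset
        _ = 8 * ω * 4 ^ n := by
            rw [vol_closedBall (by positivity), ← mul_assoc, ← ENNReal.ofReal_mul (by positivity)]
            have e1 : (1 : ℝ) / 2 ^ n * (2 ^ (n + 1)) ^ 3 = 8 * 4 ^ n := by
              have e3 : (4 : ℝ) ^ n = (2 ^ n) ^ 2 := by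
                rw [← pow_mul, mul_comm, pow_mul]; norm_num
              rw [e3, pow_succ]
              have e4 : (2 : ℝ) ^ n ≠ 0 := by positivity
              field_simp
              ring
            rw [e1, ENNReal.ofReal_mul (by norm_num), ENNReal.ofReal_pow (by norm_num)]
            have e2 : ENNReal.ofReal 8 = 8 := by norm_num
            have e3 : ENNReal.ofReal 4 = 4 := by norm_num
            rw [e2, e3]; ring
    calc _ ≤ vol (Metric.closedBall (0 : E3) (2 ^ n)) +
          vol (Metric.closedBall (0 : E3) (2 ^ (n + 1)) \ Metric.closedBall (0 : E3) (2 ^ n)) :=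
          (measure_mono hsub).trans (measure_union_le _ _)
      _ ≤ 4 * ω * 4 ^ n + 8 * ω * 4 ^ n := add_le_add ih h2
      _ = 12 * (ω * 4 ^ n) := by ring
      _ ≤ 16 * (ω * 4 ^ n) := by gcongr; norm_num
      _ = 4 * ω * 4 ^ (n + 1) := by ring

lemma vol_Bl_le {R : ℝ} (hR : 0 ≤ R) :
    vol (Bl 0 (cosh R)) ≤ ENNReal.ofReal (exp (2 * R)) * (16 * ω) := by
  obtain ⟨n, hn1, hn2⟩ := exists_nat_pow_near (one_le_exp hR) (one_lt_two : (1 : ℝ) < 2)
  have hsub : Bl 0 (cosh R) ⊆ Metric.closedBall (0 : E3) (2 ^ (n + 1)) := by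
    intro v hv
    rw [mem_closedBall_zero_iff]
    have h1 : T v ≤ cosh R := by
      have : B 0 v ≤ cosh R := hv
      rwa [B_zero] at this
    have h4 : ‖v‖ ≤ T v := by
      unfold T
      apply le_sqrt_of_sq_le
      linarith
    have h5 : cosh R ≤ exp R := by
      rw [cosh_eq]
      have : exp (-R) ≤ exp R := exp_le_exp.2 (by linarith)
      linarith
    linarith
  refine (measure_mono hsub).trans ((dyadic (n + 1)).trans ?_)
  have e1 : (4 : ENNReal) ^ n ≤ ENNReal.ofReal (exp (2 * R)) := by
    have e3 : ENNReal.ofReal 4 = 4 := by norm_num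
    rw [← e3, ← ENNReal.ofReal_pow (by norm_num)]
    apply ENNReal.ofReal_le_ofReal
    have : exp (2 * R) = exp R ^ 2 := by rw [← exp_nat_mul]; norm_num
    rw [this]
    have : (4 : ℝ) ^ n = (2 ^ n) ^ 2 := by rw [← pow_mul, mul_comm, pow_mul]; norm_num
    rw [this]
    gcongr
  calc 4 * ω * 4 ^ (n + 1) = (4 ^ n) * (16 * ω) := by ring
    _ ≤ _ := by gcongr

lemma le_vol_Bl {R : ℝ} (hR : 1 ≤ R) :
    ENNReal.ofReal (exp (2 * R) / 64) * ω ≤ vol (Bl 0 (cosh R)) := by
  have hs : 0 ≤ sinh R := sinh_nonneg_iff.2 (by linarith)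
  have hsub : Metric.closedBall (0 : E3) (sinh R) ⊆ Bl 0 (cosh R) := by
    intro v hv
    rw [mem_closedBall_zero_iff] at hv
    change B 0 v ≤ cosh R
    rw [B_zero]
    unfold T
    rw [sqrt_le_left (cosh_pos R).le, cosh_sq]
    have : ‖v‖ ^ 2 ≤ sinh R ^ 2 := by gcongr
    linarith
  refine le_trans ?_ (measure_mono hsub)
  unfold vol
  rw [withDensity_apply _ Metric.isClosed_closedBall.measurableSet]
  have h1 : ∫⁻ _ in Metric.closedBall (0 : E3) (sinh R), ENNReal.ofReal (1 / cosh R) ≤
      ∫⁻ v in Metric.closedBall (0 : E3) (sinh R), ENNReal.ofReal (1 / T v) := by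
    apply setLIntegral_mono' Metric.isClosed_closedBall.measurableSet
    intro v hv
    apply ENNReal.ofReal_le_ofReal
    have : T v ≤ cosh R := by
      have := hsub hv
      have : B 0 v ≤ cosh R := this
      rwa [B_zero] at this
    exact one_div_le_one_div_of_le (T_pos v) this
  refine le_trans ?_ h1
  rw [setLIntegral_const, vol_closedBall hs, ← mul_assoc, ← ENNReal.ofReal_mul (by
    have := cosh_pos R; positivity)]
  gcongr
  -- real estimate
  have hexp : exp R / 4 ≤ sinh R := by
    rw [sinh_eq]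
    have e1 : exp (-R) ≤ exp R / 2 := by
      rw [le_div_iff₀ (by norm_num : (0 : ℝ) < 2)]
      have e2 : exp R = exp (-R) * exp (2 * R) := by
        rw [← exp_add]; congr 1; ring
      rw [e2]
      have e3 := add_one_le_exp (2 * R)
      have e4 := exp_pos (-R)
      nlinarith
    linarith
  have hcosh : cosh R ≤ exp R := by
    rw [cosh_eq]
    have : exp (-R) ≤ exp R := exp_le_exp.2 (by linarith)
    linarith
  have hc := cosh_pos R
  have he := exp_pos R
  rw [one_div_mul_eq_div, le_div_iff₀ hc]
  have e1 : exp (2 * R) = exp R ^ 2 := by rw [← exp_nat_mul]; norm_num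
  rw [e1]
  calc exp R ^ 2 / 64 * cosh R ≤ exp R ^ 2 / 64 * exp R := by gcongr
    _ = (exp R / 4) ^ 3 := by ring
    _ ≤ sinh R ^ 3 := by gcongr

end Pool.Agent.H73.Cg.Hyp
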