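import Pool.Agent.H73.CgL
import Pool.Agent.H73.CgO

set_option autoImplicit false

/-! Discrete groups of isometries of hyperbolic 3-space: length function, packing, growth. -/

namespace Pool.Agent.H73.Cg.Hyp

open Real MeasureTheory Finset

variable {Γ : Subgroup (Equiv.Perm E3)}

lemma dist'_pres {g : Equiv.Perm E3} (hg : Pres g) (x y : E3) :
    dist' (g x) (g y) = dist' x y := by
  unfold dist'; rw [hg]

/-- the length function of a discrete group -/
noncomputable def len (hΓ : ∀ g ∈ Γ, Pres g)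
    (hfin : ∀ R : ℝ, Set.Finite {g : Equiv.Perm E3 | g ∈ Γ ∧ B 0 (g 0) ≤ R}) : HypLen Γ where
  l := fun γ => dist' 0 ((γ : Equiv.Perm E3) 0)
  δ := 5 / 2
  δ0 := by norm_num
  one := by simp [dist'_self]
  inv := by
    intro x
    have h := dist'_pres (hΓ x x.2) 0 ((x⁻¹ : Γ).1 0)
    have e : (x : Equiv.Perm E3) ((x⁻¹ : Γ).1 0) = 0 := by simp
    rw [e] at h
    rw [← h, dist'_comm]
  mul := by
    intro x y
    have h1 := tri 0 ((x : Equiv.Perm E3) 0) ((x : Equiv.Perm E3) ((y : Equiv.Perm E3) 0))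
    rw [dist'_pres (hΓ x x.2)] at h1
    exact h1
  hyp := by
    intro x y z w
    have key : ∀ x y : Γ, dist' 0 (((x⁻¹ * y : Γ) : Equiv.Perm E3) 0) =
        dist' ((x : Equiv.Perm E3) 0) ((y : Equiv.Perm E3) 0) := by
      intro x y
      rw [← dist'_pres (hΓ x x.2) 0]
      congr 1
      simp
    rw [key, key, key, key, key, key]
    exact four _ _ _ _
  fin := by
    intro R
    apply ((hfin (cosh R)).preimage (f := fun γ : Γ => (γ : Equiv.Perm E3))
      (Subtype.val_injective.injOn)).subset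
    intro γ hγ
    change dist' 0 ((γ : Equiv.Perm E3) 0) ≤ R at hγ
    refine ⟨γ.2, ?_⟩
    have h0 : 0 ≤ R := (dist'_nonneg _ _).trans hγ
    exact (dist'_le_iff h0).1 hγ

variable (hΓ : ∀ g ∈ Γ, Pres g)
    (hfin : ∀ R : ℝ, Set.Finite {g : Equiv.Perm E3 | g ∈ Γ ∧ B 0 (g 0) ≤ R})

lemma len_d (x y : Γ) : (len hΓ hfin).d x y =
    dist' ((x : Equiv.Perm E3) 0) ((y : Equiv.Perm E3) 0) := by
  have h := dist'_pres (hΓ x x.2) 0 (((x⁻¹ * y : Γ) : Equiv.Perm E3) 0)
  change dist' 0 (((x⁻¹ * y : Γ) : Equiv.Perm E3) 0) = _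
  rw [← h]
  congr 1
  simp

lemma len_l (x : Γ) : (len hΓ hfin).l x = dist' 0 ((x : Equiv.Perm E3) 0) := rfl

lemma mem_Bl {x v : E3} {R : ℝ} (hR : 0 ≤ R) : v ∈ Bl x (cosh R) ↔ dist' x v ≤ R :=
  (dist'_le_iff hR).symm

include hΓ hfin in
lemma packing : ∃ C : ℝ, 0 ≤ C ∧ ∀ (w : E3) (R : ℝ) (S : Finset Γ),
    (∀ γ ∈ S, dist' ((γ : Equiv.Perm E3) 0) w ≤ R) → (S.card : ℝ) ≤ C * exp (2 * R) := by
  classical
  set L := len hΓ hfin with hL
  set N0 := (L.fin 2).toFinset.card with hN0
  refine ⟨1024 * N0, by positivity, fun w R S hS => ?_⟩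
  rcases S.eq_empty_or_nonempty with rfl | ⟨γ0, hγ0⟩
  · simp only [Finset.card_empty, Nat.cast_zero]
    positivity
  have hR : 0 ≤ R := (dist'_nonneg _ _).trans (hS γ0 hγ0)
  set c1 := cosh 1 with hc1
  have hvol : ∀ γ : Γ, vol (Bl ((γ : Equiv.Perm E3) 0) c1) = vol (Bl 0 c1) :=
    fun γ => vol_Bl _ _
  -- pointwise count
  have hcount : ∀ v : E3, ∑ γ ∈ S, (Bl ((γ : Equiv.Perm E3) 0) c1).indicator (1 : E3 → ENNReal) v ≤
      (N0 : ENNReal) * (Bl w (cosh (R + 1))).indicator (1 : E3 → ENNReal) v := by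
    intro v
    have e1 : ∑ γ ∈ S, (Bl ((γ : Equiv.Perm E3) 0) c1).indicator (1 : E3 → ENNReal) v =
        ((S.filter (fun γ : Γ => v ∈ Bl ((γ : Equiv.Perm E3) 0) c1)).card : ENNReal) := by
      rw [Finset.card_filter, Nat.cast_sum]
      apply Finset.sum_congr rfl
      intro γ _
      by_cases h : v ∈ Bl ((γ : Equiv.Perm E3) 0) c1
      · rw [Set.indicator_of_mem h, if_pos h]; simp
      · rw [Set.indicator_of_notMem h, if_neg h]; simp
    rw [e1]
    rcases (S.filter (fun γ : Γ => v ∈ Bl ((γ : Equiv.Perm E3) 0) c1)).eq_empty_or_nonempty with h | h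
    · rw [h]; simp
    · obtain ⟨γ1, hγ1⟩ := h
      obtain ⟨h1, h2⟩ := Finset.mem_filter.1 hγ1
      rw [hc1, mem_Bl zero_le_one] at h2
      have hv : v ∈ Bl w (cosh (R + 1)) := by
        rw [mem_Bl (by linarith)]
        have e1 := tri w ((γ1 : Equiv.Perm E3) 0) v
        have e2 := hS γ1 h1
        rw [dist'_comm] at e2
        linarith
      rw [Set.indicator_of_mem hv]
      simp only [Pi.one_apply, mul_one]
      have hcard : (S.filter (fun γ : Γ => v ∈ Bl ((γ : Equiv.Perm E3) 0) c1)).card ≤ N0 := by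
        apply Finset.card_le_card_of_injOn (fun γ : Γ => γ1⁻¹ * γ)
        · intro γ hγ
          obtain ⟨h3, h4⟩ := Finset.mem_filter.1 (Finset.mem_coe.1 hγ)
          rw [hc1, mem_Bl zero_le_one] at h4
          rw [Finset.mem_coe, Set.Finite.mem_toFinset]
          change L.d γ1 γ ≤ 2
          rw [hL, len_d]
          have e1 := tri ((γ1 : Equiv.Perm E3) 0) v ((γ : Equiv.Perm E3) 0)
          rw [dist'_comm v] at e1
          linarith
        · intro x _ y _ hxy
          exact mul_left_cancel hxy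
      exact_mod_cast hcard
  have hint := lintegral_mono (μ := vol) hcount
  rw [lintegral_finsetSum _ (fun γ _ => (measurable_one.indicator (measurable_Bl _ _))),
    lintegral_const_mul _ (measurable_one.indicator (measurable_Bl _ _)),
    lintegral_indicator_one (measurable_Bl _ _)] at hint
  have hs : ∑ γ ∈ S, ∫⁻ v, (Bl ((γ : Equiv.Perm E3) 0) c1).indicator (1 : E3 → ENNReal) v ∂vol =
      (S.card : ENNReal) * vol (Bl 0 c1) := by
    rw [Finset.sum_congr rfl (fun γ _ => by
      rw [lintegral_indicator_one (measurable_Bl _ _), hvol γ]), Finset.sum_const, nsmul_eq_mul]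
  rw [hs, vol_Bl w] at hint
  have h1 := le_vol_Bl (le_refl (1 : ℝ))
  have h2 := vol_Bl_le (R := R + 1) (by linarith)
  have h3 : ENNReal.ofReal ((S.card : ℝ) * (exp (2 * 1) / 64)) * ω ≤
      ENNReal.ofReal ((N0 : ℝ) * (exp (2 * (R + 1)) * 16)) * ω := by
    rw [ENNReal.ofReal_mul (Nat.cast_nonneg _), ENNReal.ofReal_mul (Nat.cast_nonneg _),
      ENNReal.ofReal_mul (exp_pos _).le, ENNReal.ofReal_natCast, ENNReal.ofReal_natCast]
    have e16 : ENNReal.ofReal 16 = 16 := by norm_num
    rw [e16]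
    calc (S.card : ENNReal) * ENNReal.ofReal (exp (2 * 1) / 64) * ω
        = (S.card : ENNReal) * (ENNReal.ofReal (exp (2 * 1) / 64) * ω) := by ring
      _ ≤ (S.card : ENNReal) * vol (Bl 0 c1) := by gcongr
      _ ≤ (N0 : ENNReal) * vol (Bl 0 (cosh (R + 1))) := hint
      _ ≤ (N0 : ENNReal) * (ENNReal.ofReal (exp (2 * (R + 1))) * (16 * ω)) := by gcongr
      _ = _ := by ring
  have h4 := (ENNReal.mul_le_mul_iff_left ω_pos ω_fin).1 h3
  rw [ENNReal.ofReal_le_ofReal_iff (by positivity)] at h4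
  have h5 : exp (2 * (R + 1)) = exp (2 * R) * exp (2 * 1) := by
    rw [← exp_add]; congr 1; ring
  rw [h5] at h4
  have h6 := exp_pos (2 * 1 : ℝ)
  generalize exp (2 * 1 : ℝ) = E at h4 h6
  have h7 : (S.card : ℝ) * E ≤ (1024 * N0 * exp (2 * R)) * E := by
    linarith
  exact le_of_mul_le_mul_right h7 h6

lemma exists_Pk : ∃ Cp : ℝ, 0 ≤ Cp ∧ (len hΓ hfin).Pk Cp := by
  obtain ⟨C, hC, hpack⟩ := packing hΓ hfin
  refine ⟨C * exp 10, by positivity, fun y R r S hr hS => ?_⟩
  rcases S.eq_empty_or_nonempty with rfl | ⟨x0, hx0⟩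
  · simp only [Finset.card_empty, Nat.cast_zero]
    positivity
  set L := len hΓ hfin with hL
  set y0 : E3 := (y : Equiv.Perm E3) 0 with hy0
  set D := dist' 0 y0 with hD
  have hrD : r ≤ D := by
    have h1 := (hS x0 hx0).2
    have h2 := L.gp_le_right 1 x0 y
    rw [L.d_one] at h2
    exact h1.trans h2
  have hD0 : 0 ≤ D := dist'_nonneg _ _
  have hnorm : ‖y0‖ = sinh D := by
    rw [hD, dist'_comm, sinh_dist'_zero]
  have hTy : T y0 = cosh D := by
    rw [hD, cosh_dist', B_zero]
  obtain ⟨w, hw1, hw2⟩ : ∃ w : E3, dist' 0 w = r ∧ dist' w y0 = D - r := by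
    rcases eq_or_lt_of_le hD0 with h0 | h0
    · refine ⟨0, ?_, ?_⟩
      · rw [dist'_self]; linarith
      · rw [← hD]; linarith
    · have hsD : 0 < sinh D := sinh_pos_iff.2 h0
      set w : E3 := (sinh r / sinh D) • y0 with hw
      have hwn : ‖w‖ = sinh r := by
        rw [hw, norm_smul, hnorm, norm_eq_abs, abs_of_nonneg (div_nonneg (sinh_nonneg_iff.2 hr)
          hsD.le)]
        field_simp
      have hTw : T w = cosh r := by
        unfold T
        rw [hwn, ← sqrt_sq (cosh_pos r).le, cosh_sq, add_comm]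
      have hin : inner ℝ w y0 = sinh r * sinh D := by
        rw [hw, inner_smul_left, real_inner_self_eq_norm_sq, hnorm]
        simp only [conj_trivial]
        field_simp
      refine ⟨w, ?_, ?_⟩
      · unfold dist'
        rw [B_zero, hTw, arcosh_cosh hr]
      · unfold dist' B
        rw [hTw, hTy, hin, mul_comm (cosh r)]
        have : cosh D * cosh r - sinh r * sinh D = cosh (D - r) := by rw [cosh_sub]; ring
        rw [this, arcosh_cosh (by linarith)]
  have hcard := hpack w (R - r + 5) S (by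
    intro x hx
    obtain ⟨h1, h2⟩ := hS x hx
    have h3 := four ((x : Equiv.Perm E3) 0) w 0 y0
    have h4 : L.gp 1 x y = (dist' 0 ((x : Equiv.Perm E3) 0) + D -
        dist' ((x : Equiv.Perm E3) 0) y0) / 2 := by
      unfold HypLen.gp
      rw [L.d_one, L.d_one, hL, len_d]
      rfl
    rw [h4] at h2
    have h5 : dist' 0 ((x : Equiv.Perm E3) 0) ≤ R := h1
    rw [dist'_comm _ 0, dist'_comm w 0, hw1, hw2, ← hD] at h3
    rcases max_choice (dist' 0 ((x : Equiv.Perm E3) 0) + (D - r))
      (dist' ((x : Equiv.Perm E3) 0) y0 + r) with h | h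
    · rw [h] at h3; linarith
    · rw [h] at h3; linarith)
  refine hcard.trans (le_of_eq ?_)
  rw [mul_assoc, ← exp_add]
  congr 2
  ring

include hfin in
lemma countable_group : Countable Γ := by
  have h : (Set.univ : Set (Equiv.Perm E3)) ∩ {g | g ∈ Γ} =
      ⋃ n : ℕ, {g : Equiv.Perm E3 | g ∈ Γ ∧ B 0 (g 0) ≤ n} := by
    ext g
    simp only [Set.univ_inter, Set.mem_iUnion]
    constructor
    · intro hg
      obtain ⟨n, hn⟩ := exists_nat_ge (B 0 (g 0))
      exact ⟨n, hg, hn⟩
    · rintro ⟨n, hg, -⟩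
      exact hg
  have h2 : Set.Countable {g : Equiv.Perm E3 | g ∈ Γ} := by
    have : (Set.univ : Set (Equiv.Perm E3)) ∩ {g | g ∈ Γ} = {g | g ∈ Γ} := Set.univ_inter _
    rw [← this, h]
    exact Set.countable_iUnion (fun n => (hfin n).countable)
  exact h2.to_subtype

lemma exists_Lg {F : Set E3} (hF : MeasurableSet F) (hvF : vol F ≠ ⊤)
    (hcov : ∀ x, ∃ g ∈ Γ, g x ∈ F) : ∃ cl : ℝ, 0 < cl ∧ (len hΓ hfin).Lg cl := by
  classical
  obtain ⟨C, hC, hpack⟩ := packing hΓ hfin
  have hcount : Countable Γ := countable_group hfin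
  set L := len hΓ hfin with hL
  -- the part of `F` far away is small
  set F' : ℕ → Set E3 := fun n => F \ Bl 0 (cosh n) with hF'
  have hF'm : ∀ n, MeasurableSet (F' n) := fun n => hF.diff (measurable_Bl _ _)
  have hanti : Antitone F' := by
    intro m n hmn x hx
    refine ⟨hx.1, fun h => hx.2 ?_⟩
    rw [mem_Bl (Nat.cast_nonneg _)] at h ⊢
    exact h.trans (by exact_mod_cast hmn)
  have hempty : ⋂ n, F' n = ∅ := by
    rw [Set.eq_empty_iff_forall_notMem]
    intro x hx
    rw [Set.mem_iInter] at hx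
    obtain ⟨n, hn⟩ := exists_nat_ge (dist' 0 x)
    apply (hx n).2
    rw [mem_Bl (Nat.cast_nonneg _)]
    exact hn
  have htend := tendsto_measure_iInter_atTop (μ := vol)
    (fun n => (hF'm n).nullMeasurableSet) hanti
    ⟨0, ((measure_mono Set.sdiff_subset).trans_lt (lt_top_iff_ne_top.2 hvF)).ne⟩
  rw [hempty, measure_empty] at htend
  set ε : ENNReal := (ENNReal.ofReal (1 / 128) * ω) / ENNReal.ofReal (C + 1) with hε
  have hC1 : ENNReal.ofReal (C + 1) ≠ 0 := by
    rw [Ne, ENNReal.ofReal_eq_zero, not_le]; linarith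
  have hε0 : 0 < ε := by
    rw [hε]
    apply ENNReal.div_pos
    · apply mul_ne_zero _ ω_pos
      rw [Ne, ENNReal.ofReal_eq_zero, not_le]; norm_num
    · exact ENNReal.ofReal_ne_top
  obtain ⟨D, hD⟩ := ((htend.eventually_lt_const hε0)).exists
  have hD' : ENNReal.ofReal C * vol (F' D) ≤ ENNReal.ofReal (1 / 128) * ω := by
    have h1 : vol (F' D) ≤ ε := hD.le
    rw [hε, ENNReal.le_div_iff_mul_le (Or.inl hC1) (Or.inl ENNReal.ofReal_ne_top)] at h1
    refine le_trans ?_ h1
    rw [mul_comm]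
    gcongr
    linarith
  -- main estimate
  have hmain : ∀ R : ℝ, 1 ≤ R → ENNReal.ofReal (exp (2 * R) / 128) * ω ≤
      (((L.fin (R + D)).toFinset.card : ℕ) : ENNReal) * vol F := by
    intro R hR
    have hR0 : 0 ≤ R := by linarith
    set cnt := (L.fin (R + D)).toFinset.card with hcnt
    have h1 : vol (Bl 0 (cosh R)) ≤
        ∑' γ : Γ, vol (F ∩ Bl ((γ : Equiv.Perm E3) 0) (cosh R)) := by
      have hsub : Bl 0 (cosh R) ⊆ ⋃ γ : Γ, ((γ : Equiv.Perm E3) ⁻¹' F ∩ Bl 0 (cosh R)) := by
        intro x hx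
        obtain ⟨g, hg, hgx⟩ := hcov x
        exact Set.mem_iUnion.2 ⟨⟨g, hg⟩, hgx, hx⟩
      refine (measure_mono hsub).trans ((measure_iUnion_le _).trans ?_)
      apply ENNReal.tsum_le_tsum
      intro γ
      have hm : MeasurableSet ((γ : Equiv.Perm E3) ⁻¹' F ∩ Bl 0 (cosh R)) :=
        ((hΓ γ γ.2).continuous.measurable hF).inter (measurable_Bl _ _)
      rw [← vol_image (hΓ γ γ.2) hm]
      apply measure_mono
      rintro _ ⟨x, hx, rfl⟩
      refine ⟨hx.1, ?_⟩
      rw [← image_Bl (hΓ γ γ.2)]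
      exact ⟨x, hx.2, rfl⟩
    have h2 : ∑' γ : Γ, vol (F ∩ Bl ((γ : Equiv.Perm E3) 0) (cosh R)) =
        ∫⁻ x in F, ∑' γ : Γ, (Bl ((γ : Equiv.Perm E3) 0) (cosh R)).indicator
          (1 : E3 → ENNReal) x ∂vol := by
      rw [lintegral_tsum (fun γ => (measurable_one.indicator (measurable_Bl _ _)).aemeasurable)]
      congr 1
      ext γ
      rw [lintegral_indicator_one (measurable_Bl _ _), Measure.restrict_apply (measurable_Bl _ _),
        Set.inter_comm]
    have hfs : ∀ (x : E3) (S : Finset Γ), ∑ γ ∈ S, (Bl ((γ : Equiv.Perm E3) 0) (cosh R)).indicator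
        (1 : E3 → ENNReal) x =
        ((S.filter (fun γ : Γ => x ∈ Bl ((γ : Equiv.Perm E3) 0) (cosh R))).card : ENNReal) := by
      intro x S
      rw [Finset.card_filter, Nat.cast_sum]
      apply Finset.sum_congr rfl
      intro γ _
      by_cases h : x ∈ Bl ((γ : Equiv.Perm E3) 0) (cosh R)
      · rw [Set.indicator_of_mem h, if_pos h]; simp
      · rw [Set.indicator_of_notMem h, if_neg h]; simp
    have h3 : ∀ x : E3, ∑' γ : Γ, (Bl ((γ : Equiv.Perm E3) 0) (cosh R)).indicator
        (1 : E3 → ENNReal) x ≤ (cnt : ENNReal) +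
        ((Bl 0 (cosh D))ᶜ).indicator (fun _ => ENNReal.ofReal (C * exp (2 * R))) x := by
      intro x
      by_cases hx : x ∈ Bl 0 (cosh D)
      · rw [Set.indicator_of_notMem (by simpa using hx), add_zero]
        rw [ENNReal.tsum_eq_iSup_sum]
        apply iSup_le
        intro S
        rw [hfs]
        have : (S.filter (fun γ : Γ => x ∈ Bl ((γ : Equiv.Perm E3) 0) (cosh R))).card ≤ cnt := by
          apply Finset.card_le_card
          intro γ hγ
          obtain ⟨-, h4⟩ := Finset.mem_filter.1 hγ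
          rw [Set.Finite.mem_toFinset]
          change dist' 0 ((γ : Equiv.Perm E3) 0) ≤ R + D
          rw [mem_Bl hR0] at h4
          rw [mem_Bl (Nat.cast_nonneg _)] at hx
          have := tri 0 x ((γ : Equiv.Perm E3) 0)
          rw [dist'_comm x] at this
          linarith
        exact_mod_cast this
      · rw [Set.indicator_of_mem (by simpa using hx)]
        refine le_trans ?_ le_add_self
        rw [ENNReal.tsum_eq_iSup_sum]
        apply iSup_le
        intro S
        rw [hfs]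
        have := hpack x R (S.filter (fun γ : Γ => x ∈ Bl ((γ : Equiv.Perm E3) 0) (cosh R))) (by
          intro γ hγ
          obtain ⟨-, h4⟩ := Finset.mem_filter.1 hγ
          rwa [mem_Bl hR0] at h4)
        rw [← ENNReal.ofReal_natCast]
        exact ENNReal.ofReal_le_ofReal this
    have h4 : ∫⁻ x in F, ∑' γ : Γ, (Bl ((γ : Equiv.Perm E3) 0) (cosh R)).indicator
          (1 : E3 → ENNReal) x ∂vol ≤ (cnt : ENNReal) * vol F +
          ENNReal.ofReal (C * exp (2 * R)) * vol (F' D) := by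
      refine (lintegral_mono h3).trans ?_
      rw [lintegral_add_left measurable_const, lintegral_indicator (measurable_Bl _ _).compl,
        lintegral_const, lintegral_const, Measure.restrict_apply_univ,
        Measure.restrict_apply_univ, Measure.restrict_apply (measurable_Bl _ _).compl]
      apply le_of_eq
      congr 3
      rw [Set.inter_comm]
      exact (Set.sdiff_eq _ _).symm
    have h5 : ENNReal.ofReal (C * exp (2 * R)) * vol (F' D) ≤
        ENNReal.ofReal (exp (2 * R) / 128) * ω := by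
      have e1 : ENNReal.ofReal (exp (2 * R) / 128) = ENNReal.ofReal (exp (2 * R)) *
          ENNReal.ofReal (1 / 128) := by
        rw [← ENNReal.ofReal_mul (exp_pos _).le]; congr 1; ring
      rw [ENNReal.ofReal_mul hC, e1]
      calc ENNReal.ofReal C * ENNReal.ofReal (exp (2 * R)) * vol (F' D)
          = ENNReal.ofReal (exp (2 * R)) * (ENNReal.ofReal C * vol (F' D)) := by ring
        _ ≤ ENNReal.ofReal (exp (2 * R)) * (ENNReal.ofReal (1 / 128) * ω) := by gcongr
        _ = _ := by ring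
    have h6 := le_vol_Bl hR
    have h7 : ENNReal.ofReal (exp (2 * R) / 64) * ω = ENNReal.ofReal (exp (2 * R) / 128) * ω +
        ENNReal.ofReal (exp (2 * R) / 128) * ω := by
      rw [← add_mul, ← ENNReal.ofReal_add (by positivity) (by positivity)]
      congr 2; ring
    have h8 : ENNReal.ofReal (exp (2 * R) / 128) * ω + ENNReal.ofReal (exp (2 * R) / 128) * ω ≤
        (cnt : ENNReal) * vol F + ENNReal.ofReal (exp (2 * R) / 128) * ω := by
      rw [← h7]
      calc _ ≤ _ := h6
        _ ≤ _ := h1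
        _ = _ := h2
        _ ≤ _ := h4
        _ ≤ _ := by gcongr
    have hfinite : ENNReal.ofReal (exp (2 * R) / 128) * ω ≠ ⊤ :=
      ENNReal.mul_ne_top ENNReal.ofReal_ne_top ω_fin
    exact (ENNReal.add_le_add_iff_right hfinite).1 h8
  -- conclusion
  set a := ω.toReal with ha
  have ha0 : 0 < a := ENNReal.toReal_pos ω_pos ω_fin
  set f := (vol F).toReal with hf
  have hf0 : 0 ≤ f := ENNReal.toReal_nonneg
  refine ⟨exp (-(2 * D)) * a / (128 * (f + 1)), by positivity, 1 + D, fun R hR => ?_⟩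
  refine ⟨(L.fin R).toFinset, fun x hx => by simpa using hx, ?_⟩
  have h1 := hmain (R - D) (by linarith)
  rw [show R - D + D = R by ring] at h1
  set cnt := (L.fin R).toFinset.card with hcnt
  have h2 : exp (2 * (R - D)) / 128 * a ≤ cnt * f := by
    have h3 := ENNReal.toReal_mono (ENNReal.mul_ne_top (ENNReal.natCast_ne_top _) hvF) h1
    rw [ENNReal.toReal_mul, ENNReal.toReal_mul, ENNReal.toReal_ofReal (by positivity),
      ENNReal.toReal_natCast] at h3
    exact h3
  have h3 : exp (2 * (R - D)) = exp (-(2 * D)) * exp (2 * R) := by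
    rw [← exp_add]; congr 1; ring
  rw [h3] at h2
  rw [div_mul_eq_mul_div, div_le_iff₀ (by positivity)]
  have h4 : (0 : ℝ) ≤ cnt := Nat.cast_nonneg _
  nlinarith

end Pool.Agent.H73.Cg.Hyp
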