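import Pool.Agent.H73.CgL

set_option autoImplicit false

/-! Normal subgroups of small growth; growth rates. -/

namespace Pool.Agent.H73.Cg

open Real Filter

namespace HypLen

variable {G : Type*} [Group G] (L : HypLen G)

theorem exists_normal {Cp cl : ℝ} (hcl : 0 < cl) (hCp : 0 ≤ Cp) (hP : L.Pk Cp)
    (hL : L.Lg cl) {η : ℝ} (hη : 0 < η) (hη' : η ≤ 1 / 4) :
    ∃ N : Subgroup G, (∀ g : G, ∀ n ∈ N, g * n * g⁻¹ ∈ N) ∧
      (∀ (R : ℝ) (S : Finset G), (∀ n ∈ S, n ∈ N ∧ L.l n ≤ R) →
        (S.card : ℝ) ≤ 2 * exp ((1 + η) * R)) ∧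
      ∃ c : ℝ, 0 < c ∧ ∃ R1 : ℝ, ∀ R : ℝ, R1 ≤ R → ∃ T : Finset G,
        (∀ n ∈ T, n ∈ N ∧ L.l n ≤ R) ∧ c * exp (1 * R) ≤ (R + 1) * T.card := by
  obtain ⟨X⟩ := L.exists_lox hcl hCp hP hL
  obtain ⟨K0, hK0⟩ := X.upper hη hη' hCp hP
  obtain ⟨p, hp, hper⟩ := X.exists_per
  obtain ⟨k, hk⟩ := exists_nat_ge (max K0 1)
  have hk1 : (1 : ℝ) ≤ k := (le_max_right _ _).trans hk
  have hk0 : 0 < k := by
    have : (1 : ℕ) ≤ k := by exact_mod_cast hk1
    omega
  have hKper := hper k hk0
  have hKge : K0 ≤ ((p * k : ℕ) : ℝ) := by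
    have h1 : (k : ℝ) ≤ ((p * k : ℕ) : ℝ) := by
      exact_mod_cast Nat.le_mul_of_pos_left k hp
    exact (le_max_left _ _).trans (hk.trans h1)
  refine ⟨(X.rotSys (p * k) hKper).N, fun g n hn => RotSys.N_normal _ g hn,
    hK0 (p * k) hKge hKper, ?_⟩
  obtain ⟨C, hC, hlow⟩ := X.lower hKper
  obtain ⟨R0, hR0⟩ := hL
  set a := L.l (X.g ^ ((p * k : ℕ) : ℤ)) with ha
  have ha0 : 0 ≤ a := L.l_nonneg _
  refine ⟨cl * exp (-a) / C, by positivity, max (2 * R0 + a) a, fun R hR => ?_⟩
  have hR1 : 2 * R0 + a ≤ R := (le_max_left _ _).trans hR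
  have hR2 : a ≤ R := (le_max_right _ _).trans hR
  obtain ⟨S, hS1, hS2⟩ := hR0 ((R - a) / 2) (by linarith)
  obtain ⟨T, hT1, hT2⟩ := hlow ((R - a) / 2) (by linarith) S hS1
  refine ⟨T, fun n hn => ⟨(hT1 n hn).1, ?_⟩, ?_⟩
  · have := (hT1 n hn).2
    have e : 2 * ((R - a) / 2) + a = R := by ring
    rwa [e] at this
  · have e1 : exp (2 * ((R - a) / 2)) = exp (-a) * exp (1 * R) := by
      rw [← exp_add]; congr 1; ring
    rw [e1] at hS2
    rw [div_mul_eq_mul_div, div_le_iff₀ hC]
    have hT0 : (0 : ℝ) ≤ T.card := Nat.cast_nonneg _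
    have e2 : C * ((R - a) / 2 + 1) * T.card ≤ C * (R + 1) * T.card := by
      gcongr
      linarith
    linarith

end HypLen

/-- growth rate bounds -/
lemma limsup_bounds {f : ℝ → ℝ} {a b c C R1 : ℝ} (hc : 0 < c) (hC : 0 < C)
    (hlo : ∀ R, R1 ≤ R → c * exp (a * R) ≤ (R + 1) * f R)
    (hhi : ∀ R, R1 ≤ R → f R ≤ C * exp (b * R)) :
    a ≤ limsup (fun R => log (f R) / R) atTop ∧ limsup (fun R => log (f R) / R) atTop ≤ b := by
  have hlog : Tendsto (fun R : ℝ => log (R + 1) / R) atTop (nhds 0) := by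
    have h1 : Tendsto (fun R : ℝ => log (R + 1) / (R + 1)) atTop (nhds 0) :=
      (Real.isLittleO_log_id_atTop.tendsto_div_nhds_zero).comp
        (tendsto_atTop_add_const_right _ 1 tendsto_id)
    have h2 : Tendsto (fun R : ℝ => (R + 1) / R) atTop (nhds 1) := by
      have h3 : Tendsto (fun R : ℝ => 1 + 1 / R) atTop (nhds (1 + 0)) :=
        tendsto_const_nhds.add (tendsto_const_nhds.div_atTop tendsto_id)
      rw [add_zero] at h3
      refine h3.congr' ?_
      filter_upwards [eventually_gt_atTop 0] with R hR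
      field_simp
    have h3 := h1.mul h2
    rw [zero_mul] at h3
    refine h3.congr' ?_
    filter_upwards [eventually_gt_atTop 0] with R hR
    have : R + 1 ≠ 0 := by positivity
    field_simp
  have hlow : Tendsto (fun R : ℝ => a + (log c / R - log (R + 1) / R)) atTop (nhds a) := by
    have h1 : Tendsto (fun R : ℝ => log c / R) atTop (nhds 0) :=
      tendsto_const_nhds.div_atTop tendsto_id
    have := (h1.sub hlog).const_add a
    simpa using this
  have hupp : Tendsto (fun R : ℝ => b + log C / R) atTop (nhds b) := by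
    have h1 : Tendsto (fun R : ℝ => log C / R) atTop (nhds 0) :=
      tendsto_const_nhds.div_atTop tendsto_id
    have := h1.const_add b
    simpa using this
  have e1 : ∀ᶠ R in atTop, a + (log c / R - log (R + 1) / R) ≤ log (f R) / R := by
    filter_upwards [eventually_ge_atTop R1, eventually_gt_atTop 0] with R hR hR0
    have h1 := hlo R hR
    have h2 : 0 < (R + 1) * f R := lt_of_lt_of_le (by positivity) h1
    have h3 : 0 < f R := by
      by_contra hcon
      push Not at hcon
      have : (R + 1) * f R ≤ 0 := mul_nonpos_of_nonneg_of_nonpos (by linarith) hcon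
      linarith
    have h4 := log_le_log (by positivity) h1
    rw [log_mul hc.ne' (exp_pos _).ne', log_exp, log_mul (by linarith) h3.ne'] at h4
    rw [le_div_iff₀ hR0]
    have : (a + (log c / R - log (R + 1) / R)) * R = a * R + log c - log (R + 1) := by
      field_simp
      ring
    rw [this]
    linarith
  have e2 : ∀ᶠ R in atTop, log (f R) / R ≤ b + log C / R := by
    filter_upwards [eventually_ge_atTop R1, eventually_gt_atTop 0] with R hR hR0
    have h1 := hlo R hR
    have h2 : 0 < (R + 1) * f R := lt_of_lt_of_le (by positivity) h1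
    have h3 : 0 < f R := by
      by_contra hcon
      push Not at hcon
      have : (R + 1) * f R ≤ 0 := mul_nonpos_of_nonneg_of_nonpos (by linarith) hcon
      linarith
    have h4 := log_le_log h3 (hhi R hR)
    rw [log_mul hC.ne' (exp_pos _).ne', log_exp] at h4
    rw [div_le_iff₀ hR0]
    have : (b + log C / R) * R = b * R + log C := by
      field_simp
    rw [this]
    linarith
  have hb1 : IsBoundedUnder (· ≤ ·) atTop (fun R => log (f R) / R) :=
    hupp.isBoundedUnder_le.mono_le e2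
  have hb2 : IsBoundedUnder (· ≥ ·) atTop (fun R => log (f R) / R) :=
    hlow.isBoundedUnder_ge.mono_ge e1
  constructor
  · calc a = limsup (fun R : ℝ => a + (log c / R - log (R + 1) / R)) atTop :=
          hlow.limsup_eq.symm
      _ ≤ _ := limsup_le_limsup e1 hlow.isBoundedUnder_ge.isCoboundedUnder_le hb1
  · calc _ ≤ limsup (fun R : ℝ => b + log C / R) atTop :=
          limsup_le_limsup e2 hb2.isCoboundedUnder_le hupp.isBoundedUnder_le
      _ = b := hupp.limsup_eq

end Pool.Agent.H73.Cg
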