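import Pool.Agent.H73.CgP
import Pool.Agent.H73.CgQ

set_option autoImplicit false

/-! Lattices in hyperbolic 3-space: normal subgroups of growth near one. -/

namespace Pool.Agent.H73.Cg.Hyp

open Real MeasureTheory Filter

/-- growth rate -/
noncomputable def gr (S : Set (Equiv.Perm E3)) : ℝ :=
  limsup (fun R : ℝ => log (Nat.card {g : Equiv.Perm E3 // g ∈ S ∧ B 0 (g 0) ≤ cosh R} : ℝ) / R)
    atTop

variable {Γ : Subgroup (Equiv.Perm E3)} (hΓ : ∀ g ∈ Γ, Pres g)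
    (hfin : ∀ R : ℝ, Set.Finite {g : Equiv.Perm E3 | g ∈ Γ ∧ B 0 (g 0) ≤ R})

lemma fin_sub (K : Subgroup Γ) (R : ℝ) : {n : Γ | n ∈ K ∧ (len hΓ hfin).l n ≤ R}.Finite :=
  ((len hΓ hfin).fin R).subset (fun _ hn => hn.2)

/-- the counting function of a subgroup -/
lemma card_eq (K : Subgroup Γ) {R : ℝ} (hR : 0 ≤ R) :
    Nat.card {g : Equiv.Perm E3 // g ∈ ((K.map Γ.subtype : Subgroup (Equiv.Perm E3)) :
      Set (Equiv.Perm E3)) ∧ B 0 (g 0) ≤ cosh R} =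
    (fin_sub hΓ hfin K R).toFinset.card := by
  have h1 : {g : Equiv.Perm E3 | g ∈ ((K.map Γ.subtype : Subgroup (Equiv.Perm E3)) :
      Set (Equiv.Perm E3)) ∧ B 0 (g 0) ≤ cosh R} =
      (fun γ : Γ => (γ : Equiv.Perm E3)) '' {n : Γ | n ∈ K ∧ (len hΓ hfin).l n ≤ R} := by
    ext g
    constructor
    · rintro ⟨hg, hB⟩
      obtain ⟨n, hn, rfl⟩ := Subgroup.mem_map.1 (SetLike.mem_coe.1 hg)
      refine ⟨n, ⟨hn, ?_⟩, rfl⟩
      rw [len_l, dist'_le_iff hR]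
      exact hB
    · rintro ⟨n, ⟨hn, hl⟩, rfl⟩
      refine ⟨SetLike.mem_coe.2 (Subgroup.mem_map.2 ⟨n, hn, rfl⟩), ?_⟩
      rw [len_l, dist'_le_iff hR] at hl
      exact hl
  have h2 : Nat.card {g : Equiv.Perm E3 // g ∈ ((K.map Γ.subtype : Subgroup (Equiv.Perm E3)) :
      Set (Equiv.Perm E3)) ∧ B 0 (g 0) ≤ cosh R} =
      Set.ncard {g : Equiv.Perm E3 | g ∈ ((K.map Γ.subtype : Subgroup (Equiv.Perm E3)) :
      Set (Equiv.Perm E3)) ∧ B 0 (g 0) ≤ cosh R} := rfl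
  rw [h2, h1, Set.ncard_image_of_injective _ Subtype.val_injective]
  exact Set.ncard_eq_toFinset_card _ (fin_sub hΓ hfin K R)

lemma gr_bounds (K : Subgroup Γ) {a b c C R1 : ℝ} (hc : 0 < c) (hC : 0 < C)
    (hlo : ∀ R : ℝ, R1 ≤ R → ∃ T : Finset Γ, (∀ n ∈ T, n ∈ K ∧ (len hΓ hfin).l n ≤ R) ∧
      c * exp (a * R) ≤ (R + 1) * T.card)
    (hhi : ∀ (R : ℝ) (S : Finset Γ), (∀ n ∈ S, n ∈ K ∧ (len hΓ hfin).l n ≤ R) →
      (S.card : ℝ) ≤ C * exp (b * R)) :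
    a ≤ gr ((K.map Γ.subtype : Subgroup (Equiv.Perm E3)) : Set (Equiv.Perm E3)) ∧
    gr ((K.map Γ.subtype : Subgroup (Equiv.Perm E3)) : Set (Equiv.Perm E3)) ≤ b := by
  unfold gr
  apply limsup_bounds (R1 := max R1 0) hc hC
  · intro R hR
    have hR0 : 0 ≤ R := (le_max_right _ _).trans hR
    rw [card_eq hΓ hfin K hR0]
    obtain ⟨T, hT1, hT2⟩ := hlo R ((le_max_left _ _).trans hR)
    have h1 : T.card ≤ (fin_sub hΓ hfin K R).toFinset.card := by
      apply Finset.card_le_card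
      intro n hn
      rw [Set.Finite.mem_toFinset]
      exact hT1 n hn
    have h2 : (T.card : ℝ) ≤ ((fin_sub hΓ hfin K R).toFinset.card : ℝ) := by exact_mod_cast h1
    have h3 : (R + 1) * (T.card : ℝ) ≤
        (R + 1) * ((fin_sub hΓ hfin K R).toFinset.card : ℝ) := by gcongr
    linarith
  · intro R hR
    have hR0 : 0 ≤ R := (le_max_right _ _).trans hR
    rw [card_eq hΓ hfin K hR0]
    apply hhi R
    intro n hn
    rw [Set.Finite.mem_toFinset] at hn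
    exact hn

include hΓ hfin in
/-- Main theorem. -/
theorem main {F : Set E3} (hF : MeasurableSet F) (hvF : vol F ≠ ⊤)
    (hcov : ∀ x, ∃ g ∈ Γ, g x ∈ F) :
    ∃ N : ℕ → Subgroup (Equiv.Perm E3),
      (∀ i, N i ≤ Γ ∧ ∀ g ∈ Γ, ∀ n ∈ N i, g * n * g⁻¹ ∈ N i) ∧
      Tendsto (fun i => gr (N i : Set (Equiv.Perm E3)) / gr (Γ : Set (Equiv.Perm E3)))
        atTop (nhds (1 / 2)) := by
  set L := len hΓ hfin with hL
  obtain ⟨Cp, hCp, hP⟩ := exists_Pk hΓ hfin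
  obtain ⟨cl, hcl, hLg⟩ := exists_Lg hΓ hfin hF hvF hcov
  -- growth of the whole group
  have hΓ2 : gr (Γ : Set (Equiv.Perm E3)) = 2 := by
    have hmap : ((⊤ : Subgroup Γ).map Γ.subtype : Subgroup (Equiv.Perm E3)) = Γ := by
      rw [← MonoidHom.range_eq_map, Subgroup.range_subtype]
    obtain ⟨R0, hR0⟩ := hLg
    have h := gr_bounds hΓ hfin (⊤ : Subgroup Γ) (a := 2) (b := 2) (c := cl) (C := Cp + 1)
      (R1 := max R0 0) hcl (by linarith)
      (by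
        intro R hR
        obtain ⟨S, hS1, hS2⟩ := hR0 R ((le_max_left _ _).trans hR)
        refine ⟨S, fun n hn => ⟨Subgroup.mem_top n, hS1 n hn⟩, ?_⟩
        have h0 : 0 ≤ R := (le_max_right _ _).trans hR
        have h1 : (0 : ℝ) ≤ S.card := Nat.cast_nonneg _
        nlinarith)
      (by
        intro R S hS
        have h1 := hP 1 R 0 S le_rfl (fun x hx => ⟨(hS x hx).2, L.gp_nonneg _ _ _⟩)
        rw [sub_zero] at h1
        have h2 := exp_pos (2 * R)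
        nlinarith)
    rw [hmap] at h
    linarith [h.1, h.2]
  -- the normal subgroups
  have hex : ∀ i : ℕ, ∃ K : Subgroup Γ, (∀ g : Γ, ∀ n ∈ K, g * n * g⁻¹ ∈ K) ∧
      1 ≤ gr ((K.map Γ.subtype : Subgroup (Equiv.Perm E3)) : Set (Equiv.Perm E3)) ∧
      gr ((K.map Γ.subtype : Subgroup (Equiv.Perm E3)) : Set (Equiv.Perm E3)) ≤
        1 + 1 / ((i : ℝ) + 4) := by
    intro i
    have hη : (0 : ℝ) < 1 / ((i : ℝ) + 4) := by positivity
    have hη' : 1 / ((i : ℝ) + 4) ≤ 1 / 4 := by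
      apply one_div_le_one_div_of_le (by norm_num)
      have : (0 : ℝ) ≤ i := Nat.cast_nonneg i
      linarith
    obtain ⟨K, hK1, hK2, c, hc, R1, hK3⟩ := L.exists_normal hcl hCp hP hLg hη hη'
    have h := gr_bounds hΓ hfin K (a := 1) (b := 1 + 1 / ((i : ℝ) + 4)) (c := c) (C := 2)
      (R1 := R1) hc (by norm_num) hK3 hK2
    exact ⟨K, hK1, h.1, h.2⟩
  choose K hK1 hK2 hK3 using hex
  refine ⟨fun i => (K i).map Γ.subtype, fun i => ⟨?_, ?_⟩, ?_⟩
  · rintro g hg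
    obtain ⟨n, -, rfl⟩ := Subgroup.mem_map.1 hg
    exact n.2
  · intro g hg n hn
    obtain ⟨m, hm, rfl⟩ := Subgroup.mem_map.1 hn
    exact Subgroup.mem_map.2 ⟨⟨g, hg⟩ * m * ⟨g, hg⟩⁻¹, hK1 i ⟨g, hg⟩ m hm, rfl⟩
  · have hup : Tendsto (fun i : ℕ => (1 + 1 / ((i : ℝ) + 4)) / 2) atTop (nhds (1 / 2)) := by
      have h1 : Tendsto (fun i : ℕ => 1 / ((i : ℝ) + 4)) atTop (nhds 0) := by
        apply tendsto_const_nhds.div_atTop
        exact tendsto_atTop_add_const_right _ _ tendsto_natCast_atTop_atTop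
      have := (h1.const_add 1).div_const 2
      simpa using this
    apply tendsto_of_tendsto_of_tendsto_of_le_of_le tendsto_const_nhds hup
    · intro i
      simp only [hΓ2]
      have := hK2 i
      linarith
    · intro i
      simp only [hΓ2]
      have := hK3 i
      linarith

end Pool.Agent.H73.Cg.Hyp
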