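import Mathlib

open Set Metric
open scoped NNReal Topology ContDiff

namespace Pool.Agent.H73

/-- Global existence for a bounded Lipschitz autonomous ODE. -/
lemma exists_global_ode {E : Type*} [NormedAddCommGroup E] [NormedSpace ℝ E] [CompleteSpace E]
    (F : E → E) (L K : ℝ≥0) (hb : ∀ x, ‖F x‖ ≤ L) (hl : LipschitzWith K F) (x₀ : E) :
    ∃ α : ℝ → E, α 0 = x₀ ∧ ∀ t, HasDerivAt α (F (α t)) t := by
  have hloc : ∀ n : ℕ, ∃ α : ℝ → E, α 0 = x₀ ∧
      ∀ t ∈ Ioo (-((n : ℝ) + 1)) ((n : ℝ) + 1), HasDerivAt α (F (α t)) t := by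
    intro n
    have h0 : (0 : ℝ) ∈ Icc (-((n : ℝ) + 1)) ((n : ℝ) + 1) := by
      constructor <;> [(have : (0:ℝ) ≤ n := Nat.cast_nonneg n; linarith); positivity]
    have hPL : IsPicardLindelof (fun _ => F) (tmin := -((n : ℝ) + 1)) (tmax := (n : ℝ) + 1)
        ⟨0, h0⟩ x₀ (L * (n + 1)) 0 L K := by
      apply IsPicardLindelof.of_time_independent
      · intro x _; exact hb x
      · exact hl.lipschitzOnWith
      · simp
    obtain ⟨α, hα0, hα⟩ := hPL.exists_eq_forall_mem_Icc_hasDerivWithinAt₀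
    refine ⟨α, hα0, ?_⟩
    intro t ht
    exact (hα t (Ioo_subset_Icc_self ht)).hasDerivAt (Icc_mem_nhds ht.1 ht.2)
  choose α hα0 hα using hloc
  have huniq : ∀ m n : ℕ, m ≤ n → ∀ t ∈ Ioo (-((m : ℝ) + 1)) ((m : ℝ) + 1), α m t = α n t := by
    intro m n hmn t ht
    have hmn' : (m : ℝ) ≤ n := by exact_mod_cast hmn
    -- choose a slightly smaller compact interval
    obtain ⟨c, hc1, hc2⟩ : ∃ c, |t| < c ∧ c < (m : ℝ) + 1 := exists_between (abs_lt.mpr ht)
    have hcpos : 0 < c := lt_of_le_of_lt (abs_nonneg t) hc1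
    have hsub : ∀ s ∈ Icc (-c) c, s ∈ Ioo (-((m : ℝ) + 1)) ((m : ℝ) + 1) := by
      intro s hs
      exact ⟨by linarith [hs.1], by linarith [hs.2]⟩
    have hsub' : ∀ s ∈ Icc (-c) c, s ∈ Ioo (-((n : ℝ) + 1)) ((n : ℝ) + 1) := by
      intro s hs
      exact ⟨by linarith [hs.1], by linarith [hs.2]⟩
    have := ODE_solution_unique_of_mem_Icc (v := fun _ => F) (s := fun _ => univ) (K := K)
      (a := -c) (b := c) (t₀ := 0) (f := α m) (g := α n)
      (fun _ _ => hl.lipschitzOnWith) ⟨by linarith, hcpos⟩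
      (fun s hs => (hα m s (hsub s hs)).continuousAt.continuousWithinAt)
      (fun s hs => hα m s (hsub s (Ioo_subset_Icc_self hs))) (fun _ _ => mem_univ _)
      (fun s hs => (hα n s (hsub' s hs)).continuousAt.continuousWithinAt)
      (fun s hs => hα n s (hsub' s (Ioo_subset_Icc_self hs))) (fun _ _ => mem_univ _)
      (by rw [hα0, hα0])
    exact this ⟨by linarith [(abs_lt.mp hc1).1], by linarith [(abs_lt.mp hc1).2]⟩
  refine ⟨fun t => α ⌈|t|⌉₊ t, by simp [hα0], ?_⟩
  intro t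
  set N : ℕ := ⌈|t|⌉₊ + 1 with hN
  have htN : |t| < (N : ℝ) := by
    have := Nat.le_ceil |t|
    push_cast [hN]
    linarith
  have htmem : t ∈ Ioo (-((N : ℝ) + 1)) ((N : ℝ) + 1) := by
    constructor <;> [linarith [(abs_lt.mp htN).1]; linarith [(abs_lt.mp htN).2]]
  have hev : (fun s => α ⌈|s|⌉₊ s) =ᶠ[𝓝 t] α N := by
    have : ∀ᶠ s in 𝓝 t, |s| < (N : ℝ) := continuous_abs.continuousAt.eventually_lt continuousAt_const htN
    filter_upwards [this] with s hs
    have h1 : ⌈|s|⌉₊ ≤ N := by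
      rw [Nat.ceil_le]; exact hs.le
    apply huniq _ _ h1
    have h2 := Nat.le_ceil |s|
    have h3 : |s| < (⌈|s|⌉₊ : ℝ) + 1 := by linarith
    exact abs_lt.mp h3
  have h := (hα N t htmem).congr_of_eventuallyEq hev
  have h2 : α ⌈|t|⌉₊ t = α N t := hev.eq_of_nhds
  simp only
  rw [h2]
  exact h

/-- Bootstrapping: solutions of smooth autonomous ODEs are smooth. -/
lemma contDiff_of_ode {F : ℝ → ℝ} (hF : ContDiff ℝ ∞ F) {α : ℝ → ℝ} (h : ∀ t, HasDerivAt α (F (α t)) t) :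
    ContDiff ℝ ∞ α := by
  have hd : deriv α = F ∘ α := by
    funext t; exact (h t).deriv
  have hdiff : Differentiable ℝ α := fun t => (h t).differentiableAt
  rw [contDiff_infty]
  intro n
  induction n with
  | zero => exact contDiff_zero.mpr hdiff.continuous
  | succ n ih =>
    have : ((n + 1 : ℕ) : WithTop ℕ∞) = (n : WithTop ℕ∞) + 1 := by norm_cast
    rw [this, contDiff_succ_iff_deriv]
    refine ⟨hdiff, by simp, ?_⟩
    rw [hd]
    exact (hF.of_le (by exact_mod_cast le_top)).comp ih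

/-- Antiderivatives of smooth functions are smooth. -/
lemma contDiff_of_hasDerivAt {E : Type*} [NormedAddCommGroup E] [NormedSpace ℝ E] {f α : ℝ → E}
    (hf : ContDiff ℝ ∞ f) (h : ∀ t, HasDerivAt α (f t) t) : ContDiff ℝ ∞ α := by
  rw [contDiff_infty_iff_deriv]
  refine ⟨fun t => (h t).differentiableAt, ?_⟩
  have : deriv α = f := by funext t; exact (h t).deriv
  rw [this]; exact hf

end Pool.Agent.H73
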