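import Pool.Agent.H37.MHD.Defs2

/-! Smoothness of the fields of a stage and small estimates used by `MHD_Next`, `MHD_Close`. -/

open MeasureTheory Set Filter Topology
open scoped ContDiff
open H36.MHD

noncomputable section

namespace H37.MHD

namespace Nx

theorem dx_smooth {g : X → ℝ} (hg : ContDiff ℝ ∞ g) (j : Fin 3) : ContDiff ℝ ∞ (dx j g) :=
  (hg.fderiv_right (m := ∞) (by exact_mod_cast le_rfl)).clm_apply contDiff_const

theorem dt_smooth {g : X → ℝ} (hg : ContDiff ℝ ∞ g) : ContDiff ℝ ∞ (dt g) :=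
  (hg.fderiv_right (m := ∞) (by exact_mod_cast le_rfl)).clm_apply contDiff_const

theorem lap_smooth {g : X → ℝ} (hg : ContDiff ℝ ∞ g) : ContDiff ℝ ∞ (lap g) := by
  unfold lap
  exact ContDiff.sum fun j _ => dx_smooth (dx_smooth hg j) j

theorem vec_smooth {U : Fin 3 → X → ℝ} (hU : ∀ k, ContDiff ℝ ∞ (U k)) : ContDiff ℝ ∞ (vec U) :=
  contDiff_pi.2 fun k => hU k

theorem acc_smooth {u : Fin 3 → X → ℝ} {f : Fin 3 → X → ℝ} (hu : ∀ k, ContDiff ℝ ∞ (u k))
    (hf : ∀ k, ContDiff ℝ ∞ (f k)) (k : Fin 3) : ContDiff ℝ ∞ (acc u f k) := by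
  unfold acc
  exact ((dt_smooth (hu k)).add (ContDiff.sum fun j _ => (hu j).mul (dx_smooth (hu k) j))).sub (hf k)

variable {B : Bg}

theorem dens_smooth (st : Stage B) (i : Fin 2) : ContDiff ℝ ∞ (st.dens i) :=
  st.rho_smooth.comp (vec_smooth (st.Y_smooth i))

theorem E_smooth (st : Stage B) (i : Fin 2) (k : Fin 3) : ContDiff ℝ ∞ (st.E i k) := by
  unfold Stage.E
  exact (((dens_smooth st i).mul (acc_smooth (st.u_smooth i) st.f_smooth k)).sub
    (lap_smooth (st.u_smooth i k))).add (dx_smooth (st.p_smooth i) k)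

theorem phi_smooth (a : Fin 4) : ContDiff ℝ ∞ (phi B a) := by
  by_cases h : a.val < 3
  · have : phi B a = fun y => y ⟨a.val, h⟩ := by
      funext y; simp only [phi, h, dif_pos]
    rw [this]
    fun_prop
  · have : phi B a = fun y => (∑ j, (y j - B.x0 j) ^ 2) / 2 + 4 * (y 0 - B.x0 0) := by
      funext y; simp only [phi, h, dif_neg, not_false_eq_true]
    rw [this]
    fun_prop

theorem h_smooth (st : Stage B) (i : Fin 2) (a : Fin 4) : ContDiff ℝ ∞ (st.h i a) :=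
  (phi_smooth a).comp (vec_smooth (st.Y_smooth i))

theorem NN_smooth (st : Stage B) (a : Fin 4) : ContDiff ℝ ∞ (st.NN a) := by
  unfold Stage.NN
  exact (ContDiff.sum fun k _ =>
    ((dx_smooth (h_smooth st 0 a) k).sub (dx_smooth (h_smooth st 1 a) k)).pow 2).pow 2

theorem NN_nonneg (st : Stage B) (a : Fin 4) (z : X) : 0 ≤ st.NN a z := by
  unfold Stage.NN
  positivity

theorem FF_smooth (st : Stage B) (ε : ℝ) {g : X → ℝ} (hg : ContDiff ℝ ∞ g) (lam : ℝ)
    (k : Fin 3) : ContDiff ℝ ∞ (st.FF ε g lam k) := by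
  unfold Stage.FF
  refine contDiff_const.mul (ContDiff.sum fun a _ => ContDiff.sum fun j _ => ?_)
  exact ((hg.mul (NN_smooth st a)).mul (E_smooth st j k)).mul
    (Real.contDiff_cos.comp (contDiff_const.mul (contDiff_const.mul (h_smooth st j a))))

theorem dx_add {f g : X → ℝ} {z : X} (j : Fin 3) (hf : DifferentiableAt ℝ f z)
    (hg : DifferentiableAt ℝ g z) : dx j (fun y => f y + g y) z = dx j f z + dx j g z := by
  unfold dx
  have := fderiv_fun_add hf hg
  rw [this]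
  rfl

theorem dt_add {f g : X → ℝ} {z : X} (hf : DifferentiableAt ℝ f z)
    (hg : DifferentiableAt ℝ g z) : dt (fun y => f y + g y) z = dt f z + dt g z := by
  unfold dt
  have := fderiv_fun_add hf hg
  rw [this]
  rfl

theorem norm_e (j : Fin 3) : ‖((0 : ℝ), (Pi.single j 1 : V3))‖ ≤ 1 := by
  rw [Prod.norm_def]
  simp only [norm_zero]
  refine max_le zero_le_one ?_
  rw [pi_norm_le_iff_of_nonneg zero_le_one]
  intro i
  by_cases h : i = j
  · subst h; simp
  · simp [Pi.single_eq_of_ne h]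

theorem dx_le {f : X → ℝ} {z : X} (j : Fin 3) : |dx j f z| ≤ ‖fderiv ℝ f z‖ := by
  unfold dx
  have := (fderiv ℝ f z).le_opNorm (0, Pi.single j 1)
  rw [Real.norm_eq_abs] at this
  refine this.trans ?_
  have h1 := norm_e j
  have h0 : 0 ≤ ‖fderiv ℝ f z‖ := norm_nonneg _
  nlinarith

/-- Lipschitz bound in `x` of the vector of functions with small derivative. -/
theorem vec_lip {V : Fin 3 → X → ℝ} (hV : ∀ k, ContDiff ℝ ∞ (V k)) {c : ℝ} (hc : 0 ≤ c)
    (hd : ∀ k z, ‖fderiv ℝ (V k) z‖ ≤ c) (t : ℝ) (x y : V3) :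
    ‖vec V (t, x) - vec V (t, y)‖ ≤ c * ‖x - y‖ := by
  rw [pi_norm_le_iff_of_nonneg (by positivity)]
  intro k
  have h1 : ∀ z ∈ (univ : Set X), DifferentiableAt ℝ (V k) z := fun z _ =>
    (hV k).differentiable (by simp) z
  have := convex_univ.norm_image_sub_le_of_norm_fderiv_le h1 (fun z _ => hd k z)
    (mem_univ ((t, y) : X)) (mem_univ ((t, x) : X))
  have h2 : ‖((t, x) : X) - (t, y)‖ = ‖x - y‖ := by
    rw [Prod.norm_def]
    simp
  rw [h2] at this
  simpa [vec] using this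

theorem th_nonneg (t : ℝ) : 0 ≤ th t := by
  unfold th
  positivity

/-- where `S ≥ sp²`, the product `θ |w|` is at least `sp / 2`. -/
theorem th_w_ge {sp : ℝ} (hs : 0 < sp) {z : X} (h : sp ^ 2 ≤ SS B z) :
    sp / 2 ≤ th z.1 * ‖wv B z.2‖ := by
  have h1 : ∀ k, B.w k z.2 ^ 2 ≤ ‖wv B z.2‖ ^ 2 := by
    intro k
    have := norm_le_pi_norm (wv B z.2) k
    rw [Real.norm_eq_abs] at this
    have h2 : |B.w k z.2| ≤ ‖wv B z.2‖ := this
    rw [← sq_abs]
    gcongr
  have h2 : SS B z ≤ 3 * (th z.1 * ‖wv B z.2‖) ^ 2 := by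
    unfold SS
    have : ∑ k, B.w k z.2 ^ 2 ≤ 3 * ‖wv B z.2‖ ^ 2 := by
      rw [Fin.sum_univ_three]
      linarith [h1 0, h1 1, h1 2]
    have h3 : 0 ≤ th z.1 ^ 2 := by positivity
    nlinarith
  have h3 : 0 ≤ th z.1 * ‖wv B z.2‖ := mul_nonneg (th_nonneg _) (norm_nonneg _)
  by_contra hlt
  push Not at hlt
  nlinarith

end Nx

end H37.MHD
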