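import Pool.Agent.H73.MHD_Basic
import Pool.Agent.H63.MHD.Paths

/-! M8a: the next stage is close to the present one. -/

open MeasureTheory Set Filter Topology
open scoped ContDiff
open H36.MHD

noncomputable section

namespace H37.MHD

variable {B : Bg}

namespace Nx

theorem wv_out {x : V3} (hx : B.r < ‖x - B.x0‖) : wv B x = 0 := by
  funext k
  by_contra h
  exact absurd (B.w_supp k x h) (not_le.2 hx)

/-- outside the ball the velocities of a stage vanish -/
theorem u_out (st : Stage B) (i : Fin 2) {t : ℝ} (ht : |t| ≤ 2 * B.T) {x : V3}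
    (hx : B.r < ‖x - B.x0‖) : vec (st.u i) (t, x) = 0 := by
  obtain ⟨c, hc0, hc1, hcL⟩ := st.close
  have h := hcL i (t, x) ht
  simp only [wv_out hx, norm_zero, mul_zero, smul_zero, sub_zero] at h
  exact norm_le_zero_iff.1 h

/-- outside the ball the label is the position -/
theorem Y_out (st : Stage B) (i : Fin 2) {t : ℝ} (ht : |t| ≤ 3 / 2 * B.T) {x : V3}
    (hx : B.r < ‖x - B.x0‖) : vec (st.Y i) (t, x) = x := by
  obtain ⟨K, hK0, hK1, hKL⟩ := st.lip
  have hT := B.hT
  have hp := st.path i t x ht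
  have hc : BackPath (vec (st.u i)) t x x := by
    refine ⟨fun _ => x, continuousOn_const, rfl, fun r hr => ?_⟩
    have : ∫ q in (0 : ℝ)..r, t • vec (st.u i) (t * (1 - q), x) = 0 := by
      rw [intervalIntegral.integral_zero_ae]
      refine Filter.Eventually.of_forall fun q hq => ?_
      rw [uIoc_of_le hr.1] at hq
      have h1 : |t * (1 - q)| ≤ 2 * B.T := by
        rw [abs_mul]
        have h2 : |1 - q| ≤ 1 := by
          rw [abs_le]
          constructor <;> linarith [hq.1, hq.2, hr.2]
        have h3 := abs_nonneg t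
        have h4 := abs_nonneg (1 - q)
        nlinarith
      rw [u_out st i h1 hx, smul_zero]
    rw [this, sub_zero]
  have hKT : K * (40 * B.T) ≤ 1 := by
    have : K * (40 * B.T) ≤ Kmax B * (40 * B.T) :=
      mul_le_mul_of_nonneg_right hK1.le (by positivity)
    refine this.trans (le_of_eq ?_)
    unfold Kmax
    field_simp
  have hcont : Continuous (vec (st.u i)) := (vec_smooth (st.u_smooth i)).continuous
  have := path_stab B.T K 0 hT hK0 hKT le_rfl (vec (st.u i)) (vec (st.u i)) hcont hcont t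
    (by linarith) (fun s hs x y => hKL i s (by linarith) x y)
    (fun s hs x => by simp) x x _ x hp hc
  simp only [sub_self, norm_zero, mul_zero, add_zero, sub_zero] at this
  have h0 := norm_le_zero_iff.1 this
  exact sub_eq_zero.1 h0

/-- stability of the labels -/
theorem Y_close (st st' : Stage B) (i : Fin 2) {δ : ℝ} (hδ : 0 ≤ δ)
    (hd : ∀ z, ‖vec (st'.u i) z - vec (st.u i) z‖ ≤ δ) {t : ℝ} (ht : |t| ≤ 3 / 2 * B.T) (x : V3) :
    ‖vec (st'.Y i) (t, x) - vec (st.Y i) (t, x)‖ ≤ 20 / 19 * |t| * δ := by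
  obtain ⟨K, hK0, hK1, hKL⟩ := st'.lip
  have hT := B.hT
  have hKT : K * (40 * B.T) ≤ 1 := by
    have : K * (40 * B.T) ≤ Kmax B * (40 * B.T) :=
      mul_le_mul_of_nonneg_right hK1.le (by positivity)
    refine this.trans (le_of_eq ?_)
    unfold Kmax
    field_simp
  have hcont : Continuous (vec (st.u i)) := (vec_smooth (st.u_smooth i)).continuous
  have hcont' : Continuous (vec (st'.u i)) := (vec_smooth (st'.u_smooth i)).continuous
  have := path_stab B.T K δ hT hK0 hKT hδ (vec (st'.u i)) (vec (st.u i)) hcont' hcont t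
    (by linarith) (fun s hs x y => hKL i s (by linarith) x y)
    (fun s hs x => hd (s, x)) x x _ _ (st'.path i t x ht) (st.path i t x ht)
  simpa using this

/-- the new force is small compared with the error -/
theorem FF_le (st : Stage B) {ε : ℝ} (hε : 0 < ε) {g chi : X → ℝ} (hg : ∀ z, 0 ≤ g z)
    (hgc : ∀ z, g z * ∑ a, st.NN a z = chi z) (hchi : ∀ z, chi z ≤ 1) (lam e : ℝ) (k : Fin 3)
    (z : X) (he : ∀ j, |st.E j k z| ≤ e) : |st.FF ε g lam k z| ≤ 4 * e / ε := by
  have he0 : 0 ≤ e := (abs_nonneg _).trans (he 0)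
  unfold Stage.FF
  rw [abs_mul, abs_of_pos (by positivity : (0 : ℝ) < 2 / ε)]
  have h1 : |∑ a, ∑ j, g z * st.NN a z * st.E j k z * Real.cos (lam * (mu a * st.h j a z))|
      ≤ ∑ a, g z * st.NN a z * (2 * e) := by
    refine (Finset.abs_sum_le_sum_abs _ _).trans (Finset.sum_le_sum fun a _ => ?_)
    have hga : 0 ≤ g z * st.NN a z := mul_nonneg (hg z) (NN_nonneg st a z)
    refine (Finset.abs_sum_le_sum_abs _ _).trans ?_
    have h2 : ∀ j, |g z * st.NN a z * st.E j k z * Real.cos (lam * (mu a * st.h j a z))|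
        ≤ g z * st.NN a z * e := by
      intro j
      rw [abs_mul, abs_mul, abs_of_nonneg hga]
      have h3 := Real.abs_cos_le_one (lam * (mu a * st.h j a z))
      have h4 := he j
      calc g z * st.NN a z * |st.E j k z| * |Real.cos (lam * (mu a * st.h j a z))|
          ≤ g z * st.NN a z * |st.E j k z| * 1 := by
            apply mul_le_mul_of_nonneg_left h3
            positivity
        _ ≤ g z * st.NN a z * e := by
            rw [mul_one]
            exact mul_le_mul_of_nonneg_left h4 hga
    rw [Fin.sum_univ_two]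
    linarith [h2 0, h2 1]
  have h5 : ∑ a, g z * st.NN a z * (2 * e) = chi z * (2 * e) := by
    rw [← hgc z, Finset.mul_sum, Finset.sum_mul]
  rw [h5] at h1
  have h6 : chi z * (2 * e) ≤ 2 * e := by nlinarith [hchi z]
  calc 2 / ε * |∑ a, ∑ j, g z * st.NN a z * st.E j k z * Real.cos (lam * (mu a * st.h j a z))|
      ≤ 2 / ε * (2 * e) := by
        apply mul_le_mul_of_nonneg_left (h1.trans h6)
        positivity
    _ = 4 * e / ε := by ring

end Nx

theorem Nx.next_close {st : Stage B} {ε : ℝ} (hε : 0 < ε) (sd : StepData st ε) (δ : ℝ) (hδ : 0 < δ) :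
    ∃ Lam, ∀ lam, Lam ≤ lam → ∀ st' : Stage B, Next sd lam st' →
      (∀ i z, |z.1| ≤ B.T → |st'.dens i z - st.dens i z| ≤ 4 * ε + δ) ∧
      (∀ i k z, |st'.u i k z - st.u i k z| ≤ δ) ∧
      (∀ i k j z, |dx j (st'.u i k) z - dx j (st.u i k) z| ≤ δ) ∧
      (∀ e, (∀ i k z, |z.1| ≤ B.T → |st.E i k z| ≤ e) →
        ∀ k z, |z.1| ≤ B.T → |st'.f k z - st.f k z| ≤ 4 * e / ε) := by
  have hT := B.hT
  have hC := sd.C_nonneg
  -- uniform continuity of the initial density near the ball
  have huc : UniformContinuousOn st.rho (Metric.closedBall B.x0 2) :=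
    (isCompact_closedBall B.x0 2).uniformContinuousOn_of_continuous
      st.rho_smooth.continuous.continuousOn
  obtain ⟨δ', hδ', huc'⟩ := Metric.uniformContinuousOn_iff.1 huc δ hδ
  refine ⟨max 1 (max (sd.C / δ) (4 * B.T * sd.C / δ')), fun lam hlam st' hN => ?_⟩
  have hl1 : 1 ≤ lam := (le_max_left _ _).trans hlam
  have hl2 : sd.C / δ ≤ lam := ((le_max_left _ _).trans (le_max_right _ _)).trans hlam
  have hl3 : 4 * B.T * sd.C / δ' ≤ lam :=
    ((le_max_right _ _).trans (le_max_right _ _)).trans hlam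
  have hl0 : 0 < lam := lt_of_lt_of_le zero_lt_one hl1
  have hll : lam ≤ lam ^ 2 := by nlinarith
  have hq1 : sd.C / lam ≤ δ := by
    rw [div_le_iff₀ hδ] at hl2
    rw [div_le_iff₀ hl0]
    linarith
  have hq2 : sd.C / lam ^ 2 ≤ sd.C / lam := by
    apply div_le_div_of_nonneg_left hC hl0 hll
  have hq3 : 4 * B.T * (sd.C / lam) ≤ δ' := by
    rw [div_le_iff₀ hδ'] at hl3
    rw [← mul_div_assoc, div_le_iff₀ hl0]
    linarith
  have hqn : 0 ≤ sd.C / lam ^ 2 := by positivity
  have hud : ∀ i k z, |st'.u i k z - st.u i k z| ≤ sd.C / lam ^ 2 := by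
    intro i k z
    rw [hN.u_eq, add_sub_cancel_left]
    exact sd.v_le lam hl1 i k z
  have hvd : ∀ i z, ‖vec (st'.u i) z - vec (st.u i) z‖ ≤ sd.C / lam ^ 2 := by
    intro i z
    rw [pi_norm_le_iff_of_nonneg hqn]
    intro k
    exact hud i k z
  refine ⟨?_, fun i k z => (hud i k z).trans (hq2.trans hq1), ?_, ?_⟩
  · rintro i ⟨t, x⟩ ht
    have ht' : |t| ≤ B.T := ht
    have ht2 : |t| ≤ 3 / 2 * B.T := by linarith
    have e1 : st'.dens i (t, x) = st.rho (vec (st'.Y i) (t, x))
        + ε * ∑ a, Real.cos (lam * (mu a * phi B a (vec (st'.Y i) (t, x)))) := hN.rho_eq _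
    have e2 : |ε * ∑ a, Real.cos (lam * (mu a * phi B a (vec (st'.Y i) (t, x))))| ≤ 4 * ε := by
      rw [abs_mul, abs_of_pos hε]
      have : |∑ a, Real.cos (lam * (mu a * phi B a (vec (st'.Y i) (t, x))))| ≤ 4 := by
        refine (Finset.abs_sum_le_sum_abs _ _).trans ?_
        refine (Finset.sum_le_sum fun a _ => Real.abs_cos_le_one _).trans ?_
        simp
      nlinarith
    have e3 : |st.rho (vec (st'.Y i) (t, x)) - st.dens i (t, x)| ≤ δ := by
      by_cases hx : B.r < ‖x - B.x0‖
      · have h1 := Nx.Y_out st' i ht2 hx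
        have h2 := Nx.Y_out st i ht2 hx
        have : st.dens i (t, x) = st.rho (vec (st.Y i) (t, x)) := rfl
        rw [this, h1, h2, sub_self, abs_zero]
        exact hδ.le
      · push Not at hx
        have h1 : ∀ s : Stage B, vec (s.Y i) (t, x) ∈ Metric.closedBall B.x0 2 := by
          intro s
          have h2 := s.Y_near i t x ht2
          rw [Metric.mem_closedBall, dist_eq_norm]
          have h3 : vec (s.Y i) (t, x) - B.x0 = (vec (s.Y i) (t, x) - x) + (x - B.x0) := by abel
          rw [h3]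
          have h4 := B.hr1
          linarith [norm_add_le (vec (s.Y i) (t, x) - x) (x - B.x0)]
        have h5 := Nx.Y_close st st' i hqn (hvd i) ht2 x
        have h6 : dist (vec (st'.Y i) (t, x)) (vec (st.Y i) (t, x)) < δ' := by
          rw [dist_eq_norm]
          have h7 : 20 / 19 * |t| * (sd.C / lam ^ 2) ≤ 20 / 19 * B.T * (sd.C / lam) := by
            have := abs_nonneg t
            gcongr
          have h8 : 0 ≤ B.T * (sd.C / lam) := by positivity
          rcases eq_or_lt_of_le h8 with h9 | h9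
          · have : 20 / 19 * B.T * (sd.C / lam) = 0 := by
              rw [mul_assoc, ← h9, mul_zero]
            linarith
          · nlinarith
        have := huc' _ (h1 st') _ (h1 st) h6
        rw [Real.dist_eq] at this
        exact this.le
    rw [e1]
    have e4 : st.rho (vec (st'.Y i) (t, x))
        + ε * ∑ a, Real.cos (lam * (mu a * phi B a (vec (st'.Y i) (t, x)))) - st.dens i (t, x)
        = (ε * ∑ a, Real.cos (lam * (mu a * phi B a (vec (st'.Y i) (t, x)))))
          + (st.rho (vec (st'.Y i) (t, x)) - st.dens i (t, x)) := by ring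
    rw [e4]
    exact (abs_add_le _ _).trans (add_le_add e2 e3)
  · intro i k j z
    have h1 : st'.u i k = fun z => st.u i k z + sd.v lam i k z := funext fun z => hN.u_eq i k z
    rw [h1, Nx.dx_add j ((st.u_smooth i k).differentiable (by simp) z)
      ((sd.v_smooth lam i k).differentiable (by simp) z), add_sub_cancel_left]
    exact (Nx.dx_le j).trans ((sd.dv_le lam hl1 i k z).trans hq1)
  · intro e he k z hz
    rw [hN.f_eq, add_sub_cancel_left]
    exact Nx.FF_le st hε sd.g_nonneg sd.g_eq (fun z => (sd.chi_range z).2) lam e k z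
      (fun j => he j k z hz)

end H37.MHD
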