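import Mathlib

/-!
# Quotients of a punctured inner product space by linear similarities

`PQ E Y` says that `Y` is covered by `E` minus the origin, with deck transformations which are
linear similarities.  The metric `|dx|^2 / |x|^2` descends to a Riemannian metric on `Y`.
-/

open scoped Manifold ContDiff Topology
open Set Bundle

noncomputable section

namespace Pool.Agent.H73

/-- `Y` is a quotient of the punctured space by linear similarities. -/
class PQ (E : Type) [NormedAddCommGroup E] [InnerProductSpace ℝ E]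
    (Y : Type) [TopologicalSpace Y] where
  /-- the projection, with a junk value at the origin -/
  pi : E → Y
  surj : ∀ q, ∃ x, x ≠ 0 ∧ pi x = q
  loc : ∀ x, x ≠ 0 → ∃ e : OpenPartialHomeomorph E Y, x ∈ e.source ∧
    ∀ z ∈ e.source, z ≠ 0 ∧ e z = pi z
  deck : ∀ x y, x ≠ 0 → y ≠ 0 → pi x = pi y → ∃ (L : E →L[ℝ] E) (κ : ℝ), 0 < κ ∧
    (∀ v, ‖L v‖ = κ * ‖v‖) ∧ L x = y ∧ ∀ z, z ≠ 0 → pi (L z) = pi z

namespace PQ

variable {E : Type} [NormedAddCommGroup E] [InnerProductSpace ℝ E]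
variable {Y : Type} [TopologicalSpace Y] [PQ E Y]

/-- projection with explicit target -/
abbrev pr (E : Type) [NormedAddCommGroup E] [InnerProductSpace ℝ E]
    (Y : Type) [TopologicalSpace Y] [PQ E Y] : E → Y := PQ.pi

lemma exists_chart (q : Y) : ∃ e : OpenPartialHomeomorph Y E, q ∈ e.source ∧
    ∀ z ∈ e.target, z ≠ 0 ∧ e.symm z = pr E Y z := by
  obtain ⟨x, hx, hq⟩ := PQ.surj (E := E) q
  obtain ⟨e, hxe, he⟩ := PQ.loc (Y := Y) x hx
  refine ⟨e.symm, ?_, ?_⟩
  · have := e.map_source hxe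
    rw [(he x hxe).2, hq] at this
    simpa using this
  · intro z hz
    simpa using he z (by simpa using hz)

instance (priority := low) instCharted : ChartedSpace E Y where
  atlas := {e | ∀ z ∈ e.target, z ≠ 0 ∧ e.symm z = pr E Y z}
  chartAt q := (exists_chart (E := E) q).choose
  mem_chart_source q := (exists_chart (E := E) q).choose_spec.1
  chart_mem_atlas q := (exists_chart (E := E) q).choose_spec.2

lemma atlas_prop {e : OpenPartialHomeomorph Y E} (he : e ∈ atlas E Y) {z : E} (hz : z ∈ e.target) :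
    z ≠ 0 ∧ e.symm z = pr E Y z := he z hz

lemma pr_chart {e : OpenPartialHomeomorph Y E} (he : e ∈ atlas E Y) {q : Y} (hq : q ∈ e.source) :
    e q ≠ 0 ∧ pr E Y (e q) = q := by
  have h := atlas_prop he (e.map_source hq)
  exact ⟨h.1, by rw [← h.2, e.left_inv hq]⟩

lemma continuousAt_pr {x : E} (hx : x ≠ 0) : ContinuousAt (pr E Y) x := by
  obtain ⟨e, hxe, he⟩ := PQ.loc (Y := Y) x hx
  have h1 := e.continuousAt hxe
  refine h1.congr ?_
  filter_upwards [e.open_source.mem_nhds hxe] with z hz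
  exact (he z hz).2

/-- charts composed with the projection are locally linear similarities. -/
lemma chart_pr {e : OpenPartialHomeomorph Y E} (he : e ∈ atlas E Y) {u : E} (hu0 : u ≠ 0)
    (hu : pr E Y u ∈ e.source) :
    ∃ (L : E →L[ℝ] E) (κ : ℝ), 0 < κ ∧ (∀ v, ‖L v‖ = κ * ‖v‖) ∧
      ∀ᶠ z in 𝓝 u, pr E Y z ∈ e.source ∧ e (pr E Y z) = L z := by
  obtain ⟨hy0, hy⟩ := pr_chart he hu
  obtain ⟨L, κ, hκ, hL, hLu, hLz⟩ := PQ.deck (Y := Y) u (e (pr E Y u)) hu0 hy0 hy.symm
  refine ⟨L, κ, hκ, hL, ?_⟩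
  have h1 : ∀ᶠ z in 𝓝 u, L z ∈ e.target := by
    apply L.continuous.continuousAt.preimage_mem_nhds
    rw [hLu]
    exact e.open_target.mem_nhds (e.map_source hu)
  have h2 : ∀ᶠ z in 𝓝 u, z ≠ 0 := isOpen_ne.mem_nhds hu0
  filter_upwards [h1, h2] with z hz1 hz2
  have h3 := (atlas_prop he hz1).2
  have h4 : pr E Y (L z) = pr E Y z := hLz z hz2
  rw [← h4, ← h3]
  exact ⟨e.map_target hz1, e.right_inv hz1⟩

instance (priority := low) instManifold : IsManifold 𝓘(ℝ, E) ∞ Y := by
  apply isManifold_of_contDiffOn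
  intro e e' he he'
  intro x hx
  have hx' : x ∈ (e.symm ≫ₕ e').source := by simpa using hx
  have hx1 : x ∈ e.target ∧ e.symm x ∈ e'.source := by
    simpa using hx'
  obtain ⟨hx0, hxpr⟩ := atlas_prop he hx1.1
  have hx2 : pr E Y x ∈ e'.source := by rw [← hxpr]; exact hx1.2
  obtain ⟨L, κ, hκ, hL, hl⟩ := chart_pr he' hx0 hx2
  have key : (𝓘(ℝ, E) ∘ (e.symm ≫ₕ e') ∘ 𝓘(ℝ, E).symm) =ᶠ[𝓝 x] L := by
    filter_upwards [hl, e.open_target.mem_nhds hx1.1] with y hy hyt
    simp only [Function.comp_apply, OpenPartialHomeomorph.coe_trans, mfld_simps]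
    rw [(atlas_prop he hyt).2]
    exact hy.2
  have : ContDiffAt ℝ ∞ (𝓘(ℝ, E) ∘ (e.symm ≫ₕ e') ∘ 𝓘(ℝ, E).symm) x := by
    refine ContDiffAt.congr_of_eventuallyEq ?_ key
    exact L.contDiff.contDiffAt
  exact this.contDiffWithinAt

/-- the coordinate of a point in its preferred chart -/
def co (q : Y) : E := chartAt E q q

lemma co_ne (q : Y) : (co q : E) ≠ 0 := (pr_chart (chart_mem_atlas E q) (mem_chart_source E q)).1

lemma pr_co (q : Y) : pr E Y (co q) = q := (pr_chart (chart_mem_atlas E q) (mem_chart_source E q)).2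

end PQ

end Pool.Agent.H73
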