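import Pool.Agent.H73.PQB

open scoped Manifold ContDiff Topology ENNReal
open Set Bundle Bornology MeasureTheory Manifold

noncomputable section

namespace Pool.Agent.H73

namespace PQ

variable {E : Type} [NormedAddCommGroup E] [InnerProductSpace ℝ E]
variable {Y : Type} [TopologicalSpace Y] [PQ E Y]

instance (priority := low) instRiem : RiemannianBundle (fun q : Y => TangentSpace 𝓘(ℝ, E) q) :=
  ⟨(metric (E := E) (Y := Y)).toRiemannianMetric⟩

example : IsContMDiffRiemannianBundle 𝓘(ℝ, E) ∞ E (fun q : Y => TangentSpace 𝓘(ℝ, E) q) :=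
  inferInstance

instance (priority := low) instCont :
    IsContinuousRiemannianBundle E (fun q : Y => TangentSpace 𝓘(ℝ, E) q) :=
  ⟨⟨(metric (E := E) (Y := Y)).inner, (metric (E := E) (Y := Y)).contMDiff.continuous,
    fun _ _ _ => rfl⟩⟩

lemma norm_tangent (q : Y) (v : TangentSpace 𝓘(ℝ, E) q) :
    ‖v‖ = ‖(show E from v)‖ / ‖(co q : E)‖ := by
  have h1 : ‖v‖ ^ 2 = form (E := E) q v v := by
    rw [← real_inner_self_eq_norm_sq]
    rfl
  have h0 : 0 < ‖(co q : E)‖ := norm_pos_iff.mpr (co_ne q)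
  have h2 : ‖v‖ ^ 2 = (‖(show E from v)‖ / ‖(co q : E)‖) ^ 2 := by
    rw [h1]
    refine (form_self (E := E) q v).trans ?_
    rw [div_pow, inv_mul_eq_div]
  exact (pow_left_inj₀ (norm_nonneg v) (by positivity) two_ne_zero).mp h2

/-- the projection is a local isometry from `|dx|^2/|x|^2` -/
lemma norm_mfderiv_pr {u : E} (hu : u ≠ 0) (v : E) :
    ‖(mfderiv 𝓘(ℝ, E) 𝓘(ℝ, E) (pr E Y) u v : TangentSpace 𝓘(ℝ, E) (pr E Y u))‖ = ‖v‖ / ‖u‖ := by
  obtain ⟨L, κ, hκ, hL, hLu, hd⟩ := hasMFDerivAt_pr (Y := Y) hu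
  rw [hd.mfderiv, norm_tangent, ← hLu]
  have h1 : ‖L v‖ / ‖L u‖ = ‖v‖ / ‖u‖ := by
    rw [hL, hL]
    rw [mul_div_mul_left _ _ hκ.ne']
  exact h1

end PQ

end Pool.Agent.H73
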