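import Mathlib

open scoped Topology ENNReal
open Set MeasureTheory InnerProductGeometry

noncomputable section

namespace Pool.Agent.H73

variable {E : Type*} [NormedAddCommGroup E] [InnerProductSpace ℝ E]

/-- The distance of the metric `|dx|^2 / |x|^2` on the punctured inner product space. -/
def mD (x y : E) : ℝ := √((Real.log ‖x‖ - Real.log ‖y‖) ^ 2 + angle x y ^ 2)

lemma mD_nonneg (x y : E) : 0 ≤ mD x y := Real.sqrt_nonneg _

lemma mD_sq (x y : E) : mD x y ^ 2 = (Real.log ‖x‖ - Real.log ‖y‖) ^ 2 + angle x y ^ 2 :=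
  Real.sq_sqrt (by positivity)

lemma mD_comm (x y : E) : mD x y = mD y x := by
  unfold mD
  rw [angle_comm]
  congr 1
  ring

lemma mD_self {x : E} (hx : x ≠ 0) : mD x x = 0 := by
  unfold mD
  rw [angle_self hx]
  simp

lemma mD_triangle (x y z : E) : mD x z ≤ mD x y + mD y z := by
  have h1 := angle_le_angle_add_angle x y z
  have h2 := angle_nonneg x z
  have h3 := angle_nonneg x y
  have h4 := angle_nonneg y z
  set a := Real.log ‖x‖
  set b := Real.log ‖y‖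
  set c := Real.log ‖z‖
  have e1 := mD_sq x z
  have e2 := mD_sq x y
  have e3 := mD_sq y z
  have n1 := mD_nonneg x z
  have n2 := mD_nonneg x y
  have n3 := mD_nonneg y z
  apply le_of_sq_le_sq _ (by positivity)
  have h5 : ((a - b) * (b - c) + angle x y * angle y z) ≤ mD x y * mD y z := by
    apply le_of_sq_le_sq _ (by positivity)
    rw [mul_pow, e2, e3]
    nlinarith [sq_nonneg ((a - b) * angle y z - (b - c) * angle x y)]
  have h6 : angle x z ^ 2 ≤ (angle x y + angle y z) ^ 2 := by gcongr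
  rw [e1]
  nlinarith [h5, h6]

/-- invariance under similarities -/
lemma mD_sim (L : E →L[ℝ] E) (κ : ℝ) (hκ : 0 < κ) (hL : ∀ v, ‖L v‖ = κ * ‖v‖) {x y : E}
    (hx : x ≠ 0) (hy : y ≠ 0) : mD (L x) (L y) = mD x y := by
  have h1 : inner ℝ (L x) (L y) = κ ^ 2 * inner ℝ x y := by
    have h1 := real_inner_eq_norm_add_mul_self_sub_norm_mul_self_sub_norm_mul_self_div_two (L x) (L y)
    have h2 := real_inner_eq_norm_add_mul_self_sub_norm_mul_self_sub_norm_mul_self_div_two x y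
    rw [h1, h2, ← map_add, hL, hL, hL]
    ring
  have hx' := norm_pos_iff.mpr hx
  have hy' := norm_pos_iff.mpr hy
  have h2 : angle (L x) (L y) = angle x y := by
    unfold angle
    rw [h1, hL, hL]
    congr 1
    field_simp
  unfold mD
  rw [h2, hL, hL, Real.log_mul hκ.ne' hx'.ne', Real.log_mul hκ.ne' hy'.ne']
  congr 2
  ring

/-- the pointwise estimate -/
lemma point_est {z v u : E} (hz : z ≠ 0) (hu : ‖u‖ = 1) {κ α β : ℝ} (hκ : 0 ≤ κ) (hκ1 : κ < 1)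
    (hab : α ^ 2 + β ^ 2 ≤ 1) :
    |α * (inner ℝ z v / ‖z‖ ^ 2) + β * (κ * (inner ℝ v u / ‖z‖ - inner ℝ z u * (inner ℝ z v / ‖z‖) / ‖z‖ ^ 2)
      / √(1 - (κ * (inner ℝ z u / ‖z‖)) ^ 2))| ≤ ‖v‖ / ‖z‖ := by
  have hz' := norm_pos_iff.mpr hz
  obtain ⟨w, hw⟩ : ∃ w : E, w = (‖z‖)⁻¹ • z := ⟨_, rfl⟩
  have hw1 : ‖w‖ = 1 := by rw [hw, norm_smul, norm_inv, norm_norm, inv_mul_cancel₀ hz'.ne']
  have hzw : z = ‖z‖ • w := by rw [hw, smul_smul, mul_inv_cancel₀ hz'.ne', one_smul]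
  obtain ⟨A, hA⟩ : ∃ A : ℝ, A = inner ℝ w v := ⟨_, rfl⟩
  obtain ⟨g, hg⟩ : ∃ g : ℝ, g = inner ℝ w u := ⟨_, rfl⟩
  have e1 : inner ℝ z v = ‖z‖ * A := by rw [hA, ← real_inner_smul_left, ← hzw]
  have e2 : inner ℝ z u = ‖z‖ * g := by rw [hg, ← real_inner_smul_left, ← hzw]
  have hg1 : |g| ≤ 1 := by
    have := abs_real_inner_le_norm w u
    rwa [hw1, hu, mul_one, ← hg] at this
  have hg2 : g ^ 2 ≤ 1 := by rw [← sq_abs]; nlinarith [abs_nonneg g]
  have hκg : (κ * g) ^ 2 < 1 := by rw [mul_pow]; nlinarith [sq_nonneg g, sq_nonneg κ]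
  set S := √(1 - (κ * g) ^ 2) with hS
  have hSpos : 0 < S := Real.sqrt_pos.mpr (by linarith)
  have hS2 : S ^ 2 = 1 - (κ * g) ^ 2 := Real.sq_sqrt (by linarith)
  set B := κ * (inner ℝ v u - g * A) / S with hB
  have e3 : α * (inner ℝ z v / ‖z‖ ^ 2) + β * (κ * (inner ℝ v u / ‖z‖ - inner ℝ z u * (inner ℝ z v / ‖z‖) / ‖z‖ ^ 2)
      / √(1 - (κ * (inner ℝ z u / ‖z‖)) ^ 2)) = (α * A + β * B) / ‖z‖ := by
    have : inner ℝ z u / ‖z‖ = g := by rw [e2]; field_simp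
    rw [this, ← hS, e1, e2, hB]
    field_simp
  rw [e3, abs_div, abs_of_pos hz']
  gcongr
  -- Cauchy-Schwarz
  have c1 : (inner ℝ v u - g * A) ^ 2 ≤ (‖v‖ ^ 2 - A ^ 2) * (1 - g ^ 2) := by
    have h1 : inner ℝ (v - A • w) (u - g • w) = inner ℝ v u - g * A := by
      rw [inner_sub_left, inner_sub_right, inner_sub_right, real_inner_smul_left,
        real_inner_smul_left, real_inner_smul_right, real_inner_smul_right,
        real_inner_self_eq_norm_sq, hw1, real_inner_comm w v]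
      simp only [← hA, ← hg]
      ring
    have h2 : ‖v - A • w‖ ^ 2 = ‖v‖ ^ 2 - A ^ 2 := by
      rw [norm_sub_sq_real, real_inner_smul_right, norm_smul, hw1, real_inner_comm w v, ← hA,
        mul_pow, Real.norm_eq_abs, sq_abs]
      ring
    have h3 : ‖u - g • w‖ ^ 2 = 1 - g ^ 2 := by
      rw [norm_sub_sq_real, real_inner_smul_right, norm_smul, hw1, real_inner_comm w u, ← hg,
        mul_pow, Real.norm_eq_abs, sq_abs, hu]
      ring
    have h4 := abs_real_inner_le_norm (v - A • w) (u - g • w)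
    rw [h1] at h4
    rw [← h2, ← h3, ← mul_pow, ← sq_abs]
    gcongr
  have hA2 : A ^ 2 ≤ ‖v‖ ^ 2 := by
    have := abs_real_inner_le_norm w v
    rw [hw1, one_mul, ← hA] at this
    rw [← sq_abs]
    gcongr
  have c2 : B ^ 2 ≤ ‖v‖ ^ 2 - A ^ 2 := by
    rw [hB, div_pow, mul_pow, div_le_iff₀ (by positivity), hS2]
    have hk2 : κ ^ 2 ≤ 1 := by nlinarith
    have h5 : κ ^ 2 * (inner ℝ v u - g * A) ^ 2 ≤ κ ^ 2 * ((‖v‖ ^ 2 - A ^ 2) * (1 - g ^ 2)) := by
      gcongr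
    have h6 : κ ^ 2 * (1 - g ^ 2) ≤ 1 - (κ * g) ^ 2 := by rw [mul_pow]; nlinarith
    have h7 : 0 ≤ ‖v‖ ^ 2 - A ^ 2 := by linarith
    nlinarith [mul_le_mul_of_nonneg_left h6 h7]
  apply abs_le_of_sq_le_sq _ (norm_nonneg v)
  nlinarith [sq_nonneg (α * B - β * A), sq_nonneg (α * A + β * B), sq_nonneg A, sq_nonneg B,
    mul_le_mul_of_nonneg_right hab (by positivity : 0 ≤ A ^ 2 + B ^ 2)]

/-- the calibrating function -/
def calF (u : E) (κ α β : ℝ) (z : E) : ℝ :=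
  α * Real.log ‖z‖ + β * Real.arcsin (κ * (inner ℝ z u / ‖z‖))

lemma abs_cos_le {z u : E} (hz : z ≠ 0) (hu : ‖u‖ = 1) : |inner ℝ z u / ‖z‖| ≤ 1 := by
  have hz' := norm_pos_iff.mpr hz
  rw [abs_div, abs_of_pos hz', div_le_one hz']
  have := abs_real_inner_le_norm z u
  rwa [hu, mul_one] at this

lemma contDiffAt_calF {z u : E} (hz : z ≠ 0) (hu : ‖u‖ = 1) {κ α β : ℝ} (hκ : 0 ≤ κ) (hκ1 : κ < 1) :
    ContDiffAt ℝ 1 (calF u κ α β) z := by
  have hz' := norm_pos_iff.mpr hz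
  have h1 : ContDiffAt ℝ 1 (fun z : E => ‖z‖) z := contDiffAt_norm ℝ hz
  have h2 : ContDiffAt ℝ 1 (fun z : E => Real.log ‖z‖) z := h1.log hz'.ne'
  have h3 : ContDiffAt ℝ 1 (fun z : E => (inner ℝ z u : ℝ)) z :=
    contDiffAt_id.inner ℝ contDiffAt_const
  have h4 : ContDiffAt ℝ 1 (fun z : E => κ * (inner ℝ z u / ‖z‖)) z :=
    contDiffAt_const.mul (h3.div h1 hz'.ne')
  have hb := abs_cos_le hz hu
  have hb2 : |κ * (inner ℝ z u / ‖z‖)| < 1 := by
    rw [abs_mul, abs_of_nonneg hκ]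
    nlinarith [abs_nonneg (inner ℝ z u / ‖z‖)]
  rw [abs_lt] at hb2
  have h5 : ContDiffAt ℝ 1 Real.arcsin (κ * (inner ℝ z u / ‖z‖)) :=
    Real.contDiffAt_arcsin (by linarith) (by linarith)
  exact (contDiffAt_const.mul h2).add (contDiffAt_const.mul (ContDiffAt.comp (g := Real.arcsin) z h5 h4))

lemma hasDerivWithinAt_calF {c : ℝ → E} {c' : E} {s : Set ℝ} {t : ℝ}
    (hc : HasDerivWithinAt c c' s t) (h0 : c t ≠ 0) {u : E} (hu : ‖u‖ = 1) {κ α β : ℝ}
    (hκ : 0 ≤ κ) (hκ1 : κ < 1) :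
    HasDerivWithinAt (fun t => calF u κ α β (c t))
      (α * (inner ℝ (c t) c' / ‖c t‖ ^ 2) + β * (κ * (inner ℝ c' u / ‖c t‖ -
        inner ℝ (c t) u * (inner ℝ (c t) c' / ‖c t‖) / ‖c t‖ ^ 2)
      / √(1 - (κ * (inner ℝ (c t) u / ‖c t‖)) ^ 2))) s t := by
  have hz' := norm_pos_iff.mpr h0
  have h1 : HasDerivWithinAt (fun t => ‖c t‖ ^ 2) (2 * inner ℝ (c t) c') s t := hc.norm_sq
  have h2 : HasDerivWithinAt (fun t => ‖c t‖) (inner ℝ (c t) c' / ‖c t‖) s t := by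
    have h3 := h1.sqrt (by positivity)
    have h4 : (fun t => √(‖c t‖ ^ 2)) = fun t => ‖c t‖ := by
      ext t; rw [Real.sqrt_sq (norm_nonneg _)]
    rw [h4, Real.sqrt_sq (norm_nonneg _)] at h3
    convert h3 using 1
    field_simp
  have h3 : HasDerivWithinAt (fun t => Real.log ‖c t‖) (inner ℝ (c t) c' / ‖c t‖ ^ 2) s t := by
    have := h2.log hz'.ne'
    convert this using 1
    field_simp
  have h4 : HasDerivWithinAt (fun t => (inner ℝ (c t) u : ℝ)) (inner ℝ c' u) s t := by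
    have := hc.inner ℝ (hasDerivWithinAt_const t s u)
    simpa using this
  have h5 : HasDerivWithinAt (fun t => κ * (inner ℝ (c t) u / ‖c t‖))
      (κ * (inner ℝ c' u / ‖c t‖ - inner ℝ (c t) u * (inner ℝ (c t) c' / ‖c t‖) / ‖c t‖ ^ 2)) s t := by
    refine HasDerivWithinAt.congr_deriv ((h4.fun_div h2 hz'.ne').const_mul κ) ?_
    field_simp
  have hb := abs_cos_le h0 hu
  have hb2 : |κ * (inner ℝ (c t) u / ‖c t‖)| < 1 := by
    rw [abs_mul, abs_of_nonneg hκ]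
    nlinarith [abs_nonneg (inner ℝ (c t) u / ‖c t‖)]
  rw [abs_lt] at hb2
  have h6 := (Real.hasDerivAt_arcsin (x := κ * (inner ℝ (c t) u / ‖c t‖)) (by linarith) (by linarith))
  have h7 := h6.comp_hasDerivWithinAt t h5
  refine HasDerivWithinAt.congr_deriv ((h3.const_mul α).fun_add (h7.const_mul β)) ?_
  ring

end Pool.Agent.H73
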