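import Pool.Agent.H73.PQD

open scoped Topology ENNReal
open Set MeasureTheory InnerProductGeometry Filter

noncomputable section

namespace Pool.Agent.H73

variable {E : Type*} [NormedAddCommGroup E] [InnerProductSpace ℝ E]

/-- length of a path for the metric `|dx|^2 / |x|^2` -/
def pLen (c : ℝ → E) (a b : ℝ) : ℝ≥0∞ :=
  ∫⁻ t in Icc a b, ENNReal.ofReal (‖derivWithin c (Icc a b) t‖ / ‖c t‖)

lemma calF_le_pLen {c : ℝ → E} {a b : ℝ} (hab : a < b) (hc : ContDiffOn ℝ 1 c (Icc a b))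
    (h0 : ∀ t ∈ Icc a b, c t ≠ 0) {u : E} (hu : ‖u‖ = 1) {κ α β : ℝ} (hκ : 0 ≤ κ) (hκ1 : κ < 1)
    (hαβ : α ^ 2 + β ^ 2 ≤ 1) :
    ENNReal.ofReal (calF u κ α β (c b) - calF u κ α β (c a)) ≤ pLen c a b := by
  have h1 : ContDiffOn ℝ 1 (fun t => calF u κ α β (c t)) (Icc a b) := by
    intro t ht
    exact (contDiffAt_calF (h0 t ht) hu hκ hκ1).comp_contDiffWithinAt t (hc t ht)
  have h2 := enorm_sub_le_lintegral_derivWithin_Icc_of_contDiffOn_Icc h1 hab.le
  refine le_trans ?_ (h2.trans ?_)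
  · rw [Real.enorm_eq_ofReal_abs]
    exact ENNReal.ofReal_le_ofReal (le_abs_self _)
  · unfold pLen
    apply setLIntegral_mono' measurableSet_Icc
    intro t ht
    have h3 : HasDerivWithinAt c (derivWithin c (Icc a b) t) (Icc a b) t :=
      ((hc t ht).differentiableWithinAt one_ne_zero).hasDerivWithinAt
    have h4 := hasDerivWithinAt_calF (α := α) (β := β) h3 (h0 t ht) hu hκ hκ1
    rw [h4.derivWithin (uniqueDiffOn_Icc hab t ht), Real.enorm_eq_ofReal_abs]
    exact ENNReal.ofReal_le_ofReal (point_est (h0 t ht) hu hκ hκ1 hαβ)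

lemma mD_le_pLen {c : ℝ → E} {a b : ℝ} (hab : a ≤ b) (hc : ContDiffOn ℝ 1 c (Icc a b))
    (h0 : ∀ t ∈ Icc a b, c t ≠ 0) : ENNReal.ofReal (mD (c a) (c b)) ≤ pLen c a b := by
  rcases hab.eq_or_lt with rfl | hlt
  · rw [mD_self (h0 a (by simp))]; simp
  have ha0 := h0 a (left_mem_Icc.mpr hab)
  have hb0 := h0 b (right_mem_Icc.mpr hab)
  have ha' := norm_pos_iff.mpr ha0
  have hb' := norm_pos_iff.mpr hb0
  rcases (mD_nonneg (c a) (c b)).eq_or_lt with hD | hD
  · rw [← hD]; simp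
  obtain ⟨u, hu'⟩ : ∃ u : E, u = ‖c a‖⁻¹ • c a := ⟨_, rfl⟩
  have hu : ‖u‖ = 1 := by rw [hu', norm_smul, norm_inv, norm_norm, inv_mul_cancel₀ ha'.ne']
  obtain ⟨θ, hθ⟩ : ∃ θ, θ = angle (c a) (c b) := ⟨_, rfl⟩
  obtain ⟨δ, hδ⟩ : ∃ δ, δ = Real.log ‖c b‖ - Real.log ‖c a‖ := ⟨_, rfl⟩
  obtain ⟨D, hDD⟩ : ∃ D, D = mD (c a) (c b) := ⟨_, rfl⟩
  have hθ0 : 0 ≤ θ := by rw [hθ]; exact angle_nonneg _ _
  have hθπ : θ ≤ Real.pi := by rw [hθ]; exact angle_le_pi _ _
  have hDsq : D ^ 2 = δ ^ 2 + θ ^ 2 := by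
    rw [hDD, mD_sq, hδ, hθ]; ring
  rw [← hDD] at hD ⊢
  have hgb : inner ℝ (c b) u / ‖c b‖ = Real.cos θ := by
    rw [hu', real_inner_smul_right, hθ, cos_angle, real_inner_comm (c a) (c b)]
    field_simp
  have hga : inner ℝ (c a) u / ‖c a‖ = 1 := by
    rw [hu', real_inner_smul_right, real_inner_self_eq_norm_sq]
    field_simp
  have key : ∀ κ : ℝ, κ ∈ Ico (0 : ℝ) 1 → ENNReal.ofReal ((δ / D) * δ +
      (-θ / D) * (Real.arcsin (κ * Real.cos θ) - Real.arcsin κ)) ≤ pLen c a b := by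
    intro κ hκ
    have h5 := calF_le_pLen hlt hc h0 hu hκ.1 hκ.2 (α := δ / D) (β := -θ / D) (by
      rw [div_pow, div_pow, neg_sq, ← add_div, ← hDsq, div_self (by positivity)])
    unfold calF at h5
    rw [hgb, hga, mul_one] at h5
    refine le_trans (le_of_eq ?_) h5
    congr 1
    rw [hδ]
    ring
  have hlim : Tendsto (fun κ : ℝ => ENNReal.ofReal ((δ / D) * δ +
      (-θ / D) * (Real.arcsin (κ * Real.cos θ) - Real.arcsin κ))) (𝓝[<] 1)
      (𝓝 (ENNReal.ofReal ((δ / D) * δ +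
      (-θ / D) * (Real.arcsin (1 * Real.cos θ) - Real.arcsin 1)))) := by
    apply Tendsto.mono_left _ nhdsWithin_le_nhds
    have : Continuous (fun κ : ℝ => ENNReal.ofReal ((δ / D) * δ +
      (-θ / D) * (Real.arcsin (κ * Real.cos θ) - Real.arcsin κ))) := by
      apply ENNReal.continuous_ofReal.comp
      have := Real.continuous_arcsin
      fun_prop
    exact this.tendsto 1
  have hval : (δ / D) * δ + (-θ / D) * (Real.arcsin (1 * Real.cos θ) - Real.arcsin 1) = D := by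
    have h6 : Real.arcsin (1 * Real.cos θ) = Real.pi / 2 - θ := by
      rw [one_mul, Real.arcsin_eq_pi_div_two_sub_arccos, Real.arccos_cos hθ0 hθπ]
    rw [h6, Real.arcsin_one]
    field_simp
    linarith
  rw [hval] at hlim
  refine le_of_tendsto hlim ?_
  have h7 : Ico (0 : ℝ) 1 ∈ 𝓝[<] (1 : ℝ) := Ico_mem_nhdsLT zero_lt_one
  filter_upwards [h7] with κ hκ using key κ hκ

/-- existence of minimal geodesics of the model, in dimension at least two -/
lemma exists_model_geodesic (hperp : ∀ p : E, ∃ n : E, ‖n‖ = 1 ∧ inner ℝ p n = 0) {x y : E}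
    (hx : x ≠ 0) (hy : y ≠ 0) : ∃ c : ℝ → E, ContDiff ℝ 1 c ∧ c 0 = x ∧ c 1 = y ∧
      ∀ t, c t ≠ 0 ∧ ‖deriv c t‖ = mD x y * ‖c t‖ := by
  have hx' := norm_pos_iff.mpr hx
  have hy' := norm_pos_iff.mpr hy
  obtain ⟨p, hp⟩ : ∃ p : E, p = ‖x‖⁻¹ • x := ⟨_, rfl⟩
  obtain ⟨q, hq⟩ : ∃ q : E, q = ‖y‖⁻¹ • y := ⟨_, rfl⟩
  have hp1 : ‖p‖ = 1 := by rw [hp, norm_smul, norm_inv, norm_norm, inv_mul_cancel₀ hx'.ne']
  have hq1 : ‖q‖ = 1 := by rw [hq, norm_smul, norm_inv, norm_norm, inv_mul_cancel₀ hy'.ne']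
  have hxp : x = ‖x‖ • p := by rw [hp, smul_smul, mul_inv_cancel₀ hx'.ne', one_smul]
  have hyq : y = ‖y‖ • q := by rw [hq, smul_smul, mul_inv_cancel₀ hy'.ne', one_smul]
  obtain ⟨θ, hθ⟩ : ∃ θ, θ = angle x y := ⟨_, rfl⟩
  have hθ0 : 0 ≤ θ := by rw [hθ]; exact angle_nonneg _ _
  have hθπ : θ ≤ Real.pi := by rw [hθ]; exact angle_le_pi _ _
  have hcos : inner ℝ p q = Real.cos θ := by
    rw [hp, hq, real_inner_smul_left, real_inner_smul_right, hθ, cos_angle]
    field_simp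
  obtain ⟨n, hn1, hpn, hqn⟩ : ∃ n : E, ‖n‖ = 1 ∧ inner ℝ p n = 0 ∧
      q = Real.cos θ • p + Real.sin θ • n := by
    have hw : ‖q - Real.cos θ • p‖ ^ 2 = Real.sin θ ^ 2 := by
      rw [norm_sub_sq_real, real_inner_smul_right, real_inner_comm p q, hcos, norm_smul, hp1, hq1,
        mul_pow, Real.norm_eq_abs, sq_abs, Real.sin_sq]
      ring
    rcases eq_or_ne (Real.sin θ) 0 with hs | hs
    · obtain ⟨n, hn1, hn2⟩ := hperp p
      refine ⟨n, hn1, hn2, ?_⟩
      rw [hs] at hw ⊢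
      have : ‖q - Real.cos θ • p‖ = 0 := by
        have := hw
        simpa using this
      rw [zero_smul, add_zero]
      exact sub_eq_zero.mp (norm_eq_zero.mp this)
    · have hs' : 0 < Real.sin θ := lt_of_le_of_ne (Real.sin_nonneg_of_nonneg_of_le_pi hθ0 hθπ) hs.symm
      have hw2 : ‖q - Real.cos θ • p‖ = Real.sin θ := by
        exact (pow_left_inj₀ (norm_nonneg _) hs'.le two_ne_zero).mp hw
      refine ⟨(Real.sin θ)⁻¹ • (q - Real.cos θ • p), ?_, ?_, ?_⟩
      · rw [norm_smul, hw2, norm_inv, Real.norm_eq_abs, abs_of_pos hs', inv_mul_cancel₀ hs]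
      · rw [real_inner_smul_right, inner_sub_right, real_inner_smul_right, hcos,
          real_inner_self_eq_norm_sq, hp1]
        ring
      · rw [smul_smul, mul_inv_cancel₀ hs, one_smul]
        abel
  obtain ⟨s0, hs0⟩ : ∃ s0, s0 = Real.log ‖x‖ := ⟨_, rfl⟩
  obtain ⟨s1, hs1⟩ : ∃ s1, s1 = Real.log ‖y‖ := ⟨_, rfl⟩
  have hes0 : Real.exp s0 = ‖x‖ := by rw [hs0, Real.exp_log hx']
  have hes1 : Real.exp s1 = ‖y‖ := by rw [hs1, Real.exp_log hy']
  let w : ℝ → E := fun t => Real.cos (t * θ) • p + Real.sin (t * θ) • n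
  let c : ℝ → E := fun t => Real.exp (s0 + t * (s1 - s0)) • w t
  have hwn : ∀ t, ‖w t‖ = 1 := by
    intro t
    have : ‖w t‖ ^ 2 = 1 := by
      simp only [w]
      rw [norm_add_sq_real, real_inner_smul_left, real_inner_smul_right, hpn, norm_smul, norm_smul,
        hp1, hn1, mul_pow, mul_pow, Real.norm_eq_abs, Real.norm_eq_abs, sq_abs, sq_abs]
      have := Real.sin_sq_add_cos_sq (t * θ)
      nlinarith
    exact (pow_left_inj₀ (norm_nonneg _) zero_le_one two_ne_zero).mp (by rw [this]; norm_num)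
  have hcd : ContDiff ℝ 1 c := by
    simp only [c, w]
    fun_prop
  have hder : ∀ t, HasDerivAt c ((Real.exp (s0 + t * (s1 - s0)) * (s1 - s0)) • w t +
      Real.exp (s0 + t * (s1 - s0)) • ((-Real.sin (t * θ) * θ) • p + (Real.cos (t * θ) * θ) • n)) t := by
    intro t
    have h1 : HasDerivAt (fun t => Real.exp (s0 + t * (s1 - s0)))
        (Real.exp (s0 + t * (s1 - s0)) * (s1 - s0)) t := by
      have : HasDerivAt (fun t => s0 + t * (s1 - s0)) (s1 - s0) t := by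
        simpa using ((hasDerivAt_id t).mul_const (s1 - s0)).const_add s0
      exact this.exp
    have h2 : HasDerivAt (fun t : ℝ => t * θ) θ t := by
      simpa using (hasDerivAt_id t).mul_const θ
    have h3 : HasDerivAt w ((-Real.sin (t * θ) * θ) • p + (Real.cos (t * θ) * θ) • n) t := by
      have a1 := (h2.cos).smul_const p
      have a2 := (h2.sin).smul_const n
      exact a1.fun_add a2
    have h4 := h1.fun_smul h3
    refine h4.congr_deriv ?_
    abel
  refine ⟨c, hcd, ?_, ?_, ?_⟩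
  · simp only [c, w]
    simp [hes0, ← hxp]
  · simp only [c, w, one_mul]
    rw [← hqn]
    have : s0 + (s1 - s0) = s1 := by ring
    rw [this, hes1, ← hyq]
  · intro t
    have he : 0 < Real.exp (s0 + t * (s1 - s0)) := Real.exp_pos _
    have hcn : ‖c t‖ = Real.exp (s0 + t * (s1 - s0)) := by
      simp only [c]
      rw [norm_smul, hwn, mul_one, Real.norm_eq_abs, abs_of_pos he]
    constructor
    · rw [← norm_pos_iff, hcn]; exact he
    · rw [(hder t).deriv, hcn]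
      have e1 : (Real.exp (s0 + t * (s1 - s0)) * (s1 - s0)) • w t +
          Real.exp (s0 + t * (s1 - s0)) • ((-Real.sin (t * θ) * θ) • p + (Real.cos (t * θ) * θ) • n)
          = Real.exp (s0 + t * (s1 - s0)) • (((s1 - s0) * Real.cos (t * θ) - Real.sin (t * θ) * θ) • p
            + ((s1 - s0) * Real.sin (t * θ) + Real.cos (t * θ) * θ) • n) := by
        simp only [w]
        module
      rw [e1, norm_smul, Real.norm_eq_abs, abs_of_pos he, mul_comm]
      congr 1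
      have e2 : ‖((s1 - s0) * Real.cos (t * θ) - Real.sin (t * θ) * θ) • p
            + ((s1 - s0) * Real.sin (t * θ) + Real.cos (t * θ) * θ) • n‖ ^ 2 = mD x y ^ 2 := by
        rw [norm_add_sq_real, real_inner_smul_left, real_inner_smul_right, hpn, norm_smul, norm_smul,
          hp1, hn1, mul_pow, mul_pow, Real.norm_eq_abs, Real.norm_eq_abs, sq_abs, sq_abs, mD_sq,
          ← hs0, ← hs1, ← hθ]
        have := Real.sin_sq_add_cos_sq (t * θ)
        have h8 : Real.sin (t * θ) ^ 2 = 1 - Real.cos (t * θ) ^ 2 := by linarith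
        ring_nf
        rw [h8]
        ring
      exact (pow_left_inj₀ (norm_nonneg _) (mD_nonneg _ _) two_ne_zero).mp e2

end Pool.Agent.H73
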