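import Pool.Agent.H73.PQC
import Pool.Agent.H73.PQE

open scoped Manifold ContDiff Topology ENNReal
open Set Bundle Bornology MeasureTheory Manifold Filter

noncomputable section

namespace Pool.Agent.H73

namespace PQ

variable {E : Type} [NormedAddCommGroup E] [InnerProductSpace ℝ E]
variable {Y : Type} [TopologicalSpace Y] [PQ E Y]

/-- speed of a projected curve -/
lemma enorm_mfderiv_pr_comp {c : ℝ → E} {c' : E} {t : ℝ} (hc : HasDerivAt c c' t) (h0 : c t ≠ 0) :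
    ‖(mfderiv 𝓘(ℝ, ℝ) 𝓘(ℝ, E) (pr E Y ∘ c) t (1 : ℝ) : TangentSpace 𝓘(ℝ, E) ((pr E Y ∘ c) t))‖ₑ
      = ENNReal.ofReal (‖c'‖ / ‖c t‖) := by
  have h1 : HasMFDerivAt 𝓘(ℝ, ℝ) 𝓘(ℝ, E) c t (ContinuousLinearMap.toSpanSingleton ℝ c') :=
    hc.hasFDerivAt.hasMFDerivAt
  have h2 : MDifferentiableAt 𝓘(ℝ, E) 𝓘(ℝ, E) (pr E Y) (c t) :=
    (contMDiffAt_pr h0).mdifferentiableAt (by simp)
  have h3 := h2.hasMFDerivAt.comp t h1
  rw [h3.mfderiv]
  have h4 := norm_mfderiv_pr (Y := Y) h0 c'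
  rw [← h4, enorm_eq_nnnorm, ← norm_toNNReal, ENNReal.ofReal]
  congr 3
  have h5 : (ContinuousLinearMap.toSpanSingleton ℝ c') (1 : ℝ) = c' := by simp
  exact congrArg (fun v : E => (mfderiv 𝓘(ℝ, E) 𝓘(ℝ, E) (pr E Y) (c t) : E →L[ℝ] E) v) h5

lemma riemannianEDist_pr_le (hperp : ∀ p : E, ∃ n : E, ‖n‖ = 1 ∧ inner ℝ p n = 0) {x y : E}
    (hx : x ≠ 0) (hy : y ≠ 0) :
    riemannianEDist 𝓘(ℝ, E) (pr E Y x) (pr E Y y) ≤ ENNReal.ofReal (mD x y) := by
  obtain ⟨c, hc, hc0, hc1, hct⟩ := exists_model_geodesic hperp hx hy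
  have h1 : ContMDiffOn 𝓘(ℝ, ℝ) 𝓘(ℝ, E) 1 (pr E Y ∘ c) (Icc 0 1) := by
    intro t _
    have := (contMDiffAt_pr (Y := Y) (hct t).1).of_le (n := ∞) (m := 1) (by exact_mod_cast le_top)
    exact (this.comp t hc.contMDiff.contMDiffAt).contMDiffWithinAt
  refine (riemannianEDist_le_pathELength h1 (by simp [hc0]) (by simp [hc1]) zero_le_one).trans ?_
  rw [pathELength_eq_lintegral_mfderiv_Icc]
  refine (setLIntegral_congr_fun (g := fun _ => ENNReal.ofReal (mD x y)) measurableSet_Icc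
    (fun t _ => ?_)).trans_le ?_
  · have h3 : HasDerivAt c (deriv c t) t := (hc.differentiable one_ne_zero t).hasDerivAt
    refine (enorm_mfderiv_pr_comp h3 (hct t).1).trans ?_
    rw [(hct t).2]
    have := norm_pos_iff.mpr (hct t).1
    rw [mul_div_assoc, div_self this.ne', mul_one]
  · simp

end PQ

end Pool.Agent.H73
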