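import Pool.Agent.H73.PQF

open scoped Manifold ContDiff Topology ENNReal
open Set Bundle Bornology MeasureTheory Manifold Filter

noncomputable section

namespace Pool.Agent.H73

namespace PQ

variable {E : Type} [NormedAddCommGroup E] [InnerProductSpace ℝ E]
variable {Y : Type} [TopologicalSpace Y] [PQ E Y]

lemma pathELength_pr_comp {c : ℝ → E} {s t : ℝ} (hst : s ≤ t) (hc : ContDiffOn ℝ 1 c (Icc s t))
    (h0 : ∀ r ∈ Icc s t, c r ≠ 0) :
    pathELength 𝓘(ℝ, E) (pr E Y ∘ c) s t = pLen c s t := by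
  rw [pathELength_eq_lintegral_mfderiv_Ioo, pLen, ← restrict_Ioo_eq_restrict_Icc]
  apply setLIntegral_congr_fun measurableSet_Ioo
  intro r hr
  have hn : Icc s t ∈ 𝓝 r := Icc_mem_nhds hr.1 hr.2
  have h1 : HasDerivAt c (derivWithin c (Icc s t) r) r :=
    ((hc r (Ioo_subset_Icc_self hr)).differentiableWithinAt one_ne_zero).hasDerivWithinAt.hasDerivAt hn
  exact enorm_mfderiv_pr_comp h1 (h0 r (Ioo_subset_Icc_self hr))

lemma local_claim (γ : ℝ → Y) (hγ : ContMDiff 𝓘(ℝ, ℝ) 𝓘(ℝ, E) 1 γ) (t0 : ℝ) :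
    ∃ ε > 0, ∀ s t, t0 - ε < s → s ≤ t → t < t0 + ε → ∃ u w : E, u ≠ 0 ∧ w ≠ 0 ∧
      pr E Y u = γ s ∧ pr E Y w = γ t ∧
      ENNReal.ofReal (mD u w) ≤ pathELength 𝓘(ℝ, E) γ s t := by
  obtain ⟨e, he⟩ : ∃ e, e = chartAt E (γ t0) := ⟨_, rfl⟩
  have hmem : e ∈ atlas E Y := by rw [he]; exact chart_mem_atlas E _
  have hU : γ ⁻¹' e.source ∈ 𝓝 t0 := by
    apply hγ.continuous.continuousAt.preimage_mem_nhds
    rw [he]
    exact (chartAt E (γ t0)).open_source.mem_nhds (mem_chart_source E _)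
  obtain ⟨ε, hε, hball⟩ := Metric.mem_nhds_iff.mp hU
  refine ⟨ε, hε, ?_⟩
  intro s t hs hst ht
  have hsub : ∀ r ∈ Icc s t, γ r ∈ e.source := by
    intro r hr
    apply hball
    rw [Metric.mem_ball, Real.dist_eq, abs_lt]
    constructor <;> linarith [hr.1, hr.2]
  have hc : ContDiffOn ℝ 1 (e ∘ γ) (Icc s t) := by
    intro r hr
    have h1 : ContMDiffAt 𝓘(ℝ, E) 𝓘(ℝ, E) ∞ e (γ r) :=
      contMDiffAt_of_mem_maximalAtlas (IsManifold.subset_maximalAtlas hmem) (hsub r hr)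
    have h2 : ContMDiffAt 𝓘(ℝ, E) 𝓘(ℝ, E) 1 e (γ r) := h1.of_le (by exact_mod_cast le_top)
    exact ((h2.comp r (hγ r)).contDiffAt).contDiffWithinAt
  have h0 : ∀ r ∈ Icc s t, (e ∘ γ) r ≠ 0 := fun r hr => (pr_chart hmem (hsub r hr)).1
  have hpr : ∀ r ∈ Icc s t, γ r = (pr E Y ∘ (e ∘ γ)) r := fun r hr =>
    ((pr_chart hmem (hsub r hr)).2).symm
  refine ⟨e (γ s), e (γ t), h0 s (left_mem_Icc.mpr hst), h0 t (right_mem_Icc.mpr hst),
    (hpr s (left_mem_Icc.mpr hst)).symm, (hpr t (right_mem_Icc.mpr hst)).symm, ?_⟩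
  rw [pathELength_congr hpr, pathELength_pr_comp hst hc h0]
  exact mD_le_pLen hst hc h0

/-- distance from a point of the model to a fibre -/
def qD (x : E) (q : Y) : ℝ≥0∞ := ⨅ (y : E) (_ : y ≠ 0 ∧ pr E Y y = q), ENNReal.ofReal (mD x y)

lemma qD_le (x : E) {y : E} (hy : y ≠ 0) : qD x (pr E Y y) ≤ ENNReal.ofReal (mD x y) :=
  iInf₂_le_of_le y ⟨hy, rfl⟩ le_rfl

lemma qD_step (x : E) {u w : E} (hu : u ≠ 0) (hw : w ≠ 0) :
    qD x (pr E Y w) ≤ qD x (pr E Y u) + ENNReal.ofReal (mD u w) := by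
  unfold qD
  rw [ENNReal.iInf_add]
  refine le_iInf fun y => ?_
  rw [ENNReal.iInf_add]
  refine le_iInf fun hy => ?_
  obtain ⟨L, κ, hκ, hL, hLu, hLz⟩ := PQ.deck (Y := Y) u y hu hy.1 hy.2.symm
  have hLw : L w ≠ 0 := by
    rw [← norm_pos_iff, hL]
    have := norm_pos_iff.mpr hw
    positivity
  refine (iInf₂_le_of_le (L w) ⟨hLw, hLz w hw⟩ le_rfl).trans ?_
  rw [← ENNReal.ofReal_add (mD_nonneg _ _) (mD_nonneg _ _)]
  apply ENNReal.ofReal_le_ofReal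
  refine (mD_triangle x y (L w)).trans ?_
  rw [← hLu, mD_sim L κ hκ hL hu hw]

lemma qD_le_pathELength {x : E} (hx : x ≠ 0) (γ : ℝ → Y) (hγ : ContMDiff 𝓘(ℝ, ℝ) 𝓘(ℝ, E) 1 γ)
    (h0 : γ 0 = pr E Y x) : qD x (γ 1) ≤ pathELength 𝓘(ℝ, E) γ 0 1 := by
  choose ε hε hloc using local_claim γ hγ
  have hc1 : ∀ i : ℝ, IsOpen {r : Icc (0 : ℝ) 1 | i - ε i < r ∧ (r : ℝ) < i + ε i} := by
    intro i
    exact (isOpen_lt continuous_const continuous_subtype_val).inter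
      (isOpen_lt continuous_subtype_val continuous_const)
  have hc2 : (univ : Set (Icc (0 : ℝ) 1)) ⊆ ⋃ i : ℝ, {r : Icc (0 : ℝ) 1 | i - ε i < r ∧ (r : ℝ) < i + ε i} := by
    intro r _
    rw [mem_iUnion]
    exact ⟨r, by simp [hε], by simp [hε]⟩
  obtain ⟨T, hT0, hmono, ⟨m, hm⟩, hT⟩ := exists_monotone_Icc_subset_open_cover_Icc zero_le_one hc1 hc2
  have key : ∀ n, qD x (γ (T n)) ≤ pathELength 𝓘(ℝ, E) γ 0 (T n) := by
    intro n
    induction n with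
    | zero =>
      rw [hT0, h0]
      refine (qD_le x hx).trans ?_
      rw [mD_self hx]
      simp
    | succ n ih =>
      obtain ⟨i, hi⟩ := hT n
      have hle : (T n : ℝ) ≤ T (n + 1) := hmono (Nat.le_succ n)
      have h1 := hi (left_mem_Icc.mpr (hmono (Nat.le_succ n)))
      have h2 := hi (right_mem_Icc.mpr (hmono (Nat.le_succ n)))
      obtain ⟨u, w, hu, hw, hpu, hpw, hl⟩ := hloc i (T n) (T (n + 1)) h1.1 hle h2.2
      have h3 := qD_step (Y := Y) x hu hw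
      rw [hpu, hpw] at h3
      refine h3.trans ?_
      rw [← pathELength_add (T n).2.1 hle]
      exact add_le_add ih hl
  have := key m
  rw [hm m le_rfl] at this
  exact this

theorem riemannianEDist_eq (hperp : ∀ p : E, ∃ n : E, ‖n‖ = 1 ∧ inner ℝ p n = 0) {x : E}
    (hx : x ≠ 0) (q : Y) : riemannianEDist 𝓘(ℝ, E) (pr E Y x) q = qD x q := by
  apply le_antisymm
  · refine le_iInf₂ fun y hy => ?_
    rw [← hy.2]
    exact riemannianEDist_pr_le hperp hx hy.1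
  · apply le_of_forall_gt
    intro r hr
    obtain ⟨γ, h0, h1, hγ, hlt, -, -⟩ :=
      exists_lt_locally_constant_of_riemannianEDist_lt hr zero_lt_one
    refine lt_of_le_of_lt ?_ hlt
    rw [← h1]
    exact qD_le_pathELength hx γ hγ h0

end PQ

end Pool.Agent.H73
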