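import Pool.Agent.H73.PQH

open scoped Manifold ContDiff Topology ENNReal Quaternion
open Set Bundle Bornology MeasureTheory Manifold Filter InnerProductGeometry

noncomputable section

namespace Pool.Agent.H73

instance : LocallyCompactSpace HQˣ := Units.isOpenEmbedding_val.locallyCompactSpace

/-- the quotient of the nonzero quaternions by `x ~ w^m x a` -/
def Yq (A : Subgroup HQˣ) : Type := Quotient (MulAction.orbitRel (Grp A) HQˣ)

variable (A : Subgroup HQˣ)

instance : TopologicalSpace (Yq A) :=
  inferInstanceAs (TopologicalSpace (Quotient (MulAction.orbitRel (Grp A) HQˣ)))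

instance [Finite A] : T2Space (Yq A) :=
  inferInstanceAs (T2Space (Quotient (MulAction.orbitRel (Grp A) HQˣ)))

/-- the projection from the units -/
def mkY (x : HQˣ) : Yq A := Quotient.mk _ x

lemma mk_cov [Finite A] : IsQuotientCoveringMap (mkY A) (Grp A) :=
  isQuotientCoveringMap_quotientMk_of_properlyDiscontinuousSMul

lemma mk_surj : Function.Surjective (mkY A) := Quotient.mk_surjective

variable {A}

lemma mk_eq {x y : HQˣ} : mkY A x = mkY A y ↔ ∃ g : Grp A, g • y = x := by
  exact Quotient.eq (r := MulAction.orbitRel (Grp A) HQˣ)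

lemma mk_eq' {x y : HQˣ} : mkY A x = mkY A y ↔ ∃ (m : ℤ) (a : HQˣ), a ∈ A ∧ wq ^ m * y * a = x := by
  rw [mk_eq]
  constructor
  · rintro ⟨g, hg⟩
    exact ⟨Multiplicative.toAdd g.1, (g.2 : HQˣ)⁻¹, A.inv_mem g.2.2, hg⟩
  · rintro ⟨m, a, ha, h⟩
    let g : Grp A := (Multiplicative.ofAdd m, ⟨a⁻¹, A.inv_mem ha⟩)
    refine ⟨g, ?_⟩
    have h1 : g • y = wq ^ m * y * (a⁻¹)⁻¹ := rfl
    rw [h1, inv_inv, h]

variable (A) in
/-- the projection from the quaternions, with a junk value at the origin -/
def pj (z : HQ) : Yq A := open Classical in if h : z = 0 then mkY A 1 else mkY A (Units.mk0 z h)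

lemma pj_val (u : HQˣ) : pj A (u : HQ) = mkY A u := by
  unfold pj
  rw [dif_neg (Units.ne_zero u)]
  congr 1
  exact Units.mk0_val u _

lemma pj_mk0 {z : HQ} (h : z ≠ 0) : pj A z = mkY A (Units.mk0 z h) := by
  unfold pj
  rw [dif_neg h]

instance [Finite A] : PQ HQ (Yq A) where
  pi := pj A
  surj q := by
    obtain ⟨u, rfl⟩ := mk_surj A q
    exact ⟨u, Units.ne_zero u, pj_val u⟩
  loc x hx := by
    obtain ⟨e', he', hee⟩ := (mk_cov A).isCoveringMap.isLocalHomeomorph (Units.mk0 x hx)
    have : Nonempty HQˣ := ⟨1⟩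
    let v : OpenPartialHomeomorph HQˣ HQ :=
      Units.isOpenEmbedding_val.toOpenPartialHomeomorph (Units.val : HQˣ → HQ)
    have hv : ∀ u : HQˣ, v u = (u : HQ) := fun u => rfl
    have hvs : ∀ u : HQˣ, v.symm (u : HQ) = u := by
      intro u
      have : u ∈ v.source := by
        simp [v]
      rw [← hv]
      exact v.left_inv this
    refine ⟨v.symm.trans e', ?_, ?_⟩
    · simp only [OpenPartialHomeomorph.trans_source, OpenPartialHomeomorph.symm_source, mem_inter_iff,
        mem_preimage]
      constructor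
      · have : (Units.mk0 x hx) ∈ v.source := by simp [v]
        have := v.map_source this
        simpa [hv] using this
      · have := hvs (Units.mk0 x hx)
        simp only [Units.val_mk0] at this
        rw [this]
        exact he'
    · intro z hz
      simp only [OpenPartialHomeomorph.trans_source, OpenPartialHomeomorph.symm_source, mem_inter_iff,
        mem_preimage] at hz
      have hz1 : z ∈ range (Units.val : HQˣ → HQ) := by
        have := hz.1
        simpa [v] using this
      obtain ⟨u, rfl⟩ := hz1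
      refine ⟨Units.ne_zero u, ?_⟩
      rw [pj_val, OpenPartialHomeomorph.trans_apply, hvs, ← hee]
  deck x y hx hy hxy := by
    rw [pj_mk0 hx, pj_mk0 hy] at hxy
    obtain ⟨m, a, ha, h⟩ := mk_eq'.mp hxy.symm
    refine ⟨ContinuousLinearMap.mulLeftRight ℝ HQ ((wq ^ m : HQˣ) : HQ) (a : HQ),
      Real.exp (m * tt), Real.exp_pos _, ?_, ?_, ?_⟩
    · intro v
      rw [ContinuousLinearMap.mulLeftRight_apply, norm_mul, norm_mul, norm_wq_zpow,
        norm_of_mem ha, mul_one]
    · rw [ContinuousLinearMap.mulLeftRight_apply]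
      have := congrArg Units.val h
      simpa using this
    · intro z hz
      rw [ContinuousLinearMap.mulLeftRight_apply]
      have h1 : ((wq ^ m : HQˣ) : HQ) * z * (a : HQ) = ((wq ^ m * Units.mk0 z hz * a : HQˣ) : HQ) := by
        simp
      rw [h1, pj_val, pj_mk0 hz]
      exact (mk_eq').mpr ⟨m, a, ha, rfl⟩

end Pool.Agent.H73
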