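import Pool.Agent.H73.PQI

open scoped Manifold ContDiff Topology ENNReal Quaternion
open Set Bundle Bornology MeasureTheory Manifold Filter InnerProductGeometry

noncomputable section

namespace Pool.Agent.H73

variable {A : Subgroup HQˣ}

lemma qi_re : qi.re = 0 := rfl
lemma qi_imI : qi.imI = 1 := rfl
lemma qi_imJ : qi.imJ = 0 := rfl
lemma qi_imK : qi.imK = 0 := rfl
lemma qj_re : qj.re = 0 := rfl
lemma qj_imI : qj.imI = 0 := rfl
lemma qj_imJ : qj.imJ = 1 := rfl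
lemma qj_imK : qj.imK = 0 := rfl

lemma hperpHQ : ∀ p : HQ, ∃ n : HQ, ‖n‖ = 1 ∧ inner ℝ p n = 0 := by
  intro p
  rcases eq_or_ne p 0 with rfl | hp
  · exact ⟨qi, normSq_qi, by simp⟩
  · have hp' := norm_pos_iff.mpr hp
    refine ⟨‖p‖⁻¹ • (qi * p), ?_, ?_⟩
    · rw [norm_smul, norm_mul, normSq_qi, norm_inv, norm_norm, one_mul, inv_mul_cancel₀ hp'.ne']
    · rw [real_inner_smul_right, Quaternion.inner_def]
      simp only [Quaternion.re_mul, Quaternion.re_star, Quaternion.imI_star,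
        Quaternion.imJ_star, Quaternion.imK_star, Quaternion.imI_mul, Quaternion.imJ_mul,
        Quaternion.imK_mul, qi_re, qi_imI, qi_imJ, qi_imK]
      ring

lemma pj_continuousOn [Finite A] : ContinuousOn (pj A) {z : HQ | z ≠ 0} := fun _ hz =>
  (PQ.continuousAt_pr (Y := Yq A) hz).continuousWithinAt

lemma pj_wq {z : HQ} (hz : z ≠ 0) (m : ℤ) {a : HQˣ} (ha : a ∈ A) :
    pj A (((wq ^ m : HQˣ) : HQ) * z * (a : HQ)) = pj A z := by
  have h1 : ((wq ^ m : HQˣ) : HQ) * z * (a : HQ) = ((wq ^ m * Units.mk0 z hz * a : HQˣ) : HQ) := by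
    simp
  rw [h1, pj_val, pj_mk0 hz]
  exact (mk_eq').mpr ⟨m, a, ha, rfl⟩

lemma pj_eq_iff {x y : HQ} (hx : x ≠ 0) (hy : y ≠ 0) :
    pj A x = pj A y ↔ ∃ (m : ℤ) (a : HQˣ), a ∈ A ∧ ((wq ^ m : HQˣ) : HQ) * y * (a : HQ) = x := by
  rw [pj_mk0 hx, pj_mk0 hy, mk_eq']
  constructor
  · rintro ⟨m, a, ha, h⟩
    exact ⟨m, a, ha, by simpa using congrArg Units.val h⟩
  · rintro ⟨m, a, ha, h⟩
    exact ⟨m, a, ha, Units.ext (by simpa using h)⟩

lemma exists_shift (z : HQ) (hz : z ≠ 0) (c : ℝ) : ∃ m : ℤ,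
    c ≤ Real.log ‖((wq ^ m : HQˣ) : HQ) * z‖ ∧ Real.log ‖((wq ^ m : HQˣ) : HQ) * z‖ < c + tt := by
  have hz' := norm_pos_iff.mpr hz
  refine ⟨-⌊(Real.log ‖z‖ - c) / tt⌋, ?_⟩
  rw [norm_mul, norm_wq_zpow, Real.log_mul (Real.exp_ne_zero _) hz'.ne', Real.log_exp]
  have h1 := Int.floor_le ((Real.log ‖z‖ - c) / tt)
  have h2 := Int.lt_floor_add_one ((Real.log ‖z‖ - c) / tt)
  rw [le_div_iff₀ tt_pos] at h1
  rw [div_lt_iff₀ tt_pos] at h2
  push_cast
  constructor <;> nlinarith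

instance [Finite A] : CompactSpace (Yq A) := by
  refine ⟨?_⟩
  have hK : IsCompact {z : HQ | 1 ≤ ‖z‖ ∧ ‖z‖ ≤ Real.exp tt} := by
    apply Metric.isCompact_of_isClosed_isBounded
    · exact (isClosed_le continuous_const continuous_norm).inter
        (isClosed_le continuous_norm continuous_const)
    · rw [isBounded_iff_forall_norm_le]
      exact ⟨Real.exp tt, fun x hx => hx.2⟩
  have hsub : {z : HQ | 1 ≤ ‖z‖ ∧ ‖z‖ ≤ Real.exp tt} ⊆ {z : HQ | z ≠ 0} := by
    intro z hz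
    rw [mem_ofPred_eq, ← norm_pos_iff]
    linarith [hz.1]
  have h1 := hK.image_of_continuousOn ((pj_continuousOn (A := A)).mono hsub)
  convert h1
  symm
  rw [eq_univ_iff_forall]
  intro q
  obtain ⟨u, rfl⟩ := mk_surj A q
  obtain ⟨m, hm1, hm2⟩ := exists_shift (u : HQ) (Units.ne_zero u) 0
  have hpos : 0 < ‖((wq ^ m : HQˣ) : HQ) * (u : HQ)‖ := by
    rw [norm_pos_iff]
    exact mul_ne_zero (Units.ne_zero _) (Units.ne_zero _)
  refine ⟨((wq ^ m : HQˣ) : HQ) * (u : HQ), ⟨?_, ?_⟩, ?_⟩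
  · rw [← Real.exp_log hpos]
    exact Real.one_le_exp hm1
  · rw [← Real.exp_log hpos]
    apply Real.exp_le_exp.mpr
    linarith
  · have := pj_wq (A := A) (Units.ne_zero u) m A.one_mem
    simp only [Units.val_one, mul_one] at this
    rw [this, pj_val]

instance [Finite A] : ConnectedSpace (Yq A) := by
  rw [connectedSpace_iff_univ]
  have h1 : IsConnected ({(0 : HQ)}ᶜ) := by
    apply IsPathConnected.isConnected
    apply isPathConnected_compl_singleton_of_one_lt_rank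
    rw [Quaternion.rank_eq_four]
    norm_num
  have h2 := h1.image (pj A) (pj_continuousOn (A := A))
  convert h2
  symm
  rw [eq_univ_iff_forall]
  intro q
  obtain ⟨u, rfl⟩ := mk_surj A q
  exact ⟨(u : HQ), Units.ne_zero u, pj_val u⟩

/-- the Riemannian distance -/
@[reducible] def emet (A : Subgroup HQˣ) [Finite A] : EMetricSpace (Yq A) :=
  EMetricSpace.ofRiemannianMetric 𝓘(ℝ, HQ) (Yq A)

lemma edist_emet (A : Subgroup HQˣ) [Finite A] (x y : Yq A) :
    (emet A).edist x y = riemannianEDist 𝓘(ℝ, HQ) x y := rfl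

lemma redist_eq [Finite A] {x y : HQ} (hx : x ≠ 0) (hy : y ≠ 0) :
    riemannianEDist 𝓘(ℝ, HQ) (pj A x) (pj A y) =
      ⨅ (m : ℤ) (a : A), ENNReal.ofReal (mD x (((wq ^ m : HQˣ) : HQ) * y * ((a : HQˣ) : HQ))) := by
  have h := PQ.riemannianEDist_eq (Y := Yq A) hperpHQ hx (pj A y)
  refine h.trans ?_
  unfold PQ.qD
  apply le_antisymm
  · refine le_iInf₂ fun m a => ?_
    refine iInf₂_le_of_le (((wq ^ m : HQˣ) : HQ) * y * ((a : HQˣ) : HQ)) ⟨?_, ?_⟩ le_rfl
    · exact mul_ne_zero (mul_ne_zero (Units.ne_zero _) hy) (Units.ne_zero _)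
    · exact pj_wq hy m a.2
  · refine le_iInf₂ fun z hz => ?_
    obtain ⟨m, a, ha, h1⟩ := (pj_eq_iff hz.1 hy).mp hz.2
    rw [← h1]
    exact iInf₂_le_of_le m ⟨a, ha⟩ le_rfl

lemma redist_ne_top [Finite A] (x y : Yq A) : riemannianEDist 𝓘(ℝ, HQ) x y ≠ ⊤ := by
  obtain ⟨u, rfl⟩ := mk_surj A x
  obtain ⟨v, rfl⟩ := mk_surj A y
  rw [← pj_val, ← pj_val, redist_eq (Units.ne_zero u) (Units.ne_zero v)]
  apply ne_top_of_le_ne_top ENNReal.ofReal_ne_top
  exact iInf₂_le_of_le 0 1 le_rfl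

/-- the Riemannian distance as a metric -/
@[reducible] def met (A : Subgroup HQˣ) [Finite A] : MetricSpace (Yq A) :=
  letI := emet A
  EMetricSpace.toMetricSpace (fun x y => redist_ne_top x y)

lemma top_met (A : Subgroup HQˣ) [Finite A] :
    (met A).toPseudoMetricSpace.toUniformSpace.toTopologicalSpace = instTopologicalSpaceYq A := rfl

lemma edist_met (A : Subgroup HQˣ) [Finite A] (x y : Yq A) :
    (met A).toPseudoMetricSpace.toPseudoEMetricSpace.edist x y = riemannianEDist 𝓘(ℝ, HQ) x y := rfl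

lemma dist_met (A : Subgroup HQˣ) [Finite A] (x y : Yq A) :
    (met A).toPseudoMetricSpace.dist x y = (riemannianEDist 𝓘(ℝ, HQ) x y).toReal := rfl

end Pool.Agent.H73
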