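import Pool.Agent.H73.PQJ

open scoped Manifold ContDiff Topology ENNReal Quaternion
open Set Bundle Bornology MeasureTheory Manifold Filter InnerProductGeometry

noncomputable section

namespace Pool.Agent.H73

variable {A : Subgroup HQˣ}

lemma redist_mk [Finite A] (x y : HQˣ) :
    riemannianEDist 𝓘(ℝ, HQ) (mkY A x) (mkY A y) =
      ⨅ (z : HQˣ) (_ : mkY A z = mkY A y), ENNReal.ofReal (mD (x : HQ) (z : HQ)) := by
  rw [← pj_val, ← pj_val, redist_eq (Units.ne_zero x) (Units.ne_zero y)]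
  apply le_antisymm
  · refine le_iInf₂ fun z hz => ?_
    obtain ⟨m, a, ha, h1⟩ := mk_eq'.mp (hz.trans (pj_val y))
    refine iInf₂_le_of_le m ⟨a, ha⟩ ?_
    rw [← h1]
    simp
  · refine le_iInf₂ fun m a => ?_
    refine iInf₂_le_of_le (wq ^ m * y * (a : HQˣ)) ?_ ?_
    · rw [pj_val]
      exact mk_eq'.mpr ⟨m, a, a.2, rfl⟩
    · simp

/-- a symmetry of the model which normalises the deck group -/
structure Sym (A : Subgroup HQˣ) where
  toFun : HQˣ → HQˣ
  invFun : HQˣ → HQˣ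
  left_inv : Function.LeftInverse invFun toFun
  right_inv : Function.RightInverse invFun toFun
  map : ∀ x y, mkY A x = mkY A y → mkY A (toFun x) = mkY A (toFun y)
  map' : ∀ x y, mkY A x = mkY A y → mkY A (invFun x) = mkY A (invFun y)
  mD_eq : ∀ x y : HQˣ, mD (toFun x : HQ) (toFun y : HQ) = mD (x : HQ) (y : HQ)

namespace Sym

/-- the induced permutation of the quotient -/
def equiv (S : Sym A) : Yq A ≃ Yq A where
  toFun := Quotient.lift (fun x => mkY A (S.toFun x)) (fun x y h => S.map x y (Quotient.sound h))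
  invFun := Quotient.lift (fun x => mkY A (S.invFun x)) (fun x y h => S.map' x y (Quotient.sound h))
  left_inv := by
    intro q
    obtain ⟨x, rfl⟩ := mk_surj A q
    change mkY A (S.invFun (S.toFun x)) = mkY A x
    rw [S.left_inv]
  right_inv := by
    intro q
    obtain ⟨x, rfl⟩ := mk_surj A q
    change mkY A (S.toFun (S.invFun x)) = mkY A x
    rw [S.right_inv]

lemma equiv_mk (S : Sym A) (x : HQˣ) : S.equiv (mkY A x) = mkY A (S.toFun x) := rfl

lemma redist_equiv [Finite A] (S : Sym A) (p q : Yq A) :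
    riemannianEDist 𝓘(ℝ, HQ) (S.equiv p) (S.equiv q) = riemannianEDist 𝓘(ℝ, HQ) p q := by
  obtain ⟨x, rfl⟩ := mk_surj A p
  obtain ⟨y, rfl⟩ := mk_surj A q
  rw [equiv_mk, equiv_mk, redist_mk, redist_mk]
  apply le_antisymm
  · refine le_iInf₂ fun z hz => ?_
    refine iInf₂_le_of_le (S.toFun z) (S.map _ _ hz) ?_
    rw [S.mD_eq]
  · refine le_iInf₂ fun z hz => ?_
    refine iInf₂_le_of_le (S.invFun z) ?_ ?_
    · have := S.map' _ _ hz
      rwa [S.left_inv] at this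
    · rw [← S.mD_eq, S.right_inv]

/-- the induced isometry of the quotient -/
def isom [Finite A] (S : Sym A) : letI := met A; Yq A ≃ᵢ Yq A :=
  letI := met A
  { toEquiv := S.equiv
    isometry_toFun := fun p q => S.redist_equiv p q }

end Sym

/-- left and right multiplications are similarities -/
lemma mD_mul (c d : HQˣ) (x y : HQˣ) :
    mD ((c * x * d : HQˣ) : HQ) ((c * y * d : HQˣ) : HQ) = mD (x : HQ) (y : HQ) := by
  have h := mD_sim (ContinuousLinearMap.mulLeftRight ℝ HQ (c : HQ) (d : HQ))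
    (‖(c : HQ)‖ * ‖(d : HQ)‖) (by simp) (by
      intro v
      rw [ContinuousLinearMap.mulLeftRight_apply, norm_mul, norm_mul]
      ring) (Units.ne_zero x) (Units.ne_zero y)
  rw [ContinuousLinearMap.mulLeftRight_apply, ContinuousLinearMap.mulLeftRight_apply] at h
  simpa using h

/-- the inversion `z ↦ z / |z|^2` -/
def inv' (z : HQˣ) : HQˣ := (star z)⁻¹

lemma inv'_val (z : HQˣ) : ((inv' z : HQˣ) : HQ) = (‖(z : HQ)‖ ^ 2)⁻¹ • (z : HQ) := by
  unfold inv'
  rw [Units.val_inv_eq_inv_val, Units.coe_star, Quaternion.inv_def, star_star,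
    Quaternion.normSq_star, Quaternion.normSq_eq_norm_mul_self, sq]

lemma inv'_mul (z w : HQˣ) : inv' (z * w) = inv' z * inv' w := by
  unfold inv'
  rw [star_mul, mul_inv_rev]

lemma inv'_inv' (z : HQˣ) : inv' (inv' z) = z := by
  unfold inv'
  simp

lemma mD_inv' (x y : HQˣ) : mD ((inv' x : HQˣ) : HQ) ((inv' y : HQˣ) : HQ) = mD (x : HQ) (y : HQ) := by
  have hx : 0 < ‖(x : HQ)‖ := by simp
  have hy : 0 < ‖(y : HQ)‖ := by simp
  unfold mD
  rw [inv'_val, inv'_val, angle_smul_left_of_pos _ _ (by positivity),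
    angle_smul_right_of_pos _ _ (by positivity)]
  congr 2
  have e1 : Real.log ‖(‖(x : HQ)‖ ^ 2)⁻¹ • (x : HQ)‖ = - Real.log ‖(x : HQ)‖ := by
    rw [norm_smul, norm_inv, norm_pow, norm_norm, ← Real.log_inv]
    congr 1
    field_simp
  have e2 : Real.log ‖(‖(y : HQ)‖ ^ 2)⁻¹ • (y : HQ)‖ = - Real.log ‖(y : HQ)‖ := by
    rw [norm_smul, norm_inv, norm_pow, norm_norm, ← Real.log_inv]
    congr 1
    field_simp
  rw [e1, e2]
  ring

instance instFiniteBot : Finite (⊥ : Subgroup HQˣ) := inferInstance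

lemma mk_bot {x y : HQˣ} : mkY ⊥ x = mkY ⊥ y ↔ ∃ m : ℤ, wq ^ m * y = x := by
  rw [mk_eq']
  constructor
  · rintro ⟨m, a, ha, h⟩
    rw [Subgroup.mem_bot] at ha
    rw [ha, mul_one] at h
    exact ⟨m, h⟩
  · rintro ⟨m, h⟩
    exact ⟨m, 1, Subgroup.one_mem _, by rw [mul_one, h]⟩

/-- right multiplication -/
def rmul (a : HQˣ) : Sym (⊥ : Subgroup HQˣ) where
  toFun x := x * a
  invFun x := x * a⁻¹
  left_inv x := by simp
  right_inv x := by simp
  map x y h := by
    obtain ⟨m, rfl⟩ := mk_bot.mp h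
    exact mk_bot.mpr ⟨m, by rw [mul_assoc]⟩
  map' x y h := by
    obtain ⟨m, rfl⟩ := mk_bot.mp h
    exact mk_bot.mpr ⟨m, by rw [mul_assoc]⟩
  mD_eq x y := by
    have := mD_mul 1 a x y
    simpa using this

lemma star_qi : star qi = - qi := by
  ext <;> simp [qi_re, qi_imI, qi_imJ, qi_imK]

lemma star_wq : star wq = - wq := by
  apply Units.ext
  rw [Units.coe_star, Units.val_neg]
  simp only [wq, Units.val_mk0]
  rw [Quaternion.star_smul, star_qi, smul_neg]

lemma inv'_wq : inv' wq = - wq⁻¹ := by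
  unfold inv'
  rw [star_wq, inv_neg]

lemma anti_wq (J : HQˣ) (hJ : (J : HQ) * qi = - (qi * (J : HQ))) : J * wq = - (wq * J) := by
  apply Units.ext
  rw [Units.val_mul, Units.val_neg, Units.val_mul]
  simp only [wq, Units.val_mk0]
  rw [mul_smul_comm, smul_mul_assoc, hJ, smul_neg]

lemma semi (J : HQˣ) (hJ : (J : HQ) * qi = - (qi * (J : HQ))) : SemiconjBy J (inv' wq) (wq⁻¹) := by
  have h := anti_wq J hJ
  rw [inv'_wq]
  unfold SemiconjBy
  rw [mul_neg, eq_inv_mul_iff_mul_eq, mul_neg, ← mul_assoc, ← neg_mul, ← h, mul_inv_cancel_right]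

/-- the inversion as a homomorphism -/
def invHom : HQˣ →* HQˣ := ⟨⟨inv', by unfold inv'; simp⟩, inv'_mul⟩

lemma swp_key (J c : HQˣ) (hJ : (J : HQ) * qi = - (qi * (J : HQ))) (m : ℤ) (y : HQˣ) :
    J * inv' (wq ^ m * y) * c = wq ^ (-m) * (J * inv' y * c) := by
  have h1 : inv' (wq ^ m) = (inv' wq) ^ m := map_zpow invHom wq m
  have h2 := (semi J hJ).zpow_right m
  unfold SemiconjBy at h2
  rw [inv'_mul, h1, ← mul_assoc J, h2, inv_zpow', mul_assoc, mul_assoc, mul_assoc]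

/-- the swapping maps: `z ↦ J (star z)⁻¹ c` with `J` anticommuting with `i` -/
def swp (J c : HQˣ) (hJ : (J : HQ) * qi = - (qi * (J : HQ))) : Sym (⊥ : Subgroup HQˣ) where
  toFun z := J * inv' z * c
  invFun z := inv' (J⁻¹ * z * c⁻¹)
  left_inv z := by
    simp only
    rw [show J⁻¹ * (J * inv' z * c) * c⁻¹ = inv' z by group, inv'_inv']
  right_inv z := by
    simp only
    rw [inv'_inv']
    group
  map x y h := by
    obtain ⟨m, rfl⟩ := mk_bot.mp h
    exact mk_bot.mpr ⟨-m, (swp_key J c hJ m y).symm⟩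
  map' x y h := by
    obtain ⟨m, rfl⟩ := mk_bot.mp h
    refine mk_bot.mpr ⟨-m, ?_⟩
    have h1 := swp_key J c hJ (-m) (inv' (J⁻¹ * y * c⁻¹))
    rw [inv'_inv', neg_neg, show J * (J⁻¹ * y * c⁻¹) * c = y by group] at h1
    rw [← h1]
    rw [show J⁻¹ * (J * inv' (wq ^ (-m) * inv' (J⁻¹ * y * c⁻¹)) * c) * c⁻¹ =
      inv' (wq ^ (-m) * inv' (J⁻¹ * y * c⁻¹)) by group, inv'_inv']
  mD_eq x y := by
    rw [mD_mul, mD_inv']

/-- quaternions in the span of `j` and `k` -/
def qjk (a b : ℝ) : HQ := ⟨0, 0, a, b⟩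

lemma qjk_re (a b : ℝ) : (qjk a b).re = 0 := rfl
lemma qjk_imI (a b : ℝ) : (qjk a b).imI = 0 := rfl
lemma qjk_imJ (a b : ℝ) : (qjk a b).imJ = a := rfl
lemma qjk_imK (a b : ℝ) : (qjk a b).imK = b := rfl

/-- weak symmetry at the level of representatives -/
lemma exists_swap (x y : HQˣ) : ∃ S : Sym (⊥ : Subgroup HQˣ), S.toFun x = y ∧ S.toFun y = x := by
  obtain ⟨q, hq⟩ : ∃ q : HQ, q = (x : HQ) * ((y⁻¹ : HQˣ) : HQ) := ⟨_, rfl⟩
  obtain ⟨J, hJ0, hJ1, hJ2⟩ : ∃ J : HQ, J ≠ 0 ∧ J * qi = - (qi * J) ∧ J * star q = q * J := by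
    by_cases h : q.imJ = 0 ∧ q.imK = 0
    · refine ⟨qj, qj_ne, ?_, ?_⟩
      · ext <;> simp [qi_re, qi_imI, qi_imJ, qi_imK, qj_re, qj_imI, qj_imJ, qj_imK]
      · ext <;> simp [qj_re, qj_imI, qj_imJ, qj_imK, h.1, h.2]
    · refine ⟨qjk (-q.imK) q.imJ, ?_, ?_, ?_⟩
      · intro h0
        apply h
        have h1 := congrArg QuaternionAlgebra.imJ h0
        have h2 := congrArg QuaternionAlgebra.imK h0
        rw [qjk_imJ] at h1
        rw [qjk_imK] at h2
        exact ⟨h2, by simpa using h1⟩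
      · ext <;> simp [qi_re, qi_imI, qi_imJ, qi_imK, qjk_re, qjk_imI, qjk_imJ, qjk_imK]
      · ext <;> simp [qjk_re, qjk_imI, qjk_imJ, qjk_imK] <;> ring
  obtain ⟨j, hj⟩ : ∃ j : HQˣ, (j : HQ) = J := ⟨Units.mk0 J hJ0, rfl⟩
  have hj1 : (j : HQ) * qi = - (qi * (j : HQ)) := by rw [hj]; exact hJ1
  have hj2 : j * star (x * y⁻¹) = (x * y⁻¹) * j := by
    apply Units.ext
    rw [Units.val_mul, Units.val_mul, Units.coe_star, Units.val_mul, ← hq, hj]
    exact hJ2
  refine ⟨swp j (star x * j⁻¹ * y) hj1, ?_, ?_⟩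
  · change j * inv' x * (star x * j⁻¹ * y) = y
    unfold inv'
    group
  · change j * inv' y * (star x * j⁻¹ * y) = x
    unfold inv'
    have h1 : (star y)⁻¹ * star x = star (x * y⁻¹) := by
      rw [star_mul, star_inv]
    calc j * (star y)⁻¹ * (star x * j⁻¹ * y) = j * ((star y)⁻¹ * star x) * j⁻¹ * y := by group
      _ = (x * y⁻¹) * j * j⁻¹ * y := by rw [h1, hj2]
      _ = x := by group

end Pool.Agent.H73
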