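import Pool.Agent.H73.PQL

open scoped Manifold ContDiff Topology ENNReal Quaternion
open Set Bundle Bornology MeasureTheory Manifold Filter InnerProductGeometry

noncomputable section

namespace Pool.Agent.H73

namespace PQ

variable {E : Type} [NormedAddCommGroup E] [InnerProductSpace ℝ E]
variable {Y : Type} [TopologicalSpace Y] [PQ E Y]
variable {Z : Type} [TopologicalSpace Z] [PQ E Z]

/-- local form of a map between quotients compatible with the projections -/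
lemma local_form {p : Y → Z} (hp : ∀ z : E, z ≠ 0 → p (pr E Y z) = pr E Z z) (q : Y) :
    p =ᶠ[𝓝 q] fun q' => pr E Z (chartAt E q q') := by
  filter_upwards [(chartAt E q).open_source.mem_nhds (mem_chart_source E q)] with q' hq'
  obtain ⟨h0, h1⟩ := pr_chart (chart_mem_atlas E q) hq'
  rw [← hp _ h0, h1]

lemma contMDiff_of_compat {p : Y → Z} (hp : ∀ z : E, z ≠ 0 → p (pr E Y z) = pr E Z z) :
    ContMDiff 𝓘(ℝ, E) 𝓘(ℝ, E) ∞ p := by
  intro q
  refine ContMDiffAt.congr_of_eventuallyEq ?_ (local_form hp q)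
  have h1 : ContMDiffAt 𝓘(ℝ, E) 𝓘(ℝ, E) ∞ (chartAt E q) q :=
    contMDiffAt_extChartAt (I := 𝓘(ℝ, E)) (n := ∞) (x := q)
  have h2 : ContMDiffAt 𝓘(ℝ, E) 𝓘(ℝ, E) ∞ (pr E Z) (chartAt E q q) := contMDiffAt_pr (co_ne q)
  exact h2.comp q h1

lemma hasMFDerivAt_chart (q : Y) :
    HasMFDerivAt 𝓘(ℝ, E) 𝓘(ℝ, E) (chartAt E q) q (ContinuousLinearMap.id ℝ E) := by
  refine ⟨(chartAt E q).continuousAt (mem_chart_source E q), ?_⟩
  have key : writtenInExtChartAt 𝓘(ℝ, E) 𝓘(ℝ, E) q (chartAt E q) =ᶠ[𝓝 (co q)] id := by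
    filter_upwards [(chartAt E q).open_target.mem_nhds ((chartAt E q).map_source (mem_chart_source E q))]
      with y hy
    simp only [writtenInExtChartAt, extChartAt, mfld_simps]
    exact (chartAt E q).right_inv hy
  have h1 : HasFDerivAt (id : E → E) (ContinuousLinearMap.id ℝ E) (co q : E) := hasFDerivAt_id _
  have h2 := h1.congr_of_eventuallyEq key
  have h3 : extChartAt 𝓘(ℝ, E) q q = co q := by simp [extChartAt, co]
  rw [h3]
  exact h2.hasFDerivWithinAt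

lemma norm_mfderiv_of_compat {p : Y → Z} (hp : ∀ z : E, z ≠ 0 → p (pr E Y z) = pr E Z z) (q : Y)
    (v : TangentSpace 𝓘(ℝ, E) q) :
    ‖(mfderiv 𝓘(ℝ, E) 𝓘(ℝ, E) p q v : TangentSpace 𝓘(ℝ, E) (p q))‖ = ‖v‖ := by
  obtain ⟨L, κ, hκ, hL, hLu, hd⟩ := hasMFDerivAt_pr (Y := Z) (co_ne (E := E) q)
  have h1 : HasMFDerivAt 𝓘(ℝ, E) 𝓘(ℝ, E) (fun q' => pr E Z (chartAt E q q')) q
      (L.comp (ContinuousLinearMap.id ℝ E)) := by
    have hd' : HasMFDerivAt 𝓘(ℝ, E) 𝓘(ℝ, E) (pr E Z) (chartAt E q q) L := hd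
    exact hd'.comp q (hasMFDerivAt_chart q)
  have h2 : HasMFDerivAt 𝓘(ℝ, E) 𝓘(ℝ, E) p q (L.comp (ContinuousLinearMap.id ℝ E)) :=
    h1.congr_of_eventuallyEq (local_form hp q)
  rw [h2.mfderiv, norm_tangent, norm_tangent]
  have h3 : p q = pr E Z (co q : E) := by rw [← hp _ (co_ne q), pr_co]
  rw [h3, ← hLu]
  have h4 : ‖L (show E from v)‖ / ‖L (co q : E)‖ = ‖(show E from v)‖ / ‖(co q : E)‖ := by
    rw [hL, hL, mul_div_mul_left _ _ hκ.ne']
  exact h4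

end PQ

variable (A : Subgroup HQˣ)

/-- the projection `M → N` -/
def pN : Yq ⊥ → Yq A := Quotient.lift (fun x => mkY A x) (fun x y h => by
  obtain ⟨m, rfl⟩ := mk_bot.mp (Quotient.sound h)
  exact mk_eq'.mpr ⟨m, 1, A.one_mem, by rw [mul_one]⟩)

lemma pN_mk (x : HQˣ) : pN A (mkY ⊥ x) = mkY A x := rfl

lemma pN_pj {z : HQ} (hz : z ≠ 0) : pN A (pj ⊥ z) = pj A z := by
  rw [pj_mk0 hz, pj_mk0 hz, pN_mk]

lemma pN_surj : Function.Surjective (pN A) := by
  intro q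
  obtain ⟨x, rfl⟩ := mk_surj A q
  exact ⟨mkY ⊥ x, rfl⟩

lemma pN_contMDiff [Finite A] : ContMDiff 𝓘(ℝ, HQ) 𝓘(ℝ, HQ) ∞ (pN A) :=
  PQ.contMDiff_of_compat (fun _ hz => pN_pj A hz)

/-- action of the finite group -/
instance : MulAction A (Yq ⊥) where
  smul a q := (rmul (a : HQˣ)⁻¹).equiv q
  one_smul q := by
    obtain ⟨x, rfl⟩ := mk_surj ⊥ q
    change mkY ⊥ (x * (1 : HQˣ)⁻¹) = mkY ⊥ x
    simp
  mul_smul a b q := by
    obtain ⟨x, rfl⟩ := mk_surj ⊥ q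
    change mkY ⊥ (x * ((a : HQˣ) * (b : HQˣ))⁻¹) = mkY ⊥ (x * (b : HQˣ)⁻¹ * (a : HQˣ)⁻¹)
    rw [mul_inv_rev, mul_assoc]

lemma smul_mk (a : A) (x : HQˣ) : a • mkY ⊥ x = mkY ⊥ (x * (a : HQˣ)⁻¹) := rfl

instance : ContinuousConstSMul A (Yq ⊥) where
  continuous_const_smul a := by
    have h1 : Continuous (fun x : HQˣ => mkY ⊥ (x * (a : HQˣ)⁻¹)) := by
      have : Continuous (mkY ⊥) := (mk_cov ⊥).isCoveringMap.continuous
      exact this.comp (by fun_prop)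
    have h2 : Topology.IsQuotientMap (mkY ⊥) := (mk_cov ⊥).toIsQuotientMap
    exact h2.continuous_iff.mpr h1

instance [Finite A] : IsCancelSMul A (Yq ⊥) where
  right_cancel' a b q e := by
    obtain ⟨x, rfl⟩ := mk_surj ⊥ q
    rw [smul_mk, smul_mk] at e
    obtain ⟨m, hm⟩ := mk_bot.mp e
    have h1 := congrArg (fun u : HQˣ => ‖(u : HQ)‖) hm
    simp only [Units.val_mul, norm_mul, norm_wq_zpow, norm_inv_of_mem a.2, norm_inv_of_mem b.2,
      mul_one] at h1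
    have hx : 0 < ‖(x : HQ)‖ := by simp
    have h2 : Real.exp (m * tt) = 1 := by
      have := mul_right_cancel₀ hx.ne' (h1.trans (one_mul _).symm)
      exact this
    rw [Real.exp_eq_one_iff] at h2
    have h3 : (m : ℝ) = 0 := (mul_eq_zero.mp h2).resolve_right tt_pos.ne'
    have h4 : m = 0 := by exact_mod_cast h3
    rw [h4, zpow_zero, one_mul] at hm
    have h5 := mul_left_cancel hm
    exact (Subtype.ext (inv_injective h5)).symm

lemma pN_isQuotientMap [Finite A] : Topology.IsQuotientMap (pN A) := by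
  have h2 : Topology.IsQuotientMap (mkY A) := (mk_cov A).toIsQuotientMap
  exact Topology.IsQuotientMap.of_comp (mk_cov ⊥).isCoveringMap.continuous (pN_contMDiff A).continuous h2

lemma pN_cov [Finite A] : IsQuotientCoveringMap (pN A) A := by
  apply (pN_isQuotientMap A).isQuotientCoveringMap_of_properlyDiscontinuousSMul
  intro p q
  obtain ⟨x, rfl⟩ := mk_surj ⊥ p
  obtain ⟨y, rfl⟩ := mk_surj ⊥ q
  rw [pN_mk, pN_mk, mk_eq', MulAction.mem_orbit_iff]
  constructor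
  · rintro ⟨m, a, ha, h⟩
    refine ⟨⟨a⁻¹, A.inv_mem ha⟩, ?_⟩
    rw [smul_mk]
    refine mk_bot.mpr ⟨-m, ?_⟩
    rw [← h]
    simp only [inv_inv]
    group
  · rintro ⟨a, h⟩
    rw [smul_mk] at h
    obtain ⟨m, hm⟩ := mk_bot.mp h.symm
    exact ⟨m, (a : HQˣ)⁻¹, A.inv_mem a.2, by rw [mul_assoc]; exact hm⟩

end Pool.Agent.H73
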