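import Mathlib

/-!
# Homogeneous Riemannian manifolds and Riemannian coverings: the notions used in the statement
-/

open scoped Manifold ContDiff Topology
open Set Bundle

noncomputable section

namespace Pool.Agent.H73

section Tangent

variable (E : Type) [NormedAddCommGroup E] [NormedSpace ℝ E]
  (X : Type) [TopologicalSpace X] [ChartedSpace E X]

/-- The inner products on the tangent spaces of `X` form a smooth (`C^∞`) Riemannian metric. -/
def IsSmoothMetric [IsManifold 𝓘(ℝ, E) ∞ X]
    [RiemannianBundle (fun x : X => TangentSpace 𝓘(ℝ, E) x)] : Prop :=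
  IsContMDiffRiemannianBundle 𝓘(ℝ, E) ∞ E (fun x : X => TangentSpace 𝓘(ℝ, E) x)

variable {X}

/-- The Riemannian norm of a tangent vector `v` at `x`. -/
def tangentNorm [RiemannianBundle (fun x : X => TangentSpace 𝓘(ℝ, E) x)] (x : X)
    (v : TangentSpace 𝓘(ℝ, E) x) : ℝ := ‖v‖

/-- The differential of `f : X → Z` preserves the Riemannian norm of each tangent vector. -/
def PreservesTangentNorm {Z : Type} [TopologicalSpace Z] [ChartedSpace E Z]
    [RiemannianBundle (fun x : X => TangentSpace 𝓘(ℝ, E) x)]
    [RiemannianBundle (fun z : Z => TangentSpace 𝓘(ℝ, E) z)] (f : X → Z) : Prop :=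
  ∀ (x : X) (v : TangentSpace 𝓘(ℝ, E) x),
    tangentNorm E (f x) (mfderiv 𝓘(ℝ, E) 𝓘(ℝ, E) f x v) = tangentNorm E x v

end Tangent

/-- A connected `C^∞` Riemannian manifold modelled on the finite-dimensional space `E`: a metric
space with a smooth structure and a smooth Riemannian metric on its tangent bundle such that the
distance is the infimum of the lengths of the `C^1` paths. -/
structure RiemannianMfd (E : Type) [NormedAddCommGroup E] [NormedSpace ℝ E] where
  /-- the underlying set -/
  pt : Type
  [metricSpace : MetricSpace pt]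
  [chartedSpace : ChartedSpace E pt]
  [isManifold : IsManifold 𝓘(ℝ, E) ∞ pt]
  [riemannianBundle : RiemannianBundle (fun x : pt => TangentSpace 𝓘(ℝ, E) x)]
  smoothMetric : IsSmoothMetric E pt
  [isRiemannian : IsRiemannianManifold 𝓘(ℝ, E) pt]
  [connected : ConnectedSpace pt]

attribute [instance] RiemannianMfd.metricSpace RiemannianMfd.chartedSpace RiemannianMfd.isManifold
  RiemannianMfd.riemannianBundle RiemannianMfd.isRiemannian RiemannianMfd.connected

/-- The isometry group acts transitively. -/
def IsHomogeneous (M : Type) [MetricSpace M] : Prop :=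
  ∀ x y : M, ∃ f : M ≃ᵢ M, f x = y

/-- Each two points are interchanged by an isometry. -/
def IsWeaklySymmetric (M : Type) [MetricSpace M] : Prop :=
  ∀ x y : M, ∃ f : M ≃ᵢ M, f x = y ∧ f y = x

/-- A geodesic `c : ℝ → M`, parametrised proportionally to arc length: near each parameter the
distance of two points of `c` is a fixed multiple `v ≥ 0` of the difference of the parameters. -/
def IsGeodesic {M : Type} [MetricSpace M] (c : ℝ → M) : Prop :=
  ∃ v : ℝ, 0 ≤ v ∧ ∀ t : ℝ, ∃ ε > 0, ∀ s ∈ Ioo (t - ε) (t + ε), ∀ s' ∈ Ioo (t - ε) (t + ε),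
    dist (c s) (c s') = v * |s - s'|

/-- A geodesic orbit space: homogeneous, and each geodesic is an orbit of a one-parameter group of
isometries. -/
def IsGeodesicOrbitSpace (M : Type) [MetricSpace M] : Prop :=
  IsHomogeneous M ∧ ∀ c : ℝ → M, IsGeodesic c → ∃ φ : Multiplicative ℝ →* (M ≃ᵢ M),
    (∀ x, Continuous fun s : ℝ => φ (Multiplicative.ofAdd s) x) ∧
    ∀ s : ℝ, c s = φ (Multiplicative.ofAdd s) (c 0)

/-- The isometry `γ` has constant displacement. -/
def HasConstantDisplacement {M : Type} [MetricSpace M] (γ : M ≃ᵢ M) : Prop :=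
  ∃ c : ℝ, ∀ x : M, dist x (γ x) = c

/-- The group `Γ` of isometries acts freely and properly discontinuously. -/
def ActsFreelyProperly {M : Type} [MetricSpace M] (Γ : Subgroup (M ≃ᵢ M)) : Prop :=
  (∀ γ ∈ Γ, ∀ x, γ x = x → γ = 1) ∧
  ∀ K L : Set M, IsCompact K → IsCompact L → {γ : M ≃ᵢ M | γ ∈ Γ ∧ (γ '' K ∩ L).Nonempty}.Finite

/-- `p` is onto and its fibres are the orbits of `Γ`. -/
def IsOrbitMap {M N : Type} [MetricSpace M] (Γ : Subgroup (M ≃ᵢ M)) (p : M → N) : Prop :=
  Function.Surjective p ∧ ∀ x y, p x = p y ↔ ∃ γ ∈ Γ, γ x = y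

/-- `p : M → N` is the Riemannian covering `M → Γ \ M`: the group `Γ` of isometries of `M` acts
freely and properly discontinuously, `p` is a smooth covering map whose fibres are the orbits of
`Γ`, and the differential of `p` is an isometry at each point. -/
structure IsRiemannianQuotient {E : Type} [NormedAddCommGroup E] [NormedSpace ℝ E]
    (M N : RiemannianMfd E) (Γ : Subgroup (M.pt ≃ᵢ M.pt)) (p : M.pt → N.pt) : Prop where
  action : ActsFreelyProperly Γ
  orbits : IsOrbitMap Γ p
  covering : IsCoveringMap p
  smooth : ContMDiff 𝓘(ℝ, E) 𝓘(ℝ, E) ∞ p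
  isometric : PreservesTangentNorm E p

/-- The homogeneity conjecture for the class `C` of connected Riemannian manifolds modelled on `E`:
if `M` is in the class and `M → Γ \ M` is a Riemannian covering in which each element of `Γ` has
constant displacement, then `Γ \ M` is homogeneous. -/
def HomogeneityConjecture {E : Type} [NormedAddCommGroup E] [NormedSpace ℝ E]
    (C : RiemannianMfd E → Prop) : Prop :=
  ∀ (M N : RiemannianMfd E) (Γ : Subgroup (M.pt ≃ᵢ M.pt)) (p : M.pt → N.pt),
    C M → IsRiemannianQuotient M N Γ p → (∀ γ ∈ Γ, HasConstantDisplacement γ) →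
    IsHomogeneous N.pt

/-- The class of compact weakly symmetric geodesic orbit spaces. -/
def IsCompactWeaklySymmetricGO {E : Type} [NormedAddCommGroup E] [NormedSpace ℝ E]
    (M : RiemannianMfd E) : Prop :=
  CompactSpace M.pt ∧ IsWeaklySymmetric M.pt ∧ IsGeodesicOrbitSpace M.pt

end Pool.Agent.H73
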