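import Pool.Agent.H73.PQM
import Pool.Agent.H73.RiemQuot

open scoped Manifold ContDiff Topology ENNReal Quaternion
open Set Bundle Bornology MeasureTheory Manifold Filter InnerProductGeometry

noncomputable section

namespace Pool.Agent.H73

/-- the quotient as a Riemannian manifold -/
def Mf (A : Subgroup HQˣ) [Finite A] : RiemannianMfd HQ :=
  { pt := Yq A
    metricSpace := met A
    chartedSpace := (inferInstance : ChartedSpace HQ (Yq A))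
    isManifold := (inferInstance : IsManifold 𝓘(ℝ, HQ) ∞ (Yq A))
    riemannianBundle :=
      (inferInstance : RiemannianBundle (fun x : Yq A => TangentSpace 𝓘(ℝ, HQ) x))
    smoothMetric := (inferInstance :
      IsContMDiffRiemannianBundle 𝓘(ℝ, HQ) ∞ HQ (fun x : Yq A => TangentSpace 𝓘(ℝ, HQ) x))
    isRiemannian := by
      let := met A
      exact ⟨fun x y => rfl⟩
    connected := (inferInstance : ConnectedSpace (Yq A)) }

variable {A : Subgroup HQˣ} [Finite A]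

lemma edist_Mf (x y : (Mf A).pt) :
    edist x y = riemannianEDist (M := Yq A) 𝓘(ℝ, HQ) x y := rfl

/-- isometry of the quotient manifold induced by a symmetry of the model -/
def isoM (S : Sym A) : (Mf A).pt ≃ᵢ (Mf A).pt where
  toEquiv := S.equiv
  isometry_toFun := fun p q => S.redist_equiv p q

lemma isoM_mk (S : Sym A) (x : HQˣ) : isoM S (mkY A x) = mkY A (S.toFun x) := rfl

lemma weaklySymmetric_M : IsWeaklySymmetric (Mf ⊥).pt := by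
  intro p q
  obtain ⟨x, rfl⟩ := mk_surj ⊥ p
  obtain ⟨y, rfl⟩ := mk_surj ⊥ q
  obtain ⟨S, h1, h2⟩ := exists_swap x y
  refine ⟨isoM S, ?_, ?_⟩
  · rw [isoM_mk, h1]
  · rw [isoM_mk, h2]

lemma not_homogeneous_N : ¬ IsHomogeneous (Mf Ai).pt := by
  intro h
  apply not_homog
  intro x y
  obtain ⟨f, hf⟩ := h x y
  exact ⟨f.toEquiv, fun p q => f.isometry p q, hf⟩

/-- right multiplications as a homomorphism -/
def Rhom : HQˣ →* ((Mf ⊥).pt ≃ᵢ (Mf ⊥).pt) where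
  toFun a := isoM (rmul a⁻¹)
  map_one' := by
    ext q
    obtain ⟨x, rfl⟩ := mk_surj ⊥ q
    rw [isoM_mk]
    change mkY ⊥ (x * (1 : HQˣ)⁻¹) = mkY ⊥ x
    simp
  map_mul' a b := by
    ext q
    obtain ⟨x, rfl⟩ := mk_surj ⊥ q
    change mkY ⊥ (x * (a * b)⁻¹) = mkY ⊥ (x * b⁻¹ * a⁻¹)
    rw [mul_inv_rev, mul_assoc]

lemma Rhom_mk (a x : HQˣ) : Rhom a (mkY ⊥ x) = mkY ⊥ (x * a⁻¹) := rfl

lemma free_aux (a : A) (q : Yq ⊥) (h : a • q = q) : a = 1 := by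
  apply IsCancelSMul.right_cancel a 1 q
  rw [one_smul, h]

lemma fibre_aux (p q : Yq ⊥) : pN A p = pN A q ↔ ∃ a ∈ A, (rmul a⁻¹).equiv p = q := by
  have h := (pN_cov A).apply_eq_iff_mem_orbit (e₁ := p) (e₂ := q)
  rw [h, MulAction.mem_orbit_iff]
  constructor
  · rintro ⟨a, ha⟩
    refine ⟨(a⁻¹ : HQˣ), A.inv_mem a.2, ?_⟩
    change a⁻¹ • p = q
    rw [← ha, inv_smul_smul]
  · rintro ⟨a, ha, h1⟩
    refine ⟨⟨a, ha⟩⁻¹, ?_⟩
    rw [inv_smul_eq_iff, ← h1]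
    rfl

omit [Finite A] in
lemma dist_Mf [Finite A] (x y : Yq A) :
    @dist (Mf A).pt _ x y = (riemannianEDist 𝓘(ℝ, HQ) x y).toReal := rfl

variable (A) in
/-- the group of isometries `Γ` -/
def Gam : Subgroup ((Mf ⊥).pt ≃ᵢ (Mf ⊥).pt) := A.map Rhom

omit [Finite A] in
lemma mem_Gam {γ : (Mf ⊥).pt ≃ᵢ (Mf ⊥).pt} : γ ∈ Gam A ↔ ∃ a ∈ A, Rhom a = γ := Subgroup.mem_map

lemma constantDisplacement (γ : (Mf ⊥).pt ≃ᵢ (Mf ⊥).pt) (h : γ ∈ Gam A) :
    HasConstantDisplacement γ := by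
  obtain ⟨a, ha, rfl⟩ := mem_Gam.mp h
  refine ⟨Real.arccos ((a⁻¹ : HQˣ) : HQ).re, ?_⟩
  intro q
  obtain ⟨x, rfl⟩ := mk_surj ⊥ q
  refine (dist_Mf (A := ⊥) (mkY ⊥ x) (mkY ⊥ (x * a⁻¹))).trans ?_
  rw [redist_rmul x a⁻¹ (norm_inv_of_mem ha), ENNReal.toReal_ofReal (Real.arccos_nonneg _)]

lemma free_Gam (γ : (Mf ⊥).pt ≃ᵢ (Mf ⊥).pt) (h : γ ∈ Gam A) (q : (Mf ⊥).pt) (hq : γ q = q) :
    γ = 1 := by
  obtain ⟨a, ha, rfl⟩ := mem_Gam.mp h
  have h2 : (⟨a, ha⟩ : A) = 1 := free_aux ⟨a, ha⟩ q hq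
  have h3 : a = 1 := congrArg Subtype.val h2
  rw [h3, map_one]

lemma finite_Gam : (Gam A : Set ((Mf ⊥).pt ≃ᵢ (Mf ⊥).pt)).Finite := by
  unfold Gam
  rw [Subgroup.coe_map]
  exact (Set.toFinite (A : Set HQˣ)).image _

lemma quotient_M : IsRiemannianQuotient (Mf ⊥) (Mf A) (Gam A) (pN A) where
  action := ⟨free_Gam, fun _ _ _ _ => finite_Gam.subset (fun _ h => h.1)⟩
  orbits := by
    refine ⟨pN_surj A, ?_⟩
    intro p q
    refine (fibre_aux p q).trans ?_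
    constructor
    · rintro ⟨a, ha, h⟩
      exact ⟨Rhom a, mem_Gam.mpr ⟨a, ha, rfl⟩, h⟩
    · rintro ⟨γ, hγ, h1⟩
      obtain ⟨a, ha, rfl⟩ := mem_Gam.mp hγ
      exact ⟨a, ha, h1⟩
  covering := (pN_cov A).isCoveringMap
  smooth := pN_contMDiff A
  isometric := fun x v => PQ.norm_mfderiv_of_compat (Y := Yq ⊥) (Z := Yq A)
    (fun _ hz => pN_pj A hz) x v

end Pool.Agent.H73
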