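import Pool.Agent.H73.PQN

open scoped Manifold ContDiff Topology ENNReal Quaternion
open Set Bundle Bornology MeasureTheory Manifold Filter InnerProductGeometry

noncomputable section

namespace Pool.Agent.H73

/-- equality in the triangle inequality of a product -/
lemma triple {p q a b θ1 θ2 θ3 v : ℝ} (hp : 0 < p) (hq : 0 < q) (h01 : 0 ≤ θ1) (h02 : 0 ≤ θ2)
    (h03 : 0 ≤ θ3) (h1 : a ^ 2 + θ1 ^ 2 = v ^ 2 * p ^ 2) (h2 : b ^ 2 + θ2 ^ 2 = v ^ 2 * q ^ 2)
    (h3 : (a + b) ^ 2 + θ3 ^ 2 = v ^ 2 * (p + q) ^ 2) (h4 : θ3 ≤ θ1 + θ2) :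
    b * p = a * q ∧ θ2 * p = θ1 * q ∧ θ3 = θ1 + θ2 := by
  have h5 : θ3 ^ 2 ≤ (θ1 + θ2) ^ 2 := by gcongr
  have h6 : v ^ 2 * (p * q) ≤ a * b + θ1 * θ2 := by nlinarith
  have hpq : 0 < p * q := by positivity
  have h7 : (a * q - b * p) ^ 2 + (θ1 * q - θ2 * p) ^ 2 ≤ 0 := by
    have e : (a * q - b * p) ^ 2 + (θ1 * q - θ2 * p) ^ 2 =
      q ^ 2 * (a ^ 2 + θ1 ^ 2) + p ^ 2 * (b ^ 2 + θ2 ^ 2) - 2 * (p * q) * (a * b + θ1 * θ2) := by ring
    rw [e, h1, h2]
    nlinarith
  have h8 : (a * q - b * p) ^ 2 = 0 := by nlinarith [sq_nonneg (a * q - b * p), sq_nonneg (θ1 * q - θ2 * p)]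
  have h9 : (θ1 * q - θ2 * p) ^ 2 = 0 := by nlinarith [sq_nonneg (a * q - b * p), sq_nonneg (θ1 * q - θ2 * p)]
  have h10 : a * q - b * p = 0 := by simpa using h8
  have h11 : θ1 * q - θ2 * p = 0 := by simpa using h9
  refine ⟨by linarith, by linarith, ?_⟩
  have h12 : (p * q) * (a * b + θ1 * θ2) = v ^ 2 * (p * q) ^ 2 := by
    have e : (a * q - b * p) ^ 2 + (θ1 * q - θ2 * p) ^ 2 =
      q ^ 2 * (a ^ 2 + θ1 ^ 2) + p ^ 2 * (b ^ 2 + θ2 ^ 2) - 2 * (p * q) * (a * b + θ1 * θ2) := by ring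
    rw [h8, h9, h1, h2] at e
    nlinarith
  have h13 : a * b + θ1 * θ2 = v ^ 2 * (p * q) := by
    have : (p * q) * (a * b + θ1 * θ2) = (p * q) * (v ^ 2 * (p * q)) := by rw [h12]; ring
    exact mul_left_cancel₀ hpq.ne' this
  have h14 : θ3 ^ 2 = (θ1 + θ2) ^ 2 := by nlinarith
  exact (pow_left_inj₀ h03 (by positivity) two_ne_zero).mp h14

section model

variable {E : Type*} [NormedAddCommGroup E] [InnerProductSpace ℝ E]

/-- slopes along a model geodesic -/
lemma slopes {z : ℝ → E} {v t ε : ℝ} (hε : 0 < ε)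
    (hz : ∀ s ∈ Ioo (t - ε) (t + ε), ∀ s' ∈ Ioo (t - ε) (t + ε), mD (z s) (z s') = v * |s - s'|) :
    ∃ a b : ℝ, b * (ε / 2) = angle (z t) (z (t + ε / 2)) ∧ ∀ s ∈ Ioo (t - ε) (t + ε),
      Real.log ‖z s‖ - Real.log ‖z t‖ = a * (s - t) ∧
      angle (z t) (z s) = b * |s - t| ∧ (s ≠ t + ε / 2 → angle (z (t + ε / 2)) (z s) = b * |s - (t + ε / 2)|) := by
  have key : ∀ s1 s2 s3, s1 ∈ Ioo (t - ε) (t + ε) → s2 ∈ Ioo (t - ε) (t + ε) →
      s3 ∈ Ioo (t - ε) (t + ε) → s1 < s2 → s2 < s3 →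
      (Real.log ‖z s3‖ - Real.log ‖z s2‖) * (s2 - s1) = (Real.log ‖z s2‖ - Real.log ‖z s1‖) * (s3 - s2) ∧
      angle (z s2) (z s3) * (s2 - s1) = angle (z s1) (z s2) * (s3 - s2) ∧
      angle (z s1) (z s3) = angle (z s1) (z s2) + angle (z s2) (z s3) := by
    intro s1 s2 s3 h1 h2 h3 h12 h23
    have e1 := mD_sq (z s1) (z s2)
    have e2 := mD_sq (z s2) (z s3)
    have e3 := mD_sq (z s1) (z s3)
    rw [hz s1 h1 s2 h2, mul_pow, sq_abs] at e1
    rw [hz s2 h2 s3 h3, mul_pow, sq_abs] at e2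
    rw [hz s1 h1 s3 h3, mul_pow, sq_abs] at e3
    apply triple (v := v) (by linarith) (by linarith) (angle_nonneg _ _) (angle_nonneg _ _)
      (angle_nonneg _ _)
    · linear_combination -e1
    · linear_combination -e2
    · linear_combination -e3
    · exact angle_le_angle_add_angle _ _ _
  have ht : t ∈ Ioo (t - ε) (t + ε) := ⟨by linarith, by linarith⟩
  have ht1 : t + ε / 2 ∈ Ioo (t - ε) (t + ε) := ⟨by linarith, by linarith⟩
  have hδ : ε / 2 ≠ 0 := by positivity
  obtain ⟨a, ha⟩ : ∃ a, a = (Real.log ‖z (t + ε / 2)‖ - Real.log ‖z t‖) / (ε / 2) := ⟨_, rfl⟩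
  obtain ⟨b, hb⟩ : ∃ b, b = angle (z t) (z (t + ε / 2)) / (ε / 2) := ⟨_, rfl⟩
  have ha' : Real.log ‖z (t + ε / 2)‖ - Real.log ‖z t‖ = a * (ε / 2) := by
    rw [ha]; field_simp
  have hb' : angle (z t) (z (t + ε / 2)) = b * (ε / 2) := by
    rw [hb]; field_simp
  refine ⟨a, b, hb'.symm, ?_⟩
  intro s hs
  have hself : ∀ x : E, x ≠ 0 → angle x x = 0 := fun x hx => angle_self hx
  rcases lt_trichotomy s t with hst | hst | hst
  · obtain ⟨k1, k2, k3⟩ := key s t (t + ε / 2) hs ht ht1 hst (by linarith)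
    rw [ha', show t + ε / 2 - t = ε / 2 by ring] at k1
    rw [hb', show t + ε / 2 - t = ε / 2 by ring] at k2
    rw [hb'] at k3
    have f1 : Real.log ‖z t‖ - Real.log ‖z s‖ = a * (t - s) := by
      apply mul_right_cancel₀ hδ
      linear_combination -k1
    have f2 : angle (z s) (z t) = b * (t - s) := by
      apply mul_right_cancel₀ hδ
      linear_combination -k2
    refine ⟨by linear_combination -f1, ?_, fun _ => ?_⟩
    · rw [angle_comm, f2, abs_of_neg (by linarith)]; ring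
    · rw [angle_comm, k3, f2, abs_of_neg (by linarith)]; ring
  · subst hst
    refine ⟨by ring, ?_, fun _ => ?_⟩
    · rw [sub_self, abs_zero, mul_zero]
      have := hz s hs s hs
      rw [sub_self, abs_zero, mul_zero] at this
      have h5 := mD_sq (z s) (z s)
      rw [this] at h5
      have h6 : angle (z s) (z s) ^ 2 = 0 := by
        nlinarith [sq_nonneg (Real.log ‖z s‖ - Real.log ‖z s‖), sq_nonneg (angle (z s) (z s))]
      simpa using h6
    · rw [angle_comm, hb', show s - (s + ε / 2) = -(ε / 2) by ring, abs_neg, abs_of_pos (by positivity)]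
  · rcases lt_trichotomy s (t + ε / 2) with hs1 | hs1 | hs1
    · obtain ⟨k1, k2, k3⟩ := key t s (t + ε / 2) ht hs ht1 hst hs1
      have f1 : Real.log ‖z s‖ - Real.log ‖z t‖ = a * (s - t) := by
        apply mul_right_cancel₀ hδ
        linear_combination (-1 : ℝ) * k1 + (s - t) * ha'
      have f2 : angle (z t) (z s) = b * (s - t) := by
        apply mul_right_cancel₀ hδ
        rw [hb'] at k3
        linear_combination (-1 : ℝ) * k2 - (s - t) * k3
      refine ⟨f1, ?_, fun _ => ?_⟩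
      · rw [f2, abs_of_pos (by linarith)]
      · rw [angle_comm, abs_of_neg (by linarith)]
        rw [hb', f2] at k3
        linear_combination -k3
    · rw [hs1]
      refine ⟨?_, ?_, fun h => absurd rfl h⟩
      · rw [ha']; ring
      · rw [hb', show t + ε / 2 - t = ε / 2 by ring, abs_of_pos (by positivity)]
    · obtain ⟨k1, k2, k3⟩ := key t (t + ε / 2) s ht ht1 hs (by linarith) hs1
      rw [ha', show t + ε / 2 - t = ε / 2 by ring] at k1
      rw [hb', show t + ε / 2 - t = ε / 2 by ring] at k2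
      have f1 : Real.log ‖z s‖ - Real.log ‖z (t + ε / 2)‖ = a * (s - (t + ε / 2)) := by
        apply mul_right_cancel₀ hδ
        linear_combination k1
      have f2 : angle (z (t + ε / 2)) (z s) = b * (s - (t + ε / 2)) := by
        apply mul_right_cancel₀ hδ
        linear_combination k2
      refine ⟨by linear_combination f1 + ha', ?_, fun _ => ?_⟩
      · rw [k3, hb', f2, abs_of_pos (by linarith)]; ring
      · rw [f2, abs_of_pos (by linarith)]

lemma cos_mul_abs (b x : ℝ) : Real.cos (b * |x|) = Real.cos (b * x) := by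
  rcases abs_choice x with h | h
  · rw [h]
  · rw [h, mul_neg, Real.cos_neg]

/-- a curve at constant-speed distances in the model is a spiral -/
lemma circle_form (hperp : ∀ p : E, ∃ n : E, ‖n‖ = 1 ∧ inner ℝ p n = 0) {z : ℝ → E} {v t ε : ℝ}
    (hε : 0 < ε) (hv : 0 ≤ v) (hvε : v * ε < Real.pi) (h0 : ∀ s ∈ Ioo (t - ε) (t + ε), z s ≠ 0)
    (hz : ∀ s ∈ Ioo (t - ε) (t + ε), ∀ s' ∈ Ioo (t - ε) (t + ε), mD (z s) (z s') = v * |s - s'|) :
    ∃ (a b : ℝ) (n : E), ‖n‖ = 1 ∧ inner ℝ (z t) n = 0 ∧ ∀ s ∈ Ioo (t - ε) (t + ε),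
      z s = Real.exp (a * (s - t)) • (Real.cos (b * (s - t)) • z t +
        (‖z t‖ * Real.sin (b * (s - t))) • n) := by
  obtain ⟨a, b, hb, hab⟩ := slopes hε hz
  have ht : t ∈ Ioo (t - ε) (t + ε) := ⟨by linarith, by linarith⟩
  have ht1 : t + ε / 2 ∈ Ioo (t - ε) (t + ε) := ⟨by linarith, by linarith⟩
  have hzt := norm_pos_iff.mpr (h0 t ht)
  have hzt1 := norm_pos_iff.mpr (h0 _ ht1)
  -- unit vectors
  obtain ⟨u, hu⟩ : ∃ u : ℝ → E, ∀ s, u s = ‖z s‖⁻¹ • z s := ⟨fun s => ‖z s‖⁻¹ • z s, fun s => rfl⟩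
  have hu1 : ∀ s ∈ Ioo (t - ε) (t + ε), ‖u s‖ = 1 := by
    intro s hs
    have := norm_pos_iff.mpr (h0 s hs)
    rw [hu, norm_smul, norm_inv, norm_norm, inv_mul_cancel₀ this.ne']
  have hzu : ∀ s ∈ Ioo (t - ε) (t + ε), z s = ‖z s‖ • u s := by
    intro s hs
    have := norm_pos_iff.mpr (h0 s hs)
    rw [hu, smul_smul, mul_inv_cancel₀ this.ne', one_smul]
  have hcos : ∀ s s', inner ℝ (u s) (u s') = Real.cos (angle (z s) (z s')) := by
    intro s s'
    rw [hu, hu, real_inner_smul_left, real_inner_smul_right, cos_angle]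
    field_simp
  have c1 : ∀ s ∈ Ioo (t - ε) (t + ε), inner ℝ (u t) (u s) = Real.cos (b * (s - t)) := by
    intro s hs
    rw [hcos, (hab s hs).2.1, cos_mul_abs]
  have c2 : ∀ s ∈ Ioo (t - ε) (t + ε), inner ℝ (u (t + ε / 2)) (u s) =
      Real.cos (b * (s - (t + ε / 2))) := by
    intro s hs
    rcases eq_or_ne s (t + ε / 2) with rfl | hne
    · rw [real_inner_self_eq_norm_sq, hu1 _ ht1]; simp
    · rw [hcos, (hab s hs).2.2 hne, cos_mul_abs]
  -- the claim for the directions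
  obtain ⟨n, hn1, hn2, hn3⟩ : ∃ n : E, ‖n‖ = 1 ∧ inner ℝ (u t) n = 0 ∧
      ∀ s ∈ Ioo (t - ε) (t + ε), u s = Real.cos (b * (s - t)) • u t + Real.sin (b * (s - t)) • n := by
    have hbnn : 0 ≤ b * (ε / 2) := by rw [hb]; exact angle_nonneg _ _
    have hbε : b * (ε / 2) < Real.pi := by
      rw [hb]
      have h1 := hz t ht (t + ε / 2) ht1
      have h2 : angle (z t) (z (t + ε / 2)) ≤ mD (z t) (z (t + ε / 2)) := by
        unfold mD
        apply Real.le_sqrt_of_sq_le
        have := sq_nonneg (Real.log ‖z t‖ - Real.log ‖z (t + ε / 2)‖)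
        linarith
      rw [h1, show t - (t + ε / 2) = -(ε / 2) by ring, abs_neg, abs_of_pos (by positivity)] at h2
      nlinarith
    rcases hbnn.eq_or_lt with hb0 | hb0
    · have hb00 : b = 0 := by
        rcases mul_eq_zero.mp hb0.symm with h | h
        · exact h
        · linarith
      obtain ⟨n, hn1, hn2⟩ := hperp (u t)
      refine ⟨n, hn1, hn2, ?_⟩
      intro s hs
      have h1 := c1 s hs
      rw [hb00, zero_mul, Real.cos_zero] at h1
      rw [hb00, zero_mul, Real.cos_zero, Real.sin_zero, zero_smul, add_zero, one_smul]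
      have h2 : ‖u s - u t‖ ^ 2 = 0 := by
        rw [norm_sub_sq_real, hu1 s hs, hu1 t ht, real_inner_comm, h1]
        norm_num
      have h3 : ‖u s - u t‖ = 0 := by simpa using h2
      exact sub_eq_zero.mp (norm_eq_zero.mp h3)
    · have hsin : 0 < Real.sin (b * (ε / 2)) := Real.sin_pos_of_pos_of_lt_pi hb0 hbε
      have k1 := c1 _ ht1
      rw [show t + ε / 2 - t = ε / 2 by ring] at k1
      have hw2 : ‖u (t + ε / 2) - Real.cos (b * (ε / 2)) • u t‖ ^ 2 = Real.sin (b * (ε / 2)) ^ 2 := by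
        rw [norm_sub_sq_real, real_inner_smul_right, real_inner_comm, k1, norm_smul, hu1 t ht,
          hu1 _ ht1, mul_pow, Real.norm_eq_abs, sq_abs, Real.sin_sq]
        ring
      have hw : ‖u (t + ε / 2) - Real.cos (b * (ε / 2)) • u t‖ = Real.sin (b * (ε / 2)) :=
        (pow_left_inj₀ (norm_nonneg _) hsin.le two_ne_zero).mp hw2
      have hns : ∀ s ∈ Ioo (t - ε) (t + ε), inner ℝ (u s)
          ((Real.sin (b * (ε / 2)))⁻¹ • (u (t + ε / 2) - Real.cos (b * (ε / 2)) • u t)) =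
          Real.sin (b * (s - t)) := by
        intro s hs
        rw [real_inner_smul_right, inner_sub_right, real_inner_smul_right,
          real_inner_comm (u (t + ε / 2)) (u s), real_inner_comm (u t) (u s),
          c1 s hs, c2 s hs, show b * (s - (t + ε / 2)) = b * (s - t) - b * (ε / 2) by ring,
          Real.cos_sub, show Real.cos (b * (s - t)) * Real.cos (b * (ε / 2)) +
            Real.sin (b * (s - t)) * Real.sin (b * (ε / 2)) -
            Real.cos (b * (ε / 2)) * Real.cos (b * (s - t)) =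
            Real.sin (b * (ε / 2)) * Real.sin (b * (s - t)) by ring, ← mul_assoc,
          inv_mul_cancel₀ hsin.ne', one_mul]
      refine ⟨(Real.sin (b * (ε / 2)))⁻¹ • (u (t + ε / 2) - Real.cos (b * (ε / 2)) • u t), ?_, ?_, ?_⟩
      · rw [norm_smul, hw, norm_inv, Real.norm_eq_abs, abs_of_pos hsin, inv_mul_cancel₀ hsin.ne']
      · have := hns t ht
        rw [this]; simp
      · intro s hs
        obtain ⟨n, hn⟩ : ∃ n, n = (Real.sin (b * (ε / 2)))⁻¹ • (u (t + ε / 2) - Real.cos (b * (ε / 2)) • u t) := ⟨_, rfl⟩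
        have hnn : ‖n‖ = 1 := by
          rw [hn, norm_smul, hw, norm_inv, Real.norm_eq_abs, abs_of_pos hsin, inv_mul_cancel₀ hsin.ne']
        have hnt : inner ℝ (u t) n = 0 := by
          have := hns t ht
          rw [← hn] at this
          rw [this]; simp
        have hnS := hns s hs
        rw [← hn] at hnS ⊢
        have hc := c1 s hs
        have h2 : ‖u s - (Real.cos (b * (s - t)) • u t + Real.sin (b * (s - t)) • n)‖ ^ 2 = 0 := by
          rw [norm_sub_sq_real, inner_add_right, real_inner_smul_right, real_inner_smul_right,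
            real_inner_comm (u t) (u s), hc, hnS, hu1 s hs, norm_add_sq_real, real_inner_smul_left,
            real_inner_smul_right, hnt, norm_smul, norm_smul, hu1 t ht, hnn, mul_pow, mul_pow,
            Real.norm_eq_abs, Real.norm_eq_abs, sq_abs, sq_abs]
          have := Real.sin_sq_add_cos_sq (b * (s - t))
          linear_combination (-1 : ℝ) * this
        have h3 : ‖u s - (Real.cos (b * (s - t)) • u t + Real.sin (b * (s - t)) • n)‖ = 0 := by
          simpa using h2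
        exact sub_eq_zero.mp (norm_eq_zero.mp h3)
  refine ⟨a, b, n, hn1, ?_, ?_⟩
  · rw [hzu t ht, real_inner_smul_left, hn2, mul_zero]
  · intro s hs
    have hzs := norm_pos_iff.mpr (h0 s hs)
    have hl := (hab s hs).1
    have hnorm : ‖z s‖ = Real.exp (a * (s - t)) * ‖z t‖ := by
      have e1 : Real.log ‖z s‖ = a * (s - t) + Real.log ‖z t‖ := by linarith
      have e2 := congrArg Real.exp e1
      rwa [Real.exp_add, Real.exp_log hzs, Real.exp_log hzt] at e2
    have hzt' : Real.cos (b * (s - t)) • z t = (‖z t‖ * Real.cos (b * (s - t))) • u t := by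
      conv_lhs => rw [hzu t ht]
      rw [smul_smul, mul_comm]
    rw [hzu s hs, hnorm, hn3 s hs, mul_smul, hzt', smul_add, smul_smul, smul_smul]

end model

end Pool.Agent.H73
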