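import Pool.Agent.H73.PQO

open scoped Manifold ContDiff Topology ENNReal Quaternion
open Set Bundle Bornology MeasureTheory Manifold Filter InnerProductGeometry

noncomputable section

namespace Pool.Agent.H73

/-- rational algebra structure, used only to apply the lemmas on exponentials -/
local instance instRatAlg : NormedAlgebra ℚ HQ := .restrictScalars ℚ ℝ HQ

/-- exponential of a quaternion in polar form -/
lemma exp_polar (a b r : ℝ) (ξ : HQ) (h1 : ξ.re = 0) (h2 : ‖ξ‖ = 1) :
    NormedSpace.exp (r • ((a : HQ) + b • ξ)) =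
      Real.exp (a * r) • ((Real.cos (b * r) : HQ) + Real.sin (b * r) • ξ) := by
  rw [Quaternion.exp_eq]
  have e1 : (r • ((a : HQ) + b • ξ)).re = a * r := by
    rw [Quaternion.re_smul, Quaternion.re_add, Quaternion.re_coe, Quaternion.re_smul, h1]
    simp [mul_comm]
  have e2 : (r • ((a : HQ) + b • ξ)).im = (b * r) • ξ := by
    have hξ : ξ.im = ξ := by
      ext <;> simp [h1]
    rw [Quaternion.im_smul, Quaternion.im_add, Quaternion.im_coe, zero_add, Quaternion.im_smul, hξ,
      smul_smul, mul_comm]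
  rw [e1, e2, norm_smul, h2, mul_one, Real.norm_eq_abs, Real.cos_abs, ← Real.exp_eq_exp_ℝ, smul_smul]
  congr 3
  rcases eq_or_ne (b * r) 0 with h | h
  · rw [h]; simp
  · rcases abs_choice (b * r) with h3 | h3
    · rw [h3, div_mul_cancel₀ _ h]
    · rw [h3, Real.sin_neg, neg_div_neg_eq, div_mul_cancel₀ _ h]

/-- the one-parameter subgroup `exp (r η)` of the units -/
def oneP (η : HQ) : Multiplicative ℝ →* HQˣ where
  toFun r := ⟨NormedSpace.exp ((Multiplicative.toAdd r) • η), NormedSpace.exp (-((Multiplicative.toAdd r) • η)),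
    by
      have h := NormedSpace.exp_add_of_commute (x := (Multiplicative.toAdd r) • η)
        (y := -((Multiplicative.toAdd r) • η)) (Commute.neg_right (Commute.refl _))
      rw [add_neg_cancel, NormedSpace.exp_zero] at h
      exact h.symm,
    by
      have h := NormedSpace.exp_add_of_commute (x := -((Multiplicative.toAdd r) • η))
        (y := ((Multiplicative.toAdd r) • η)) (Commute.neg_left (Commute.refl _))
      rw [neg_add_cancel, NormedSpace.exp_zero] at h
      exact h.symm⟩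
  map_one' := by
    apply Units.ext
    simp
  map_mul' r s := by
    apply Units.ext
    simp only [toAdd_mul, Units.val_mul, add_smul]
    apply NormedSpace.exp_add_of_commute
    exact ((Commute.refl η).smul_left _).smul_right _

/-- value of the one-parameter subgroup at a real number -/
def EE (η : HQ) (r : ℝ) : HQˣ := oneP η (Multiplicative.ofAdd r)

lemma EE_val (η : HQ) (r : ℝ) : ((EE η r : HQˣ) : HQ) = NormedSpace.exp (r • η) := rfl

lemma EE_add (η : HQ) (r s : ℝ) : EE η (r + s) = EE η r * EE η s := by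
  unfold EE
  rw [ofAdd_add, map_mul]

lemma EE_zero (η : HQ) : EE η 0 = 1 := by
  unfold EE
  rw [ofAdd_zero, map_one]

lemma EE_neg (η : HQ) (r : ℝ) : EE (-η) r = (EE η r)⁻¹ := by
  apply Units.ext
  rw [EE_val, smul_neg]
  rfl

lemma EE_neg' (η : HQ) (r : ℝ) : EE η (-r) = (EE η r)⁻¹ := by
  apply Units.ext
  rw [EE_val, neg_smul]
  rfl

lemma hasDerivAt_EE (η : HQ) : HasDerivAt (fun r : ℝ => ((EE η r : HQˣ) : HQ)) η 0 := by
  have h := hasDerivAt_exp_smul_const (𝕂 := ℝ) η (0 : ℝ)
  rw [zero_smul, NormedSpace.exp_zero, one_mul] at h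
  exact h

lemma continuous_EE (η : HQ) : Continuous (fun r : ℝ => ((EE η r : HQˣ) : HQ)) := by
  simp only [EE_val]
  have h1 : Continuous (NormedSpace.exp : HQ → HQ) := NormedSpace.exp_continuous
  exact h1.comp (by fun_prop)

/-- spirals are orbits of one-parameter groups of right multiplications -/
lemma quat_form {z : ℝ → HQˣ} {v t ε : ℝ}
    (hε : 0 < ε) (hv : 0 ≤ v) (hvε : v * ε < Real.pi)
    (hz : ∀ s ∈ Ioo (t - ε) (t + ε), ∀ s' ∈ Ioo (t - ε) (t + ε),
      mD (z s : HQ) (z s' : HQ) = v * |s - s'|) :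
    ∃ η : HQ, ∀ s ∈ Ioo (t - ε) (t + ε), z s = z t * EE η (s - t) := by
  obtain ⟨a, b, n, hn1, hn2, h⟩ := circle_form hperpHQ (z := fun s => (z s : HQ)) hε hv hvε
    (fun s _ => Units.ne_zero _) hz
  have hzt : 0 < ‖(z t : HQ)‖ := by simp
  obtain ⟨ξ, hξ⟩ : ∃ ξ : HQ, ξ = ‖(z t : HQ)‖ • (((z t)⁻¹ : HQˣ) : HQ) * n := ⟨_, rfl⟩
  have hξ1 : (z t : HQ) * ξ = ‖(z t : HQ)‖ • n := by
    rw [hξ, smul_mul_assoc, mul_smul_comm, ← mul_assoc, Units.mul_inv, one_mul]
  have hξn : ‖ξ‖ = 1 := by
    have := congrArg norm hξ1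
    rw [norm_mul, norm_smul, norm_norm, hn1, mul_one] at this
    exact mul_left_cancel₀ hzt.ne' (this.trans (mul_one _).symm)
  have hξre : ξ.re = 0 := by
    have h1 : inner ℝ (z t : HQ) ((z t : HQ) * ξ) = ‖(z t : HQ)‖ ^ 2 * ξ.re := inner_mul_right' _ _
    rw [hξ1, real_inner_smul_right, hn2, mul_zero] at h1
    have h2 := mul_eq_zero.mp h1.symm
    exact h2.resolve_left (by positivity)
  refine ⟨(a : HQ) + b • ξ, ?_⟩
  intro s hs
  apply Units.ext
  rw [h s hs, Units.val_mul, EE_val, exp_polar a b _ ξ hξre hξn, mul_smul_comm]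
  congr 1
  rw [mul_add, mul_smul_comm, hξ1, smul_smul, mul_comm (Real.sin _)]
  congr 1
  rw [← Quaternion.coe_mul_eq_smul, Quaternion.coe_commutes]

end Pool.Agent.H73
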