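import Pool.Agent.H73.PQP

open scoped Manifold ContDiff Topology ENNReal Quaternion
open Set Bundle Bornology MeasureTheory Manifold Filter InnerProductGeometry

noncomputable section

namespace Pool.Agent.H73

lemma redist_mk_bot_le (x y : HQˣ) :
    riemannianEDist 𝓘(ℝ, HQ) (mkY ⊥ x) (mkY ⊥ y) ≤ ENNReal.ofReal (mD (x : HQ) (y : HQ)) := by
  rw [redist_mk]
  exact iInf₂_le_of_le y rfl le_rfl

/-- close representatives realise the distance -/
lemma redist_of_close {x y : HQˣ} (h : mD (x : HQ) (y : HQ) < tt / 4) :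
    riemannianEDist 𝓘(ℝ, HQ) (mkY ⊥ x) (mkY ⊥ y) = ENNReal.ofReal (mD (x : HQ) (y : HQ)) := by
  apply le_antisymm (redist_mk_bot_le x y)
  rw [redist_mk]
  refine le_iInf₂ fun z hz => ?_
  apply ENNReal.ofReal_le_ofReal
  obtain ⟨m, rfl⟩ := mk_bot.mp hz
  rcases eq_or_ne m 0 with rfl | hm
  · rw [zpow_zero, one_mul]
  · refine le_trans ?_ (mD_ge_log _ _)
    have hx : 0 < ‖(x : HQ)‖ := by simp
    have hy : 0 < ‖(y : HQ)‖ := by simp
    have h1 := (mD_ge_log (x : HQ) (y : HQ)).trans_lt h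
    rw [Units.val_mul, norm_mul, norm_wq_zpow, Real.log_mul (Real.exp_ne_zero _) hy.ne', Real.log_exp]
    have h2 : (1 : ℝ) ≤ |(m : ℝ)| := by
      have := Int.one_le_abs hm
      exact_mod_cast this
    have h3 : tt ≤ |(m : ℝ) * tt| := by
      rw [abs_mul, abs_of_pos tt_pos]
      nlinarith [tt_pos]
    have h4 := abs_sub_abs_le_abs_sub ((m : ℝ) * tt) (Real.log ‖(x : HQ)‖ - Real.log ‖(y : HQ)‖)
    have h5 : |(m : ℝ) * tt - (Real.log ‖(x : HQ)‖ - Real.log ‖(y : HQ)‖)| =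
        |Real.log ‖(x : HQ)‖ - (↑m * tt + Real.log ‖(y : HQ)‖)| := by
      rw [abs_sub_comm]
      congr 1
      ring
    rw [← h5]
    have := tt_pos
    linarith

lemma exists_close {x : HQˣ} {q : Yq ⊥} {r : ℝ} (hr : 0 < r)
    (h : (riemannianEDist 𝓘(ℝ, HQ) (mkY ⊥ x) q).toReal < r) :
    ∃ z : HQˣ, mkY ⊥ z = q ∧ mD (x : HQ) (z : HQ) < r := by
  obtain ⟨y, rfl⟩ := mk_surj ⊥ q
  have h1 : riemannianEDist 𝓘(ℝ, HQ) (mkY ⊥ x) (mkY ⊥ y) < ENNReal.ofReal r := by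
    rw [← ENNReal.ofReal_toReal (redist_ne_top (mkY ⊥ x) (mkY ⊥ y))]
    exact (ENNReal.ofReal_lt_ofReal_iff hr).mpr h
  rw [redist_mk, iInf_lt_iff] at h1
  obtain ⟨z, hz⟩ := h1
  rw [iInf_lt_iff] at hz
  obtain ⟨hz1, hz2⟩ := hz
  exact ⟨z, hz1, (ENNReal.ofReal_lt_ofReal_iff hr).mp hz2⟩

/-- local form of the geodesics of `M` -/
lemma local_spiral {c : ℝ → Yq ⊥} {v : ℝ} (hv : 0 ≤ v) {t ε0 : ℝ} (hε0 : 0 < ε0)
    (hc : ∀ s ∈ Ioo (t - ε0) (t + ε0), ∀ s' ∈ Ioo (t - ε0) (t + ε0),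
      (riemannianEDist 𝓘(ℝ, HQ) (c s) (c s')).toReal = v * |s - s'|) :
    ∃ (x : HQˣ) (η : HQ) (ε : ℝ), 0 < ε ∧ ∀ s ∈ Ioo (t - ε) (t + ε),
      c s = mkY ⊥ (x * EE η (s - t)) := by
  obtain ⟨x, hx⟩ := mk_surj ⊥ (c t)
  obtain ⟨ε, hε⟩ : ∃ ε, ε = min ε0 (tt / (8 * (v + 1))) := ⟨_, rfl⟩
  have htt := tt_pos
  have hεpos : 0 < ε := by rw [hε]; positivity
  have hε1 : ε ≤ ε0 := by rw [hε]; exact min_le_left _ _
  have hvε : v * ε < tt / 8 := by
    have h1 : ε ≤ tt / (8 * (v + 1)) := by rw [hε]; exact min_le_right _ _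
    have h2 : (v + 1) * ε ≤ tt / 8 := by
      calc (v + 1) * ε ≤ (v + 1) * (tt / (8 * (v + 1))) := by gcongr
        _ = tt / 8 := by field_simp
    nlinarith
  have hsub : Ioo (t - ε) (t + ε) ⊆ Ioo (t - ε0) (t + ε0) := Ioo_subset_Ioo (by linarith) (by linarith)
  have ht : t ∈ Ioo (t - ε) (t + ε) := ⟨by linarith, by linarith⟩
  have hex : ∀ s, ∃ z : HQˣ, s ∈ Ioo (t - ε) (t + ε) → mkY ⊥ z = c s ∧ mD (x : HQ) (z : HQ) < tt / 8 := by
    intro s
    by_cases hs : s ∈ Ioo (t - ε) (t + ε)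
    · have h1 := hc t (hsub ht) s (hsub hs)
      rw [← hx] at h1
      have h2 : v * |t - s| < tt / 8 := by
        have : |t - s| ≤ ε := by
          rw [abs_le]
          constructor <;> linarith [hs.1, hs.2]
        calc v * |t - s| ≤ v * ε := by gcongr
          _ < tt / 8 := hvε
      rw [← h1] at h2
      obtain ⟨z, hz⟩ := exists_close (by positivity) h2
      exact ⟨z, fun _ => hz⟩
    · exact ⟨1, fun h => absurd h hs⟩
  choose z hz using hex
  have hzz : ∀ s ∈ Ioo (t - ε) (t + ε), ∀ s' ∈ Ioo (t - ε) (t + ε),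
      mD (z s : HQ) (z s' : HQ) = v * |s - s'| := by
    intro s hs s' hs'
    have h1 : mD (z s : HQ) (z s' : HQ) < tt / 4 := by
      have h2 := mD_triangle (z s : HQ) (x : HQ) (z s' : HQ)
      rw [mD_comm (z s : HQ) (x : HQ)] at h2
      linarith [(hz s hs).2, (hz s' hs').2]
    have h3 := hc s (hsub hs) s' (hsub hs')
    rw [← (hz s hs).1, ← (hz s' hs').1, redist_of_close h1, ENNReal.toReal_ofReal (mD_nonneg _ _)] at h3
    exact h3
  have hπ : v * ε < Real.pi := by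
    have : tt / 8 < Real.pi := by
      have := Real.pi_gt_three
      unfold tt
      linarith
    linarith
  obtain ⟨η, hη⟩ := quat_form hεpos hv hπ hzz
  refine ⟨z t, η, ε, hεpos, ?_⟩
  intro s hs
  rw [← hη s hs, (hz s hs).1]

/-- the direction of a spiral is determined by its germ -/
lemma germ_unique {x x' : HQˣ} {η η' : HQ}
    (h : ∀ᶠ r in 𝓝 (0 : ℝ), mkY ⊥ (x * EE η r) = mkY ⊥ (x' * EE η' r)) : η = η' := by
  have h0 := h.self_of_nhds
  rw [EE_zero, EE_zero, mul_one, mul_one] at h0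
  obtain ⟨m, hm⟩ := mk_bot.mp h0
  have hcont : ∀ η : HQ, ContinuousAt (fun r : ℝ => Real.log ‖((EE η r : HQˣ) : HQ)‖) 0 := by
    intro η
    apply ContinuousAt.log
    · exact (continuous_EE η).norm.continuousAt
    · simp
  have hsmall : ∀ η : HQ, ∀ᶠ r in 𝓝 (0 : ℝ), |Real.log ‖((EE η r : HQˣ) : HQ)‖| < tt / 2 := by
    intro η
    have h1 := (hcont η).abs.tendsto
    simp only [EE_zero, Units.val_one, norm_one, Real.log_one, abs_zero] at h1
    exact h1.eventually (gt_mem_nhds (by have := tt_pos; positivity))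
  have key : ∀ᶠ r in 𝓝 (0 : ℝ), ((EE η r : HQˣ) : HQ) = ((EE η' r : HQˣ) : HQ) := by
    filter_upwards [h, hsmall η, hsmall η'] with r hr h1 h2
    obtain ⟨k, hk⟩ := mk_bot.mp hr
    rw [← hm] at hk
    have e1 := congrArg (fun u : HQˣ => Real.log ‖(u : HQ)‖) hk
    have hx' : 0 < ‖(x' : HQ)‖ := by simp
    have hE : ∀ η : HQ, 0 < ‖((EE η r : HQˣ) : HQ)‖ := fun η => by simp
    simp only [Units.val_mul, norm_mul, norm_wq_zpow] at e1
    rw [Real.log_mul (Real.exp_ne_zero _) (mul_pos hx' (hE η')).ne', Real.log_exp,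
      Real.log_mul hx'.ne' (hE η').ne',
      Real.log_mul (mul_pos (Real.exp_pos _) hx').ne' (hE η).ne',
      Real.log_mul (Real.exp_ne_zero _) hx'.ne', Real.log_exp] at e1
    have e2 : ((k : ℝ) - m) * tt = Real.log ‖((EE η r : HQˣ) : HQ)‖ - Real.log ‖((EE η' r : HQˣ) : HQ)‖ := by
      linarith
    have e3 : |((k : ℝ) - m) * tt| < tt := by
      rw [e2]
      have := abs_sub (Real.log ‖((EE η r : HQˣ) : HQ)‖) (Real.log ‖((EE η' r : HQˣ) : HQ)‖)
      linarith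
    rw [abs_mul, abs_of_pos tt_pos] at e3
    have e4 : |((k : ℝ) - m)| < 1 := by
      by_contra hcon
      push Not at hcon
      nlinarith [tt_pos]
    have e5 : k = m := by
      have : |k - m| < 1 := by exact_mod_cast e4
      have := Int.abs_lt_one_iff.mp this
      linarith
    rw [e5, mul_assoc] at hk
    have e6 := mul_left_cancel hk
    have e7 := mul_left_cancel e6
    rw [e7]
  have d1 := hasDerivAt_EE η
  have d2 := (hasDerivAt_EE η').congr_of_eventuallyEq key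
  exact d1.unique d2

end Pool.Agent.H73
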