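import Pool.Agent.H73.PQQ

open scoped Manifold ContDiff Topology ENNReal Quaternion
open Set Bundle Bornology MeasureTheory Manifold Filter InnerProductGeometry

noncomputable section

namespace Pool.Agent.H73

/-- global form of the geodesics of `M` -/
lemma global_spiral {c : ℝ → Yq ⊥} {v : ℝ} (hv : 0 ≤ v)
    (hc : ∀ t : ℝ, ∃ ε0 > 0, ∀ s ∈ Ioo (t - ε0) (t + ε0), ∀ s' ∈ Ioo (t - ε0) (t + ε0),
      (riemannianEDist 𝓘(ℝ, HQ) (c s) (c s')).toReal = v * |s - s'|) :
    ∃ η : HQ, ∀ s : ℝ, c s = (rmul (EE η s)).equiv (c 0) := by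
  have hloc : ∀ t : ℝ, ∃ (x : HQˣ) (η : HQ) (ε : ℝ), 0 < ε ∧ ∀ s ∈ Ioo (t - ε) (t + ε),
      c s = mkY ⊥ (x * EE η (s - t)) := by
    intro t
    obtain ⟨ε0, hε0, h⟩ := hc t
    exact local_spiral hv hε0 h
  choose x η ε hε hform using hloc
  have hηc : IsLocallyConstant η := by
    rw [IsLocallyConstant.iff_eventually_eq]
    intro t
    filter_upwards [Ioo_mem_nhds (show t - ε t < t by linarith [hε t]) (show t < t + ε t by linarith [hε t])]
      with s hs
    -- compare germs at `s`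
    have h1 : ∀ᶠ r in 𝓝 (0 : ℝ), s + r ∈ Ioo (t - ε t) (t + ε t) := by
      have : ContinuousAt (fun r : ℝ => s + r) 0 := by fun_prop
      apply this.preimage_mem_nhds
      rw [add_zero]
      exact Ioo_mem_nhds hs.1 hs.2
    have h2 : ∀ᶠ r in 𝓝 (0 : ℝ), s + r ∈ Ioo (s - ε s) (s + ε s) := by
      have : ContinuousAt (fun r : ℝ => s + r) 0 := by fun_prop
      apply this.preimage_mem_nhds
      rw [add_zero]
      exact Ioo_mem_nhds (by linarith [hε s]) (by linarith [hε s])
    refine germ_unique (x := x s) (x' := x t * EE (η t) (s - t)) ?_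
    filter_upwards [h1, h2] with r hr1 hr2
    have e1 := hform t (s + r) hr1
    have e2 := hform s (s + r) hr2
    rw [show s + r - s = r by ring] at e2
    rw [show s + r - t = (s - t) + r by ring, EE_add, ← mul_assoc] at e1
    rw [← e2, e1]
  have hη0 : ∀ t, η t = η 0 := fun t => hηc.apply_eq_of_preconnectedSpace t 0
  refine ⟨η 0, ?_⟩
  -- the curve moved back is constant
  have hd : IsLocallyConstant (fun s : ℝ => (rmul (EE (η 0) (-s))).equiv (c s)) := by
    rw [IsLocallyConstant.iff_eventually_eq]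
    intro t
    filter_upwards [Ioo_mem_nhds (show t - ε t < t by linarith [hε t]) (show t < t + ε t by linarith [hε t])]
      with s hs
    have ht : t ∈ Ioo (t - ε t) (t + ε t) := ⟨by linarith [hε t], by linarith [hε t]⟩
    have key : ∀ r ∈ Ioo (t - ε t) (t + ε t), (rmul (EE (η 0) (-r))).equiv (c r) =
        mkY ⊥ (x t * EE (η 0) (-t)) := by
      intro r hr
      rw [hform t r hr, Sym.equiv_mk, hη0 t]
      change mkY ⊥ (x t * EE (η 0) (r - t) * EE (η 0) (-r)) = _
      rw [mul_assoc, ← EE_add, show r - t + -r = -t by ring]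
    rw [key s hs, key t ht]
  intro s
  have h1 : (rmul (EE (η 0) (-s))).equiv (c s) = (rmul (EE (η 0) (-0))).equiv (c 0) :=
    hd.apply_eq_of_preconnectedSpace s 0
  obtain ⟨a, ha⟩ := mk_surj ⊥ (c s)
  obtain ⟨b, hb⟩ := mk_surj ⊥ (c 0)
  rw [← ha, ← hb] at h1 ⊢
  rw [Sym.equiv_mk, Sym.equiv_mk] at h1
  change mkY ⊥ (a * EE (η 0) (-s)) = mkY ⊥ (b * EE (η 0) (-0)) at h1
  rw [neg_zero, EE_zero, mul_one] at h1
  obtain ⟨m, hm⟩ := mk_bot.mp h1
  rw [Sym.equiv_mk]
  change mkY ⊥ a = mkY ⊥ (b * EE (η 0) s)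
  refine mk_bot.mpr ⟨m, ?_⟩
  rw [← mul_assoc, hm, mul_assoc, ← EE_add, neg_add_cancel, EE_zero, mul_one]

lemma geodesicOrbit_M : IsGeodesicOrbitSpace (Mf ⊥).pt := by
  refine ⟨?_, ?_⟩
  · intro x y
    obtain ⟨f, hf, -⟩ := weaklySymmetric_M x y
    exact ⟨f, hf⟩
  · rintro c ⟨v, hv, hc⟩
    obtain ⟨η, hη⟩ := global_spiral (c := c) hv hc
    refine ⟨Rhom.comp (oneP (-η)), ?_, ?_⟩
    · intro q
      obtain ⟨x, rfl⟩ := mk_surj ⊥ q
      have h1 : Continuous (mkY ⊥) := (mk_cov ⊥).isCoveringMap.continuous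
      have h2 : Continuous (fun s : ℝ => x * (EE (-η) s)⁻¹) := by
        have h3 : Continuous (fun s : ℝ => EE η s) := by
          rw [Units.continuous_iff]
          refine ⟨continuous_EE η, ?_⟩
          have h4 := continuous_EE (-η)
          simpa only [EE_neg] using h4
        have h5 : (fun s : ℝ => x * (EE (-η) s)⁻¹) = fun s => x * EE η s := by
          funext s
          rw [EE_neg, inv_inv]
        rw [h5]
        exact continuous_const.mul h3
      exact h1.comp h2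
    · intro s
      refine (hη s).trans ?_
      obtain ⟨b, hb⟩ := mk_surj ⊥ (c 0)
      rw [← hb]
      change mkY ⊥ (b * EE η s) = mkY ⊥ (b * (EE (-η) s)⁻¹)
      rw [EE_neg, inv_inv]

end Pool.Agent.H73
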