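import Mathlib

/-!
# Semi-Riemannian metrics, geodesics and completeness on a smooth manifold

Everything is in the textbook coordinate form: `M` is a smooth manifold modelled on a normed space
`E`, the components of the metric in a chart are `g(∂_a, ∂_b)`, the Christoffel symbols of the first
kind are `Γ(a,b;c) = (∂_a g(b,c) + ∂_b g(a,c) - ∂_c g(a,b)) / 2`, and a smooth curve is a geodesic
when `g(x'', c) + Γ(x', x'; c) = 0` for each vector `c` in each chart.
-/

open scoped Manifold ContDiff Topology
open Set MeasureTheory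

noncomputable section

namespace Pool.Agent.H73

section General

variable {E : Type*} [NormedAddCommGroup E] [NormedSpace ℝ E]
  {M : Type*} [TopologicalSpace M] [ChartedSpace E M]

/-- The component of a field `B` of bilinear forms on the tangent spaces of `M` in the chart `e`,
for the constant coordinate vectors `a` and `b`, at the point of `M` with coordinates `u`. -/
def coordForm (B : ∀ x : M, TangentSpace 𝓘(ℝ, E) x → TangentSpace 𝓘(ℝ, E) x → ℝ)
    (e : OpenPartialHomeomorph M E) (a b u : E) : ℝ :=
  B (e.symm u) (mfderiv 𝓘(ℝ, E) 𝓘(ℝ, E) e.symm u a) (mfderiv 𝓘(ℝ, E) 𝓘(ℝ, E) e.symm u b)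

/-- Christoffel symbol of the first kind at `u` of a metric with components `G a b`. -/
def christoffel (G : E → E → E → ℝ) (u a b c : E) : ℝ :=
  (fderiv ℝ (G b c) u a + fderiv ℝ (G a c) u b - fderiv ℝ (G a b) u c) / 2

variable (E M) in
/-- A smooth semi-Riemannian metric on the manifold `M`: a symmetric nondegenerate bilinear form on
each tangent space whose components in each chart of the atlas are smooth. -/
structure SemiRiemannianMetric where
  /-- the bilinear form at each point -/
  form : ∀ x : M, TangentSpace 𝓘(ℝ, E) x → TangentSpace 𝓘(ℝ, E) x → ℝ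
  add : ∀ (x : M) (u v w : TangentSpace 𝓘(ℝ, E) x), form x (u + v) w = form x u w + form x v w
  smul : ∀ (x : M) (r : ℝ) (v w : TangentSpace 𝓘(ℝ, E) x), form x (r • v) w = r * form x v w
  symm : ∀ (x : M) (v w : TangentSpace 𝓘(ℝ, E) x), form x v w = form x w v
  nondegenerate : ∀ (x : M) (v : TangentSpace 𝓘(ℝ, E) x), (∀ w, form x v w = 0) → v = 0
  smooth : ∀ e ∈ atlas E M, ∀ a b : E, ContDiffOn ℝ ∞ (coordForm form e a b) e.target

/-- The velocity of a curve, as a point of the tangent bundle. -/
def velocity (γ : ℝ → M) (t : ℝ) : TangentBundle 𝓘(ℝ, E) M :=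
  ⟨γ t, mfderiv 𝓘(ℝ, ℝ) 𝓘(ℝ, E) γ t (1 : ℝ)⟩

namespace SemiRiemannianMetric

variable (g : SemiRiemannianMetric E M)

/-- The metric is indefinite: on each tangent space it takes positive and negative values. -/
def IsIndefinite : Prop :=
  ∀ x : M, (∃ v, 0 < g.form x v v) ∧ (∃ v, g.form x v v < 0)

/-- An affinely parametrised geodesic `ℝ → M` of the Levi-Civita connection of `g`: a smooth curve
which satisfies the geodesic equation in each chart. -/
def IsGeodesic (γ : ℝ → M) : Prop :=
  ContMDiff 𝓘(ℝ, ℝ) 𝓘(ℝ, E) ∞ γ ∧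
  ∀ e ∈ atlas E M, ∀ t : ℝ, γ t ∈ e.source → ∀ c : E,
    coordForm g.form e (deriv (deriv (e ∘ γ)) t) c (e (γ t)) +
      christoffel (coordForm g.form e) (e (γ t)) (deriv (e ∘ γ) t) (deriv (e ∘ γ) t) c = 0

/-- Geodesic completeness: each tangent vector is the initial velocity of a geodesic defined on all
of `ℝ`. -/
def IsComplete : Prop :=
  ∀ v : TangentBundle 𝓘(ℝ, E) M, ∃ γ : ℝ → M, g.IsGeodesic γ ∧ velocity γ 0 = v

end SemiRiemannianMetric

variable (E) in
/-- The orbit `{γ'(t) : t ∈ ℝ}` of a curve is bounded (relatively compact) in `TM`. -/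
def HasBoundedOrbit [IsManifold 𝓘(ℝ, E) 1 M] (γ : ℝ → M) : Prop :=
  ∃ K : Set (TangentBundle 𝓘(ℝ, E) M), IsCompact K ∧ ∀ t, velocity γ t ∈ K

/-- A subset of `TM` has measure zero: its image under each of the standard charts of `TM` is
a null set for the Lebesgue (Haar) measures of `E × E`. -/
def IsNull [MeasurableSpace E] [IsManifold 𝓘(ℝ, E) 1 M] (S : Set (TangentBundle 𝓘(ℝ, E) M)) :
    Prop :=
  ∀ (μ : Measure (E × E)) [μ.IsAddHaarMeasure] (p : TangentBundle 𝓘(ℝ, E) M),
    μ (chartAt (ModelProd E E) p '' (S ∩ (chartAt (ModelProd E E) p).source)) = 0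

end General

end Pool.Agent.H73
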