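import Pool.Agent.H85.SpgIso
import Pool.Agent.H85.SpgR1
import Pool.Agent.H85.SpgR2
import Pool.Agent.H78.SpgQ
import Pool.Agent.H78.SpgR3P

/-!
# Reidemeister moves for letters: general lemmas
-/

set_option linter.unusedSectionVars false
set_option linter.unusedVariables false

open Function

namespace Spg

namespace PS

section

variable {Λ : Type} [Fintype Λ]

theorem inCube_inl {A B : PS Λ} {s : A.X ⊕ B.X → Bool}
    (hs : InCube (pair A B).act (pair A B).val s) :
    InCube A.act A.val (fun x => s (Sum.inl x)) := fun x hx =>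
  hs (Sum.inl x) (fun h' => hx (Finset.inl_mem_disjSum.1 h'))

theorem inCube_inr {A B : PS Λ} {s : A.X ⊕ B.X → Bool}
    (hs : InCube (pair A B).act (pair A B).val s) :
    InCube B.act B.val (fun x => s (Sum.inr x)) := fun x hx =>
  hs (Sum.inr x) (fun h' => hx (Finset.inr_mem_disjSum.1 h'))

/-- the closed system of a pair, with its crossings displayed as a sum -/
def p2 (W B : PS Λ) : CS (W.X ⊕ B.X) (W.P ⊕ B.P → ZMod 2) := (pair W B).close

theorem EE_p2 (W B : PS Λ) (n : ℤ) :
    EE W B n ↔ (p2 W B).E (W.act.disjSum B.act) (Sum.elim W.val B.val) n := Iff.rfl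

/-- the closed version of the second Reidemeister move on a pair -/
theorem EE_R2 (W B : PS Λ) (gW : W.P → ZMod 2) (gB : B.P → ZMod 2) {xa xb : W.X} (hne : xa ≠ xb)
    (ha : xa ∈ W.act) (hb : xb ∈ W.act) (hleg : ∀ l, gW (W.leg l) = gB (B.leg l))
    (la : gW (W.ua xa) + gW (W.ub xa) = 1) (lb : gW (W.ua xb) + gW (W.ub xb) = 1)
    (ly : ∀ y ∈ W.act, y ≠ xa → y ≠ xb → gW (W.ua y) + gW (W.ub y) = 0)
    (lyB : ∀ y ∈ B.act, gB (B.ua y) + gB (B.ub y) = 0)
    (con : ∀ s, InCube W.act W.val s → s xa = true → s xb = false → gW ∈ W.Con s)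
    (conB : ∀ s, InCube B.act B.val s → gB ∈ B.Con s) (n : ℤ) :
    EE W B (n + 1) ↔ EE (refreeze W ((W.act.erase xa).erase xb)
      (update (update W.val xa false) xb true)) B n := by
  have H : R2H (p2 W B) (W.act.disjSum B.act) (Sum.elim W.val B.val)
      (Sum.inl xa) (Sum.inl xb) (fn (Sum.elim gW gB)) :=
    { ma := Finset.inl_mem_disjSum.2 ha
      mb := Finset.inl_mem_disjSum.2 hb
      ne := fun h => hne (Sum.inl_injective h)
      la := (fn_uvec (P := W.P ⊕ B.P) _ _ _).trans la
      lb := (fn_uvec (P := W.P ⊕ B.P) _ _ _).trans lb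
      ly := by
        rintro (y | y) hy h1 h2
        · exact (fn_uvec (P := W.P ⊕ B.P) _ _ _).trans (ly y (Finset.inl_mem_disjSum.1 hy)
            (fun e => h1 (by rw [e])) (fun e => h2 (by rw [e])))
        · exact (fn_uvec (P := W.P ⊕ B.P) _ _ _).trans (lyB y (Finset.inr_mem_disjSum.1 hy))
      lL := by
        intro s hs h1 h2 l hl
        refine (mem_ann_fn (P := W.P ⊕ B.P)).1 hl _ ⟨?_, ?_, ?_⟩
        · exact con _ (inCube_inl hs) h1 h2
        · exact conB _ (inCube_inr hs)
        · exact hleg }
  have h1 := H.sdr.E_iff n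
  have e1 : H.A' = ((W.act.erase xa).erase xb).disjSum B.act := by
    ext z
    rw [H.mem_A']
    cases z with
    | inl x =>
      rw [Finset.inl_mem_disjSum, Finset.inl_mem_disjSum, Finset.mem_erase, Finset.mem_erase]
      constructor
      · rintro ⟨h2, h3, h4⟩
        exact ⟨fun h => h4 (by rw [h]), fun h => h3 (by rw [h]), h2⟩
      · rintro ⟨h2, h3, h4⟩
        exact ⟨h4, fun h => h3 (Sum.inl_injective h), fun h => h2 (Sum.inl_injective h)⟩
    | inr y =>
      rw [Finset.inr_mem_disjSum, Finset.inr_mem_disjSum]
      constructor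
      · exact fun h => h.1
      · exact fun h => ⟨h, by simp, by simp⟩
  have e2 : H.c' = Sum.elim (update (update W.val xa false) xb true) B.val := by
    unfold R2H.c'
    funext z
    cases z with
    | inl y =>
      show _ = update (update W.val xa false) xb true y
      by_cases h1 : y = xb
      · rw [h1, update_self, update_self]
      · rw [update_of_ne (fun h => h1 (Sum.inl_injective h)), update_of_ne h1]
        by_cases h2 : y = xa
        · rw [h2, update_self, update_self]
        · rw [update_of_ne (fun h => h2 (Sum.inl_injective h)), update_of_ne h2]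
          rfl
    | inr x =>
      rw [update_of_ne (by simp), update_of_ne (by simp)]
      rfl
  rw [e1, e2] at h1
  exact h1

/-- the closed version of the first Reidemeister move on a pair -/
theorem EE_R1 (W B : PS Λ) (gW : W.P → ZMod 2) (gB : B.P → ZMod 2) {x : W.X} (b : Bool)
    (hx : x ∈ W.act) (hleg : ∀ l, gW (W.leg l) = gB (B.leg l))
    (lx : gW (W.ua x) + gW (W.ub x) = 1)
    (ly : ∀ y ∈ W.act, y ≠ x → gW (W.ua y) + gW (W.ub y) = 0)
    (lyB : ∀ y ∈ B.act, gB (B.ua y) + gB (B.ub y) = 0)
    (con : ∀ s, InCube W.act W.val s → s x = b → gW ∈ W.Con s)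
    (conB : ∀ s, InCube B.act B.val s → gB ∈ B.Con s) (n : ℤ) :
    EE W B (n + if b then 1 else 0) ↔ EE (refreeze W (W.act.erase x)
      (update W.val x (!b))) B n := by
  have H : R1H (p2 W B) (W.act.disjSum B.act) (Sum.elim W.val B.val)
      (Sum.inl x) b (fn (Sum.elim gW gB)) :=
    { mx := Finset.inl_mem_disjSum.2 hx
      lx := (fn_uvec (P := W.P ⊕ B.P) _ _ _).trans lx
      ly := by
        rintro (y | y) hy h1
        · exact (fn_uvec (P := W.P ⊕ B.P) _ _ _).trans (ly y (Finset.inl_mem_disjSum.1 hy)
            (fun e => h1 (by rw [e])))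
        · exact (fn_uvec (P := W.P ⊕ B.P) _ _ _).trans (lyB y (Finset.inr_mem_disjSum.1 hy))
      lL := by
        intro s hs h1 l hl
        refine (mem_ann_fn (P := W.P ⊕ B.P)).1 hl _ ⟨?_, ?_, ?_⟩
        · exact con _ (inCube_inl hs) h1
        · exact conB _ (inCube_inr hs)
        · exact hleg }
  have e1 : (W.act.disjSum B.act).erase (Sum.inl x) = (W.act.erase x).disjSum B.act := by
    ext z
    rw [Finset.mem_erase]
    cases z with
    | inl y =>
      rw [Finset.inl_mem_disjSum, Finset.inl_mem_disjSum, Finset.mem_erase]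
      constructor
      · rintro ⟨h2, h3⟩
        exact ⟨fun h => h2 (by rw [h]), h3⟩
      · rintro ⟨h2, h3⟩
        exact ⟨fun h => h2 (Sum.inl_injective h), h3⟩
    | inr y =>
      rw [Finset.inr_mem_disjSum, Finset.inr_mem_disjSum]
      constructor
      · exact fun h => h.2
      · exact fun h => ⟨by simp, h⟩
  have e2 : ∀ c, update (Sum.elim W.val B.val) (Sum.inl x) c =
      Sum.elim (update W.val x c) B.val := by
    intro c
    funext z
    cases z with
    | inl y =>
      show _ = update W.val x c y
      by_cases h1 : y = x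
      · rw [h1, update_self, update_self]
      · rw [update_of_ne (fun h => h1 (Sum.inl_injective h)), update_of_ne h1]
        rfl
    | inr x =>
      rw [update_of_ne (by simp)]
      rfl
  cases b with
  | false =>
    have h1 := H.sdrF.E_iff n
    rw [e1, e2] at h1
    exact h1
  | true =>
    have h1 := H.sdrT.E_iff n
    rw [e1, e2] at h1
    exact h1

end

section

variable {Λ : Type} [Fintype Λ] [DecidableEq Λ]

/-- the frozen letter -/
def frz (l : Letter Λ) (b : Bool) : Letter Λ := ⟨l.i, l.j, l.ne, l.m0, l.m1, l.mne, some b⟩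

theorem liftX_act' (A : PS Λ) (w : List (Letter Λ)) {x : A.X} (hx : x ∈ A.act) :
    liftX A w x ∈ (attachW A w).act := by
  induction w with
  | nil => exact hx
  | cons l w ih => exact (mem_attach_act _ _ _).2 ih

/-- freezing two successive letters below a word; the first letter is `l'` -/
theorem refreeze_word (A : PS Λ) (l l' : Letter Λ) (hf : l.fr = none) (hf' : l'.fr = none)
    (b b' : Bool) (w : List (Letter Λ)) :
    refreeze (attachW (attach (attach A l') l) w)
      (((attachW (attach (attach A l') l) w).act.erase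
        (liftX (attach (attach A l') l) w (xS _ l (xN A l')))).erase
        (liftX (attach (attach A l') l) w (xN _ l)))
      (update (update (attachW (attach (attach A l') l) w).val
        (liftX (attach (attach A l') l) w (xS _ l (xN A l'))) b')
        (liftX (attach (attach A l') l) w (xN _ l)) b) =
    attachW (attach (attach A (frz l' b')) (frz l b)) w := by
  have e1 := attachW_refreeze (attach (attach A l') l) w
    (((attach (attach A l') l).act.erase (xS _ l (xN A l'))).erase (xN _ l))
    (update (update (attach (attach A l') l).val (xS _ l (xN A l')) b') (xN _ l) b)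
  rw [← attach2_frozen A l l' hf hf' b b', aW_erase, aW_erase, cW_update, cW_update, aW_act,
    cW_val] at e1
  exact e1.symm

/-- the second Reidemeister move for two successive letters below a word (the first letter is `l'`);
the circle lives in the states with `l' = !b'`, `l = !b`; `b' ≠ b` -/
theorem EE_R2w (A B : PS Λ) (l l' : Letter Λ) (hf : l.fr = none) (hf' : l'.fr = none)
    (b : Bool) (w : List (Letter Λ))
    (gW : (attachW (attach (attach A l') l) w).P → ZMod 2) (gB : B.P → ZMod 2)
    (hleg : ∀ k, gW ((attachW (attach (attach A l') l) w).leg k) = gB (B.leg k))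
    (l1 : gW ((attachW (attach (attach A l') l) w).ua
        (liftX (attach (attach A l') l) w (xN _ l))) +
      gW ((attachW (attach (attach A l') l) w).ub
        (liftX (attach (attach A l') l) w (xN _ l))) = 1)
    (l2 : gW ((attachW (attach (attach A l') l) w).ua
        (liftX (attach (attach A l') l) w (xS _ l (xN A l')))) +
      gW ((attachW (attach (attach A l') l) w).ub
        (liftX (attach (attach A l') l) w (xS _ l (xN A l')))) = 1)
    (ly : ∀ y ∈ (attachW (attach (attach A l') l) w).act,
      y ≠ liftX (attach (attach A l') l) w (xN _ l) →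
      y ≠ liftX (attach (attach A l') l) w (xS _ l (xN A l')) →
      gW ((attachW (attach (attach A l') l) w).ua y) +
        gW ((attachW (attach (attach A l') l) w).ub y) = 0)
    (lyB : ∀ y ∈ B.act, gB (B.ua y) + gB (B.ub y) = 0)
    (con : ∀ s, InCube (attachW (attach (attach A l') l) w).act
      (attachW (attach (attach A l') l) w).val s →
      s (liftX (attach (attach A l') l) w (xN _ l)) = !b →
      s (liftX (attach (attach A l') l) w (xS _ l (xN A l'))) = b →
      gW ∈ (attachW (attach (attach A l') l) w).Con s)
    (conB : ∀ s, InCube B.act B.val s → gB ∈ B.Con s) (n : ℤ) :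
    EE (attachW (attach (attach A l') l) w) B (n + 1) ↔
      EE (attachW (attach (attach A (frz l' (!b))) (frz l b)) w) B n := by
  have hne : liftX (attach (attach A l') l) w (xN _ l) ≠
      liftX (attach (attach A l') l) w (xS _ l (xN A l')) :=
    fun h => xS_ne _ _ _ (liftX_inj _ _ h).symm
  have h1 : liftX (attach (attach A l') l) w (xN _ l) ∈
      (attachW (attach (attach A l') l) w).act :=
    liftX_act' _ w ((mem_attach_act_N _ _).2 hf)
  have h2 : liftX (attach (attach A l') l) w (xS _ l (xN A l')) ∈
      (attachW (attach (attach A l') l) w).act :=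
    liftX_act' _ w ((mem_attach_act _ _ _).2 ((mem_attach_act_N _ _).2 hf'))
  rw [← refreeze_word A l l' hf hf' b (!b) w]
  cases b with
  | false =>
    rw [EE_R2 (attachW (attach (attach A l') l) w) B gW gB hne h1 h2 hleg l1 l2 ly lyB con conB n,
      Finset.erase_right_comm, update_comm hne]
    rfl
  | true =>
    exact EE_R2 (attachW (attach (attach A l') l) w) B gW gB hne.symm h2 h1 hleg l2 l1
      (fun y hy e1 e2 => ly y hy e2 e1) lyB (fun s hs e1 e2 => con s hs e2 e1) conB n

end

end PS

end Spg
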