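import Pool.Agent.H73.SpgRA

/-!
# The second Reidemeister move for letters, passing a cap
-/

set_option linter.unusedSectionVars false
set_option linter.unusedVariables false

open Function

namespace Spg

namespace PS

variable {Λ : Type} [Fintype Λ] [DecidableEq Λ]

/-- the second Reidemeister move for two inverse letters, up to the frozen letters -/
theorem R2gen (A B : PS Λ) (l l' : Letter Λ) (hi : l.i = l'.i) (hj : l.j = l'.j)
    (h0 : l.m0 = l'.m1) (h1 : l.m1 = l'.m0) (b : Bool) (hE : l.mt (!b) = Mt.E)
    (hf : l.fr = none) (hf' : l'.fr = none) (n : ℤ) :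
    EE (attach (attach A l') l) B (n + 1) ↔
      EE (attach (attach A (frz l' (!b))) (frz l b)) B n := by
  have hE' : l'.mt b = Mt.E := by
    cases b
    · exact h1.symm.trans hE
    · exact h0.symm.trans hE
  have hp : ∀ (T : Type) (x y z : T), Mt.pick l.m0 l.m1 x y z = y ∨
      Mt.pick l.m0 l.m1 x y z = z := by
    intro T x y z
    have hne := l.mne
    cases b with
    | false =>
      have : l.m1 = Mt.E := hE
      rw [this] at hne ⊢
      cases h : l.m0 with
      | I => exact Or.inr rfl
      | S => exact Or.inl rfl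
      | E => exact absurd h hne
    | true =>
      have : l.m0 = Mt.E := hE
      rw [this] at hne ⊢
      cases h : l.m1 with
      | I => exact Or.inr rfl
      | S => exact Or.inl rfl
      | E => exact absurd h.symm hne
  have hp' : ∀ (T : Type) (x y z : T), Mt.pick l'.m0 l'.m1 x y z = y ∨
      Mt.pick l'.m0 l'.m1 x y z = z := by
    intro T x y z
    have hne := l'.mne
    cases b with
    | false =>
      have : l'.m0 = Mt.E := hE'
      rw [this] at hne ⊢
      cases h : l'.m1 with
      | I => exact Or.inr rfl
      | S => exact Or.inl rfl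
      | E => exact absurd h.symm hne
    | true =>
      have : l'.m1 = Mt.E := hE'
      rw [this] at hne ⊢
      cases h : l'.m0 with
      | I => exact Or.inr rfl
      | S => exact Or.inl rfl
      | E => exact absurd h hne
  let g : (attach (attach A l') l).P → ZMod 2 :=
    (Sum.elim (Sum.elim (fun _ => 0) (fun _ => 1)) (fun _ => 0) : (A.P ⊕ Bool) ⊕ Bool → ZMod 2)
  have g0 : ∀ p, g (pS _ l (pS A l' p)) = 0 := fun _ => rfl
  have g1 : ∀ b, g (pS _ l (pN A l' b)) = 1 := fun _ => rfl
  have g2 : ∀ b, g (pN _ l b) = 0 := fun _ => rfl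
  have gi : g (pS _ l ((attach A l').leg l.i)) = 1 := by
    rw [hi, attach_leg_i, g1]
  have gj : g (pS _ l ((attach A l').leg l.j)) = 1 := by
    rw [hj, attach_leg_j, g1]
  have hg : ∀ k, g ((attach (attach A l') l).leg k) = 0 := by
    intro k
    by_cases h2 : k = l.i
    · rw [h2, attach_leg_i, g2]
    by_cases h3 : k = l.j
    · rw [h3, attach_leg_j, g2]
    rw [attach_leg_ne _ _ h2 h3, attach_leg_ne _ _ (hi ▸ h2) (hj ▸ h3), g0]
  refine EE_R2w A B l l' hf hf' b [] g (fun _ => 0) hg ?_ ?_ ?_ ?_ ?_ ?_ n
  · show g ((attach (attach A l') l).ua (xN _ l)) + g ((attach (attach A l') l).ub (xN _ l)) = 1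
    rw [attach_ua_N, attach_ub_N, gi]
    rcases hp _ (pS (attach A l') l ((attach A l').leg l.j)) (pN _ l false) (pN _ l true) with
      h | h <;> rw [h, g2, add_zero]
  · show g ((attach (attach A l') l).ua (xS _ l (xN A l'))) +
      g ((attach (attach A l') l).ub (xS _ l (xN A l'))) = 1
    rw [attach_ua_S, attach_ub_S, attach_ua_N, attach_ub_N, g0]
    rcases hp' _ (pS A l' (A.leg l'.j)) (pN _ l' false) (pN _ l' true) with
      h | h <;> rw [h, g1, zero_add]
  · intro y _ h2 h3
    show g ((attach (attach A l') l).ua y) + g ((attach (attach A l') l).ub y) = 0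
    rcases X_cases _ l y with rfl | ⟨y, rfl⟩
    · exact absurd rfl h2
    rcases X_cases _ l' y with rfl | ⟨y, rfl⟩
    · exact absurd rfl h3
    rw [attach_ua_S, attach_ub_S, attach_ua_S, attach_ub_S, g0, g0, add_zero]
  · intro y _
    exact add_zero 0
  · intro (s : (attach (attach A l') l).X → Bool) _ h2 h3
    have h2' : s (xN _ l) = !b := h2
    have h3' : s (xS _ l (xN A l')) = b := h3
    show g ∈ (attach (attach A l') l).Con s
    rw [mem_attach_Con, mem_attach_Con, h2', h3', hE, hE', gi, gj, g2, g2]
    refine ⟨⟨?_, ?_⟩, ?_⟩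
    · exact Submodule.zero_mem _
    · exact ⟨rfl, rfl⟩
    · exact ⟨rfl, rfl⟩
  · intro s _
    exact Submodule.zero_mem _

theorem cube_N {A : PS Λ} {l : Letter Λ} {b : Bool} {s : (attach A (frz l b)).X → Bool}
    (hs : InCube (attach A (frz l b)).act (attach A (frz l b)).val s) :
    s (xN A (frz l b)) = b := by
  have := hs (xN A (frz l b)) (fun h => by
    have := (mem_attach_act_N _ _).1 h
    exact Option.some_ne_none _ this)
  exact this.trans rfl

theorem cube_S {A : PS Λ} {l : Letter Λ} {s : (attach A l).X → Bool}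
    (hs : InCube (attach A l).act (attach A l).val s) :
    InCube A.act A.val (fun x => s (xS A l x)) := fun x hx =>
  hs (xS A l x) (fun h => hx ((mem_attach_act _ _ _).1 h))

/-- two frozen letters with smoothing `S` -/
theorem iso_frozenSS (A : PS Λ) (l l' : Letter Λ) (hi : l.i = l'.i) (hj : l.j = l'.j)
    (b b' : Bool) (hb : l.mt b = Mt.S) (hb' : l'.mt b' = Mt.S) :
    Iso (attach (attach A (frz l' b')) (frz l b)) A := by
  refine ⟨fun p => pS _ _ (pS _ _ p), fun x => xS _ _ (xS _ _ x), ?_⟩
  have key : ∀ s, InCube (attach (attach A (frz l' b')) (frz l b)).act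
      (attach (attach A (frz l' b')) (frz l b)).val s →
      ∀ f, f ∈ (attach (attach A (frz l' b')) (frz l b)).Con s ↔
      (fun p => f (pS _ _ (pS _ _ p))) ∈ A.Con (fun x => s (xS _ _ (xS _ _ x))) ∧
      (f (pS _ _ (pS _ _ (A.leg l'.i))) = f (pS _ _ (pN _ _ true)) ∧
        f (pS _ _ (pS _ _ (A.leg l'.j))) = f (pS _ _ (pN _ _ false))) ∧
      (f (pS _ _ (pN _ _ false)) = f (pN _ _ true) ∧
        f (pS _ _ (pN _ _ true)) = f (pN _ _ false)) := by
    intro s hs f
    have e1 : s (xN _ (frz l b)) = b := cube_N hs
    have e2 : s (xS _ (frz l b) (xN A (frz l' b'))) = b' := cube_N (cube_S hs)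
    have e3 : (attach A (frz l' b')).leg (frz l b).i = pN A (frz l' b') false := by
      rw [← attach_leg_i]; exact congrArg _ hi
    have e4 : (attach A (frz l' b')).leg (frz l b).j = pN A (frz l' b') true := by
      rw [← attach_leg_j]; exact congrArg _ hj
    rw [mem_attach_Con, mem_attach_Con, e1, e2, e3, e4]
    have e5 : (frz l b).mt b = Mt.S := hb
    have e6 : (frz l' b').mt b' = Mt.S := hb'
    rw [e5, e6]
    constructor
    · rintro ⟨⟨h1, h2, h3⟩, h4, h5⟩
      exact ⟨h1, ⟨h2, h3⟩, h4, h5⟩
    · rintro ⟨h1, ⟨h2, h3⟩, h4, h5⟩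
      exact ⟨⟨h1, h2, h3⟩, h4, h5⟩
  exact
    { inj := (xS_inj _ _).comp (xS_inj _ _)
      act := by
        intro x
        constructor
        · intro hx
          rcases X_cases _ _ x with rfl | ⟨x, rfl⟩
          · exact absurd ((mem_attach_act_N _ _).1 hx) (Option.some_ne_none _)
          rw [mem_attach_act] at hx
          rcases X_cases _ _ x with rfl | ⟨x, rfl⟩
          · exact absurd ((mem_attach_act_N _ _).1 hx) (Option.some_ne_none _)
          rw [mem_attach_act] at hx
          exact ⟨x, hx, rfl⟩
        · rintro ⟨y, hy, rfl⟩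
          rw [mem_attach_act, mem_attach_act]
          exact hy
      val := fun y _ => rfl
      con := fun s hs f hf => ((key s hs f).1 hf).1
      det := by
        intro s hs f hf h0
        obtain ⟨h1, ⟨h2, h3⟩, h4, h5⟩ := (key s hs f).1 hf
        funext z
        match z with
        | Sum.inl (Sum.inl p) => exact h0 p
        | Sum.inl (Sum.inr true) => exact h2.symm.trans (h0 _)
        | Sum.inl (Sum.inr false) => exact h3.symm.trans (h0 _)
        | Sum.inr true => exact h4.symm.trans (h3.symm.trans (h0 _))
        | Sum.inr false => exact h5.symm.trans (h2.symm.trans (h0 _))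
      ext := by
        intro s hs g hg
        let f : (attach (attach A (frz l' b')) (frz l b)).P → ZMod 2 :=
          (Sum.elim (Sum.elim g (fun b => if b then g (A.leg l'.i) else g (A.leg l'.j)))
            (fun b => if b then g (A.leg l'.j) else g (A.leg l'.i)) :
            (A.P ⊕ Bool) ⊕ Bool → ZMod 2)
        refine ⟨f, (key s hs f).2 ⟨hg, ⟨rfl, rfl⟩, ⟨rfl, rfl⟩⟩, fun p => rfl⟩
      u := fun s hs y hy f hf => rfl
      leg := by
        intro s hs f hf k
        obtain ⟨h1, ⟨h2, h3⟩, h4, h5⟩ := (key s hs f).1 hf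
        by_cases h6 : k = l'.i
        · have e : (attach (attach A (frz l' b')) (frz l b)).leg k = pN _ _ false := by
            rw [← attach_leg_i]; exact congrArg _ (h6.trans hi.symm)
          rw [e, h6, ← h5, ← h2]
        · by_cases h7 : k = l'.j
          · have e : (attach (attach A (frz l' b')) (frz l b)).leg k = pN _ _ true := by
              rw [← attach_leg_j]; exact congrArg _ (h7.trans hj.symm)
            rw [e, h7, ← h4, ← h3]
          · have e : (attach (attach A (frz l' b')) (frz l b)).leg k =
                pS _ _ (pS _ _ (A.leg k)) := by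
              rw [attach_leg_ne, attach_leg_ne]
              · exact h6
              · exact h7
              · exact fun h => h6 (h.trans hi)
              · exact fun h => h7 (h.trans hj)
            rw [e] }

end PS

end Spg
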