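import Pool.Agent.H73.SpgRB

/-!
# The second Reidemeister move for letters, passing a cap (continued)
-/

set_option linter.unusedSectionVars false
set_option linter.unusedVariables false

open Function

namespace Spg

namespace PS

variable {Λ : Type} [Fintype Λ] [DecidableEq Λ]

theorem R2I (A B : PS Λ) (l l' : Letter Λ) (hi : l.i = l'.i) (hj : l.j = l'.j)
    (h0 : l.m0 = l'.m1) (h1 : l.m1 = l'.m0) (b : Bool) (hE : l.mt (!b) = Mt.E)
    (hI : l.mt b = Mt.I) (hf : l.fr = none) (hf' : l'.fr = none) (n : ℤ) :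
    EE (attach (attach A l') l) B (n + 1) ↔ EE A B n := by
  rw [R2gen A B l l' hi hj h0 h1 b hE hf hf' n]
  refine Iso.EE (Iso.trans (Iso.frozenI _ (frz l b) b rfl hI)
    (Iso.frozenI _ (frz l' (!b)) (!b) rfl ?_)) B n
  show l'.mt (!b) = Mt.I
  cases b
  · exact h0.symm.trans hI
  · exact h1.symm.trans hI

theorem R2S (A B : PS Λ) (l l' : Letter Λ) (hi : l.i = l'.i) (hj : l.j = l'.j)
    (h0 : l.m0 = l'.m1) (h1 : l.m1 = l'.m0) (b : Bool) (hE : l.mt (!b) = Mt.E)
    (hS : l.mt b = Mt.S) (hf : l.fr = none) (hf' : l'.fr = none) (n : ℤ) :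
    EE (attach (attach A l') l) B (n + 1) ↔ EE A B n := by
  rw [R2gen A B l l' hi hj h0 h1 b hE hf hf' n]
  refine Iso.EE (iso_frozenSS A l l' hi hj b (!b) hS ?_) B n
  cases b
  · exact h0.symm.trans hS
  · exact h1.symm.trans hS

/-- (P1) Second Reidemeister move for `Y` letters. -/
theorem R2Y' (A B : PS Λ) (i j : Λ) (h : i ≠ j) (b : Bool) (n : ℤ) :
    EE (attach (attach A ⟨i, j, h, if b then Mt.E else Mt.I, if b then Mt.I else Mt.E,
      by cases b <;> simp, none⟩) ⟨i, j, h, if !b then Mt.E else Mt.I, if !b then Mt.I else Mt.E,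
      by cases b <;> simp, none⟩) B (n + 1) ↔ EE A B n := by
  cases b
  · exact R2I A B ⟨i, j, h, Mt.E, Mt.I, by simp, none⟩ ⟨i, j, h, Mt.I, Mt.E, by simp, none⟩
      rfl rfl rfl rfl true rfl rfl rfl rfl n
  · exact R2I A B ⟨i, j, h, Mt.I, Mt.E, by simp, none⟩ ⟨i, j, h, Mt.E, Mt.I, by simp, none⟩
      rfl rfl rfl rfl false rfl rfl rfl rfl n

/-- (P1) Second Reidemeister move for `X` letters. -/
theorem R2X' (A B : PS Λ) (i j : Λ) (h : i ≠ j) (b : Bool) (n : ℤ) :
    EE (attach (attach A ⟨i, j, h, if b then Mt.E else Mt.S, if b then Mt.S else Mt.E,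
      by cases b <;> simp, none⟩) ⟨i, j, h, if !b then Mt.E else Mt.S, if !b then Mt.S else Mt.E,
      by cases b <;> simp, none⟩) B (n + 1) ↔ EE A B n := by
  cases b
  · exact R2S A B ⟨i, j, h, Mt.E, Mt.S, by simp, none⟩ ⟨i, j, h, Mt.S, Mt.E, by simp, none⟩
      rfl rfl rfl rfl true rfl rfl rfl rfl n
  · exact R2S A B ⟨i, j, h, Mt.S, Mt.E, by simp, none⟩ ⟨i, j, h, Mt.E, Mt.S, by simp, none⟩
      rfl rfl rfl rfl false rfl rfl rfl rfl n

/-- the crossing letter in which the strand `p` crosses the leg `i` -/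
def XL' (p i : Λ) (h : p ≠ i) (b : Bool) : Letter Λ :=
  ⟨p, i, h, if b then Mt.E else Mt.S, if b then Mt.S else Mt.E, by cases b <;> simp, none⟩

/-- the frozen letter `E` -/
def EL' (i j : Λ) (h : i ≠ j) : Letter Λ := ⟨i, j, h, Mt.I, Mt.E, by simp, some true⟩

theorem XL'_E (p i : Λ) (h : p ≠ i) (b : Bool) : (XL' p i h b).mt (!b) = Mt.E := by
  cases b <;> rfl

theorem XL'_S (p i : Λ) (h : p ≠ i) (b : Bool) : (XL' p i h b).mt b = Mt.S := by
  cases b <;> rfl

theorem XL'_pick (p i : Λ) (h : p ≠ i) (b : Bool) {T : Type} (x y z : T) :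
    Mt.pick (XL' p i h b).m0 (XL' p i h b).m1 x y z = y := by
  cases b <;> rfl

section

variable (A : PS Λ) (p i j : Λ) (hi : p ≠ i) (hj : p ≠ j) (h : i ≠ j) (b : Bool)

/-- the strand `p` crosses `i` and then `j` -/
abbrev XX : PS Λ := attach (attach A (XL' p i hi b)) (XL' p j hj b)

/-- the legs of `XX` -/
theorem XX_p : (XX A p i j hi hj b).leg p = pN _ _ false := attach_leg_i _ (XL' p j hj b)

theorem XX_j : (XX A p i j hi hj b).leg j = pN _ _ true := attach_leg_j _ (XL' p j hj b)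

theorem X_p : (attach A (XL' p i hi b)).leg p = pN _ _ false := attach_leg_i _ (XL' p i hi b)

theorem X_i : (attach A (XL' p i hi b)).leg i = pN _ _ true := attach_leg_j _ (XL' p i hi b)

include hj h in
theorem X_j : (attach A (XL' p i hi b)).leg j = pS _ _ (A.leg j) :=
  attach_leg_ne _ _ hj.symm h.symm

include hi h in
theorem XX_i : (XX A p i j hi hj b).leg i = pS _ _ (pN _ _ true) := by
  rw [attach_leg_ne]
  · exact congrArg _ (X_i A p i hi b)
  · exact hi.symm
  · exact h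

theorem XX_k {k : Λ} (h1 : k ≠ p) (h2 : k ≠ i) (h3 : k ≠ j) :
    (XX A p i j hi hj b).leg k = pS _ _ (pS _ _ (A.leg k)) := by
  rw [attach_leg_ne, attach_leg_ne]
  · exact h1
  · exact h2
  · exact h1
  · exact h3

include h in
/-- the constraints of `XX` -/
theorem XX_con (s : (XX A p i j hi hj b).X → Bool) (f : (XX A p i j hi hj b).P → ZMod 2) :
    f ∈ (XX A p i j hi hj b).Con s ↔
    (fun q => f (pS _ _ (pS _ _ q))) ∈ A.Con (fun x => s (xS _ _ (xS _ _ x))) ∧
    ((XL' p i hi b).mt (s (xS _ _ (xN _ _)))).ok (f (pS _ _ (pS _ _ (A.leg p))))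
      (f (pS _ _ (pS _ _ (A.leg i)))) (f (pS _ _ (pN _ _ false))) (f (pS _ _ (pN _ _ true))) ∧
    ((XL' p j hj b).mt (s (xN _ _))).ok (f (pS _ _ (pN _ _ false)))
      (f (pS _ _ (pS _ _ (A.leg j)))) (f (pN _ _ false)) (f (pN _ _ true)) := by
  rw [mem_attach_Con, mem_attach_Con]
  have e1 : (attach A (XL' p i hi b)).leg (XL' p j hj b).i = pN _ _ false := X_p A p i hi b
  have e2 : (attach A (XL' p i hi b)).leg (XL' p j hj b).j = pS _ _ (A.leg j) :=
    X_j A p i j hi hj h b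
  rw [e1, e2]
  exact and_assoc

end

end PS

end Spg
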