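import Pool.Agent.H73.SpgRC

/-!
# Passing a cap or a free arc
-/

set_option linter.unusedSectionVars false
set_option linter.unusedVariables false

open Function

namespace Spg

namespace PS

variable {Λ : Type} [Fintype Λ] [DecidableEq Λ]

theorem cube_fr {A : PS Λ} {l : Letter Λ} {b : Bool} (hl : l.fr = some b)
    {s : (attach A l).X → Bool}
    (hs : InCube (attach A l).act (attach A l).val s) :
    s (xN A l) = b := by
  have := hs (xN A l) (fun h => by
    have := (mem_attach_act_N _ _).1 h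
    rw [hl] at this
    exact Option.some_ne_none _ this)
  rw [this, attach_val_N, hl]
  rfl

section

variable (A : PS Λ) (p i j : Λ) (hi : p ≠ i) (hj : p ≠ j) (h : i ≠ j) (b : Bool)

/-- the indicator of the circle -/
def gX : (XX A p i j hi hj b).P → ZMod 2 :=
  (Sum.elim (Sum.elim (fun _ => 0) (fun _ => 1)) (fun b => if b then 1 else 0) :
    (A.P ⊕ Bool) ⊕ Bool → ZMod 2)

theorem gX_S (q : A.P) : gX A p i j hi hj b (pS _ _ (pS _ _ q)) = 0 := rfl

theorem gX_1 (c : Bool) : gX A p i j hi hj b (pS _ _ (pN _ _ c)) = 1 := rfl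

theorem gX_2 : gX A p i j hi hj b (pN _ _ false) = 0 := rfl

theorem gX_3 : gX A p i j hi hj b (pN _ _ true) = 1 := rfl

theorem gX_u1 : gX A p i j hi hj b ((XX A p i j hi hj b).ua (xN _ _)) +
    gX A p i j hi hj b ((XX A p i j hi hj b).ub (xN _ _)) = 1 := by
  rw [attach_ua_N, attach_ub_N, XL'_pick, gX_2, add_zero]
  have e1 : (attach A (XL' p i hi b)).leg (XL' p j hj b).i = pN _ _ false := X_p A p i hi b
  rw [e1, gX_1]

theorem gX_u2 : gX A p i j hi hj b ((XX A p i j hi hj b).ua (xS _ _ (xN _ _))) +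
    gX A p i j hi hj b ((XX A p i j hi hj b).ub (xS _ _ (xN _ _))) = 1 := by
  rw [attach_ua_S, attach_ub_S, attach_ua_N, attach_ub_N, XL'_pick, gX_S, gX_1, zero_add]

theorem gX_uA (y : A.X) : gX A p i j hi hj b ((XX A p i j hi hj b).ua (xS _ _ (xS _ _ y))) +
    gX A p i j hi hj b ((XX A p i j hi hj b).ub (xS _ _ (xS _ _ y))) = 0 := by
  rw [attach_ua_S, attach_ub_S, attach_ua_S, attach_ub_S, gX_S, gX_S, zero_add]

theorem gX_i (h : i ≠ j) : gX A p i j hi hj b ((XX A p i j hi hj b).leg i) = 1 := by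
  rw [XX_i A p i j hi hj h b, gX_1]

theorem gX_j : gX A p i j hi hj b ((XX A p i j hi hj b).leg j) = 1 := by
  rw [XX_j A p i j hi hj b, gX_3]

theorem gX_k (h : i ≠ j) (k : Λ) (h1 : k ≠ i) (h2 : k ≠ j) :
    gX A p i j hi hj b ((XX A p i j hi hj b).leg k) = 0 := by
  by_cases h3 : k = p
  · rw [h3, XX_p A p i j hi hj b, gX_2]
  · rw [XX_k A p i j hi hj b h3 h1 h2, gX_S]

theorem gX_con (h : i ≠ j) (s : (XX A p i j hi hj b).X → Bool) (h1 : s (xN _ _) = b)
    (h2 : s (xS _ _ (xN _ _)) = !b) : gX A p i j hi hj b ∈ (XX A p i j hi hj b).Con s := by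
  rw [XX_con A p i j hi hj h b, h1, h2, XL'_E, XL'_S]
  refine ⟨Submodule.zero_mem _, ⟨?_, ?_⟩, ?_, ?_⟩
  · rw [gX_S, gX_S]
  · rw [gX_1, gX_1]
  · rw [gX_1, gX_3]
  · rw [gX_S, gX_2]

/-- the frozen version -/
abbrev XF : PS Λ := attach (attach A (frz (XL' p i hi b) b)) (frz (XL' p j hj b) (!b))

/-- the constraints of `XF` in the cube -/
theorem XF_con (h : i ≠ j) {s : (XF A p i j hi hj b).X → Bool}
    (hs : InCube (XF A p i j hi hj b).act (XF A p i j hi hj b).val s)
    (f : (XF A p i j hi hj b).P → ZMod 2) :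
    f ∈ (XF A p i j hi hj b).Con s ↔
    (fun q => f (pS _ _ (pS _ _ q))) ∈ A.Con (fun x => s (xS _ _ (xS _ _ x))) ∧
    (f (pS _ _ (pS _ _ (A.leg p))) = f (pS _ _ (pN _ _ true)) ∧
      f (pS _ _ (pS _ _ (A.leg i))) = f (pS _ _ (pN _ _ false))) ∧
    (f (pS _ _ (pN _ _ false)) = f (pS _ _ (pS _ _ (A.leg j))) ∧
      f (pN _ _ false) = f (pN _ _ true)) := by
  have e1 : s (xN _ (frz (XL' p j hj b) (!b))) = !b := cube_fr rfl hs
  have e2 : s (xS _ (frz (XL' p j hj b) (!b)) (xN A (frz (XL' p i hi b) b))) = b :=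
    cube_fr rfl (cube_S hs)
  have e3 := XX_con A p i j hi hj h b s f
  have e4 : f ∈ (XF A p i j hi hj b).Con s ↔ f ∈ (XX A p i j hi hj b).Con s := Iff.rfl
  have e1' : s (xN (attach A (XL' p i hi b)) (XL' p j hj b)) = !b := e1
  have e2' : s (xS (attach A (XL' p i hi b)) (XL' p j hj b) (xN A (XL' p i hi b))) = b := e2
  rw [e1', e2', XL'_E, XL'_S] at e3
  exact e4.trans e3

theorem XF_p : (XF A p i j hi hj b).leg p = pN _ _ false := XX_p A p i j hi hj b

theorem XF_j : (XF A p i j hi hj b).leg j = pN _ _ true := XX_j A p i j hi hj b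

theorem XF_i (h : i ≠ j) : (XF A p i j hi hj b).leg i = pS _ _ (pN _ _ true) :=
  XX_i A p i j hi hj h b

theorem XF_k {k : Λ} (h1 : k ≠ p) (h2 : k ≠ i) (h3 : k ≠ j) :
    (XF A p i j hi hj b).leg k = pS _ _ (pS _ _ (A.leg k)) := XX_k A p i j hi hj b h1 h2 h3

theorem XF_act (x : (XF A p i j hi hj b).X) : x ∈ (XF A p i j hi hj b).act ↔
    ∃ y ∈ A.act, xS _ _ (xS _ _ y) = x := by
  constructor
  · intro hx
    rcases X_cases _ _ x with rfl | ⟨x, rfl⟩
    · exact absurd ((mem_attach_act_N _ _).1 hx) (Option.some_ne_none _)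
    rw [mem_attach_act] at hx
    rcases X_cases _ _ x with rfl | ⟨x, rfl⟩
    · exact absurd ((mem_attach_act_N _ _).1 hx) (Option.some_ne_none _)
    rw [mem_attach_act] at hx
    exact ⟨x, hx, rfl⟩
  · rintro ⟨y, hy, rfl⟩
    rw [mem_attach_act, mem_attach_act]
    exact hy

end

/-- the cap after the passage -/
theorem iso_cap (A : PS Λ) (p i j : Λ) (hi : p ≠ i) (hj : p ≠ j) (h : i ≠ j) (b : Bool) :
    Iso (attach (XF A p i j hi hj b) (EL' i j h)) (attach A (EL' i j h)) := by
  let jj : (attach A (EL' i j h)).P → (attach (XF A p i j hi hj b) (EL' i j h)).P :=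
    (Sum.elim (fun q => pS _ _ (pS _ _ (pS _ _ q))) (fun c => pN _ _ c) :
      A.P ⊕ Bool → (attach (XF A p i j hi hj b) (EL' i j h)).P)
  let ee : (attach A (EL' i j h)).X → (attach (XF A p i j hi hj b) (EL' i j h)).X :=
    fun x => Option.elim x (xN _ _) (fun y => xS _ _ (xS _ _ (xS _ _ y)))
  have key : ∀ s, InCube (attach (XF A p i j hi hj b) (EL' i j h)).act
      (attach (XF A p i j hi hj b) (EL' i j h)).val s →
      ∀ f, f ∈ (attach (XF A p i j hi hj b) (EL' i j h)).Con s ↔
      (fun q => f (pS _ _ (pS _ _ (pS _ _ q)))) ∈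
        A.Con (fun x => s (xS _ _ (xS _ _ (xS _ _ x)))) ∧
      (f (pS _ _ (pS _ _ (pS _ _ (A.leg p)))) = f (pS _ _ (pS _ _ (pN _ _ true))) ∧
        f (pS _ _ (pS _ _ (pS _ _ (A.leg i)))) = f (pS _ _ (pS _ _ (pN _ _ false)))) ∧
      (f (pS _ _ (pS _ _ (pN _ _ false))) = f (pS _ _ (pS _ _ (pS _ _ (A.leg j)))) ∧
        f (pS _ _ (pN _ _ false)) = f (pS _ _ (pN _ _ true))) ∧
      (f (pS _ _ (pS _ _ (pN _ _ true))) = f (pS _ _ (pN _ _ true)) ∧
        f (pN _ _ false) = f (pN _ _ true)) := by
    intro s hs f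
    rw [mem_attach_Con, XF_con A p i j hi hj b h (cube_S hs)]
    have e1 : s (xN _ (EL' i j h)) = true := cube_fr rfl hs
    have e2 : (XF A p i j hi hj b).leg (EL' i j h).i = _ := XF_i A p i j hi hj b h
    have e3 : (XF A p i j hi hj b).leg (EL' i j h).j = _ := XF_j A p i j hi hj b
    have e4 : (EL' i j h).mt true = Mt.E := rfl
    rw [e1, e2, e3, e4]
    constructor
    · rintro ⟨⟨h1, h2, h3⟩, h4⟩
      exact ⟨h1, h2, h3, h4⟩
    · rintro ⟨h1, h2, h3, h4⟩
      exact ⟨⟨h1, h2, h3⟩, h4⟩
  have key2 : ∀ s, InCube (attach (XF A p i j hi hj b) (EL' i j h)).act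
      (attach (XF A p i j hi hj b) (EL' i j h)).val s →
      ∀ g, g ∈ (attach A (EL' i j h)).Con (fun x => s (ee x)) ↔
      (fun q => g (pS _ _ q)) ∈ A.Con (fun x => s (xS _ _ (xS _ _ (xS _ _ x)))) ∧
      (g (pS _ _ (A.leg i)) = g (pS _ _ (A.leg j)) ∧ g (pN _ _ false) = g (pN _ _ true)) := by
    intro s hs g
    rw [mem_attach_Con]
    have e1 : s (ee (xN _ (EL' i j h))) = true := cube_fr rfl hs
    have e4 : (EL' i j h).mt true = Mt.E := rfl
    rw [e1, e4]
    rfl
  refine ⟨jj, ee, ?_⟩
  exact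
    { inj := by
        intro x y hxy
        match x, y with
        | none, none => rfl
        | none, some y => exact absurd hxy.symm (xS_ne _ _ _)
        | some x, none => exact absurd hxy (xS_ne _ _ _)
        | some x, some y =>
          have := xS_inj _ _ (xS_inj _ _ (xS_inj _ _ hxy))
          rw [this]
      act := by
        intro x
        rcases X_cases _ _ x with rfl | ⟨x, rfl⟩
        · constructor
          · intro hx
            exact absurd ((mem_attach_act_N _ _).1 hx) (Option.some_ne_none _)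
          · rintro ⟨y, hy, hxy⟩
            rcases X_cases _ _ y with rfl | ⟨y, rfl⟩
            · exact absurd ((mem_attach_act_N _ _).1 hy) (Option.some_ne_none _)
            · exact absurd hxy (xS_ne _ _ _)
        · rw [mem_attach_act, XF_act]
          constructor
          · rintro ⟨y, hy, rfl⟩
            exact ⟨xS _ _ y, (mem_attach_act _ _ _).2 hy, rfl⟩
          · rintro ⟨y, hy, hxy⟩
            rcases X_cases _ _ y with rfl | ⟨y, rfl⟩
            · exact absurd hxy.symm (xS_ne _ _ _)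
            · exact ⟨y, (mem_attach_act _ _ _).1 hy, xS_inj _ _ hxy⟩
      val := by
        intro y hy
        match y with
        | none => rfl
        | some y => rfl
      con := by
        intro s hs f hf
        obtain ⟨h1, ⟨h2, h3⟩, ⟨h4, h5⟩, h6, h7⟩ := (key s hs f).1 hf
        exact (key2 s hs _).2 ⟨h1, h3.trans h4, h7⟩
      det := by
        intro s hs f hf h0
        obtain ⟨h1, ⟨h2, h3⟩, ⟨h4, h5⟩, h6, h7⟩ := (key s hs f).1 hf
        have z : ∀ q, f (pS _ _ (pS _ _ (pS _ _ q))) = 0 := fun q => h0 (Sum.inl q)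
        funext z'
        match z' with
        | Sum.inl (Sum.inl (Sum.inl q)) => exact z q
        | Sum.inl (Sum.inl (Sum.inr true)) => exact h2.symm.trans (z _)
        | Sum.inl (Sum.inl (Sum.inr false)) => exact h3.symm.trans (z _)
        | Sum.inl (Sum.inr true) => exact h6.symm.trans (h2.symm.trans (z _))
        | Sum.inl (Sum.inr false) => exact h5.trans (h6.symm.trans (h2.symm.trans (z _)))
        | Sum.inr c => exact h0 (Sum.inr c)
      ext := by
        intro s hs g hg
        obtain ⟨g1, g2, g3⟩ := (key2 s hs g).1 hg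
        let f : (attach (XF A p i j hi hj b) (EL' i j h)).P → ZMod 2 :=
          (Sum.elim (Sum.elim (Sum.elim (fun q => g (pS _ _ q))
              (fun c => if c then g (pS _ _ (A.leg p)) else g (pS _ _ (A.leg i))))
            (fun c => g (pS _ _ (A.leg p)))) (fun c => g (pN _ _ c)) :
            ((A.P ⊕ Bool) ⊕ Bool) ⊕ Bool → ZMod 2)
        refine ⟨f, (key s hs f).2 ⟨g1, ⟨rfl, rfl⟩, ⟨g2, rfl⟩, rfl, g3⟩, ?_⟩
        intro z
        match z with
        | Sum.inl q => rfl
        | Sum.inr c => rfl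
      u := by
        intro s hs y hy f hf
        rcases X_cases _ _ y with rfl | ⟨y, rfl⟩
        · exact absurd ((mem_attach_act_N _ _).1 hy) (Option.some_ne_none _)
        · rfl
      leg := by
        intro s hs f hf k
        obtain ⟨h1, ⟨h2, h3⟩, ⟨h4, h5⟩, h6, h7⟩ := (key s hs f).1 hf
        by_cases k1 : k = i
        · have e1 : (attach (XF A p i j hi hj b) (EL' i j h)).leg k = pN _ _ false := by
            rw [k1]; exact attach_leg_i _ (EL' i j h)
          have e2 : (attach A (EL' i j h)).leg k = pN _ _ false := by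
            rw [k1]; exact attach_leg_i _ (EL' i j h)
          rw [e1, e2]
          rfl
        by_cases k2 : k = j
        · have e1 : (attach (XF A p i j hi hj b) (EL' i j h)).leg k = pN _ _ true := by
            rw [k2]; exact attach_leg_j _ (EL' i j h)
          have e2 : (attach A (EL' i j h)).leg k = pN _ _ true := by
            rw [k2]; exact attach_leg_j _ (EL' i j h)
          rw [e1, e2]
          rfl
        have e2 : (attach A (EL' i j h)).leg k = pS _ _ (A.leg k) := attach_leg_ne _ _ k1 k2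
        have e1 : (attach (XF A p i j hi hj b) (EL' i j h)).leg k =
          pS _ _ ((XF A p i j hi hj b).leg k) := attach_leg_ne _ _ k1 k2
        rw [e1, e2]
        by_cases k3 : k = p
        · rw [k3, XF_p A p i j hi hj b]
          exact h5.trans (h6.symm.trans h2.symm)
        · rw [XF_k A p i j hi hj b k3 k1 k2]
          rfl }

/-- (P2) The strand `p` passing a cap. -/
theorem capX' (A B : PS Λ) (p i j : Λ) (hi : p ≠ i) (hj : p ≠ j) (h : i ≠ j) (b : Bool) (n : ℤ) :
    EE (attach (XX A p i j hi hj b) (EL' i j h)) B (n + 1) ↔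
      EE (attach A (EL' i j h)) B n := by
  have hg : EE (attachW (XX A p i j hi hj b) [EL' i j h]) B (n + 1) ↔
      EE (attachW (attach (attach A (frz (XL' p i hi b) (!(!b)))) (frz (XL' p j hj b) (!b)))
        [EL' i j h]) B n := by
    let g : (attach (XX A p i j hi hj b) (EL' i j h)).P → ZMod 2 :=
      (Sum.elim (gX A p i j hi hj b) (fun _ => 0) : (XX A p i j hi hj b).P ⊕ Bool → ZMod 2)
    refine EE_R2w A B (XL' p j hj b) (XL' p i hi b) rfl rfl (!b) [EL' i j h] g
      (fun _ => 0) ?_ ?_ ?_ ?_ ?_ ?_ ?_ n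
    · intro k
      show g ((attach (XX A p i j hi hj b) (EL' i j h)).leg k) = 0
      by_cases k1 : k = i
      · have e1 : (attach (XX A p i j hi hj b) (EL' i j h)).leg k = pN _ _ false := by
          rw [k1]; exact attach_leg_i _ (EL' i j h)
        rw [e1]
        rfl
      by_cases k2 : k = j
      · have e1 : (attach (XX A p i j hi hj b) (EL' i j h)).leg k = pN _ _ true := by
          rw [k2]; exact attach_leg_j _ (EL' i j h)
        rw [e1]
        rfl
      have e1 : (attach (XX A p i j hi hj b) (EL' i j h)).leg k =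
        pS _ _ ((XX A p i j hi hj b).leg k) := attach_leg_ne _ _ k1 k2
      rw [e1]
      exact gX_k A p i j hi hj b h k k1 k2
    · exact gX_u1 A p i j hi hj b
    · exact gX_u2 A p i j hi hj b
    · intro y hy h2 h3
      rcases X_cases (XX A p i j hi hj b) (EL' i j h) y with rfl | ⟨y, rfl⟩
      · exact absurd ((mem_attach_act_N _ _).1 hy) (Option.some_ne_none _)
      rcases X_cases _ _ y with rfl | ⟨y, rfl⟩
      · exact absurd rfl h2
      rcases X_cases _ _ y with rfl | ⟨y, rfl⟩
      · exact absurd rfl h3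
      exact gX_uA A p i j hi hj b y
    · intro y _
      exact add_zero 0
    · intro (s : (attach (XX A p i j hi hj b) (EL' i j h)).X → Bool)
        (hs : InCube (attach (XX A p i j hi hj b) (EL' i j h)).act
          (attach (XX A p i j hi hj b) (EL' i j h)).val s) h2 h3
      have h2' : s (xS _ _ (xN _ _)) = b := h2.trans (Bool.not_not b)
      have h3' : s (xS _ _ (xS _ _ (xN _ _))) = !b := h3
      show g ∈ (attach (XX A p i j hi hj b) (EL' i j h)).Con s
      rw [mem_attach_Con]
      have e1 : s (xN _ (EL' i j h)) = true := cube_fr rfl hs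
      have e4 : (EL' i j h).mt true = Mt.E := rfl
      rw [e1, e4]
      refine ⟨gX_con A p i j hi hj b h _ h2' h3', ?_, rfl⟩
      exact (gX_i A p i j hi hj b h).trans (gX_j A p i j hi hj b).symm
    · intro s _
      exact Submodule.zero_mem _
  rw [Bool.not_not] at hg
  exact hg.trans (Iso.EE (iso_cap A p i j hi hj h b) B n)

end PS

end Spg
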