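import Mathlib

open scoped Manifold ContDiff Topology
open Set MeasureTheory

noncomputable section

namespace Pool.Agent.H73

/-- Euclidean three-space. -/
abbrev E3 := EuclideanSpace ℝ (Fin 3)

/-- The lattice `(2πℤ)³` in `ℝ³`. -/
def Lam : AddSubgroup E3 where
  carrier := {x | ∀ i, ∃ k : ℤ, x i = k * (2 * Real.pi)}
  add_mem' := by
    intro a b ha hb i
    obtain ⟨k, hk⟩ := ha i
    obtain ⟨l, hl⟩ := hb i
    exact ⟨k + l, by simp [hk, hl]; ring⟩
  zero_mem' := by
    intro i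
    exact ⟨0, by simp⟩
  neg_mem' := by
    intro a ha i
    obtain ⟨k, hk⟩ := ha i
    exact ⟨-k, by simp [hk]⟩

lemma mem_Lam {x : E3} : x ∈ Lam ↔ ∀ i, ∃ k : ℤ, x i = k * (2 * Real.pi) := Iff.rfl

lemma Lam_eq_zero {x : E3} (hx : x ∈ Lam) (h : ‖x‖ < 1) : x = 0 := by
  ext i
  obtain ⟨k, hk⟩ := hx i
  have h1 : |x i| < 1 := lt_of_le_of_lt (by simpa using EuclideanSpace.norm_eq x ▸ (PiLp.norm_apply_le x i)) h
  have hk0 : k = 0 := by
    by_contra hne
    have h2 : (1 : ℝ) ≤ |(k : ℝ)| := by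
      have := Int.one_le_abs hne
      exact_mod_cast this
    have h3 : |x i| = |(k : ℝ)| * (2 * Real.pi) := by
      rw [hk, abs_mul, abs_of_pos (by positivity : (0:ℝ) < 2 * Real.pi)]
    have h4 := Real.pi_gt_three
    nlinarith
  simp [hk, hk0]

instance : DiscreteTopology Lam := by
  rw [discreteTopology_iff_isOpen_singleton_zero]
  rw [Metric.isOpen_singleton_iff]
  refine ⟨1, one_pos, ?_⟩
  intro y hy
  apply Subtype.ext
  apply Lam_eq_zero y.2
  simpa [dist_eq_norm] using hy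

lemma isDiscrete_Lam : IsDiscrete (Lam : Set E3) := ⟨show DiscreteTopology Lam from inferInstance⟩

instance : IsClosed (Lam : Set E3) := AddSubgroup.isClosed_of_discrete

/-- The three-torus `ℝ³/(2πℤ)³`. -/
abbrev T3 := E3 ⧸ Lam

/-- The projection. -/
def pr : E3 → T3 := QuotientAddGroup.mk

lemma pr_surj : Function.Surjective pr := QuotientAddGroup.mk_surjective

lemma pr_eq {x y : E3} : pr x = pr y ↔ y - x ∈ Lam := by
  unfold pr
  rw [QuotientAddGroup.eq]
  rw [neg_add_eq_sub]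

lemma pr_cov : IsAddQuotientCoveringMap pr Lam :=
  AddSubgroup.isAddQuotientCoveringMap_of_comm Lam isDiscrete_Lam

lemma pr_loc : IsLocalHomeomorph pr :=
  (IsAddQuotientCoveringMap.isCoveringMap _ _ pr_cov).isLocalHomeomorph

lemma pr_cont : Continuous pr := pr_loc.continuous

instance instChartedT3 : ChartedSpace E3 T3 := pr_loc.chartedSpace pr_surj

lemma T3_t2 : T2Space T3 := inferInstance

lemma T3_sc : SecondCountableTopology T3 := inferInstance

instance T3_conn : ConnectedSpace T3 := pr_surj.connectedSpace pr_cont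

instance T3_comp : CompactSpace T3 := by
  have hK : IsCompact ((fun x : Fin 3 → ℝ => (WithLp.toLp 2 x : E3)) '' (Set.Icc (fun _ => 0) (fun _ => 2 * Real.pi))) :=
    isCompact_Icc.image (PiLp.continuous_toLp 2 _)
  refine ⟨?_⟩
  have : (Set.univ : Set T3) = pr '' ((fun x : Fin 3 → ℝ => (WithLp.toLp 2 x : E3)) '' (Set.Icc (fun _ => 0) (fun _ => 2 * Real.pi))) := by
    symm
    rw [Set.eq_univ_iff_forall]
    intro q
    obtain ⟨x, rfl⟩ := pr_surj q
    have h2pi : (0 : ℝ) < 2 * Real.pi := by positivity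
    refine ⟨WithLp.toLp 2 (fun i => toIcoMod h2pi 0 (x i)), ⟨fun i => toIcoMod h2pi 0 (x i), ⟨?_, ?_⟩, rfl⟩, ?_⟩
    · intro i
      exact (toIcoMod_mem_Ico h2pi 0 (x i)).1
    · intro i
      simpa using (toIcoMod_mem_Ico h2pi 0 (x i)).2.le
    · rw [pr_eq, mem_Lam]
      intro i
      refine ⟨toIcoDiv h2pi 0 (x i), ?_⟩
      have := self_sub_toIcoMod h2pi 0 (x i)
      simpa using this
  rw [this]
  exact hK.image pr_cont

/-- charts of the torus are local inverses of the projection -/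
lemma atlas_symm {e : OpenPartialHomeomorph T3 E3} (he : e ∈ atlas E3 T3) : (e.symm : E3 → T3) = pr := by
  obtain ⟨q, rfl⟩ := he
  ext x
  simp [pr_loc.localInverseAt_symm, chartAt_self_eq]

lemma pr_chart {e : OpenPartialHomeomorph T3 E3} (he : e ∈ atlas E3 T3) {q : T3} (hq : q ∈ e.source) :
    pr (e q) = q := by
  rw [← atlas_symm he]
  exact e.left_inv hq

/-- charts composed with the projection are locally translations. -/
lemma chart_pr {e : OpenPartialHomeomorph T3 E3} (he : e ∈ atlas E3 T3) {u : E3} (hu : pr u ∈ e.source) :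
    ∃ l ∈ Lam, ∀ᶠ x in 𝓝 u, pr x ∈ e.source ∧ e (pr x) = x + l := by
  refine ⟨e (pr u) - u, ?_, ?_⟩
  · have := pr_chart he hu
    rw [← pr_eq, this]
  · have h1 : ∀ᶠ x in 𝓝 u, pr x ∈ e.source := pr_cont.continuousAt.preimage_mem_nhds (e.open_source.mem_nhds hu)
    have hc : ContinuousAt (fun x => e (pr x) - x - (e (pr u) - u)) u := by
      have : ContinuousAt (fun x => e (pr x)) u :=
        (e.continuousAt hu).comp pr_cont.continuousAt
      exact (this.sub continuousAt_id).sub continuousAt_const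
    have h2 : ∀ᶠ x in 𝓝 u, ‖e (pr x) - x - (e (pr u) - u)‖ < 1 := by
      have := hc.norm.tendsto
      simp only [sub_self, norm_zero] at this
      exact this.eventually (gt_mem_nhds one_pos)
    filter_upwards [h1, h2] with x hx1 hx2
    refine ⟨hx1, ?_⟩
    have h3 : e (pr x) - x - (e (pr u) - u) ∈ Lam := by
      apply Lam.sub_mem
      · rw [← pr_eq, pr_chart he hx1]
      · rw [← pr_eq, pr_chart he hu]
    have h4 := Lam_eq_zero h3 hx2
    have h5 : e (pr x) - x = e (pr u) - u := sub_eq_zero.mp h4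
    rw [← h5]
    abel

instance T3_manifold : IsManifold (𝓡 3) ∞ T3 := by
  apply isManifold_of_contDiffOn
  intro e e' he he'
  intro x hx
  have hx' : x ∈ (e.symm ≫ₕ e').source := by simpa using hx
  have hpr : (e.symm : E3 → T3) = pr := atlas_symm he
  have hx2 : pr x ∈ e'.source := by
    have := hx'
    simp only [OpenPartialHomeomorph.trans_source, OpenPartialHomeomorph.symm_source, mem_inter_iff, mem_preimage] at this
    rw [hpr] at this
    exact this.2
  obtain ⟨l, -, hl⟩ := chart_pr he' hx2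
  have key : (↑(𝓡 3) ∘ ↑(e.symm ≫ₕ e') ∘ ↑(𝓡 3).symm) =ᶠ[𝓝 x] fun y => y + l := by
    filter_upwards [hl] with y hy
    simp only [Function.comp_apply, OpenPartialHomeomorph.coe_trans, hpr]
    exact hy.2
  have : ContDiffAt ℝ ∞ (↑(𝓡 3) ∘ ↑(e.symm ≫ₕ e') ∘ ↑(𝓡 3).symm) x := by
    refine ContDiffAt.congr_of_eventuallyEq ?_ key
    fun_prop
  exact this.contDiffWithinAt

lemma hasMFDerivAt_pr (u : E3) :
    HasMFDerivAt (𝓡 3) (𝓡 3) pr u (ContinuousLinearMap.id ℝ E3) := by
  refine ⟨pr_cont.continuousAt, ?_⟩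
  obtain ⟨l, -, hl⟩ := chart_pr (chart_mem_atlas E3 (pr u)) (mem_chart_source E3 (pr u))
  have key : writtenInExtChartAt (𝓡 3) (𝓡 3) u pr =ᶠ[𝓝 u] fun y => y + l := by
    filter_upwards [hl] with y hy
    simp only [writtenInExtChartAt, extChartAt, mfld_simps]
    exact hy.2
  have h1 : HasFDerivAt (fun y : E3 => y + l) (ContinuousLinearMap.id ℝ E3) u :=
    (hasFDerivAt_id u).add_const l
  have h2 := h1.congr_of_eventuallyEq key
  exact h2.hasFDerivWithinAt

lemma mfderiv_pr (u : E3) : mfderiv (𝓡 3) (𝓡 3) pr u = ContinuousLinearMap.id ℝ E3 :=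
  (hasMFDerivAt_pr u).mfderiv

lemma contMDiff_pr : ContMDiff (𝓡 3) (𝓡 3) ∞ pr := by
  intro u
  rw [contMDiffAt_iff]
  refine ⟨pr_cont.continuousAt, ?_⟩
  obtain ⟨l, -, hl⟩ := chart_pr (chart_mem_atlas E3 (pr u)) (mem_chart_source E3 (pr u))
  have key : writtenInExtChartAt (𝓡 3) (𝓡 3) u pr =ᶠ[𝓝 u] fun y => y + l := by
    filter_upwards [hl] with y hy
    simp only [writtenInExtChartAt, extChartAt, mfld_simps]
    exact hy.2
  have h2 : ContDiffAt ℝ ∞ (writtenInExtChartAt (𝓡 3) (𝓡 3) u pr) u := by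
    refine ContDiffAt.congr_of_eventuallyEq ?_ key
    fun_prop
  exact h2.contDiffWithinAt

lemma hasMFDerivAt_chart {e : OpenPartialHomeomorph T3 E3} (he : e ∈ atlas E3 T3) {q : T3} (hq : q ∈ e.source) :
    HasMFDerivAt (𝓡 3) (𝓡 3) e q (ContinuousLinearMap.id ℝ E3) := by
  refine ⟨e.continuousAt hq, ?_⟩
  set u := chartAt E3 q q with hu
  have hpu : pr u = q := pr_chart (chart_mem_atlas E3 q) (mem_chart_source E3 q)
  obtain ⟨l, -, hl⟩ := chart_pr he (u := u) (by rw [hpu]; exact hq)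
  have key : writtenInExtChartAt (𝓡 3) (𝓡 3) q e =ᶠ[𝓝 u] fun y => y + l := by
    filter_upwards [hl] with y hy
    simp only [writtenInExtChartAt, extChartAt, mfld_simps, atlas_symm (chart_mem_atlas E3 q)]
    exact hy.2
  have h1 : HasFDerivAt (fun y : E3 => y + l) (ContinuousLinearMap.id ℝ E3) u :=
    (hasFDerivAt_id u).add_const l
  have h2 := h1.congr_of_eventuallyEq key
  have h3 : extChartAt (𝓡 3) q q = u := by simp [extChartAt, hu]
  rw [h3]
  exact h2.hasFDerivWithinAt

end Pool.Agent.H73
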