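import Pool.Agent.H73.TorusA
import Pool.Agent.H73.SemiRiem

open scoped Manifold ContDiff Topology
open Set MeasureTheory

noncomputable section

namespace Pool.Agent.H73

/-- coordinate covector -/
def co (i : Fin 3) : E3 →L[ℝ] ℝ := EuclideanSpace.proj i

@[simp] lemma co_apply (i : Fin 3) (v : E3) : co i v = v i := rfl

def al (s : ℝ) : E3 →L[ℝ] ℝ := Real.cos s • co 0 + Real.sin s • co 1
def be (s : ℝ) : E3 →L[ℝ] ℝ := Real.cos s • co 1 - Real.sin s • co 0

lemma al_apply (s : ℝ) (v : E3) : al s v = Real.cos s * v 0 + Real.sin s * v 1 := by simp [al]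
lemma be_apply (s : ℝ) (v : E3) : be s v = Real.cos s * v 1 - Real.sin s * v 0 := by simp [be]

/-- the bilinear form `2 α dθ + β²`. -/
def Gt (s : ℝ) : E3 →L[ℝ] E3 →L[ℝ] ℝ :=
  (al s).smulRight (co 2) + (co 2).smulRight (al s) + (be s).smulRight (be s)

lemma Gt_apply (s : ℝ) (a b : E3) : Gt s a b = al s a * b 2 + a 2 * al s b + be s a * be s b := by
  simp [Gt]

lemma Gt_add_Lam {l : E3} (hl : l ∈ Lam) (u : E3) : Gt ((u + l) 2) = Gt (u 2) := by
  obtain ⟨k, hk⟩ := hl 2
  have h1 : (u + l) 2 = u 2 + k * (2 * Real.pi) := by simp [hk]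
  have hc : Real.cos ((u + l) 2) = Real.cos (u 2) := by rw [h1, Real.cos_add_int_mul_two_pi]
  have hs : Real.sin ((u + l) 2) = Real.sin (u 2) := by rw [h1, Real.sin_add_int_mul_two_pi]
  unfold Gt al be
  rw [hc, hs]

/-- The angle functions on the torus -/
def ang (q : T3) : ℝ := (chartAt E3 q q) 2

lemma Lam_of_chart {e : OpenPartialHomeomorph T3 E3} (he : e ∈ atlas E3 T3) {q : T3} (hq : q ∈ e.source) :
    e q - chartAt E3 q q ∈ Lam := by
  rw [← pr_eq, pr_chart he hq, pr_chart (chart_mem_atlas E3 q) (mem_chart_source E3 q)]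

lemma Gt_chart {e : OpenPartialHomeomorph T3 E3} (he : e ∈ atlas E3 T3) {q : T3} (hq : q ∈ e.source) :
    Gt ((e q) 2) = Gt (ang q) := by
  have := Gt_add_Lam (Lam_of_chart he hq) (chartAt E3 q q)
  rw [← ang, add_sub_cancel] at this
  exact this

lemma Gt_pr (u : E3) : Gt (ang (pr u)) = Gt (u 2) := by
  have h : u - chartAt E3 (pr u) (pr u) ∈ Lam := by
    rw [← pr_eq, pr_chart (chart_mem_atlas E3 _) (mem_chart_source E3 _)]
  have := Gt_add_Lam h (chartAt E3 (pr u) (pr u))
  rw [← ang, add_sub_cancel] at this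
  exact this.symm

/-- the bilinear form as a function -/
def Gf (s : ℝ) (v w : E3) : ℝ := Gt s v w

/-- the metric tensor on the torus -/
def formT (q : T3) : TangentSpace (𝓡 3) q → TangentSpace (𝓡 3) q → ℝ := Gf (ang q)

lemma coordForm_formT {e : OpenPartialHomeomorph T3 E3} (he : e ∈ atlas E3 T3) (a b u : E3) :
    coordForm formT e a b u = Gt (u 2) a b := by
  unfold coordForm
  have key : ∀ f : E3 → T3, f = pr →
      formT (f u) (mfderiv (𝓡 3) (𝓡 3) f u a) (mfderiv (𝓡 3) (𝓡 3) f u b) = Gt (u 2) a b := by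
    rintro f rfl
    rw [mfderiv_pr]
    change Gt (ang (pr u)) a b = _
    rw [Gt_pr]
  exact key _ (atlas_symm he)

lemma coordForm_formT' {e : OpenPartialHomeomorph T3 E3} (he : e ∈ atlas E3 T3) :
    coordForm formT e = fun a b u => Gt (u 2) a b := by
  funext a b u
  exact coordForm_formT he a b u

lemma Gt_contDiff (a b : E3) : ContDiff ℝ ∞ (fun u : E3 => Gt (u 2) a b) := by
  simp only [Gt_apply, al_apply, be_apply]
  have h2 : ContDiff ℝ ∞ (fun u : E3 => u 2) := (co 2).contDiff
  have hc : ContDiff ℝ ∞ (fun u : E3 => Real.cos (u 2)) := Real.contDiff_cos.comp h2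
  have hs : ContDiff ℝ ∞ (fun u : E3 => Real.sin (u 2)) := Real.contDiff_sin.comp h2
  fun_prop

/-- derivative of `Gt` in the angle -/
def dG (s : ℝ) (b c : E3) : ℝ := be s b * c 2 + b 2 * be s c - al s b * be s c - be s b * al s c

lemma hasDerivAt_al (s : ℝ) (b : E3) : HasDerivAt (fun x => al x b) (be s b) s := by
  simp only [al_apply, be_apply]
  have h1 := (Real.hasDerivAt_cos s).mul_const (b 0)
  have h2 := (Real.hasDerivAt_sin s).mul_const (b 1)
  convert! h1.add h2 using 1
  ring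

lemma hasDerivAt_be (s : ℝ) (b : E3) : HasDerivAt (fun x => be x b) (-al s b) s := by
  simp only [al_apply, be_apply]
  have h1 := (Real.hasDerivAt_cos s).mul_const (b 1)
  have h2 := (Real.hasDerivAt_sin s).mul_const (b 0)
  convert! h1.sub h2 using 1
  ring

lemma hasDerivAt_Gt (s : ℝ) (b c : E3) : HasDerivAt (fun x => Gt x b c) (dG s b c) s := by
  simp only [Gt_apply]
  have h1 := (hasDerivAt_al s b).mul_const (c 2)
  have h2 := (hasDerivAt_al s c).const_mul (b 2)
  have h3 := (hasDerivAt_be s b).mul (hasDerivAt_be s c)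
  convert! (h1.add h2).add h3 using 1
  unfold dG
  ring

lemma fderiv_Gt (u a b c : E3) : fderiv ℝ (fun x : E3 => Gt (x 2) b c) u a = a 2 * dG (u 2) b c := by
  have h1 : HasFDerivAt (fun x : E3 => x 2) (co 2) u := (co 2).hasFDerivAt
  have h2 := (hasDerivAt_Gt (u 2) b c).comp_hasFDerivAt u h1
  have h3 : fderiv ℝ (fun x : E3 => Gt (x 2) b c) u = dG (u 2) b c • co 2 := h2.fderiv
  rw [h3]
  simp
  ring

lemma christoffel_Gt (u v c : E3) :
    christoffel (fun a b x : E3 => Gt (x 2) a b) u v v c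
      = v 2 * dG (u 2) v c - c 2 * dG (u 2) v v / 2 := by
  unfold christoffel
  rw [fderiv_Gt, fderiv_Gt]
  ring

/-- the geodesic equation for the torus metric, in components. -/
def GeoEq (s : ℝ) (v v' : E3) : Prop :=
  v' 2 = be s v * v 2 ∧ be s v' = al s v * v 2 - (v 2)^2 ∧ al s v' = - (al s v * be s v)

lemma geoEq_iff (u v v' : E3) :
    (∀ c, Gt (u 2) v' c + christoffel (fun a b x : E3 => Gt (x 2) a b) u v v c = 0) ↔
      GeoEq (u 2) v v' := by
  simp only [christoffel_Gt]
  simp only [Gt_apply, dG]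
  set s := u 2
  constructor
  · intro h
    have h0 := h (WithLp.toLp 2 ![Real.cos s, Real.sin s, 0])
    have h1 := h (WithLp.toLp 2 ![-Real.sin s, Real.cos s, 0])
    have h2 := h (WithLp.toLp 2 ![0, 0, 1])
    have hcs := Real.cos_sq_add_sin_sq s
    refine ⟨?_, ?_, ?_⟩
    · have e1 : al s (WithLp.toLp 2 ![Real.cos s, Real.sin s, 0]) = 1 := by
        rw [al_apply]; simp; nlinarith
      have e2 : be s (WithLp.toLp 2 ![Real.cos s, Real.sin s, 0]) = 0 := by
        rw [be_apply]; simp; ring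
      rw [e1, e2] at h0
      simp at h0
      linarith
    · have e1 : al s (WithLp.toLp 2 ![-Real.sin s, Real.cos s, 0]) = 0 := by
        rw [al_apply]; simp; ring
      have e2 : be s (WithLp.toLp 2 ![-Real.sin s, Real.cos s, 0]) = 1 := by
        rw [be_apply]; simp; nlinarith
      rw [e1, e2] at h1
      simp at h1
      linarith
    · have e1 : al s (WithLp.toLp 2 ![0, 0, 1]) = 0 := by
        rw [al_apply]; simp
      have e2 : be s (WithLp.toLp 2 ![0, 0, 1]) = 0 := by
        rw [be_apply]; simp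
      rw [e1, e2] at h2
      simp at h2
      linarith
  · rintro ⟨h1, h2, h3⟩ c
    rw [h1, h2, h3]
    ring

lemma cos_ang_pr (u : E3) : Real.cos (ang (pr u)) = Real.cos (u 2) := by
  have h : u - chartAt E3 (pr u) (pr u) ∈ Lam := by
    rw [← pr_eq, pr_chart (chart_mem_atlas E3 _) (mem_chart_source E3 _)]
  obtain ⟨k, hk⟩ := h 2
  have : u 2 = ang (pr u) + k * (2 * Real.pi) := by
    rw [← hk, ang]; simp
  rw [this, Real.cos_add_int_mul_two_pi]

lemma sin_ang_pr (u : E3) : Real.sin (ang (pr u)) = Real.sin (u 2) := by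
  have h : u - chartAt E3 (pr u) (pr u) ∈ Lam := by
    rw [← pr_eq, pr_chart (chart_mem_atlas E3 _) (mem_chart_source E3 _)]
  obtain ⟨k, hk⟩ := h 2
  have : u 2 = ang (pr u) + k * (2 * Real.pi) := by
    rw [← hk, ang]; simp
  rw [this, Real.sin_add_int_mul_two_pi]

lemma Gt_nondeg (s : ℝ) (v : E3) (h : ∀ w, Gt s v w = 0) : v = 0 := by
  simp only [Gt_apply] at h
  have h0 := h (WithLp.toLp 2 ![Real.cos s, Real.sin s, 0])
  have h1 := h (WithLp.toLp 2 ![-Real.sin s, Real.cos s, 0])
  have h2 := h (WithLp.toLp 2 ![0, 0, 1])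
  have hcs := Real.cos_sq_add_sin_sq s
  have k2 : v 2 = 0 := by
    have e1 : al s (WithLp.toLp 2 ![Real.cos s, Real.sin s, 0]) = 1 := by
      rw [al_apply]; simp; nlinarith
    have e2 : be s (WithLp.toLp 2 ![Real.cos s, Real.sin s, 0]) = 0 := by
      rw [be_apply]; simp; ring
    rw [e1, e2] at h0
    simpa using h0
  have kb : be s v = 0 := by
    have e1 : al s (WithLp.toLp 2 ![-Real.sin s, Real.cos s, 0]) = 0 := by
      rw [al_apply]; simp; ring
    have e2 : be s (WithLp.toLp 2 ![-Real.sin s, Real.cos s, 0]) = 1 := by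
      rw [be_apply]; simp; nlinarith
    rw [e1, e2] at h1
    simpa using h1
  have ka : al s v = 0 := by
    have e1 : al s (WithLp.toLp 2 ![0, 0, 1]) = 0 := by
      rw [al_apply]; simp
    have e2 : be s (WithLp.toLp 2 ![0, 0, 1]) = 0 := by
      rw [be_apply]; simp
    rw [e1, e2] at h2
    simpa using h2
  rw [al_apply] at ka
  rw [be_apply] at kb
  have v0 : v 0 = 0 := by
    have : v 0 = Real.cos s * (Real.cos s * v 0 + Real.sin s * v 1) - Real.sin s * (Real.cos s * v 1 - Real.sin s * v 0) := by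
      linear_combination (- v 0) * hcs
    rw [this, ka, kb]; simp
  have v1 : v 1 = 0 := by
    have : v 1 = Real.sin s * (Real.cos s * v 0 + Real.sin s * v 1) + Real.cos s * (Real.cos s * v 1 - Real.sin s * v 0) := by
      linear_combination (- v 1) * hcs
    rw [this, ka, kb]; simp
  ext i
  fin_cases i
  · exact v0
  · exact v1
  · exact k2

lemma Gf_add (s : ℝ) (u v w : E3) : Gf s (u + v) w = Gf s u w + Gf s v w := by
  simp [Gf]

lemma Gf_smul (s r : ℝ) (v w : E3) : Gf s (r • v) w = r * Gf s v w := by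
  simp [Gf]

lemma Gt_symm (s : ℝ) (v w : E3) : Gt s v w = Gt s w v := by
  rw [Gt_apply, Gt_apply]; ring

/-- The Lorentzian metric `2 (cos θ dx + sin θ dy) dθ + (cos θ dy - sin θ dx)²` on the torus. -/
def gT : SemiRiemannianMetric E3 T3 where
  form := formT
  add q u v w := Gf_add (ang q) u v w
  smul q r v w := Gf_smul (ang q) r v w
  symm q v w := Gt_symm (ang q) v w
  nondegenerate q v h := Gt_nondeg (ang q) v h
  smooth e he a b := by
    rw [coordForm_formT' he]
    exact (Gt_contDiff a b).contDiffOn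

lemma gT_indef : gT.IsIndefinite := by
  intro q
  set s := ang q with hs
  have hcs := Real.cos_sq_add_sin_sq s
  refine ⟨⟨(WithLp.toLp 2 ![Real.cos s, Real.sin s, 1] : E3), ?_⟩,
    ⟨(WithLp.toLp 2 ![Real.cos s, Real.sin s, -1] : E3), ?_⟩⟩
  · change 0 < Gt s _ _
    rw [Gt_apply, al_apply, be_apply]
    simp
    nlinarith
  · change Gt s _ _ < 0
    rw [Gt_apply, al_apply, be_apply]
    simp
    nlinarith

end Pool.Agent.H73
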