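import Pool.Agent.H73.TorusB
import Pool.Agent.H73.GlobalODE

open scoped Manifold ContDiff Topology
open Set MeasureTheory

noncomputable section

namespace Pool.Agent.H73

/-- velocity vector of a curve in the torus, as a vector of `ℝ³`. -/
def vel (γ : ℝ → T3) (t : ℝ) : E3 := mfderiv 𝓘(ℝ, ℝ) (𝓡 3) γ t (1 : ℝ)

lemma velocity_eq (γ : ℝ → T3) (t : ℝ) : velocity γ t = (⟨γ t, vel γ t⟩ : TangentBundle (𝓡 3) T3) := rfl

lemma hasDerivAt_chart {γ : ℝ → T3} {t : ℝ} (hγ : MDifferentiableAt 𝓘(ℝ, ℝ) (𝓡 3) γ t)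
    {e : OpenPartialHomeomorph T3 E3} (he : e ∈ atlas E3 T3) (ht : γ t ∈ e.source) :
    HasDerivAt (e ∘ γ) (vel γ t) t := by
  have h1 : HasMFDerivAt 𝓘(ℝ, ℝ) (𝓡 3) γ t (mfderiv 𝓘(ℝ, ℝ) (𝓡 3) γ t) := hγ.hasMFDerivAt
  have h2 := hasMFDerivAt_chart he ht
  have h3 := h2.comp t h1
  have h4 : HasFDerivAt (e ∘ γ) ((ContinuousLinearMap.id ℝ E3).comp (mfderiv 𝓘(ℝ, ℝ) (𝓡 3) γ t) : ℝ →L[ℝ] E3) t := by
    exact hasMFDerivAt_iff_hasFDerivAt.mp h3
  have h5 := h4.hasDerivAt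
  exact h5

/-- Pure ODE statement behind unboundedness. -/
lemma ode_unbounded (W B A : ℝ → ℝ) (hW : ∀ t, HasDerivAt W (B t * W t) t)
    (hB : ∀ t, HasDerivAt B (-(W t)^2) t) (hA : ∀ t, HasDerivAt A (B t * (W t - A t)) t)
    (h0 : W 0 ≠ 0) (h1 : A 0 ≠ W 0 / 2) (R : ℝ) (hR : ∀ t, |W t| ≤ R ∧ |A t| ≤ R ∧ |B t| ≤ R) : False := by
  have hconst : ∀ t, (A t - W t / 2) * W t = (A 0 - W 0 / 2) * W 0 := by
    have hd : ∀ t, HasDerivAt (fun t => (A t - W t / 2) * W t) 0 t := by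
      intro t
      have := ((hA t).sub ((hW t).div_const 2)).mul (hW t)
      convert! this using 1
      simp only [Pi.sub_apply]
      ring
    intro t
    exact is_const_of_deriv_eq_zero (fun t => (hd t).differentiableAt) (fun t => (hd t).deriv) t 0
  set κ := (A 0 - W 0 / 2) * W 0 with hκ
  have hκ0 : κ ≠ 0 := mul_ne_zero (sub_ne_zero.mpr h1) h0
  have hR0 : 0 ≤ R := le_trans (abs_nonneg _) (hR 0).1
  have hRpos : 0 < R := by
    rcases hR0.lt_or_eq with h | h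
    · exact h
    · exfalso
      apply h0
      have := (hR 0).1
      rw [← h] at this
      exact abs_nonpos_iff.mp this
  have hWlow : ∀ t, |κ| / (2 * R) ≤ |W t| := by
    intro t
    rw [div_le_iff₀ (by positivity)]
    have h2 := hconst t
    have h3 : |κ| = |A t - W t / 2| * |W t| := by rw [← h2, abs_mul]
    have h4 : |A t - W t / 2| ≤ 2 * R := by
      have ha := abs_le.mp (hR t).2.1
      have hw := abs_le.mp (hR t).1
      rw [abs_le]
      constructor <;> linarith [ha.1, ha.2, hw.1, hw.2]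
    rw [h3, mul_comm]
    exact mul_le_mul_of_nonneg_left h4 (abs_nonneg _)
  set ε := |κ| / (2 * R) with hε
  have hεpos : 0 < ε := by positivity
  have hW2 : ∀ t, ε ^ 2 ≤ (W t) ^ 2 := by
    intro t
    rw [← sq_abs (W t)]
    exact pow_le_pow_left₀ hεpos.le (hWlow t) 2
  -- B t + ε² t is antitone
  have hanti : Antitone (fun t => B t + ε ^ 2 * t) := by
    apply antitone_of_deriv_nonpos
    · intro t
      exact ((hB t).differentiableAt).add (by fun_prop)
    · intro t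
      have : HasDerivAt (fun t => B t + ε ^ 2 * t) (-(W t)^2 + ε ^ 2 * 1) t :=
        (hB t).add ((hasDerivAt_id t).const_mul (ε ^ 2))
      rw [this.deriv]
      linarith [hW2 t]
  have hT : (0 : ℝ) ≤ (2 * R + 1) / ε ^ 2 := by positivity
  have h5 := hanti hT
  simp only at h5
  have h6 : ε ^ 2 * ((2 * R + 1) / ε ^ 2) = 2 * R + 1 := by field_simp
  rw [h6] at h5
  have h7 := (abs_le.mp (hR ((2 * R + 1) / ε ^ 2)).2.2).1
  have h8 := (abs_le.mp (hR 0).2.2).2
  linarith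

/-- ODEs satisfied along a geodesic of the torus metric. -/
lemma geodesic_ode {γ : ℝ → T3} (hγ : gT.IsGeodesic γ) (t : ℝ) :
    HasDerivAt (fun s => vel γ s 2) (be (ang (γ t)) (vel γ t) * vel γ t 2) t ∧
    HasDerivAt (fun s => be (ang (γ s)) (vel γ s)) (-(vel γ t 2)^2) t ∧
    HasDerivAt (fun s => al (ang (γ s)) (vel γ s))
      (be (ang (γ t)) (vel γ t) * (vel γ t 2 - al (ang (γ t)) (vel γ t))) t := by
  obtain ⟨hsm, hgeo⟩ := hγ
  set e := chartAt E3 (γ t) with he_def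
  have he : e ∈ atlas E3 T3 := chart_mem_atlas E3 (γ t)
  have het : γ t ∈ e.source := mem_chart_source E3 (γ t)
  have hsrc : ∀ᶠ s in 𝓝 t, γ s ∈ e.source :=
    hsm.continuous.continuousAt.preimage_mem_nhds (e.open_source.mem_nhds het)
  have hmd : ∀ s, MDifferentiableAt 𝓘(ℝ, ℝ) (𝓡 3) γ s := fun s => hsm.mdifferentiable (by simp) s
  have hd1 : ∀ᶠ s in 𝓝 t, HasDerivAt (e ∘ γ) (vel γ s) s := by
    filter_upwards [hsrc] with s hs
    exact hasDerivAt_chart (hmd s) he hs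
  have hd1' : deriv (e ∘ γ) =ᶠ[𝓝 t] vel γ := by
    filter_upwards [hd1] with s hs
    exact hs.deriv
  have hcd : ContDiffAt ℝ ∞ (e ∘ γ) t := by
    have h1 : ContMDiffAt 𝓘(ℝ, ℝ) (𝓡 3) ∞ (e ∘ γ) t := by
      have h2 : ContMDiffAt (𝓡 3) (𝓡 3) ∞ e (γ t) := contMDiffAt_of_mem_maximalAtlas
        (IsManifold.subset_maximalAtlas he) het
      exact h2.comp t (hsm t)
    exact contMDiffAt_iff_contDiffAt.mp h1
  have hd2 : HasDerivAt (deriv (e ∘ γ)) (deriv (deriv (e ∘ γ)) t) t := by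
    have h1 : ContDiffAt ℝ ∞ (deriv (e ∘ γ)) t :=
      hcd.derivWithin (m := ∞) (le_of_eq rfl)
    exact (h1.differentiableAt (by simp)).hasDerivAt
  set a := deriv (deriv (e ∘ γ)) t with ha
  have hV : HasDerivAt (vel γ) a t := hd2.congr_of_eventuallyEq hd1'.symm
  have hg := hgeo e he t het
  rw [hd1'.eq_of_nhds] at hg
  rw [show coordForm gT.form e = fun a b u => Gt (u 2) a b from coordForm_formT' he] at hg
  have hg2 : GeoEq ((e (γ t)) 2) (vel γ t) a := (geoEq_iff _ _ _).mp hg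
  obtain ⟨g1, g2, g3⟩ := hg2
  -- replace angles
  have hcos : ∀ᶠ s in 𝓝 t, Real.cos (ang (γ s)) = Real.cos ((e (γ s)) 2) ∧ Real.sin (ang (γ s)) = Real.sin ((e (γ s)) 2) := by
    filter_upwards [hsrc] with s hs
    have h1 := cos_ang_pr (e (γ s))
    have h2 := sin_ang_pr (e (γ s))
    rw [pr_chart he hs] at h1 h2
    exact ⟨h1, h2⟩
  have hbe : (fun s => be (ang (γ s)) (vel γ s)) =ᶠ[𝓝 t] fun s => be ((e (γ s)) 2) (vel γ s) := by
    filter_upwards [hcos] with s hs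
    rw [be_apply, be_apply, hs.1, hs.2]
  have hal : (fun s => al (ang (γ s)) (vel γ s)) =ᶠ[𝓝 t] fun s => al ((e (γ s)) 2) (vel γ s) := by
    filter_upwards [hcos] with s hs
    rw [al_apply, al_apply, hs.1, hs.2]
  have hy : HasDerivAt (fun s => (e (γ s)) 2) (vel γ t 2) t :=
    ((co 2).hasFDerivAt.comp_hasDerivAt t (hasDerivAt_chart (hmd t) he het))
  have hVi : ∀ i, HasDerivAt (fun s => vel γ s i) (a i) t := fun i =>
    ((co i).hasFDerivAt.comp_hasDerivAt t hV)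
  have hc := hy.cos
  have hs := hy.sin
  have hbeq := hbe.eq_of_nhds
  have haeq := hal.eq_of_nhds
  simp only at hbeq haeq
  rw [hbeq, haeq]
  refine ⟨?_, ?_, ?_⟩
  · have := hVi 2
    rw [g1] at this
    exact this
  · refine HasDerivAt.congr_of_eventuallyEq ?_ hbe
    have h1 := (hc.mul (hVi 1)).sub (hs.mul (hVi 0))
    simp only [be_apply]
    convert! h1 using 1
    rw [be_apply, al_apply] at g2
    linear_combination (-1 : ℝ) * g2
  · refine HasDerivAt.congr_of_eventuallyEq ?_ hal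
    have h1 := (hc.mul (hVi 0)).add (hs.mul (hVi 1))
    simp only [al_apply]
    convert! h1 using 1
    rw [be_apply, al_apply, al_apply] at g3
    rw [be_apply]
    linear_combination (-1 : ℝ) * g3

end Pool.Agent.H73
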