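import Pool.Agent.H73.TorusC

open scoped Manifold ContDiff Topology NNReal
open Set MeasureTheory

noncomputable section

namespace Pool.Agent.H73

lemma cos_add_Lam {l : E3} (hl : l ∈ Lam) (u : E3) :
    Real.cos ((u + l) 2) = Real.cos (u 2) ∧ Real.sin ((u + l) 2) = Real.sin (u 2) := by
  obtain ⟨k, hk⟩ := hl 2
  have h1 : (u + l) 2 = u 2 + k * (2 * Real.pi) := by simp [hk]
  exact ⟨by rw [h1, Real.cos_add_int_mul_two_pi], by rw [h1, Real.sin_add_int_mul_two_pi]⟩

lemma GeoEq_add_Lam {l : E3} (hl : l ∈ Lam) (u v v' : E3) (h : GeoEq (u 2) v v') :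
    GeoEq ((u + l) 2) v v' := by
  unfold GeoEq at *
  simp only [al_apply, be_apply] at *
  rw [(cos_add_Lam hl u).1, (cos_add_Lam hl u).2]
  exact h

lemma pr_geodesic {u v v' : ℝ → E3} (hu : ContDiff ℝ ∞ u) (h1 : ∀ t, HasDerivAt u (v t) t)
    (h2 : ∀ t, HasDerivAt v (v' t) t) (h3 : ∀ t, GeoEq (u t 2) (v t) (v' t)) :
    gT.IsGeodesic (pr ∘ u) ∧ velocity (pr ∘ u) 0 = (⟨pr (u 0), v 0⟩ : TangentBundle (𝓡 3) T3) := by
  constructor
  · constructor
    · exact contMDiff_pr.comp hu.contMDiff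
    · intro e he t ht c
      obtain ⟨l, hlL, hl⟩ := chart_pr he (u := u t) ht
      have hy : (e ∘ (pr ∘ u)) =ᶠ[𝓝 t] fun s => u s + l := by
        have : ∀ᶠ s in 𝓝 t, pr (u s) ∈ e.source ∧ e (pr (u s)) = u s + l :=
          (h1 t).continuousAt.eventually hl
        filter_upwards [this] with s hs
        exact hs.2
      have hy1 : deriv (e ∘ (pr ∘ u)) =ᶠ[𝓝 t] v := by
        have hev := hy.eventuallyEq_nhds
        filter_upwards [hev] with s hs
        rw [hs.deriv_eq]
        exact ((h1 s).add_const l).deriv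
      have hy2 : deriv (deriv (e ∘ (pr ∘ u))) t = v' t := by
        rw [hy1.deriv_eq]
        exact (h2 t).deriv
      rw [hy2, hy1.eq_of_nhds]
      rw [show coordForm gT.form e = fun a b u => Gt (u 2) a b from coordForm_formT' he]
      have hyt : e ((pr ∘ u) t) = u t + l := hy.eq_of_nhds
      rw [hyt]
      exact (geoEq_iff _ _ _).mpr (GeoEq_add_Lam hlL _ _ _ (h3 t)) c
  · have hm : HasMFDerivAt 𝓘(ℝ, ℝ) (𝓡 3) (pr ∘ u) 0
        ((ContinuousLinearMap.id ℝ E3).comp (ContinuousLinearMap.smulRight (1 : ℝ →L[ℝ] ℝ) (v 0))) := by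
      have h4 : HasMFDerivAt 𝓘(ℝ, ℝ) (𝓡 3) u 0 (ContinuousLinearMap.smulRight (1 : ℝ →L[ℝ] ℝ) (v 0)) :=
        hasMFDerivAt_iff_hasFDerivAt.mpr (h1 0).hasFDerivAt
      exact (hasMFDerivAt_pr (u 0)).comp 0 h4
    have h5 : vel (pr ∘ u) 0 = v 0 := by
      unfold vel
      rw [hm.mfderiv]
      change (1 : ℝ →L[ℝ] ℝ) 1 • v 0 = v 0
      simp
    rw [velocity_eq, h5]
    rfl

lemma F_lip (p q : ℝ) : LipschitzWith (Real.toNNReal (|p| + |q|)) (fun x : ℝ => p * Real.cos x + q * Real.sin x) := by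
  apply lipschitzWith_of_nnnorm_deriv_le
  · fun_prop
  · intro x
    have h : HasDerivAt (fun x : ℝ => p * Real.cos x + q * Real.sin x) (p * (-Real.sin x) + q * Real.cos x) x :=
      ((Real.hasDerivAt_cos x).const_mul p).add ((Real.hasDerivAt_sin x).const_mul q)
    rw [h.deriv, ← NNReal.coe_le_coe, coe_nnnorm, Real.coe_toNNReal _ (by positivity)]
    calc ‖p * (-Real.sin x) + q * Real.cos x‖ ≤ ‖p * (-Real.sin x)‖ + ‖q * Real.cos x‖ := norm_add_le _ _
      _ = |p| * |Real.sin x| + |q| * |Real.cos x| := by simp [norm_mul]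
      _ ≤ |p| * 1 + |q| * 1 := by
        gcongr
        · exact Real.abs_sin_le_one x
        · exact Real.abs_cos_le_one x
      _ = |p| + |q| := by ring

lemma F_bdd (p q x : ℝ) : ‖p * Real.cos x + q * Real.sin x‖ ≤ (Real.toNNReal (|p| + |q|) : ℝ) := by
  rw [Real.coe_toNNReal _ (by positivity)]
  calc ‖p * Real.cos x + q * Real.sin x‖ ≤ ‖p * Real.cos x‖ + ‖q * Real.sin x‖ := norm_add_le _ _
    _ = |p| * |Real.cos x| + |q| * |Real.sin x| := by simp [norm_mul]
    _ ≤ |p| * 1 + |q| * 1 := by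
      gcongr
      · exact Real.abs_cos_le_one x
      · exact Real.abs_sin_le_one x
    _ = |p| + |q| := by ring

lemma exists_antideriv {f : ℝ → ℝ} (hf : Continuous f) (c : ℝ) : ∃ P : ℝ → ℝ, P 0 = c ∧ ∀ t, HasDerivAt P (f t) t := by
  refine ⟨fun t => c + ∫ s in (0:ℝ)..t, f s, by simp, fun t => ?_⟩
  have := (hf.integral_hasStrictDerivAt 0 t).hasDerivAt
  exact this.const_add c

lemma hasDerivAt_mk {f0 f1 f2 : ℝ → ℝ} {a0 a1 a2 t : ℝ} (h0 : HasDerivAt f0 a0 t)
    (h1 : HasDerivAt f1 a1 t) (h2 : HasDerivAt f2 a2 t) :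
    HasDerivAt (fun s => (WithLp.toLp 2 ![f0 s, f1 s, f2 s] : E3)) (WithLp.toLp 2 ![a0, a1, a2]) t := by
  have h : HasDerivAt (fun s => ![f0 s, f1 s, f2 s]) ![a0, a1, a2] t := by
    rw [hasDerivAt_pi]
    intro i
    fin_cases i
    · exact h0
    · exact h1
    · exact h2
  exact ((EuclideanSpace.equiv (Fin 3) ℝ).symm.hasFDerivAt.comp_hasDerivAt t h)

theorem gT_complete : gT.IsComplete := by
  rintro ⟨q, w⟩
  set u0 : E3 := chartAt E3 q q with hu0
  have hpu : pr u0 = q := pr_chart (chart_mem_atlas E3 q) (mem_chart_source E3 q)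
  change E3 at w
  -- constants of motion
  set th0 := u0 2 with hth0
  set p := Real.cos th0 * w 2 - Real.sin th0 * be th0 w with hp
  set r := Real.sin th0 * w 2 + Real.cos th0 * be th0 w with hr
  obtain ⟨th, hth00, hth⟩ := exists_global_ode (fun x : ℝ => p * Real.cos x + r * Real.sin x)
    (Real.toNNReal (|p| + |r|)) (Real.toNNReal (|p| + |r|)) (F_bdd p r) (F_lip p r) th0
  have hthsm : ContDiff ℝ ∞ th := by
    refine contDiff_of_ode (F := fun x : ℝ => p * Real.cos x + r * Real.sin x) ?_ hth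
    exact (contDiff_const.mul Real.contDiff_cos).add (contDiff_const.mul Real.contDiff_sin)
  set W : ℝ → ℝ := fun t => p * Real.cos (th t) + r * Real.sin (th t) with hW
  set B : ℝ → ℝ := fun t => r * Real.cos (th t) - p * Real.sin (th t) with hB
  have hcossm : ContDiff ℝ ∞ (fun t => Real.cos (th t)) := Real.contDiff_cos.comp hthsm
  have hsinsm : ContDiff ℝ ∞ (fun t => Real.sin (th t)) := Real.contDiff_sin.comp hthsm
  have hWsm : ContDiff ℝ ∞ W := (contDiff_const.mul hcossm).add (contDiff_const.mul hsinsm)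
  have hBsm : ContDiff ℝ ∞ B := (contDiff_const.mul hcossm).sub (contDiff_const.mul hsinsm)
  have hW' : ∀ t, HasDerivAt W (B t * W t) t := by
    intro t
    have h := ((hth t).cos.const_mul p).add ((hth t).sin.const_mul r)
    convert! h using 1
    simp only [hW, hB]; ring
  have hB' : ∀ t, HasDerivAt B (-(W t)^2) t := by
    intro t
    have h := ((hth t).cos.const_mul r).sub ((hth t).sin.const_mul p)
    convert! h using 1
    simp only [hW]; ring
  obtain ⟨P, hP0, hP⟩ := exists_antideriv hBsm.continuous 0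
  have hPsm : ContDiff ℝ ∞ P := contDiff_of_hasDerivAt hBsm hP
  set A : ℝ → ℝ := fun t => W t / 2 + (al th0 w - W 0 / 2) * Real.exp (- P t) with hA
  have hAsm : ContDiff ℝ ∞ A :=
    (hWsm.div_const 2).add (contDiff_const.mul (Real.contDiff_exp.comp hPsm.neg))
  have hA' : ∀ t, HasDerivAt A (B t * (W t - A t)) t := by
    intro t
    have h := ((hW' t).div_const 2).add (((hP t).neg.exp).const_mul (al th0 w - W 0 / 2))
    convert! h using 1
    simp only [hA, Pi.neg_apply]; ring
  -- the velocity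
  set v0 : ℝ → ℝ := fun t => Real.cos (th t) * A t - Real.sin (th t) * B t with hv0
  set v1 : ℝ → ℝ := fun t => Real.sin (th t) * A t + Real.cos (th t) * B t with hv1
  have hv0sm : ContDiff ℝ ∞ v0 := (hcossm.mul hAsm).sub (hsinsm.mul hBsm)
  have hv1sm : ContDiff ℝ ∞ v1 := (hsinsm.mul hAsm).add (hcossm.mul hBsm)
  obtain ⟨x, hx0, hx⟩ := exists_antideriv hv0sm.continuous (u0 0)
  obtain ⟨y, hy0, hy⟩ := exists_antideriv hv1sm.continuous (u0 1)
  set u : ℝ → E3 := fun t => WithLp.toLp 2 ![x t, y t, th t] with hu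
  set v : ℝ → E3 := fun t => WithLp.toLp 2 ![v0 t, v1 t, W t] with hv
  set v' : ℝ → E3 := fun t => WithLp.toLp 2 ![
    (-Real.sin (th t) * W t) * A t + Real.cos (th t) * (B t * (W t - A t)) - ((Real.cos (th t) * W t) * B t + Real.sin (th t) * (-(W t)^2)),
    (Real.cos (th t) * W t) * A t + Real.sin (th t) * (B t * (W t - A t)) + ((-Real.sin (th t) * W t) * B t + Real.cos (th t) * (-(W t)^2)),
    B t * W t] with hv'
  have hu1 : ∀ t, HasDerivAt u (v t) t := fun t => hasDerivAt_mk (hx t) (hy t) (hth t)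
  have hvsm : ContDiff ℝ ∞ v := by
    rw [contDiff_euclidean]
    intro i
    fin_cases i
    · exact hv0sm
    · exact hv1sm
    · exact hWsm
  have husm : ContDiff ℝ ∞ u := contDiff_of_hasDerivAt hvsm hu1
  have hv1' : ∀ t, HasDerivAt v (v' t) t := by
    intro t
    refine hasDerivAt_mk ?_ ?_ (hW' t)
    · exact (((hth t).cos).mul (hA' t)).sub (((hth t).sin).mul (hB' t))
    · exact (((hth t).sin).mul (hA' t)).add (((hth t).cos).mul (hB' t))
  have hgeo : ∀ t, GeoEq (u t 2) (v t) (v' t) := by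
    intro t
    have hcs := Real.cos_sq_add_sin_sq (th t)
    have e0 : (u t) 2 = th t := rfl
    have e1 : (v t) 0 = Real.cos (th t) * A t - Real.sin (th t) * B t := rfl
    have e2 : (v t) 1 = Real.sin (th t) * A t + Real.cos (th t) * B t := rfl
    have e3 : (v t) 2 = W t := rfl
    have e4 : (v' t) 0 = (-Real.sin (th t) * W t) * A t + Real.cos (th t) * (B t * (W t - A t)) - ((Real.cos (th t) * W t) * B t + Real.sin (th t) * (-(W t)^2)) := rfl
    have e5 : (v' t) 1 = (Real.cos (th t) * W t) * A t + Real.sin (th t) * (B t * (W t - A t)) + ((-Real.sin (th t) * W t) * B t + Real.cos (th t) * (-(W t)^2)) := rfl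
    have e6 : (v' t) 2 = B t * W t := rfl
    have hal : al (th t) (v t) = A t := by
      rw [al_apply, e1, e2]
      linear_combination (A t) * hcs
    have hbe : be (th t) (v t) = B t := by
      rw [be_apply, e1, e2]
      linear_combination (B t) * hcs
    refine ⟨?_, ?_, ?_⟩
    · rw [e0, hbe, e3, e6]
    · rw [e0, hal, be_apply, e3, e4, e5]
      linear_combination (W t * A t - (W t)^2) * hcs
    · rw [e0, hal, hbe, al_apply, e4, e5]
      linear_combination (B t * (W t - A t) - W t * B t) * hcs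
  obtain ⟨hg, hvel⟩ := pr_geodesic husm hu1 hv1' hgeo
  refine ⟨pr ∘ u, hg, ?_⟩
  rw [hvel]
  have hu00 : u 0 = u0 := by
    ext i
    fin_cases i
    · exact hx0
    · exact hy0
    · exact hth00
  have hcs := Real.cos_sq_add_sin_sq th0
  have hW0 : W 0 = w 2 := by
    simp only [hW, hth00, hp, hr]
    linear_combination (w 2) * hcs
  have hB0 : B 0 = be th0 w := by
    simp only [hB, hth00, hp, hr]
    linear_combination (be th0 w) * hcs
  have hA0 : A 0 = al th0 w := by
    simp only [hA, hP0]; simp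
  have hv00 : v 0 = w := by
    ext i
    fin_cases i
    · change Real.cos (th 0) * A 0 - Real.sin (th 0) * B 0 = w 0
      rw [hth00, hA0, hB0, al_apply, be_apply]
      linear_combination (w 0) * hcs
    · change Real.sin (th 0) * A 0 + Real.cos (th 0) * B 0 = w 1
      rw [hth00, hA0, hB0, al_apply, be_apply]
      linear_combination (w 1) * hcs
    · exact hW0
  rw [hu00, hpu, hv00]

end Pool.Agent.H73
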