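import Pool.Agent.H73.TorusD

open scoped Manifold ContDiff Topology NNReal
open Set MeasureTheory

noncomputable section

namespace Pool.Agent.H73

lemma coordChange_id (i j : atlas E3 T3) {q : T3} (hi : q ∈ i.1.source) (hj : q ∈ j.1.source) (w : E3) :
    (tangentBundleCore (𝓡 3) T3).coordChange i j q w = w := by
  rw [tangentBundleCore_coordChange]
  set u := i.1 q with hu
  have hpu : pr u = q := pr_chart i.2 hi
  obtain ⟨l, -, hl⟩ := chart_pr j.2 (u := u) (by rw [hpu]; exact hj)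
  have key : (j.1.extend (𝓡 3) ∘ (i.1.extend (𝓡 3)).symm) =ᶠ[𝓝 u] fun y => y + l := by
    filter_upwards [hl] with y hy
    simp only [Function.comp_apply, OpenPartialHomeomorph.extend, mfld_simps, atlas_symm i.2]
    exact hy.2
  have h1 : HasFDerivAt (fun y : E3 => y + l) (ContinuousLinearMap.id ℝ E3) u :=
    (hasFDerivAt_id u).add_const l
  have h2 := h1.congr_of_eventuallyEq key
  have h3 : i.1.extend (𝓡 3) q = u := by simp [hu]
  rw [h3]
  have h4 : range (𝓡 3) = univ := by simp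
  rw [h4, fderivWithin_univ, h2.fderiv]
  rfl

lemma chart_apply (p : TangentBundle (𝓡 3) T3) (q : T3) (w : E3) (hq : q ∈ (chartAt E3 p.proj).source) :
    chartAt (ModelProd E3 E3) p (⟨q, w⟩ : TangentBundle (𝓡 3) T3) = (chartAt E3 p.proj q, w) := by
  rw [TangentBundle.chartAt]
  have := coordChange_id (achart E3 q) (achart E3 p.proj) (q := q) (mem_chart_source E3 q) hq w
  exact Prod.ext rfl this

/-- vector part of a tangent vector of the torus -/
def snd3 (p : TangentBundle (𝓡 3) T3) : E3 := p.2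

lemma continuous_snd_T3 : Continuous snd3 := by
  rw [continuous_iff_continuousAt]
  intro p
  have h1 : ContinuousAt (fun x => (chartAt (ModelProd E3 E3) p x).2) p :=
    continuousAt_snd.comp ((chartAt (ModelProd E3 E3) p).continuousAt (mem_chart_source _ p))
  refine h1.congr ?_
  have h2 : (chartAt (ModelProd E3 E3) p).source ∈ 𝓝 p := (chartAt (ModelProd E3 E3) p).open_source.mem_nhds (mem_chart_source _ p)
  filter_upwards [h2] with x hx
  obtain ⟨q, w⟩ := x
  rw [TangentBundle.mem_chart_source_iff] at hx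
  rw [chart_apply p q w hx]
  rfl

/-- the exceptional set in coordinates -/
def exc : Set (E3 × E3) := {z | z.2 2 = 0 ∨ al (z.1 2) z.2 = z.2 2 / 2}

lemma isClosed_exc : IsClosed exc := by
  have h1 : IsClosed {z : E3 × E3 | z.2 2 = 0} := isClosed_eq (by fun_prop) (by fun_prop)
  have h2 : IsClosed {z : E3 × E3 | al (z.1 2) z.2 = z.2 2 / 2} := by
    simp only [al_apply]
    exact isClosed_eq (by fun_prop) (by fun_prop)
  exact h1.union h2

lemma exc_null : (volume : Measure (E3 × E3)) exc = 0 := by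
  rw [Measure.volume_eq_prod, Measure.measure_prod_null isClosed_exc.measurableSet]
  refine Filter.Eventually.of_forall fun u => ?_
  have h : Prod.mk u ⁻¹' exc ⊆ (LinearMap.ker (co 2 : E3 →ₗ[ℝ] ℝ) : Set E3) ∪
      (LinearMap.ker ((al (u 2) - (1/2 : ℝ) • co 2 : E3 →L[ℝ] ℝ) : E3 →ₗ[ℝ] ℝ) : Set E3) := by
    rintro w (hw | hw)
    · left; exact hw
    · right
      simp only [SetLike.mem_coe, LinearMap.mem_ker]
      change al (u 2) w - (1/2 : ℝ) * w 2 = 0
      simp only at hw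
      linarith
  refine measure_mono_null h (measure_union_null ?_ ?_)
  · apply Measure.addHaar_submodule
    intro htop
    have : (WithLp.toLp 2 ![0, 0, 1] : E3) ∈ LinearMap.ker (co 2 : E3 →ₗ[ℝ] ℝ) := by
      rw [htop]; trivial
    rw [LinearMap.mem_ker] at this
    change (1 : ℝ) = 0 at this
    norm_num at this
  · apply Measure.addHaar_submodule
    intro htop
    have : (WithLp.toLp 2 ![0, 0, 1] : E3) ∈ LinearMap.ker ((al (u 2) - (1/2 : ℝ) • co 2 : E3 →L[ℝ] ℝ) : E3 →ₗ[ℝ] ℝ) := by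
      rw [htop]; trivial
    rw [LinearMap.mem_ker] at this
    change al (u 2) (WithLp.toLp 2 ![0, 0, 1] : E3) - (1/2 : ℝ) * 1 = 0 at this
    rw [al_apply] at this
    norm_num at this

instance haarvol : (volume : Measure (E3 × E3)).IsAddHaarMeasure := by
  rw [Measure.volume_eq_prod]; infer_instance

lemma exc_null' (μ : Measure (E3 × E3)) [μ.IsAddHaarMeasure] : μ exc = 0 :=
  Measure.absolutelyContinuous_isAddHaarMeasure μ (volume : Measure (E3 × E3)) exc_null

/-- Every geodesic whose initial velocity is outside the exceptional set is unbounded. -/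
lemma unbounded_of_not_exc {γ : ℝ → T3} (hγ : gT.IsGeodesic γ) (h0 : vel γ 0 2 ≠ 0)
    (h1 : al (ang (γ 0)) (vel γ 0) ≠ vel γ 0 2 / 2) : ¬ HasBoundedOrbit E3 γ := by
  rintro ⟨K, hK, hKγ⟩
  have hKc : IsCompact (snd3 '' K) := hK.image continuous_snd_T3
  obtain ⟨R, hR⟩ := hKc.isBounded.exists_norm_le
  have hV : ∀ t, ‖vel γ t‖ ≤ R := fun t => hR _ ⟨velocity γ t, hKγ t, rfl⟩
  have hVi : ∀ t i, |vel γ t i| ≤ R := fun t i => le_trans (by simpa using PiLp.norm_apply_le (vel γ t) i) (hV t)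
  have hR0 : 0 ≤ R := le_trans (norm_nonneg _) (hV 0)
  have hcb : ∀ x y a b : ℝ, |x| ≤ 1 → |y| ≤ 1 → |a| ≤ R → |b| ≤ R → |x * a| + |y * b| ≤ 2 * R := by
    intro x y a b hx hy ha hb
    rw [abs_mul, abs_mul]
    have h1 : |x| * |a| ≤ 1 * R := mul_le_mul hx ha (abs_nonneg _) (by norm_num)
    have h2 : |y| * |b| ≤ 1 * R := mul_le_mul hy hb (abs_nonneg _) (by norm_num)
    linarith
  refine ode_unbounded (fun s => vel γ s 2) (fun s => be (ang (γ s)) (vel γ s)) (fun s => al (ang (γ s)) (vel γ s))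
    (fun t => (geodesic_ode hγ t).1) (fun t => (geodesic_ode hγ t).2.1) (fun t => (geodesic_ode hγ t).2.2)
    h0 h1 (2 * R) ?_
  intro t
  refine ⟨by linarith [hVi t 2], ?_, ?_⟩
  · rw [al_apply]
    exact le_trans (abs_add_le _ _) (hcb _ _ _ _ (Real.abs_cos_le_one _) (Real.abs_sin_le_one _) (hVi t 0) (hVi t 1))
  · rw [be_apply]
    exact le_trans (abs_sub _ _) (hcb _ _ _ _ (Real.abs_cos_le_one _) (Real.abs_sin_le_one _) (hVi t 1) (hVi t 0))

lemma bounded_null : IsNull {v : TangentBundle (𝓡 3) T3 | ∃ γ : ℝ → T3, gT.IsGeodesic γ ∧ velocity γ 0 = v ∧ HasBoundedOrbit E3 γ} := by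
  intro μ _ p
  refine measure_mono_null ?_ (exc_null' μ)
  rintro _ ⟨⟨q, w⟩, ⟨⟨γ, hγ, hv, hb⟩, hq⟩, rfl⟩
  rw [TangentBundle.mem_chart_source_iff] at hq
  rw [chart_apply p q w hq]
  by_contra hne
  simp only [exc, mem_ofPred_eq, not_or] at hne
  rw [velocity_eq] at hv
  have hq0 : γ 0 = q := congrArg Bundle.TotalSpace.proj hv
  subst hq0
  have hw : vel γ 0 = w := congrArg snd3 hv
  subst hw
  refine unbounded_of_not_exc hγ hne.1 ?_ hb
  intro h
  apply hne.2
  rw [← h, al_apply, al_apply]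
  have hh := pr_chart (chart_mem_atlas E3 p.proj) hq
  have h1 := cos_ang_pr (chartAt E3 p.proj (γ 0))
  have h2 := sin_ang_pr (chartAt E3 p.proj (γ 0))
  rw [hh] at h1 h2
  rw [h1, h2]

lemma not_null_univ : ¬ IsNull (Set.univ : Set (TangentBundle (𝓡 3) T3)) := by
  intro h
  have hp := h (volume : Measure (E3 × E3)) ⟨pr 0, (0 : E3)⟩
  rw [univ_inter] at hp
  set c := chartAt (ModelProd E3 E3) (⟨pr 0, (0 : E3)⟩ : TangentBundle (𝓡 3) T3) with hc
  rw [c.image_source_eq_target] at hp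
  have key : ∀ s : Set (E3 × E3), IsOpen s → s.Nonempty → (volume : Measure (E3 × E3)) s ≠ 0 :=
    fun s ho hne => (ho.measure_pos volume hne).ne'
  exact key c.target c.open_target ⟨c ⟨pr 0, (0 : E3)⟩, c.map_source (mem_chart_source _ _)⟩ hp

lemma unbounded_not_null : ¬ IsNull {v : TangentBundle (𝓡 3) T3 | ∀ γ : ℝ → T3, gT.IsGeodesic γ → velocity γ 0 = v → ¬ HasBoundedOrbit E3 γ} := by
  intro h
  apply not_null_univ
  intro μ _ p
  have h1 := h μ p
  have h2 := bounded_null μ p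
  refine measure_mono_null ?_ (measure_union_null h1 h2)
  rintro _ ⟨v, ⟨-, hv⟩, rfl⟩
  by_cases hc : ∃ γ : ℝ → T3, gT.IsGeodesic γ ∧ velocity γ 0 = v ∧ HasBoundedOrbit E3 γ
  · right; exact ⟨v, ⟨hc, hv⟩, rfl⟩
  · left
    refine ⟨v, ⟨?_, hv⟩, rfl⟩
    intro γ hγ hvγ hb
    exact hc ⟨γ, hγ, hvγ, hb⟩

end Pool.Agent.H73
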